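import Pool.Agent.H18.L.N902.EW.Mt

/-!
# Counting with triangular relations
-/

set_option autoImplicit false

open Set

namespace Pool.Agent.H18.Wd

open Pool.Agent.N902.EW

section

variable {F : Type*} {E : Type*} [Field F] [Field E] [Algebra F E]

/-- a lower bound for the transcendence degree of a generated field -/
theorem trdeg_of_eRk {n : ℕ} {A : Set E} (h : (n : ℕ∞) ≤ (Ma F).eRk A) :
    (n : Cardinal) ≤ Algebra.trdeg F (IntermediateField.adjoin F A) := by
  obtain ⟨I, hI⟩ := (Ma F).exists_isBasis A (subset_univ _)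
  rw [← hI.encard_eq_eRk] at h
  obtain ⟨t, htI, htc⟩ := exists_subset_encard_eq h
  have hfin : t.Finite := by
    rw [← encard_lt_top_iff, htc]
    exact ENat.natCast_lt_top _
  have hind : AlgebraicIndependent F (fun i : t => (i : E)) := hI.indep.subset htI
  have htA : ∀ i : t, (i : E) ∈ IntermediateField.adjoin F A := fun i =>
    IntermediateField.subset_adjoin F A (hI.subset (htI i.2))
  let f : t → IntermediateField.adjoin F A := fun i => ⟨i, htA i⟩
  have hf : AlgebraicIndependent F f := ai_sub (IntermediateField.adjoin F A) f hind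
  have := hfin.fintype
  have h2 := hf.cardinalMk_le_trdeg
  have h3 : ((n : ℕ) : ℕ∞) = ((Fintype.card t : ℕ) : ℕ∞) := by
    rw [← htc, ← ENat.card_eq_coe_fintype_card, Set.encard]
  have h4 : n = Fintype.card t := by exact_mod_cast h3
  rw [h4, ← Cardinal.mk_fintype]
  exact_mod_cast h2

variable {ι : Type*} {s t : ι → E} {Y : Set E}

/-- the rank -/
theorem rk_ge (hs : AlgebraicIndependent F s)
    (hD : ∀ i, ∃ D : Finset ι, i ∈ D ∧ ∀ j ∈ D, s j ∈ clf F (Y ∪ t '' (D : Set ι))) (A : Finset ι) :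
    (A.card : ℕ∞) ≤ (Ma F).eRk (Y ∪ t '' (A : Set ι)) := by
  classical
  choose D hi hD using hD
  set B : Finset ι := A.biUnion D with hB
  have hAB : A ⊆ B := fun i h => Finset.mem_biUnion.2 ⟨i, h, hi i⟩
  have h1 : ∀ i : B, s i ∈ clf F (Y ∪ t '' (B : Set ι)) := by
    rintro ⟨i, h⟩
    obtain ⟨a, ha, hia⟩ := Finset.mem_biUnion.1 h
    refine clf_mono ?_ (hD a i hia)
    refine union_subset_union_right _ (image_mono ?_)
    intro x hx
    exact Finset.mem_biUnion.2 ⟨a, ha, hx⟩
  have h2 := card_le_eRk (hs.comp (Subtype.val : B → ι) Subtype.val_injective) h1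
  rw [Fintype.card_coe] at h2
  have h3 : Y ∪ t '' (B : Set ι) = (Y ∪ t '' (A : Set ι)) ∪ t '' ((B \ A : Finset ι) : Set ι) := by
    rw [union_assoc, ← image_union, ← Finset.coe_union, Finset.union_sdiff_of_subset hAB]
  have h4 : (Ma F).eRk (t '' ((B \ A : Finset ι) : Set ι)) ≤ ((B \ A).card : ℕ∞) := by
    refine (Matroid.eRk_le_encard _ _).trans ((encard_image_le _ _).trans ?_)
    rw [encard_coe_eq_coe_finsetCard]
  have h5 : (B.card : ℕ∞) ≤ (Ma F).eRk (Y ∪ t '' (A : Set ι)) + ((B \ A).card : ℕ∞) := by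
    refine h2.trans ?_
    rw [h3]
    exact ((Ma F).eRk_union_le_eRk_add_eRk _ _).trans (add_le_add le_rfl h4)
  have h6 : B.card = A.card + (B \ A).card := by
    rw [Finset.card_sdiff_of_subset hAB]
    have := Finset.card_le_card hAB
    omega
  rw [h6, Nat.cast_add] at h5
  exact (ENat.add_le_add_iff_right (ENat.natCast_ne_top _)).1 h5

/-- the counting theorem -/
theorem cnt {τ : Type*} [Fintype τ] {y : τ → E} (hs : AlgebraicIndependent F s)
    (hD : ∀ i, ∃ D : Finset ι, i ∈ D ∧ ∀ j ∈ D, s j ∈ clf F (range y ∪ t '' (D : Set ι))) :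
    {n : τ ⊕ ι | Sum.elim (fun j => IsAlgebraic F (y j)) (fun i => IsAlgebraic F (t i)) n}.encard ≤ (Fintype.card τ : ℕ∞) := by
  classical
  refine encard_le_of_fin _ _ fun T hT => ?_
  let a : Finset τ := Finset.univ.filter fun j => Sum.inl j ∈ T
  let b : Finset ι := T.biUnion fun n => Sum.elim (fun _ => ∅) (fun i => {i}) n
  have hb : ∀ i, i ∈ b ↔ Sum.inr i ∈ T := by
    intro i
    simp only [b, Finset.mem_biUnion]
    constructor
    · rintro ⟨n, hn, hi⟩
      rcases n with j | k
      · simp at hi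
      · simp at hi; rw [hi]; exact hn
    · intro hi; exact ⟨_, hi, by simp⟩
  have hT2 : T.card ≤ a.card + b.card := by
    have h1 : T ⊆ a.image Sum.inl ∪ b.image Sum.inr := by
      intro n hn
      rw [Finset.mem_union, Finset.mem_image, Finset.mem_image]
      rcases n with j | i
      · left; exact ⟨j, by simp [a, hn], rfl⟩
      · right; exact ⟨i, (hb i).2 hn, rfl⟩
    refine (Finset.card_le_card h1).trans ((Finset.card_union_le _ _).trans ?_)
    exact Nat.add_le_add Finset.card_image_le Finset.card_image_le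
  have h1 := rk_ge hs hD b
  have h2 : (Ma F).eRk (range y ∪ t '' (b : Set ι)) ≤ (Ma F).eRk (y '' ((aᶜ : Finset τ) : Set τ)) := by
    rw [← Matroid.eRk_closure_eq (Ma F) (y '' ((aᶜ : Finset τ) : Set τ))]
    refine Matroid.eRk_mono _ ?_
    rintro z (⟨j, rfl⟩ | ⟨i, hi, rfl⟩)
    · by_cases hj : j ∈ a
      · have : Sum.inl j ∈ T := by simpa [a] using hj
        exact mem_clf'.1 (clf_of_alg (hT this))
      · exact mem_clf'.1 (subset_clf _ ⟨j, by simpa using hj, rfl⟩)
    · exact mem_clf'.1 (clf_of_alg (hT ((hb i).1 hi)))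
  have h3 : (Ma F).eRk (y '' ((aᶜ : Finset τ) : Set τ)) ≤ ((aᶜ : Finset τ).card : ℕ∞) := by
    refine (Matroid.eRk_le_encard _ _).trans ((encard_image_le _ _).trans ?_)
    rw [encard_coe_eq_coe_finsetCard]
  have h4 : b.card ≤ (aᶜ : Finset τ).card := by exact_mod_cast h1.trans (h2.trans h3)
  rw [Finset.card_compl] at h4
  have h5 : a.card ≤ Fintype.card τ := Finset.card_le_univ a
  omega

end

end Pool.Agent.H18.Wd
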