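import Pool.Agent.H18.Wd.Lin
import Pool.Agent.H18.L.N902.EW.Der

/-!
# The algebra of the iterated integrals and its derivations
-/

set_option autoImplicit false
set_option linter.unusedSectionVars false

open PowerSeries
open scoped Differential

namespace Pool.Agent.H18.Wd

open Pool.Agent.N902.EW Pool.Agent.H18.Bes

variable {K : Type*} [Field K] [CharZero K] {Λ : Type*} {u : Λ → K⟦X⟧}

/-- the span of the functions of the nonempty admissible words -/
def SP (u : Λ → K⟦X⟧) : Submodule K K⟦X⟧ := Submodule.span K {f | ∃ w : List (Option Λ), Adm w ∧ w ≠ [] ∧ f = U u w}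

theorem ig_zero : ig (0 : K⟦X⟧) = 0 := by ext n; rw [coeff_ig]; simp

theorem coeff_zero_SP {f : K⟦X⟧} (hf : f ∈ SP u) : coeff 0 f = 0 := by
  refine Submodule.span_induction (p := fun f _ => coeff 0 f = 0) ?_ ?_ ?_ ?_ hf
  · rintro _ ⟨w, _, hne, rfl⟩; exact coeff_zero_U hne
  · rw [map_zero]
  · intro x y _ _ hx hy; rw [map_add, hx, hy, add_zero]
  · intro c x _ hx; rw [coeff_smul, hx, smul_zero]

theorem ig_mul_mem (a : Option Λ) {f : K⟦X⟧} (hf : f ∈ SP u) : ig (lt u a * f) ∈ SP u := by
  refine Submodule.span_induction (p := fun f _ => ig (lt u a * f) ∈ SP u) ?_ ?_ ?_ ?_ hf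
  · rintro _ ⟨w, hw, hne, rfl⟩
    rw [← U_cons]
    exact Submodule.subset_span ⟨_, adm_cons hw hne, by simp, rfl⟩
  · rw [mul_zero, ig_zero]
    exact Submodule.zero_mem _
  · intro x y _ _ hx hy
    rw [mul_add, ig_add]
    exact Submodule.add_mem _ hx hy
  · intro c x _ hx
    rw [mul_smul_comm, ig_smul]
    exact Submodule.smul_mem _ _ hx

theorem U_mul_U (hu : ∀ x, coeff 0 (u x) = 0) : ∀ (n : ℕ) (w v : List (Option Λ)), w.length + v.length ≤ n → Adm w →
    Adm v → (w ≠ [] ∨ v ≠ []) → U u w * U u v ∈ SP u := by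
  intro n
  induction n with
  | zero =>
    intro w v hn _ _ h
    have h1 : w = [] := List.length_eq_zero_iff.1 (by omega)
    have h2 : v = [] := List.length_eq_zero_iff.1 (by omega)
    rcases h with h | h
    · exact absurd h1 h
    · exact absurd h2 h
  | succ n ih =>
    intro w v hn hw hv h
    rcases w with _ | ⟨a, w⟩
    · rw [U_nil, one_mul]
      exact Submodule.subset_span ⟨v, hv, h.resolve_left (fun h' => h' rfl), rfl⟩
    · rcases v with _ | ⟨b, v⟩
      · rw [U_nil, mul_one]
        exact Submodule.subset_span ⟨_, hw, by simp, rfl⟩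
      · have h0 : coeff 0 (U u (a :: w) * U u (b :: v)) = 0 := coeff_zero_mul (Or.inl (coeff_zero_U (by simp)))
        have h1 : U u (a :: w) * U u (b :: v) =
            ig (lt u a * (U u w * U u (b :: v))) + ig (lt u b * (U u (a :: w) * U u v)) := by
          rw [← ig_th h0, th_mul, th_U_cons hu hw, th_U_cons hu hv, ig_add]
          congr 2
          · ring
          · ring
        rw [h1]
        simp only [List.length_cons] at hn
        refine Submodule.add_mem _ (ig_mul_mem a ?_) (ig_mul_mem b ?_)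
        · exact ih w (b :: v) (by simp only [List.length_cons]; omega) hw.tail hv (Or.inr (by simp))
        · exact ih (a :: w) v (by simp only [List.length_cons]; omega) hw hv.tail (Or.inl (by simp))

/-- the span of the functions of the admissible words -/
def SW (u : Λ → K⟦X⟧) : Submodule K K⟦X⟧ := Submodule.span K {f | ∃ w : List (Option Λ), Adm w ∧ f = U u w}

theorem SP_le : SP u ≤ SW u := Submodule.span_mono (by rintro _ ⟨w, hw, _, rfl⟩; exact ⟨w, hw, rfl⟩)

theorem U_mem {w : List (Option Λ)} (hw : Adm w) : U u w ∈ SW u := Submodule.subset_span ⟨w, hw, rfl⟩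

theorem one_mem_SW : (1 : K⟦X⟧) ∈ SW u := Submodule.subset_span ⟨[], trivial, rfl⟩

theorem U_mul_U_mem (hu : ∀ x, coeff 0 (u x) = 0) {w v : List (Option Λ)} (hw : Adm w) (hv : Adm v) :
    U u w * U u v ∈ SW u := by
  by_cases h : w ≠ [] ∨ v ≠ []
  · exact SP_le (U_mul_U hu _ w v le_rfl hw hv h)
  · push Not at h
    rw [h.1, h.2, U_nil, one_mul]
    exact one_mem_SW

theorem SW_mul (hu : ∀ x, coeff 0 (u x) = 0) {f g : K⟦X⟧} (hf : f ∈ SW u) (hg : g ∈ SW u) : f * g ∈ SW u := by
  refine Submodule.span_induction₂ (p := fun f g _ _ => f * g ∈ SW u) ?_ ?_ ?_ ?_ ?_ ?_ ?_ hf hg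
  · rintro _ _ ⟨w, hw, rfl⟩ ⟨v, hv, rfl⟩
    exact U_mul_U_mem hu hw hv
  · intro y _; rw [zero_mul]; exact Submodule.zero_mem _
  · intro x _; rw [mul_zero]; exact Submodule.zero_mem _
  · intro x y z _ _ _ hx hy; rw [add_mul]; exact Submodule.add_mem _ hx hy
  · intro x y z _ _ _ hx hy; rw [mul_add]; exact Submodule.add_mem _ hx hy
  · intro c x y _ _ h; rw [smul_mul_assoc]; exact Submodule.smul_mem _ _ h
  · intro c x y _ _ h; rw [mul_smul_comm]; exact Submodule.smul_mem _ _ h

/-- the conditions on the forms -/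
structure Frm (C : Subfield (LF K)) (u : Λ → K⟦X⟧) : Prop where
  st : St C
  cst : ∀ c : K, cc c ∈ C
  mem : ∀ x, ps (u x) ∈ C
  z : ∀ x, coeff 0 (u x) = 0
  ind : HC C u

variable {C : Subfield (LF K)}

/-- the algebra of the iterated integrals -/
noncomputable def AW (h : Frm C u) : Subalgebra K K⟦X⟧ :=
  (SW u).toSubalgebra one_mem_SW fun _ _ => SW_mul h.z

theorem mem_AW {h : Frm C u} {f : K⟦X⟧} : f ∈ AW h ↔ f ∈ SW u := Iff.rfl

theorem LI_K (h : Frm C u) : LinearIndependent K (fun w : {w : List (Option Λ) // Adm w} => U u w.1) := by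
  classical
  rw [linearIndependent_iff']
  intro s g hg x hx
  have h1 := linearIndependent_iff'.1 (LI_C h.st h.mem h.z h.ind) s (fun y => ⟨cc (g y), h.cst _⟩) (by
    have h2 := congrArg ps hg
    rw [map_sum, map_zero] at h2
    rw [← h2]
    refine Finset.sum_congr rfl fun y _ => ?_
    rw [ps_smul]; rfl) x hx
  have h2 : cc (g x) = 0 := congrArg Subtype.val h1
  exact (_root_.map_eq_zero cc).1 h2

variable (h : Frm C u)

/-- the elements of the algebra -/
noncomputable def mk (w : List (Option Λ)) (hw : Adm w) : AW h := ⟨U u w, U_mem hw⟩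

theorem exists_sum {f : K⟦X⟧} (hf : f ∈ SW u) : ∃ (s : Finset (List (Option Λ))) (c : List (Option Λ) → K),
    (∀ x ∈ s, Adm x) ∧ f = ∑ x ∈ s, c x • U u x := by
  classical
  have h1 : {f : K⟦X⟧ | ∃ w : List (Option Λ), Adm w ∧ f = U u w} = U u '' {x | Adm x} := by
    ext f
    constructor
    · rintro ⟨w, hw, rfl⟩; exact ⟨w, hw, rfl⟩
    · rintro ⟨x, hx, rfl⟩; exact ⟨x, hx, rfl⟩
  rw [SW, h1, Finsupp.mem_span_image_iff_linearCombination] at hf
  obtain ⟨c, hc, rfl⟩ := hf
  refine ⟨c.support, c, fun x hx => hc hx, ?_⟩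
  rw [Finsupp.linearCombination_apply, Finsupp.sum]

/-- the basis of the algebra -/
noncomputable def bA : Module.Basis {w : List (Option Λ) // Adm w} K (AW h) :=
  Module.Basis.mk (v := fun x => mk h x.1 x.2)
    (by
      refine LinearIndependent.of_comp (AW h).val.toLinearMap ?_
      exact LI_K h)
    (by
      rintro ⟨f, hf⟩ _
      obtain ⟨s, c, hs, rfl⟩ := exists_sum hf
      have h1 : (⟨∑ x ∈ s, c x • U u x, hf⟩ : AW h) = ∑ x ∈ s.attach, c x.1 • mk h x.1 (hs x.1 x.2) := by
        apply Subtype.ext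
        have h2 : ((∑ x ∈ s.attach, c x.1 • mk h x.1 (hs x.1 x.2) : AW h) : K⟦X⟧) =
            ∑ x ∈ s.attach, c x.1 • U u x.1 := by
          rw [← Subalgebra.coe_val, map_sum]; rfl
        rw [h2]
        exact (Finset.sum_attach s (fun x => c x • U u x)).symm
      rw [h1]
      exact Submodule.sum_mem _ fun x _ => Submodule.smul_mem _ _ (Submodule.subset_span ⟨⟨x.1, hs x.1 x.2⟩, rfl⟩))

theorem bA_apply (x : {w : List (Option Λ) // Adm w}) : bA h x = mk h x.1 x.2 := by
  rw [bA, Module.Basis.mk_apply]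

open Classical in
/-- removal of the first letter, if it is `a` -/
noncomputable def rm (a : Option Λ) : (x : {w : List (Option Λ) // Adm w}) → AW h
  | ⟨[], _⟩ => 0
  | ⟨b :: v, hw⟩ => if b = a then mk h v hw.1 else 0

/-- the removal as a linear map -/
noncomputable def dA (a : Option Λ) : AW h →ₗ[K] AW h := (bA h).constr K (rm h a)

variable {h}

theorem dA_nil (a : Option Λ) (hw : Adm ([] : List (Option Λ))) : dA h a (mk h [] hw) = 0 := by
  have h1 := (bA h).constr_basis K (rm h a) ⟨[], hw⟩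
  rw [bA_apply] at h1
  exact h1

theorem dA_cons (a b : Option Λ) (v : List (Option Λ)) (hw : Adm (b :: v)) [Decidable (b = a)] :
    dA h a (mk h (b :: v) hw) = if b = a then mk h v hw.1 else 0 := by
  have h1 := (bA h).constr_basis K (rm h a) ⟨b :: v, hw⟩
  rw [bA_apply] at h1
  rw [dA]
  refine h1.trans ?_
  rw [rm]
  split_ifs <;> rfl

theorem dA_ig (a b : Option Λ) {f : K⟦X⟧} (hf : f ∈ SP u) : ∀ (h1 : ig (lt u b * f) ∈ AW h) (h2 : f ∈ AW h)
    [Decidable (b = a)], dA h a ⟨ig (lt u b * f), h1⟩ = if b = a then ⟨f, h2⟩ else 0 := by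
  have hm1 : ∀ f ∈ SP u, ig (lt u b * f) ∈ AW h := fun f hf => SP_le (ig_mul_mem b hf)
  have hm2 : ∀ f ∈ SP u, f ∈ AW h := fun f hf => SP_le hf
  refine Submodule.span_induction (p := fun f _ => ∀ (h1 : ig (lt u b * f) ∈ AW h) (h2 : f ∈ AW h)
    [Decidable (b = a)], dA h a ⟨ig (lt u b * f), h1⟩ = if b = a then ⟨f, h2⟩ else 0) ?_ ?_ ?_ ?_ hf
  · rintro _ ⟨w, hw, hne, rfl⟩ h1 h2 _
    exact dA_cons a b w (adm_cons hw hne)
  · intro h1 h2 _
    have e1 : (⟨ig (lt u b * 0), h1⟩ : AW h) = 0 := by
      apply Subtype.ext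
      show ig (lt u b * 0) = 0
      rw [mul_zero, ig_zero]
    have e2 : (⟨0, h2⟩ : AW h) = 0 := rfl
    rw [e1, e2, map_zero]
    split_ifs <;> rfl
  · intro x y hx hy ihx ihy h1 h2 _
    have e1 : (⟨ig (lt u b * (x + y)), h1⟩ : AW h) =
        ⟨ig (lt u b * x), hm1 x hx⟩ + ⟨ig (lt u b * y), hm1 y hy⟩ := by
      apply Subtype.ext
      show ig (lt u b * (x + y)) = ig (lt u b * x) + ig (lt u b * y)
      rw [mul_add (lt u b), ig_add]
    have e2 : (⟨x + y, h2⟩ : AW h) = ⟨x, hm2 x hx⟩ + ⟨y, hm2 y hy⟩ := rfl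
    rw [e1, e2, map_add, ihx (hm1 x hx) (hm2 x hx), ihy (hm1 y hy) (hm2 y hy)]
    split_ifs
    · rfl
    · rw [add_zero]
  · intro c x hx ihx h1 h2 _
    have e1 : (⟨ig (lt u b * (c • x)), h1⟩ : AW h) = c • ⟨ig (lt u b * x), hm1 x hx⟩ := by
      apply Subtype.ext
      show ig (lt u b * (c • x)) = c • (ig (lt u b * x))
      rw [mul_smul_comm, ig_smul]
    have e2 : (⟨c • x, h2⟩ : AW h) = c • ⟨x, hm2 x hx⟩ := rfl
    rw [e1, e2, map_smul, ihx (hm1 x hx) (hm2 x hx)]
    split_ifs
    · rfl
    · rw [smul_zero]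

theorem mk_mul_nil (w : List (Option Λ)) (hw : Adm w) (h' : Adm ([] : List (Option Λ))) :
    mk h [] h' * mk h w hw = mk h w hw := by
  apply Subtype.ext
  show U u [] * U u w = U u w
  rw [U_nil, one_mul]

theorem mk_mul_cons (b c : Option Λ) (w v : List (Option Λ)) (hw : Adm (b :: w)) (hv : Adm (c :: v))
    (h1 : ig (lt u b * (U u w * U u (c :: v))) ∈ AW h) (h2 : ig (lt u c * (U u (b :: w) * U u v)) ∈ AW h) :
    mk h (b :: w) hw * mk h (c :: v) hv = ⟨_, h1⟩ + ⟨_, h2⟩ := by
  apply Subtype.ext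
  show U u (b :: w) * U u (c :: v) = ig (lt u b * (U u w * U u (c :: v))) + ig (lt u c * (U u (b :: w) * U u v))
  have h0 : coeff 0 (U u (b :: w) * U u (c :: v)) = 0 := coeff_zero_mul (Or.inl (coeff_zero_U (by simp)))
  rw [← ig_th h0, th_mul, th_U_cons h.z hw, th_U_cons h.z hv, ig_add]
  congr 2
  · ring
  · ring

theorem dA_mul_basis (a : Option Λ) (x y : {w : List (Option Λ) // Adm w}) :
    dA h a (mk h x.1 x.2 * mk h y.1 y.2) =
      mk h x.1 x.2 * dA h a (mk h y.1 y.2) + mk h y.1 y.2 * dA h a (mk h x.1 x.2) := by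
  classical
  obtain ⟨w, hw⟩ := x
  obtain ⟨v, hv⟩ := y
  simp only
  rcases w with _ | ⟨b, w⟩
  · rw [mk_mul_nil, dA_nil, mul_zero, add_zero]
    rcases v with _ | ⟨c, v⟩
    · rw [dA_nil, mul_zero]
    · rw [dA_cons]
      split_ifs
      · rw [mk_mul_nil]
      · rw [mul_zero]
  · rcases v with _ | ⟨c, v⟩
    · rw [mul_comm, mk_mul_nil, dA_nil, mul_zero, zero_add, dA_cons]
      split_ifs
      · rw [mk_mul_nil]
      · rw [mul_zero]
    · have hA : U u w * U u (c :: v) ∈ SP u := U_mul_U h.z _ _ _ le_rfl hw.1 hv (Or.inr (by simp))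
      have hB : U u (b :: w) * U u v ∈ SP u := U_mul_U h.z _ _ _ le_rfl hw hv.1 (Or.inl (by simp))
      have m1 : ig (lt u b * (U u w * U u (c :: v))) ∈ AW h := SP_le (ig_mul_mem b hA)
      have m2 : ig (lt u c * (U u (b :: w) * U u v)) ∈ AW h := SP_le (ig_mul_mem c hB)
      have m3 : (U u w * U u (c :: v)) ∈ AW h := SP_le hA
      have m4 : (U u (b :: w) * U u v) ∈ AW h := SP_le hB
      rw [mk_mul_cons b c w v hw hv m1 m2, map_add, dA_ig a b hA m1 m3, dA_ig a c hB m2 m4,
        dA_cons, dA_cons, add_comm]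
      congr 1
      · split_ifs
        · rfl
        · rw [mul_zero]
      · split_ifs
        · apply Subtype.ext
          show U u w * U u (c :: v) = U u (c :: v) * U u w
          ring
        · rw [mul_zero]

theorem dA_mul (a : Option Λ) (f g : AW h) : dA h a (f * g) = f * dA h a g + g * dA h a f := by
  have h1 : (LinearMap.mul K (AW h)).compr₂ (dA h a) = (LinearMap.mul K (AW h)).compl₂ (dA h a) +
      ((LinearMap.mul K (AW h)).compl₂ (dA h a)).flip := by
    refine LinearMap.ext_basis (bA h) (bA h) fun x y => ?_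
    rw [bA_apply, bA_apply]
    exact dA_mul_basis a x y
  exact congrArg (fun L => L f g) h1

variable (h) in
/-- the removal of the first letter as a derivation -/
noncomputable def DA (a : Option Λ) : Derivation K (AW h) (AW h) := Derivation.mk' (dA h a) fun f g => by
  rw [smul_eq_mul, smul_eq_mul]; exact dA_mul a f g

theorem DA_apply (a : Option Λ) (f : AW h) : DA h a f = dA h a f := rfl

/-- the integration against a form -/
theorem DA_ig (a b : Option Λ) {f : K⟦X⟧} (hf : f ∈ SW u) (hb : b ≠ none ∨ f ∈ SP u) (h1 : ig (lt u b * f) ∈ AW h)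
    (h2 : f ∈ AW h) [Decidable (b = a)] : DA h a ⟨ig (lt u b * f), h1⟩ = if b = a then ⟨f, h2⟩ else 0 := by
  rw [DA_apply]
  rcases hb with hb | hb
  swap
  · exact dA_ig a b hb h1 h2
  -- split off the constant
  have key : ∀ f ∈ SW u, ∀ (h1 : ig (lt u b * f) ∈ AW h) (h2 : f ∈ AW h), 
      dA h a ⟨ig (lt u b * f), h1⟩ = if b = a then ⟨f, h2⟩ else 0 := by
    intro f hf
    have hm1 : ∀ f ∈ SW u, ig (lt u b * f) ∈ AW h := by
      intro f hf
      refine Submodule.span_induction (p := fun f _ => ig (lt u b * f) ∈ SW u) ?_ ?_ ?_ ?_ hf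
      · rintro _ ⟨w, hw, rfl⟩
        rw [← U_cons]
        exact U_mem ⟨hw, fun _ => hb⟩
      · rw [mul_zero, ig_zero]; exact Submodule.zero_mem _
      · intro x y _ _ hx hy; rw [mul_add, ig_add]; exact Submodule.add_mem _ hx hy
      · intro c x _ hx; rw [mul_smul_comm, ig_smul]; exact Submodule.smul_mem _ _ hx
    refine Submodule.span_induction (p := fun f _ => ∀ (h1 : ig (lt u b * f) ∈ AW h) (h2 : f ∈ AW h), 
      dA h a ⟨ig (lt u b * f), h1⟩ = if b = a then ⟨f, h2⟩ else 0) ?_ ?_ ?_ ?_ hf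
    · rintro _ ⟨w, hw, rfl⟩ h1 h2
      exact dA_cons a b w ⟨hw, fun _ => hb⟩
    · intro h1 h2
      have e1 : (⟨ig (lt u b * 0), h1⟩ : AW h) = 0 := by
        apply Subtype.ext
        show ig (lt u b * 0) = 0
        rw [mul_zero, ig_zero]
      have e2 : (⟨0, h2⟩ : AW h) = 0 := rfl
      rw [e1, e2, map_zero]
      split_ifs <;> rfl
    · intro x y hx hy ihx ihy h1 h2
      have e1 : (⟨ig (lt u b * (x + y)), h1⟩ : AW h) =
          ⟨ig (lt u b * x), hm1 x hx⟩ + ⟨ig (lt u b * y), hm1 y hy⟩ := by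
        apply Subtype.ext
        show ig (lt u b * (x + y)) = ig (lt u b * x) + ig (lt u b * y)
        rw [mul_add (lt u b), ig_add]
      have e2 : (⟨x + y, h2⟩ : AW h) = ⟨x, hx⟩ + ⟨y, hy⟩ := rfl
      rw [e1, e2, map_add, ihx (hm1 x hx) hx, ihy (hm1 y hy) hy]
      split_ifs
      · rfl
      · rw [add_zero]
    · intro c x hx ihx h1 h2
      have e1 : (⟨ig (lt u b * (c • x)), h1⟩ : AW h) = c • ⟨ig (lt u b * x), hm1 x hx⟩ := by
        apply Subtype.ext
        show ig (lt u b * (c • x)) = c • (ig (lt u b * x))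
        rw [mul_smul_comm, ig_smul]
      have e2 : (⟨c • x, h2⟩ : AW h) = c • ⟨x, hx⟩ := rfl
      rw [e1, e2, map_smul, ihx (hm1 x hx) hx]
      split_ifs
      · rfl
      · rw [smul_zero]
  exact key f hf h1 h2

theorem ig_mem (b : Option Λ) {f : K⟦X⟧} (hf : f ∈ SW u) (hb : b ≠ none ∨ f ∈ SP u) : ig (lt u b * f) ∈ SP u := by
  rcases hb with hb | hb
  swap
  · exact ig_mul_mem b hb
  refine Submodule.span_induction (p := fun f _ => ig (lt u b * f) ∈ SP u) ?_ ?_ ?_ ?_ hf
  · rintro _ ⟨w, hw, rfl⟩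
    rw [← U_cons]
    exact Submodule.subset_span ⟨b :: w, ⟨hw, fun _ => hb⟩, by simp, rfl⟩
  · rw [mul_zero, ig_zero]; exact Submodule.zero_mem _
  · intro x y _ _ hx hy; rw [mul_add, ig_add]; exact Submodule.add_mem _ hx hy
  · intro c x _ hx; rw [mul_smul_comm, ig_smul]; exact Submodule.smul_mem _ _ hx

/-! ### Extension of the scalars to the differential field -/

/-- linear independence over `K` in the span of functions which are independent over `C` -/
theorem LI_up (h : Frm C u) {σ : Type*} {y : σ → K⟦X⟧} (hy : LinearIndependent K y) (hyW : ∀ s, y s ∈ SW u) :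
    LinearIndependent C (fun s => ps (y s)) := by
  classical
  rw [linearIndependent_iff']
  intro t g hg x hx
  -- the coordinates
  let bs := bA h
  let ys : σ → AW h := fun s => ⟨y s, mem_AW.2 (hyW s)⟩
  have hrep : ∀ s, y s = ∑ w ∈ (bs.repr (ys s)).support, bs.repr (ys s) w • U u w.1 := by
    intro s
    have h1 := bs.linearCombination_repr (ys s)
    rw [Finsupp.linearCombination_apply, Finsupp.sum] at h1
    have h2 := congrArg Subtype.val h1
    refine h2.symm.trans ?_
    rw [← Subalgebra.coe_val, map_sum]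
    refine Finset.sum_congr rfl fun w _ => ?_
    rw [map_smul]
    congr 1
    show ((bs w : AW h) : K⟦X⟧) = _
    rw [bA_apply]; rfl
  set W := t.biUnion fun s => (bs.repr (ys s)).support with hW
  have hrep' : ∀ s ∈ t, y s = ∑ w ∈ W, bs.repr (ys s) w • U u w.1 := by
    intro s hs
    conv_lhs => rw [hrep s]
    refine Finset.sum_subset (Finset.subset_biUnion_of_mem (fun s => (bs.repr (ys s)).support) hs) fun w _ hw => ?_
    rw [Finsupp.notMem_support_iff.1 hw, zero_smul]
  -- the relations for the coordinates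
  have h1 : ∀ w ∈ W, ∑ s ∈ t, (g s : LF K) * cc (bs.repr (ys s) w) = 0 := by
    have h2 := linearIndependent_iff'.1 (LI_C h.st h.mem h.z h.ind) W
      (fun w => ∑ s ∈ t, g s * ⟨cc (bs.repr (ys s) w), h.cst _⟩) (by
        rw [← hg]
        have h3 : ∀ s ∈ t, g s • ps (y s) = ∑ w ∈ W, (g s : LF K) * (cc (bs.repr (ys s) w) * ps (U u w.1)) := by
          intro s hs
          rw [Subfield.smul_def, smul_eq_mul]
          conv_lhs => rw [hrep' s hs]
          rw [map_sum, Finset.mul_sum]
          refine Finset.sum_congr rfl fun w _ => ?_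
          rw [ps_smul]
        rw [Finset.sum_congr rfl h3, Finset.sum_comm]
        refine Finset.sum_congr rfl fun w _ => ?_
        rw [Subfield.smul_def, smul_eq_mul, AddSubmonoidClass.coe_finsetSum, Finset.sum_mul]
        refine Finset.sum_congr rfl fun s _ => ?_
        rw [Subfield.coe_mul]
        ring)
    intro w hw
    have h3 := congrArg Subtype.val (h2 w hw)
    rw [AddSubmonoidClass.coe_finsetSum] at h3
    exact h3
  -- expand the coefficients over the constants
  have hfin : ∃ (m : ℕ) (e : Fin m → LF K) (G : {s // s ∈ t} → Fin m → K),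
      (∀ c : Fin m → K, ∑ j, cc (c j) * e j = 0 → c = 0) ∧ ∀ s, (g s.1 : LF K) = ∑ j, cc (G s j) * e j := by
    let _ : Module K (LF K) := Module.compHom (LF K) (cc (K := K))
    have hsm : ∀ (c : K) (a : LF K), c • a = cc c * a := fun _ _ => rfl
    let V : Submodule K (LF K) := Submodule.span K ((fun s => (g s : LF K)) '' (t : Set σ))
    have hV : Module.Finite K V := Module.Finite.span_of_finite K (t.finite_toSet.image _)
    let b := Module.finBasis K V
    refine ⟨Module.finrank K V, fun j => (b j : LF K), fun s j => b.repr ⟨(g s.1 : LF K), Submodule.subset_span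
      ⟨s.1, s.2, rfl⟩⟩ j, fun c hc => ?_, fun s => ?_⟩
    · have h3 : ∑ j, c j • b j = 0 := by
        apply Subtype.ext
        rw [AddSubmonoidClass.coe_finsetSum]
        exact hc
      funext j
      exact Fintype.linearIndependent_iff.1 b.linearIndependent c h3 j
    · have h3 := b.sum_repr ⟨(g s.1 : LF K), Submodule.subset_span ⟨s.1, s.2, rfl⟩⟩
      have h4 := congrArg Subtype.val h3
      rw [AddSubmonoidClass.coe_finsetSum] at h4
      exact h4.symm
  obtain ⟨m, e, G, he, hG⟩ := hfin
  have h2 : ∀ j, ∑ s ∈ t.attach, G s j • y s.1 = 0 := by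
    intro j
    have h3 : ∀ w ∈ W, ∑ s ∈ t.attach, G s j * bs.repr (ys s.1) w = 0 := by
      intro w hw
      have h4 := h1 w hw
      rw [← Finset.sum_attach] at h4
      have h5 := he (fun j => ∑ s ∈ t.attach, G s j * bs.repr (ys s.1) w) (by
        rw [← h4]
        have h6 : ∀ s ∈ t.attach, (g s.1 : LF K) * cc (bs.repr (ys s.1) w) =
            ∑ j, cc (G s j * bs.repr (ys s.1) w) * e j := by
          intro s _
          rw [hG s, Finset.sum_mul]
          refine Finset.sum_congr rfl fun j _ => ?_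
          rw [map_mul]; ring
        rw [Finset.sum_congr rfl h6, Finset.sum_comm]
        refine Finset.sum_congr rfl fun j _ => ?_
        rw [map_sum, Finset.sum_mul])
      exact congrFun h5 j
    have h4 : ∀ s ∈ t.attach, G s j • y s.1 = ∑ w ∈ W, (G s j * bs.repr (ys s.1) w) • U u w.1 := by
      intro s _
      conv_lhs => rw [hrep' s.1 s.2]
      rw [Finset.smul_sum]
      exact Finset.sum_congr rfl fun w _ => by rw [smul_smul]
    rw [Finset.sum_congr rfl h4, Finset.sum_comm]
    refine Finset.sum_eq_zero fun w hw => ?_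
    rw [← Finset.sum_smul, h3 w hw, zero_smul]
  have h3 : ∀ j, G ⟨x, hx⟩ j = 0 := by
    intro j
    have h4 := linearIndependent_iff'.1 (hy.comp (fun s : {s // s ∈ t} => s.1) Subtype.val_injective) t.attach
      (fun s => G s j) (h2 j) ⟨x, hx⟩ (Finset.mem_attach _ _)
    exact h4
  apply Subtype.ext
  rw [hG ⟨x, hx⟩]
  exact Finset.sum_eq_zero fun j _ => by rw [h3 j, map_zero, zero_mul]

/-- algebraic independence over `K` in the algebra gives algebraic independence over the differential field -/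
theorem AI_up (h : Frm C u) {σ : Type*} {y : σ → AW h} (hy : AlgebraicIndependent K y) :
    AlgebraicIndependent C (fun s => ps (y s : K⟦X⟧)) := by
  classical
  have h1 : LinearIndependent K (fun e : σ →₀ ℕ => ((MvPolynomial.aeval y (MvPolynomial.monomial e (1 : K)) : AW h) : K⟦X⟧)) := by
    have h2 : LinearIndependent K (fun e : σ →₀ ℕ => MvPolynomial.monomial e (1 : K)) := by
      have := (MvPolynomial.basisMonomials σ K).linearIndependent
      rwa [MvPolynomial.coe_basisMonomials] at this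
    have h3 := h2.map' (MvPolynomial.aeval y : MvPolynomial σ K →ₐ[K] AW h).toLinearMap
      (LinearMap.ker_eq_bot.2 hy)
    exact h3.map' (AW h).val.toLinearMap (LinearMap.ker_eq_bot.2 Subtype.val_injective)
  have h2 := LI_up h h1 (fun e => (MvPolynomial.aeval y (MvPolynomial.monomial e (1 : K)) : AW h).2)
  rw [algebraicIndependent_iff]
  intro p hp
  have h3 : ∀ e : σ →₀ ℕ, ps ((MvPolynomial.aeval y (MvPolynomial.monomial e (1 : K)) : AW h) : K⟦X⟧) =
      e.prod fun s n => ps (y s : K⟦X⟧) ^ n := by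
    intro e
    rw [MvPolynomial.aeval_monomial, map_one, one_mul, Finsupp.prod, Finsupp.prod, ← Subalgebra.coe_val, map_prod,
      map_prod]
    exact Finset.prod_congr rfl fun s _ => by rw [map_pow, map_pow]
  have h4 := linearIndependent_iff'.1 h2 p.support (fun e => MvPolynomial.coeff e p) (by
    rw [← hp, MvPolynomial.aeval_def, MvPolynomial.eval₂_eq]
    refine Finset.sum_congr rfl fun e _ => ?_
    rw [h3, Algebra.smul_def]
    rfl)
  refine MvPolynomial.ext _ _ fun e => ?_
  rw [MvPolynomial.coeff_zero]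
  by_cases he : e ∈ p.support
  · exact h4 e he
  · exact MvPolynomial.notMem_support_iff.1 he

/-! ### The criterion with degrees -/

/-- derivations which are triangular with respect to a degree -/
theorem ai_of_der_deg {A σ : Type*} [CommRing A] [IsDomain A] [CharZero A] [Algebra K A] (d : σ → ℕ) (y : σ → A)
    (D : σ → Derivation K A A) (hy : ∀ i, D i (y i) ≠ 0) (hy' : ∀ i j, i ≠ j → d j ≤ d i → D i (y j) = 0) :
    AlgebraicIndependent K y := by
  classical
  refine algebraicIndependent_of_finite_type fun t ht => ?_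
  have key : ∀ s : Finset σ, AlgebraicIndepOn K y s := by
    intro s
    induction s using Finset.induction_on_max_value d with
    | empty =>
      have : AlgebraicIndepOn K y (∅ : Set σ) := algebraicIndependent_empty_type_iff.2 (algebraMap K A).injective
      simpa using this
    | insert a s ha hmax ih =>
      rw [Finset.coe_insert]
      refine ih.insert ?_
      have h1 : AlgebraicIndependent (Algebra.adjoin K (y '' (s : Set σ))) (fun _ : Unit => y a) := by
        refine ai_of_der (k := K) Subtype.val_injective _ (fun _ => D a) (fun _ b => ?_) (fun _ => D a (y a)) (fun _ => hy a)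
          (fun _ => rfl) (fun i j hij => absurd (Subsingleton.elim i j) hij)
        refine Algebra.adjoin_induction (p := fun b _ => D a b = 0) ?_ ?_ ?_ ?_ b.2
        · rintro _ ⟨j, hj, rfl⟩
          exact hy' a j (fun e => ha (e ▸ hj)) (hmax j hj)
        · intro r; exact Derivation.map_algebraMap _ r
        · intro x z _ _ hx hz; rw [map_add, hx, hz, add_zero]
        · intro x z _ _ hx hz; rw [Derivation.leibniz, hx, hz, smul_zero, smul_zero, add_zero]
      exact (algebraicIndependent_unique_type_iff (ι := Unit)).1 h1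
  have := key ht.toFinset
  rwa [ht.coe_toFinset] at this

end Pool.Agent.H18.Wd
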