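import Pool.Agent.H18.Bes.Alg

/-!
# Independence over the algebra of exponentials and iterated integrals gives independence over the polynomials
-/

set_option autoImplicit false
set_option linter.unusedSectionVars false

open PowerSeries
open scoped Differential

namespace Pool.Agent.H18.Wd

open Pool.Agent.N902.EW Pool.Agent.H18.Bes

variable {K : Type*} [Field K] [CharZero K] {σ : Type*} {b : σ → K⟦X⟧}

theorem ai_adj (hb : AlgebraicIndependent (LV K) (fun s => ps (b s))) :
    AlgebraicIndependent (Algebra.adjoin (AA K) (Set.range fun _ : Unit => (X : K⟦X⟧))) b := by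
  have hmem : ∀ a : Algebra.adjoin (AA K) (Set.range fun _ : Unit => (X : K⟦X⟧)), ps (a : K⟦X⟧) ∈ LV K := by
    intro a
    refine Algebra.adjoin_induction (p := fun a _ => ps (a : K⟦X⟧) ∈ LV K) ?_ ?_ ?_ ?_ a.2
    · rintro _ ⟨_, rfl⟩
      exact xx_mem_LV
    · intro r; exact SA_mem_LV r.2
    · intro b c _ _ hb hc; rw [map_add]; exact (LV K).add_mem hb hc
    · intro b c _ _ hb hc; rw [map_mul]; exact (LV K).mul_mem hb hc
  have h1 : AlgebraicIndependent (LV K) ((ps (K := K)) ∘ b) := hb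
  refine h1.of_ringHom_of_comp_eq (((ps (K := K)).comp
    (algebraMap (Algebra.adjoin (AA K) (Set.range fun _ : Unit => (X : K⟦X⟧))) K⟦X⟧)).codRestrict (LV K) hmem) ps ?_ ?_
  · intro a b hab
    exact Subtype.ext (ps_injective (congrArg Subtype.val hab))
  · rfl

/-- the algebra over the iterated integrals generated by the functions -/
noncomputable def D1 (b : σ → K⟦X⟧) : Subalgebra (AA K) K⟦X⟧ := Algebra.adjoin (AA K) (Set.range b)

theorem tr_D1 (hb : AlgebraicIndependent (LV K) (fun s => ps (b s))) : Transcendental (D1 b) (X : K⟦X⟧) := by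
  have h0 : AlgebraicIndependent (AA K) (Sum.elim b (fun _ : Unit => (X : K⟦X⟧))) := tr_X.sumElim (ai_adj hb)
  have h1 : AlgebraicIndependent (AA K) (Sum.elim (fun _ : Unit => (X : K⟦X⟧)) b) := by
    refine (algebraicIndependent_equiv' (Equiv.sumComm _ _) ?_).2 h0
    ext (x | x) <;> rfl
  have h2 := (AlgebraicIndependent.sumElim_iff.1 h1).2
  exact (algebraicIndependent_unique_type_iff (ι := Unit)).1 h2

theorem direct_D1 (hb : AlgebraicIndependent (LV K) (fun s => ps (b s))) (m : ℕ) (g : ℕ → K⟦X⟧)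
    (hg : ∀ n, g n ∈ D1 b) (h : ∑ n ∈ Finset.range m, X ^ n * g n = 0) : ∀ n < m, g n = 0 := by
  have h1 := transcendental_iff.1 (tr_D1 hb)
    (∑ n ∈ Finset.range m, Polynomial.C (⟨g n, hg n⟩ : D1 b) * Polynomial.X ^ n) (by
    rw [map_sum, ← h]
    refine Finset.sum_congr rfl fun n _ => ?_
    rw [map_mul, map_pow, Polynomial.aeval_C, Polynomial.aeval_X, mul_comm]; rfl)
  intro n hn
  have h2 := congrArg (fun p => Polynomial.coeff p n) h1
  simp only [Polynomial.finsetSum_coeff, Polynomial.coeff_C_mul, Polynomial.coeff_X_pow, Polynomial.coeff_zero] at h2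
  rw [Finset.sum_eq_single n] at h2
  · rw [if_pos rfl, mul_one] at h2
    exact congrArg Subtype.val h2
  · intro k _ hk
    rw [if_neg (Ne.symm hk), mul_zero]
  · intro h2; exact absurd (Finset.mem_range.2 hn) h2

/-- quotients of elements of the algebra -/
def Den (b : σ → K⟦X⟧) (f : K⟦X⟧) : Prop := ∃ D ∈ D1 b, D ≠ 0 ∧ D * f ∈ D1 b

theorem Den.of_mem {f : K⟦X⟧} (hf : f ∈ D1 b) : Den b f := ⟨1, (D1 b).one_mem, one_ne_zero, by rwa [one_mul]⟩

theorem Den.of_SA {f : K⟦X⟧} (hf : f ∈ SA K) : Den b f := Den.of_mem ((D1 b).algebraMap_mem (⟨f, hf⟩ : AA K))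

theorem Den.gen (s : σ) : Den b (b s) := Den.of_mem (Algebra.subset_adjoin ⟨s, rfl⟩)

theorem Den.add {f g : K⟦X⟧} (hf : Den b f) (hg : Den b g) : Den b (f + g) := by
  obtain ⟨D, hD, h0, h1⟩ := hf
  obtain ⟨D', hD', h0', h1'⟩ := hg
  refine ⟨D * D', (D1 b).mul_mem hD hD', mul_ne_zero h0 h0', ?_⟩
  have : D * D' * (f + g) = D' * (D * f) + D * (D' * g) := by ring
  rw [this]
  exact (D1 b).add_mem ((D1 b).mul_mem hD' h1) ((D1 b).mul_mem hD h1')

theorem Den.mul {f g : K⟦X⟧} (hf : Den b f) (hg : Den b g) : Den b (f * g) := by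
  obtain ⟨D, hD, h0, h1⟩ := hf
  obtain ⟨D', hD', h0', h1'⟩ := hg
  refine ⟨D * D', (D1 b).mul_mem hD hD', mul_ne_zero h0 h0', ?_⟩
  have : D * D' * (f * g) = (D * f) * (D' * g) := by ring
  rw [this]
  exact (D1 b).mul_mem h1 h1'

theorem Den.neg {f : K⟦X⟧} (hf : Den b f) : Den b (-f) := by
  obtain ⟨D, hD, h0, h1⟩ := hf
  exact ⟨D, hD, h0, by rw [mul_neg]; exact (D1 b).neg_mem h1⟩

theorem Den.sub {f g : K⟦X⟧} (hf : Den b f) (hg : Den b g) : Den b (f - g) := by
  rw [sub_eq_add_neg]; exact hf.add hg.neg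

theorem Den.const (c : K) : Den b (C c) := Den.of_SA (by
  have := (AA K).algebraMap_mem c
  exact this)

theorem Den.sum {τ : Type*} (s : Finset τ) (f : τ → K⟦X⟧) (h : ∀ i ∈ s, Den b (f i)) : Den b (∑ i ∈ s, f i) := by
  classical
  induction s using Finset.induction_on with
  | empty => rw [Finset.sum_empty]; exact Den.of_mem (D1 b).zero_mem
  | insert a s ha ih =>
    rw [Finset.sum_insert ha]
    exact (h a (Finset.mem_insert_self _ _)).add (ih fun i hi => h i (Finset.mem_insert_of_mem hi))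

/-- division -/
theorem Den.div {f g : K⟦X⟧} (hf : Den b f) (hf0 : f ≠ 0) (hg : Den b (f * g)) : Den b g := by
  obtain ⟨D, hD, h0, h1⟩ := hf
  obtain ⟨D', hD', h0', h1'⟩ := hg
  refine ⟨D' * (D * f), (D1 b).mul_mem hD' h1, mul_ne_zero h0' (mul_ne_zero h0 hf0), ?_⟩
  have : D' * (D * f) * g = D * (D' * (f * g)) := by ring
  rw [this]
  exact (D1 b).mul_mem hD h1'

theorem direct_Den (hb : AlgebraicIndependent (LV K) (fun s => ps (b s))) (m : ℕ) (g : ℕ → K⟦X⟧)
    (hg : ∀ n, Den b (g n)) (h : ∑ n ∈ Finset.range m, X ^ n * g n = 0) : ∀ n < m, g n = 0 := by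
  classical
  choose D hD h0 h1 using hg
  have hP0 : ∏ n ∈ Finset.range m, D n ≠ 0 := Finset.prod_ne_zero_iff.2 fun n _ => h0 n
  have key := direct_D1 hb m (fun n => if n < m then (∏ n ∈ Finset.range m, D n) * g n else 0) (fun n => by
    by_cases hn : n < m
    · simp only [if_pos hn]
      rw [← Finset.mul_prod_erase _ _ (Finset.mem_range.2 hn)]
      have : D n * (∏ x ∈ (Finset.range m).erase n, D x) * g n = (∏ x ∈ (Finset.range m).erase n, D x) * (D n * g n) := by
        ring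
      rw [this]
      exact (D1 b).mul_mem ((D1 b).prod_mem fun k _ => hD k) (h1 n)
    · simp only [if_neg hn]; exact (D1 b).zero_mem) (by
    have h2 : ∑ n ∈ Finset.range m, X ^ n * (if n < m then (∏ n ∈ Finset.range m, D n) * g n else 0) =
        (∏ n ∈ Finset.range m, D n) * ∑ n ∈ Finset.range m, X ^ n * g n := by
      rw [Finset.mul_sum]
      refine Finset.sum_congr rfl fun n hn => ?_
      rw [if_pos (Finset.mem_range.1 hn)]
      ring
    rw [h2, h, mul_zero])
  intro n hn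
  have h2 := key n hn
  simp only [if_pos hn] at h2
  exact (mul_eq_zero.1 h2).resolve_left hP0

end Pool.Agent.H18.Wd
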