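import Pool.Agent.H18.Bes.QbB

/-!
# The method of Siegel and Shidlovskii for a family of functions depending on a parameter
-/

set_option autoImplicit false
set_option linter.unusedSectionVars false

open PowerSeries

namespace Pool.Agent.H18.Wd

open Pool.Agent.N902.EW Pool.Agent.Y113 Pool.Agent.R352.E Pool.Agent.H18.Bes

/-- a family of functions depending on a parameter -/
structure Fam (σ : Type) where
  /-- the functions -/
  g : (K : Type) → [Field K] → [CharZero K] → σ → K → K⟦X⟧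
  map : ∀ {K L : Type} [Field K] [CharZero K] [Field L] [CharZero L] (φ : K →+* L) (s : σ) (ρ : K),
    PowerSeries.map φ (g K s ρ) = g L s (φ ρ)
  efk : ∀ {K : Type} [Field K] [CharZero K] [Algebra.IsAlgebraic ℚ K] (φ : K →+* ℂ) (s : σ) (ρ : K), EFK φ (g K s ρ)
  fin : ∀ s : σ, ∃ S : Finset σ, s ∈ S ∧ ∀ (K : Type) [Field K] [CharZero K] (ρ : K), ∀ t ∈ S,
    ∃ g₀ ∈ Submodule.span K (insert 1 {f | ∃ t ∈ S, f = g K t ρ}), ∃ g₁ ∈ Submodule.span K (insert 1 {f | ∃ t ∈ S, f = g K t ρ}),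
      ∃ g₂ ∈ Submodule.span K (insert 1 {f | ∃ t ∈ S, f = g K t ρ}), th (g K t ρ) = g₀ + X * g₁ + X ^ 2 * g₂
  dir : ∀ {K : Type} [Field K] [CharZero K] (m : ℕ) (h : ℕ → K⟦X⟧),
    (∀ n, h n ∈ Algebra.adjoin K ((SA K : Set K⟦X⟧) ∪ {f | ∃ (s : σ) (ρ : Kx K), f = g K s ρ.1})) →
      ∑ n ∈ Finset.range m, X ^ n * h n = 0 → ∀ n < m, h n = 0

variable {σ : Type} (F : Fam σ)

/-- the algebra of all functions under consideration -/
noncomputable def FA (K : Type) [Field K] [CharZero K] : Subalgebra K K⟦X⟧ :=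
  Algebra.adjoin K ((SA K : Set K⟦X⟧) ∪ {f | ∃ (s : σ) (ρ : Kx K), f = F.g K s ρ.1})

section

variable {K : Type} [Field K] [CharZero K]

variable {F}

theorem SA_le_FA {f : K⟦X⟧} (hf : f ∈ SA K) : f ∈ FA F K := Algebra.subset_adjoin (Or.inl hf)

theorem g_le_FA (s : σ) (ρ : Kx K) : F.g K s ρ.1 ∈ FA F K := Algebra.subset_adjoin (Or.inr ⟨s, ρ, rfl⟩)

/-- an induction principle -/
theorem FA_ind {p : K⟦X⟧ → Prop} (h1 : ∀ f ∈ SA K, p f) (h2 : ∀ (ρ : Kx K) (s : σ), p (F.g K s ρ.1))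
    (ha : ∀ f g, f ∈ FA F K → g ∈ FA F K → p f → p g → p (f + g))
    (hm : ∀ f g, f ∈ FA F K → g ∈ FA F K → p f → p g → p (f * g)) {f : K⟦X⟧} (hf : f ∈ FA F K) : p f := by
  refine Algebra.adjoin_induction (p := fun f _ => p f) ?_ ?_ ?_ ?_ hf
  · rintro f (h | ⟨s, ρ, rfl⟩)
    · exact h1 f h
    · exact h2 ρ s
  · intro r
    exact h1 _ ((AA K).algebraMap_mem r)
  · intro x y hx hy h h'; exact ha x y hx hy h h'
  · intro x y hx hy h h'; exact hm x y hx hy h h'

theorem EFK_FA [Algebra.IsAlgebraic ℚ K] {φ : K →+* ℂ} {f : K⟦X⟧} (hf : f ∈ FA F K) : EFK φ f := by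
  refine FA_ind (p := fun f => EFK φ f) (fun f hf => EFK.of_mem hf) (fun ρ s => F.efk φ s ρ.1) ?_ ?_ hf
  · intro f g _ _ h h'; exact h.add h'
  · intro f g _ _ h h'; exact h.mul h'

variable (F) in
/-- the evaluation at `1` as a ring homomorphism on the algebra -/
noncomputable def evF [Algebra.IsAlgebraic ℚ K] (φ : K →+* ℂ) : FA F K →+* ℂ where
  toFun f := evk φ f.1
  map_one' := evk_one
  map_zero' := evk_zero
  map_mul' f g := evk_mul (EFK_FA f.2) (EFK_FA g.2)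
  map_add' f g := evk_add (EFK_FA f.2) (EFK_FA g.2)

theorem map_FA {L : Type} [Field L] [CharZero L] (φ : K →+* L) {f : K⟦X⟧} (hf : f ∈ FA F K) :
    PowerSeries.map φ f ∈ FA F L := by
  refine FA_ind (p := fun f => PowerSeries.map φ f ∈ FA F L) (fun f hf => SA_le_FA (map_SA φ hf))
    (fun ρ s => ?_) ?_ ?_ hf
  · rw [F.map]
    exact g_le_FA s ⟨φ ρ.1, by rw [map_ne_zero]; exact ρ.2⟩
  · intro f g _ _ h h'; rw [map_add]; exact (FA F L).add_mem h h'
  · intro f g _ _ h h'; rw [map_mul]; exact (FA F L).mul_mem h h'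

end

section

variable {K : Type} [Field K] [NumberField K]

/-- finite dimensional stable spaces -/
structure Good (F : Fam σ) (V : Submodule K K⟦X⟧) : Prop where
  le : ∀ f ∈ V, f ∈ FA F K
  fg : V.FG
  one : (1 : K⟦X⟧) ∈ V
  th' : ∀ f ∈ V, ∃ g₀ ∈ V, ∃ g₁ ∈ V, ∃ g₂ ∈ V, th f = g₀ + X * g₁ + X ^ 2 * g₂
  gal : ∀ (σ : K ≃ₐ[ℚ] K), ∀ f ∈ V, PowerSeries.map (σ : K →+* K) f ∈ V

variable {F} in
theorem Good.mul {V W : Submodule K K⟦X⟧} (hV : Good F V) (hW : Good F W) : Good F (V * W) where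
  le := by
    intro f hf
    refine Submodule.mul_induction_on hf (fun a ha b hb => ?_) (fun a b ha hb => ?_)
    · exact (FA F K).mul_mem (hV.le a ha) (hW.le b hb)
    · exact (FA F K).add_mem ha hb
  fg := hV.fg.mul hW.fg
  one := by
    have := Submodule.mul_mem_mul hV.one hW.one
    rwa [one_mul] at this
  th' := by
    intro f hf
    refine Submodule.mul_induction_on hf (fun a ha b hb => ?_) ?_
    · obtain ⟨a₀, h₀, a₁, h₁, a₂, h₂, e⟩ := hV.th' a ha
      obtain ⟨b₀, k₀, b₁, k₁, b₂, k₂, e'⟩ := hW.th' b hb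
      refine ⟨a₀ * b + a * b₀, (V * W).add_mem (Submodule.mul_mem_mul h₀ hb) (Submodule.mul_mem_mul ha k₀),
        a₁ * b + a * b₁, (V * W).add_mem (Submodule.mul_mem_mul h₁ hb) (Submodule.mul_mem_mul ha k₁),
        a₂ * b + a * b₂, (V * W).add_mem (Submodule.mul_mem_mul h₂ hb) (Submodule.mul_mem_mul ha k₂), ?_⟩
      rw [th_mul, e, e']
      ring
    · rintro x y ⟨a₀, h₀, a₁, h₁, a₂, h₂, e⟩ ⟨b₀, k₀, b₁, k₁, b₂, k₂, e'⟩
      refine ⟨a₀ + b₀, (V * W).add_mem h₀ k₀, a₁ + b₁, (V * W).add_mem h₁ k₁, a₂ + b₂, (V * W).add_mem h₂ k₂, ?_⟩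
      rw [th_add, e, e']
      ring
  gal := by
    intro σ f hf
    refine Submodule.mul_induction_on hf (fun a ha b hb => ?_) (fun a b ha hb => ?_)
    · rw [map_mul]; exact Submodule.mul_mem_mul (hV.gal σ a ha) (hW.gal σ b hb)
    · rw [map_add]; exact (V * W).add_mem ha hb

variable {F} in
theorem Good.le_left {V W : Submodule K K⟦X⟧} (hW : Good F W) {f : K⟦X⟧} (hf : f ∈ V) : f ∈ V * W := by
  have := Submodule.mul_mem_mul hf hW.one
  rwa [mul_one] at this

variable {F} in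
theorem Good.le_right {V W : Submodule K K⟦X⟧} (hV : Good F V) {f : K⟦X⟧} (hf : f ∈ W) : f ∈ V * W := by
  have := Submodule.mul_mem_mul hV.one hf
  rwa [one_mul] at this

variable {F}

theorem good_SA' {f : K⟦X⟧} (hf : f ∈ SA K) : ∃ V : Submodule K K⟦X⟧, Good F V ∧ f ∈ V := by
  classical
  obtain ⟨I, hI, hFI, hG⟩ := exists_Stb (gal K) hf
  refine ⟨VI I, ⟨fun g hg => SA_le_FA (VI_le hI hg), Submodule.fg_span (I.finite_toSet.image bf), one_mem_VI hI,
    fun g hg => ?_, fun σ g hg => ?_⟩, hFI⟩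
  · obtain ⟨a, ha, b, hb, e⟩ := VI_th hI hg
    exact ⟨a, ha, b, hb, 0, (VI I).zero_mem, by rw [e, mul_zero, add_zero]⟩
  · refine Submodule.span_induction (p := fun g _ => PowerSeries.map (σ : K →+* K) g ∈ VI I) ?_ ?_ ?_ ?_ hg
    · rintro _ ⟨x, hx, rfl⟩
      rw [map_bf]
      exact Submodule.subset_span ⟨_, hG σ x hx, rfl⟩
    · rw [map_zero]; exact Submodule.zero_mem _
    · intro x y _ _ hx hy; rw [map_add]; exact Submodule.add_mem _ hx hy
    · intro c x _ hx; rw [map_smul']; exact Submodule.smul_mem _ _ hx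

theorem good_g (ρ : Kx K) (s : σ) : ∃ V : Submodule K K⟦X⟧, Good F V ∧ F.g K s ρ.1 ∈ V := by
  classical
  obtain ⟨S, hs, hS⟩ := F.fin s
  set T : Set K⟦X⟧ := insert 1 (⋃ τ : K ≃ₐ[ℚ] K, {f | ∃ t ∈ S, f = F.g K t (τ ρ.1)}) with hT
  have hTf : T.Finite := by
    refine (Set.finite_iUnion fun τ => ?_).insert 1
    refine (S.finite_toSet.image fun t => F.g K t (τ ρ.1)).subset ?_
    rintro _ ⟨t, ht, rfl⟩
    exact ⟨t, ht, rfl⟩
  have hσ : ∀ τ : K ≃ₐ[ℚ] K, τ ρ.1 ≠ 0 := fun τ h => ρ.2 (by simpa using h)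
  have hin : ∀ (τ : K ≃ₐ[ℚ] K), ∀ t ∈ S, F.g K t (τ ρ.1) ∈ Submodule.span K T := fun τ t ht =>
    Submodule.subset_span (Or.inr (Set.mem_iUnion.2 ⟨τ, t, ht, rfl⟩))
  have hle : ∀ τ : K ≃ₐ[ℚ] K, Submodule.span K (insert 1 {f | ∃ t ∈ S, f = F.g K t (τ ρ.1)}) ≤ Submodule.span K T := by
    intro τ
    refine Submodule.span_mono (Set.insert_subset_insert ?_)
    intro f hf
    exact Set.mem_iUnion.2 ⟨τ, hf⟩
  refine ⟨Submodule.span K T, ⟨fun g hg => ?_, Submodule.fg_span hTf, Submodule.subset_span (Or.inl rfl),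
    fun g hg => ?_, fun τ g hg => ?_⟩, ?_⟩
  · refine Submodule.span_induction (p := fun g _ => g ∈ FA F K) ?_ ?_ ?_ ?_ hg
    · rintro x (rfl | hx)
      · exact (FA F K).one_mem
      · obtain ⟨τ, t, ht, rfl⟩ := Set.mem_iUnion.1 hx
        exact g_le_FA t ⟨τ ρ.1, hσ τ⟩
    · exact (FA F K).zero_mem
    · intro x y _ _ hx hy; exact (FA F K).add_mem hx hy
    · intro c x _ hx; exact (FA F K).smul_mem hx c
  · refine Submodule.span_induction (p := fun g _ => ∃ g₀ ∈ Submodule.span K T, ∃ g₁ ∈ Submodule.span K T,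
      ∃ g₂ ∈ Submodule.span K T, th g = g₀ + X * g₁ + X ^ 2 * g₂) ?_ ?_ ?_ ?_ hg
    · rintro x (rfl | hx)
      · refine ⟨0, Submodule.zero_mem _, 0, Submodule.zero_mem _, 0, Submodule.zero_mem _, ?_⟩
        ext n
        rw [coeff_th, coeff_one]
        split_ifs with h
        · rw [h]; simp
        · simp
      · obtain ⟨τ, t, ht, rfl⟩ := Set.mem_iUnion.1 hx
        obtain ⟨a, ha, b, hb, c, hc, e⟩ := hS K (τ ρ.1) t ht
        exact ⟨a, hle τ ha, b, hle τ hb, c, hle τ hc, e⟩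
    · exact ⟨0, Submodule.zero_mem _, 0, Submodule.zero_mem _, 0, Submodule.zero_mem _, by simp [th]⟩
    · rintro x y _ _ ⟨a₀, h₀, a₁, h₁, a₂, h₂, e⟩ ⟨b₀, k₀, b₁, k₁, b₂, k₂, e'⟩
      exact ⟨a₀ + b₀, Submodule.add_mem _ h₀ k₀, a₁ + b₁, Submodule.add_mem _ h₁ k₁, a₂ + b₂, Submodule.add_mem _ h₂ k₂,
        by rw [th_add, e, e']; ring⟩
    · rintro c x _ ⟨a₀, h₀, a₁, h₁, a₂, h₂, e⟩
      exact ⟨c • a₀, Submodule.smul_mem _ _ h₀, c • a₁, Submodule.smul_mem _ _ h₁, c • a₂, Submodule.smul_mem _ _ h₂,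
        by rw [th_smul, e]; simp only [smul_add, mul_smul_comm]⟩
  · refine Submodule.span_induction (p := fun g _ => PowerSeries.map (τ : K →+* K) g ∈ Submodule.span K T) ?_ ?_ ?_ ?_ hg
    · rintro x (rfl | hx)
      · rw [map_one]; exact Submodule.subset_span (Or.inl rfl)
      · obtain ⟨σ', t, ht, rfl⟩ := Set.mem_iUnion.1 hx
        rw [F.map]
        exact hin (τ * σ') t ht
    · rw [map_zero]; exact Submodule.zero_mem _
    · intro x y _ _ hx hy; rw [map_add]; exact Submodule.add_mem _ hx hy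
    · intro c x _ hx; rw [map_smul']; exact Submodule.smul_mem _ _ hx
  · exact hin 1 s hs

theorem exists_Good' {f : K⟦X⟧} (hf : f ∈ FA F K) : ∃ V : Submodule K K⟦X⟧, Good F V ∧ f ∈ V := by
  refine FA_ind (p := fun f => ∃ V : Submodule K K⟦X⟧, Good F V ∧ f ∈ V) (fun f hf => good_SA' hf)
    (fun ρ s => good_g ρ s) ?_ ?_ hf
  · rintro f g _ _ ⟨V, hV, h⟩ ⟨W, hW, h'⟩
    exact ⟨V * W, hV.mul hW, Submodule.add_mem _ (hW.le_left h) (hV.le_right h')⟩
  · rintro f g _ _ ⟨V, hV, h⟩ ⟨W, hW, h'⟩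
    exact ⟨V * W, hV.mul hW, Submodule.mul_mem_mul h h'⟩

/-- uniqueness of the decomposition -/
theorem dec_unique3 {g₀ g₁ g₂ h₀ h₁ h₂ : K⟦X⟧} (k₀ : g₀ ∈ FA F K) (k₁ : g₁ ∈ FA F K) (k₂ : g₂ ∈ FA F K) (l₀ : h₀ ∈ FA F K)
    (l₁ : h₁ ∈ FA F K) (l₂ : h₂ ∈ FA F K) (e : g₀ + X * g₁ + X ^ 2 * g₂ = h₀ + X * h₁ + X ^ 2 * h₂) :
    g₀ = h₀ ∧ g₁ = h₁ ∧ g₂ = h₂ := by
  have h := F.dir 3 (fun n => if n = 0 then g₀ - h₀ else if n = 1 then g₁ - h₁ else g₂ - h₂) (fun n => by
    by_cases hn : n = 0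
    · simp only [if_pos hn]; exact (FA F K).sub_mem k₀ l₀
    · by_cases hn1 : n = 1
      · simp only [if_neg hn, if_pos hn1]; exact (FA F K).sub_mem k₁ l₁
      · simp only [if_neg hn, if_neg hn1]; exact (FA F K).sub_mem k₂ l₂) (by
    rw [Finset.sum_range_succ, Finset.sum_range_succ, Finset.sum_range_one]
    simp only [if_true, pow_zero, one_mul, pow_one, if_neg one_ne_zero, if_neg (two_ne_zero (α := ℕ)),
      if_neg (show (2 : ℕ) ≠ 1 by norm_num)]
    linear_combination e)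
  have e0 := h 0 (by norm_num)
  have e1 := h 1 (by norm_num)
  have e2 := h 2 (by norm_num)
  simp only [if_true, if_neg one_ne_zero, if_neg (two_ne_zero (α := ℕ)), if_neg (show (2 : ℕ) ≠ 1 by norm_num)] at e0 e1 e2
  exact ⟨sub_eq_zero.1 e0, sub_eq_zero.1 e1, sub_eq_zero.1 e2⟩

variable [IsGalois ℚ K]

/-- the derivative of a rational element of the space -/
lemma WV_th {V : Submodule K K⟦X⟧} (hV : Good F V) {f : ℚ⟦X⟧} (hf : f ∈ WV V) :
    ∃ g₀ ∈ WV V, ∃ g₁ ∈ WV V, ∃ g₂ ∈ WV V, th f = g₀ + X * g₁ + X ^ 2 * g₂ := by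
  obtain ⟨a, ha, b, hb, c, hc, e⟩ := hV.th' _ (mem_WV.1 hf)
  have hfix : ∀ σ : K ≃ₐ[ℚ] K, PowerSeries.map (σ : K →+* K) a = a ∧ PowerSeries.map (σ : K →+* K) b = b ∧
      PowerSeries.map (σ : K →+* K) c = c := by
    intro σ
    have h1 : PowerSeries.map (σ : K →+* K) (th (bc K f)) = th (bc K f) := by
      rw [map_th]
      congr 1
      ext n
      rw [coeff_map, coeff_map]
      exact σ.commutes _
    rw [e, map_add, map_add, map_mul, map_mul, map_pow, PowerSeries.map_X] at h1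
    exact dec_unique3 (hV.le _ (hV.gal σ _ ha)) (hV.le _ (hV.gal σ _ hb)) (hV.le _ (hV.gal σ _ hc)) (hV.le _ ha)
      (hV.le _ hb) (hV.le _ hc) h1
  obtain ⟨a', rfl⟩ := exists_bc fun σ => (hfix σ).1
  obtain ⟨b', rfl⟩ := exists_bc fun σ => (hfix σ).2.1
  obtain ⟨c', rfl⟩ := exists_bc fun σ => (hfix σ).2.2
  refine ⟨a', ha, b', hb, c', hc, bc_injective (K := K) ?_⟩
  rw [map_th, e, map_add, map_add, map_mul, map_mul, map_pow, PowerSeries.map_X]

/-- an invariant element with value zero is zero -/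
theorem inv_zero'' (φ : K →+* ℂ) {P0 : K⟦X⟧} (hF : P0 ∈ FA F K)
    (hinv : ∀ σ : K ≃ₐ[ℚ] K, PowerSeries.map (σ : K →+* K) P0 = P0) (h0 : evk φ P0 = 0) : P0 = 0 := by
  classical
  obtain ⟨f, rfl⟩ := exists_bc hinv
  obtain ⟨V, hV, hFV⟩ := exists_Good' hF
  have hf : f ∈ WV V := hFV
  have := fin_WV hV.fg
  have h1mem : (1 : ℚ⟦X⟧) ∈ WV V := by rw [mem_WV, map_one]; exact hV.one
  set o : WV V := ⟨1, h1mem⟩ with ho
  have ho0 : o ≠ 0 := fun h => one_ne_zero (congrArg Subtype.val h)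
  have hs : LinearIndepOn ℚ id ({o} : Set (WV V)) := LinearIndepOn.singleton ho0
  let b := Module.Basis.extend hs
  have : Fintype (hs.extend (Set.subset_univ _)) := FiniteDimensional.fintypeBasisIndex b
  let e := Fintype.equivFin (hs.extend (Set.subset_univ _))
  let N := Fintype.card (hs.extend (Set.subset_univ _))
  let y : Fin N → ℚ⟦X⟧ := fun i => (b (e.symm i)).1
  let B := b.reindex e
  have hBy : ∀ i, (B i : WV V).1 = y i := fun i => by simp only [B, y, Module.Basis.reindex_apply]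
  have hrep : ∀ g ∈ WV V, ∃ c : Fin N → ℚ, g = ∑ i, c i • y i := by
    intro g hg
    refine ⟨fun i => B.repr ⟨g, hg⟩ i, ?_⟩
    have h1 : g = ((∑ i, B.repr ⟨g, hg⟩ i • B i : WV V) : ℚ⟦X⟧) := by rw [B.sum_repr]
    conv_lhs => rw [h1]
    rw [Submodule.coe_sum]
    exact Finset.sum_congr rfl fun i _ => by rw [Submodule.coe_smul, hBy]
  have hLI0 : LinearIndependent ℚ y := by
    have h1 : LinearIndependent ℚ (fun i => (WV V).subtype (B i)) :=
      B.linearIndependent.map' (WV V).subtype (Submodule.ker_subtype _)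
    have h2 : (fun i => (WV V).subtype (B i)) = y := funext fun i => hBy i
    rwa [h2] at h1
  have hymem : ∀ i, y i ∈ WV V := fun i => (b (e.symm i)).2
  -- the element `1`
  let i₀ : Fin N := e ⟨o, (Module.Basis.subset_extend hs) (Set.mem_singleton o)⟩
  have hi₀ : y i₀ = 1 := by
    simp only [y, i₀, Equiv.symm_apply_apply, b]
    rw [Module.Basis.extend_apply_self]
  -- the functions are E-functions
  have hEF : ∀ i, EF (y i) := fun i => EF_of_bc (EFK_FA (φ := φ) (hV.le _ (mem_WV.1 (hymem i))))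
  obtain ⟨C, hC, hsize, hden⟩ := EF.common hEF
  -- the differential system
  have hder : ∀ i, ∃ a b c : Fin N → ℚ, th (y i) = ∑ j, (a j • y j + X * (b j • y j) + X ^ 2 * (c j • y j)) := by
    intro i
    obtain ⟨g, hg, h, hh, k, hk, e1⟩ := WV_th hV (hymem i)
    obtain ⟨a, ha⟩ := hrep g hg
    obtain ⟨b, hb⟩ := hrep h hh
    obtain ⟨c, hc⟩ := hrep k hk
    refine ⟨a, b, c, ?_⟩
    rw [e1, ha, hb, hc, Finset.mul_sum, Finset.mul_sum, ← Finset.sum_add_distrib, ← Finset.sum_add_distrib]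
  choose a₁ b₁ c₁ hab using hder
  obtain ⟨q, hq, z, hz⟩ := exists_den (fun p : (Fin N × Fin N) × Fin 3 =>
    if p.2 = 0 then a₁ p.1.1 p.1.2 else if p.2 = 1 then b₁ p.1.1 p.1.2 else c₁ p.1.1 p.1.2)
  have hza : ∀ i j, (z ((i, j), 0) : ℚ) = q * a₁ i j := fun i j => by
    have := hz ((i, j), 0); simpa using this
  have hzb : ∀ i j, (z ((i, j), 1) : ℚ) = q * b₁ i j := fun i j => by
    have := hz ((i, j), 1); simpa using this
  have hzc : ∀ i j, (z ((i, j), 2) : ℚ) = q * c₁ i j := fun i j => by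
    have := hz ((i, j), 2)
    simpa using this
  have hsys : ESys q C y := by
    refine ⟨hC, hq, hsize, hden, fun i j => Polynomial.C (z ((i, j), 0)) + Polynomial.C (z ((i, j), 1)) * Polynomial.X +
      Polynomial.C (z ((i, j), 2)) * Polynomial.X ^ 2, fun i => ?_⟩
    have h1 : (TQ q : ℚ⟦X⟧) * d⁄dX ℚ (y i) = (q : ℚ⟦X⟧) * th (y i) := by
      rw [TQ_eq, th, mul_assoc]
    rw [h1, hab, Finset.mul_sum]
    refine Finset.sum_congr rfl fun j _ => ?_
    have h2 : Pool.Agent.Y113.ps (Polynomial.C (z ((i, j), 0)) + Polynomial.C (z ((i, j), 1)) * Polynomial.X +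
        Polynomial.C (z ((i, j), 2)) * Polynomial.X ^ 2) =
        PowerSeries.C ((z ((i, j), 0) : ℤ) : ℚ) + PowerSeries.C ((z ((i, j), 1) : ℤ) : ℚ) * X +
        PowerSeries.C ((z ((i, j), 2) : ℤ) : ℚ) * X ^ 2 := by
      rw [Pool.Agent.Y113.ps, Polynomial.map_add, Polynomial.map_add, Polynomial.map_mul, Polynomial.map_mul,
        Polynomial.map_pow, Polynomial.map_C, Polynomial.map_C, Polynomial.map_C, Polynomial.map_X,
        Polynomial.coe_add, Polynomial.coe_add, Polynomial.coe_mul, Polynomial.coe_mul, Polynomial.coe_pow,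
        Polynomial.coe_C, Polynomial.coe_C, Polynomial.coe_C, Polynomial.coe_X]
      rfl
    rw [h2, hza, hzb, hzc, smul_eq_C_mul, smul_eq_C_mul, smul_eq_C_mul, map_mul, map_mul, map_mul]
    have h3 : (PowerSeries.C (q : ℚ) : ℚ⟦X⟧) = (q : ℚ⟦X⟧) := by simp
    rw [h3]
    ring
  -- linear independence over the polynomials
  have hLI : LinearIndependent (Polynomial ℚ) y := by
    rw [Fintype.linearIndependent_iff]
    intro p hp i
    obtain ⟨m, hm⟩ : ∃ m : ℕ, ∀ i, (p i).natDegree < m := by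
      refine ⟨(Finset.univ.sup fun i => (p i).natDegree) + 1, fun i => Nat.lt_succ_of_le ?_⟩
      exact Finset.le_sup (f := fun i => (p i).natDegree) (Finset.mem_univ i)
    have hexp : ∀ i, p i • y i = ∑ n ∈ Finset.range m, X ^ n * ((p i).coeff n • y i) := by
      intro i
      conv_lhs => rw [Polynomial.as_sum_range' (p i) m (hm i)]
      rw [Finset.sum_smul]
      refine Finset.sum_congr rfl fun n _ => ?_
      rw [Algebra.smul_def, PowerSeries.algebraMap_apply', smul_eq_C_mul, ← Polynomial.C_mul_X_pow_eq_monomial]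
      simp
      ring
    have h1 : ∑ n ∈ Finset.range m, X ^ n * bc K (∑ i, (p i).coeff n • y i) = 0 := by
      have h2 : ∑ n ∈ Finset.range m, (X : ℚ⟦X⟧) ^ n * (∑ i, (p i).coeff n • y i) = 0 := by
        rw [← hp, Finset.sum_congr rfl fun i _ => hexp i, Finset.sum_comm]
        exact Finset.sum_congr rfl fun n _ => by rw [Finset.mul_sum]
      have h3 := congrArg (bc K) h2
      rw [map_sum, map_zero] at h3
      rw [← h3]
      exact Finset.sum_congr rfl fun n _ => by rw [map_mul, map_pow, PowerSeries.map_X]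
    have h2 := F.dir m (fun n => bc K (∑ i, (p i).coeff n • y i)) (fun n => hV.le _ (mem_WV.1
      (Submodule.sum_mem _ fun i _ => Submodule.smul_mem _ _ (hymem i)))) h1
    ext n
    rw [Polynomial.coeff_zero]
    by_cases hn : n < m
    · have h3 : ∑ i, (p i).coeff n • y i = 0 := bc_injective (by rw [h2 n hn, map_zero])
      exact Fintype.linearIndependent_iff.1 hLI0 _ h3 i
    · exact Polynomial.coeff_eq_zero_of_natDegree_lt (by have := hm i; omega)
  have hval := E_lin hsys i₀ hi₀ hLI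
  -- the end
  obtain ⟨c, hc⟩ := hrep f hf
  have h2 : evk φ (bc K f) = ((∑ i, c i • ev 1 (y i) : ℝ) : ℂ) := by
    have h3 : ∀ s : Finset (Fin N), EFK φ (∑ i ∈ s, (algebraMap ℚ K (c i)) • bc K (y i)) ∧
        evk φ (∑ i ∈ s, (algebraMap ℚ K (c i)) • bc K (y i)) = ((∑ i ∈ s, c i • ev 1 (y i) : ℝ) : ℂ) := by
      intro s
      induction s using Finset.induction_on with
      | empty => rw [Finset.sum_empty, Finset.sum_empty]; exact ⟨EFK.zero, by rw [evk_zero]; simp⟩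
      | insert i s hi ih =>
        have h4 : EFK φ (bc K (y i)) := EFK_FA (hV.le _ (mem_WV.1 (hymem i)))
        rw [Finset.sum_insert hi, Finset.sum_insert hi]
        refine ⟨(h4.smul _).add ih.1, ?_⟩
        rw [evk_add (h4.smul _) ih.1, ih.2, evk_smul, evk_bc, Complex.ofReal_add]
        congr 1
        rw [Rat.smul_def]
        push_cast
        simp
    have h5 := (h3 Finset.univ).2
    rw [← h5]
    congr 1
    conv_lhs => rw [hc]
    rw [map_sum]
    exact Finset.sum_congr rfl fun i _ => bc_smul _ _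
  rw [h2] at h0
  have h3 := Fintype.linearIndependent_iff.1 hval c (by exact_mod_cast h0)
  rw [hc, Finset.sum_eq_zero fun i _ => by rw [h3 i, zero_smul], map_zero]

/-- **the value at `1` of a nonzero element of the algebra is not zero** -/
theorem evk_inj'' (φ : K →+* ℂ) {P : K⟦X⟧} (hP : P ∈ FA F K) (h0 : evk φ P = 0) : P = 0 := by
  classical
  have hmem : ∀ σ : K ≃ₐ[ℚ] K, PowerSeries.map (σ : K →+* K) P ∈ FA F K := fun σ => map_FA _ hP
  let Q : (K ≃ₐ[ℚ] K) → FA F K := fun σ => ⟨PowerSeries.map (σ : K →+* K) P, hmem σ⟩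
  have hQ1 : evF F φ (Q 1) = 0 := by
    show evk φ (PowerSeries.map ((1 : K ≃ₐ[ℚ] K) : K →+* K) P) = 0
    rw [← h0]
    congr 1
  have hprod : evF F φ (∏ σ, Q σ) = 0 := by
    rw [map_prod]
    exact Finset.prod_eq_zero (Finset.mem_univ 1) hQ1
  have hz := inv_zero'' φ (P0 := (∏ σ, Q σ : FA F K).1) (∏ σ, Q σ : FA F K).2 (fun τ => by
    have h1 : ((∏ σ, Q σ : FA F K) : K⟦X⟧) = ∏ σ : K ≃ₐ[ℚ] K, PowerSeries.map (σ : K →+* K) P := by
      rw [← Subalgebra.coe_val, map_prod]; rfl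
    rw [h1, map_prod]
    refine Fintype.prod_equiv (Equiv.mulLeft τ) _ _ fun σ => ?_
    ext n
    rw [coeff_map, coeff_map, coeff_map]
    rfl) hprod
  have h2 : ((∏ σ, Q σ : FA F K) : K⟦X⟧) = ∏ σ : K ≃ₐ[ℚ] K, PowerSeries.map (σ : K →+* K) P := by
    rw [← Subalgebra.coe_val, map_prod]; rfl
  rw [h2] at hz
  obtain ⟨σ, _, hσ⟩ := Finset.prod_eq_zero_iff.1 hz
  exact PowerSeries.map_injective _ (σ : K →+* K).injective (by rw [hσ, map_zero])

end

variable {F}

theorem desc_SA' {f : (Qb : Type)⟦X⟧} (hf : f ∈ SA Qb) : ∃ S : Finset Qb, ∀ M : FiniteGaloisIntermediateField ℚ Qb,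
    (∀ a ∈ S, a ∈ M.toIntermediateField) → ∃ g ∈ FA F M.toIntermediateField, PowerSeries.map (psi M) g = f := by
  classical
  obtain ⟨s, c, hs, hPs⟩ := exists_sum hf
  refine ⟨s.image c ∪ s.image Prod.fst ∪ s.biUnion fun x => x.2.toFinset, fun M hM' => ?_⟩
  set S : Finset Qb := s.image c ∪ s.image Prod.fst ∪ s.biUnion fun x => x.2.toFinset with hS
  have hM : ∀ a ∈ S, a ∈ Set.range (psi M) := fun a ha => ⟨⟨a, hM' a ha⟩, rfl⟩
  obtain ⟨g, hg, e⟩ := desc_gen (psi M) s c hs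
    (fun x hx => hM (c x) (by
      simp only [S, Finset.mem_union, Finset.mem_image]; exact Or.inl (Or.inl ⟨x, hx, rfl⟩)))
    (fun x hx => hM x.1 (by
      simp only [S, Finset.mem_union, Finset.mem_image]; exact Or.inl (Or.inr ⟨x, hx, rfl⟩)))
    (fun x hx a ha => hM a (by
      simp only [S, Finset.mem_union, Finset.mem_biUnion, List.mem_toFinset]; exact Or.inr ⟨x, hx, ha⟩))
  exact ⟨g, SA_le_FA hg, by rw [e, hPs]⟩

theorem desc_FA {f : (Qb : Type)⟦X⟧} (hf : f ∈ FA F Qb) : ∃ S : Finset Qb, ∀ M : FiniteGaloisIntermediateField ℚ Qb,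
    (∀ a ∈ S, a ∈ M.toIntermediateField) → ∃ g ∈ FA F M.toIntermediateField, PowerSeries.map (psi M) g = f := by
  classical
  refine FA_ind (p := fun f => ∃ S : Finset Qb, ∀ M : FiniteGaloisIntermediateField ℚ Qb,
    (∀ a ∈ S, a ∈ M.toIntermediateField) → ∃ g ∈ FA F M.toIntermediateField, PowerSeries.map (psi M) g = f)
    (fun f hf => desc_SA' hf) ?_ ?_ ?_ hf
  · intro ρ s
    refine ⟨{ρ.1}, fun M hM => ?_⟩
    let r : Kx M.toIntermediateField := ⟨⟨ρ.1, hM ρ.1 (Finset.mem_singleton_self _)⟩, fun h => ρ.2 (congrArg Subtype.val h)⟩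
    have hr : psi M r.1 = ρ.1 := rfl
    exact ⟨F.g _ s r.1, g_le_FA s r, by rw [F.map, hr]⟩
  · rintro f g _ _ ⟨S, h⟩ ⟨T, h'⟩
    refine ⟨S ∪ T, fun M hM => ?_⟩
    obtain ⟨a, ha, e⟩ := h M fun x hx => hM x (Finset.mem_union_left _ hx)
    obtain ⟨b, hb, e'⟩ := h' M fun x hx => hM x (Finset.mem_union_right _ hx)
    exact ⟨a + b, (FA F _).add_mem ha hb, by rw [map_add, e, e']⟩
  · rintro f g _ _ ⟨S, h⟩ ⟨T, h'⟩
    refine ⟨S ∪ T, fun M hM => ?_⟩
    obtain ⟨a, ha, e⟩ := h M fun x hx => hM x (Finset.mem_union_left _ hx)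
    obtain ⟨b, hb, e'⟩ := h' M fun x hx => hM x (Finset.mem_union_right _ hx)
    exact ⟨a * b, (FA F _).mul_mem ha hb, by rw [map_mul, e, e']⟩

/-- **the value at `1` of a nonzero element of the algebra over the algebraic numbers is not zero** -/
theorem evk_inj_Qb'' (φ : Qb →+* ℂ) {P : (Qb : Type)⟦X⟧} (hP : P ∈ FA F Qb) (h0 : evk φ P = 0) : P = 0 := by
  classical
  obtain ⟨S, hS⟩ := desc_FA hP
  let M : FiniteGaloisIntermediateField ℚ Qb := FiniteGaloisIntermediateField.adjoin ℚ (S : Set Qb)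
  obtain ⟨g, hg, rfl⟩ := hS M fun a ha => FiniteGaloisIntermediateField.subset_adjoin ℚ (S : Set Qb) ha
  have hnf : NumberField M.toIntermediateField := { to_charZero := inferInstance, to_finiteDimensional := inferInstance }
  have hgal : IsGalois ℚ M.toIntermediateField := M.isGalois
  rw [evk_map] at h0
  rw [evk_inj'' (φ.comp (psi M)) hg h0, map_zero]

/-- the evaluation is injective -/
theorem evF_injective (φ : Qb →+* ℂ) : Function.Injective (evF F φ : FA F Qb →+* ℂ) := by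
  rw [injective_iff_map_eq_zero]
  intro f hf
  exact Subtype.ext (evk_inj_Qb'' φ f.2 hf)

end Pool.Agent.H18.Wd
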