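import Pool.Agent.H18.Wd.Hs
import Pool.Agent.H18.Wd.Fam

/-!
# The derivatives of the Bessel functions with respect to the order as a family of E-functions
-/

set_option autoImplicit false
set_option linter.unusedSectionVars false

open PowerSeries

namespace Pool.Agent.H18.Wd

open Pool.Agent.N902.EW Pool.Agent.H18.Bes

section

variable {K : Type*} [Field K] [CharZero K] {φ : K →+* ℂ}

theorem ck_Hs_even (ρ : K) (j k : ℕ) : ck (2 * k) (Hs ρ j) = hs K j k * ck (2 * k) (fs ρ) := by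
  rw [ck, ck, coeff_fs_even, coeff_Hs_even]
  ring

theorem ck_Hs_odd (ρ : K) (j k : ℕ) : ck (2 * k + 1) (Hs ρ j) = 0 := by
  rw [ck, coeff_Hs_odd, mul_zero]

variable (φ) in
theorem norm_hs (j k : ℕ) : ‖φ (hs K j k)‖ ≤ ((k : ℝ) + 1) ^ j := by
  induction j generalizing k with
  | zero => rw [hs_zero]; simp
  | succ j ih =>
    induction k with
    | zero => rw [hs_succ_zero]; simp
    | succ k ihk =>
      rw [hs_succ_succ, map_add, map_div₀, map_add, map_natCast, map_one]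
      refine (norm_add_le _ _).trans ?_
      have h2 : ((k : ℂ) + 1) = ((k + 1 : ℕ) : ℂ) := by push_cast; rfl
      have h3 : (1 : ℝ) ≤ ((k + 1 : ℕ) : ℝ) := by exact_mod_cast Nat.succ_le_succ (Nat.zero_le k)
      have h4 : ‖φ (hs K j (k + 1)) / ((k : ℂ) + 1)‖ ≤ (((k + 1 : ℕ) : ℝ) + 1) ^ j := by
        rw [h2, norm_div, Complex.norm_natCast]
        exact (div_le_self (norm_nonneg _) h3).trans (ih (k + 1))
      have h5 : ((k : ℝ) + 1) ^ (j + 1) ≤ ((k : ℝ) + 1) * (((k + 1 : ℕ) : ℝ) + 1) ^ j := by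
        rw [pow_succ, mul_comm]
        refine mul_le_mul_of_nonneg_left ?_ (by positivity)
        refine pow_le_pow_left₀ (by positivity) ?_ j
        push_cast
        linarith
      calc ‖φ (hs K (j + 1) k)‖ + ‖φ (hs K j (k + 1)) / ((k : ℂ) + 1)‖
          ≤ ((k : ℝ) + 1) * (((k + 1 : ℕ) : ℝ) + 1) ^ j + (((k + 1 : ℕ) : ℝ) + 1) ^ j :=
            add_le_add (ihk.trans h5) h4
        _ = (((k + 1 : ℕ) : ℝ) + 1) ^ (j + 1) := by rw [pow_succ]; push_cast; ring

theorem integral_hs {m : ℕ} (j : ℕ) {k : ℕ} (hk : k ≤ m) : IsIntegral ℤ ((Nat.lcmUpto m : K) ^ j * hs K j k) := by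
  induction j generalizing k with
  | zero => rw [hs_zero, pow_zero, one_mul]; exact isIntegral_one
  | succ j ih =>
    induction k with
    | zero => rw [hs_succ_zero, mul_zero]; exact isIntegral_zero
    | succ k ihk =>
      obtain ⟨c, hc⟩ : k + 1 ∣ Nat.lcmUpto m := Finset.dvd_lcm (f := id) (Finset.mem_Icc.2 ⟨by omega, by omega⟩)
      have h3 : ((k : K) + 1) ≠ 0 := by exact_mod_cast Nat.succ_ne_zero k
      have : (Nat.lcmUpto m : K) ^ (j + 1) * hs K (j + 1) (k + 1) =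
          (Nat.lcmUpto m : K) ^ (j + 1) * hs K (j + 1) k + ((Nat.lcmUpto m : K) ^ j * hs K j (k + 1)) * (c : K) := by
        have h4 : (Nat.lcmUpto m : K) = ((k : K) + 1) * c := by rw [hc]; push_cast; ring
        rw [hs_succ_succ, pow_succ, mul_add, mul_div_assoc', mul_assoc _ (Nat.lcmUpto m : K) (hs K j (k + 1))]
        congr 1
        rw [div_eq_iff h3]
        nth_rewrite 2 [h4]
        ring
      rw [this]
      exact (ihk (by omega)).add ((ih hk).mul (isIntegral_natCast _))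

theorem EFK_Hs [Algebra.IsAlgebraic ℚ K] (ρ : K) (n : ℕ) : EFK φ (Hs ρ n) := by
  obtain ⟨C, hC, h1, d1⟩ := EFK_fs (φ := φ) ρ
  have hA : (1 : ℝ) ≤ (2 ^ 8) ^ n := one_le_pow₀ (by norm_num)
  refine ⟨(2 ^ 8) ^ n * C, by nlinarith, fun m => ?_, fun m => ?_⟩
  · rcases Nat.even_or_odd' m with ⟨k, rfl | rfl⟩
    · rw [ck_Hs_even, map_mul, norm_mul, mul_pow]
      refine mul_le_mul ((norm_hs φ n k).trans ?_) (h1 _) (norm_nonneg _) (by positivity)
      have h2 : (k : ℝ) + 1 ≤ 2 ^ (k + 1) := by exact_mod_cast (Nat.lt_two_pow_self (n := k + 1)).le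
      have h3 : (2 : ℝ) ^ (k + 1) ≤ (2 ^ 8) ^ (k + 1) := pow_le_pow_left₀ (by norm_num) (by norm_num) _
      have h4 : ((2 : ℝ) ^ 8) ^ (k + 1) ≤ (2 ^ 8) ^ (2 * k + 1) := pow_le_pow_right₀ (by norm_num) (by omega)
      calc ((k : ℝ) + 1) ^ n ≤ ((2 ^ 8) ^ (2 * k + 1)) ^ n := pow_le_pow_left₀ (by positivity) (h2.trans (h3.trans h4)) n
        _ = ((2 ^ 8) ^ n) ^ (2 * k + 1) := pow_right_comm _ _ _
    · rw [ck_Hs_odd, map_zero, norm_zero]; positivity
  · obtain ⟨e, he, heC, hei⟩ := d1 m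
    refine ⟨Nat.lcmUpto m ^ n * e, Nat.mul_pos (pow_pos (Nat.lcmUpto_pos m) n) he, ?_, fun j hj => ?_⟩
    · push_cast
      rw [mul_pow]
      refine mul_le_mul ?_ heC (by positivity) (by positivity)
      have h2 : (Nat.lcmUpto m : ℝ) ≤ (2 ^ 8) ^ (m + 1) :=
        (Pool.Agent.R352.E.lcm_bound m).trans (pow_le_pow_right₀ (by norm_num) (Nat.le_succ m))
      calc (Nat.lcmUpto m : ℝ) ^ n ≤ ((2 ^ 8) ^ (m + 1)) ^ n := pow_le_pow_left₀ (by positivity) h2 n
        _ = ((2 ^ 8) ^ n) ^ (m + 1) := pow_right_comm _ _ _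
    · rcases Nat.even_or_odd' j with ⟨k, rfl | rfl⟩
      · rw [ck_Hs_even]
        have : ((Nat.lcmUpto m ^ n * e : ℕ) : K) * (hs K n k * ck (2 * k) (fs ρ)) =
            ((Nat.lcmUpto m : K) ^ n * hs K n k) * ((e : K) * ck (2 * k) (fs ρ)) := by push_cast; ring
        rw [this]
        exact (integral_hs n (by omega)).mul (hei _ hj)
      · rw [ck_Hs_odd, mul_zero]; exact isIntegral_zero

end

section

variable {K L : Type*} [Field K] [CharZero K] [Field L] [CharZero L] (φ : K →+* L)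

theorem map_hs (j k : ℕ) : φ (hs K j k) = hs L j k := by
  induction j generalizing k with
  | zero => rw [hs_zero, hs_zero, map_one]
  | succ j ih =>
    induction k with
    | zero => rw [hs_succ_zero, hs_succ_zero, map_zero]
    | succ k ihk => rw [hs_succ_succ, hs_succ_succ, map_add, map_div₀, ihk, ih, map_add, map_natCast, map_one]

theorem map_Hs (ρ : K) (j : ℕ) : PowerSeries.map φ (Hs ρ j) = Hs (φ ρ) j := by
  ext n
  rw [coeff_map, Hs, Hs, coeff_mk, coeff_mk]
  split_ifs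
  · rw [map_mul, map_div₀, map_pow, map_pow, map_natCast, map_hs]
  · rw [map_zero]

end

/-- the functions `H_j` and their derivatives -/
noncomputable def gH (K : Type) [Field K] (s : ℕ × Bool) (ρ : K) : K⟦X⟧ :=
  if s.2 then th (Hs ρ s.1) else Hs ρ s.1

theorem gH_false (K : Type) [Field K] (j : ℕ) (ρ : K) : gH K (j, false) ρ = Hs ρ j := by simp [gH]
theorem gH_true (K : Type) [Field K] (j : ℕ) (ρ : K) : gH K (j, true) ρ = th (Hs ρ j) := by simp [gH]

theorem den_gH {K : Type} [Field K] [CharZero K] (ρ : Kx K) (s : ℕ × Bool) :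
    Den (bH (fun ρ : Kx K => ρ.1)) (gH K s ρ.1) := by
  rcases s with ⟨j, _ | _⟩
  · rw [gH_false]; exact den_H ρ j
  · rw [gH_true]; exact den_thH ρ j

theorem fin_gH (K : Type) [Field K] [CharZero K] (ρ : K) (m : ℕ) (V : Submodule K K⟦X⟧)
    (hV : ∀ i ≤ m, Hs ρ i ∈ V ∧ th (Hs ρ i) ∈ V) (t : ℕ × Bool) (ht : t.1 ≤ m) :
    ∃ g₀ ∈ V, ∃ g₁ ∈ V, ∃ g₂ ∈ V, th (gH K t ρ) = g₀ + X * g₁ + X ^ 2 * g₂ := by
  rcases t with ⟨i, _ | _⟩
  · rw [gH_false]
    exact ⟨_, (hV i ht).2, 0, V.zero_mem, 0, V.zero_mem, by ring⟩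
  · rw [gH_true]
    rcases i with _ | i
    · refine ⟨0, V.zero_mem, 0, V.zero_mem, (4 * ρ) • Hs ρ 0, V.smul_mem _ (hV 0 ht).1, ?_⟩
      have h := th_Js ρ
      rw [Js] at h
      rw [Hs_zero, h, mul_smul_comm]
      ring
    · refine ⟨(2 : K) • th (Hs ρ i), V.smul_mem _ (hV i (by simp only at ht; omega)).2, 0, V.zero_mem,
        (4 * ρ) • Hs ρ (i + 1), V.smul_mem _ (hV (i + 1) ht).1, ?_⟩
      rw [th_th_Hs, mul_smul_comm]
      ring

/-- the family -/
noncomputable def HF : Fam (ℕ × Bool) where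
  g := fun K _ _ s ρ => gH K s ρ
  map := by
    intro K L _ _ _ _ φ s ρ
    rcases s with ⟨j, _ | _⟩
    · rw [gH_false, gH_false, map_Hs]
    · rw [gH_true, gH_true, map_th, map_Hs]
  efk := by
    intro K _ _ _ φ s ρ
    rcases s with ⟨j, _ | _⟩
    · rw [gH_false]; exact EFK_Hs ρ j
    · rw [gH_true]; exact EFK_th (EFK_Hs ρ j)
  fin := by
    classical
    intro s
    refine ⟨Finset.range (s.1 + 1) ×ˢ Finset.univ, ?_, fun K _ _ ρ t ht => ?_⟩
    · simp
    · refine fin_gH K ρ s.1 _ (fun i hi => ⟨?_, ?_⟩) t ?_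
      · refine Submodule.subset_span (Or.inr ⟨(i, false), ?_, (gH_false K i ρ).symm⟩)
        simp only [Finset.mem_product, Finset.mem_range, Finset.mem_univ, and_true]; omega
      · refine Submodule.subset_span (Or.inr ⟨(i, true), ?_, (gH_true K i ρ).symm⟩)
        simp only [Finset.mem_product, Finset.mem_range, Finset.mem_univ, and_true]; omega
      · have h := (Finset.mem_product.1 ht).1
        rw [Finset.mem_range] at h
        omega
  dir := by
    intro K _ _ m h hh h0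
    refine direct_Den ai_bH m h (fun n => ?_) h0
    refine Algebra.adjoin_induction (p := fun f _ => Den (bH (fun ρ : Kx K => ρ.1)) f) ?_ ?_ ?_ ?_ (hh n)
    · rintro f (hf | ⟨s, ρ, rfl⟩)
      · exact Den.of_SA hf
      · exact den_gH ρ s
    · intro r
      exact Den.const r
    · intro x y _ _ hx hy; exact hx.add hy
    · intro x y _ _ hx hy; exact hx.mul hy

end Pool.Agent.H18.Wd
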