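import Pool.Agent.H18.Wd.MomEq
import Pool.Agent.H18.Bes.Val2

/-!
# The moments in the right half plane
-/

set_option autoImplicit false
set_option linter.unusedSectionVars false

open Filter Topology Set MeasureTheory

namespace Pool.Agent.H18.Wd

open Pool.Agent.H18.Bes Pool.Agent.R352.E

open PowerSeries in
/-- `exp(c s) Γ(1 + s)` -/
noncomputable def PX (c : ℂ) : ℂ⟦X⟧ :=
  PowerSeries.mk (fun n => c ^ n / (n.factorial : ℂ)) * PowerSeries.map Complex.ofRealHom PA

open PowerSeries in
/-- the series of the solutions -/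
noncomputable def sC (z : ℂ) : ℂ⟦X⟧ := PowerSeries.mk (fun j => Hv j z) * PX (-Complex.log (z / 2))

theorem log_half_real {x : ℝ} (hx : 0 < x) : Complex.log ((x : ℂ) / 2) = ((Real.log (x / 2) : ℝ) : ℂ) := by
  have h4 : ((x : ℂ) / 2) = ((x / 2 : ℝ) : ℂ) := by push_cast; rfl
  rw [h4, ← Complex.ofReal_log (by positivity)]

open PowerSeries in
theorem sC_real {x : ℝ} (hx : 0 < x) : sC x = PowerSeries.map Complex.ofRealHom (sN x) := by
  have h1 : (PowerSeries.mk (fun j => Hv j x) : ℂ⟦X⟧) = PowerSeries.map Complex.ofRealHom (sH x) := by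
    ext j
    rw [coeff_mk, coeff_map, sH, coeff_mk, Hv_eq]
    have h2 : (((x ^ 2 / 4 : ℝ)) : ℂ) = (x : ℂ) ^ 2 / 4 := by push_cast; rfl
    rw [← h2, Hk_real]
    rfl
  have h2 : PX (-Complex.log ((x : ℂ) / 2)) = PowerSeries.map Complex.ofRealHom (PB (x / 2)) := by
    rw [PX, PB, map_mul]
    congr 1
    ext n
    rw [coeff_mk, coeff_map, PE, coeff_mk, log_half_real hx]
    simp
  rw [sC, sN, map_mul, h1, h2]

open PowerSeries in
theorem sC_diff (n : ℕ) {z : ℂ} (hz : z / 2 ∈ Complex.slitPlane) : DifferentiableAt ℂ (fun z => coeff n (sC z)) z := by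
  have h1 : DifferentiableAt ℂ (fun z : ℂ => -Complex.log (z / 2)) z :=
    (DifferentiableAt.comp (g := Complex.log) (f := fun z : ℂ => z / 2) z (Complex.differentiableAt_log hz)
      (differentiableAt_id.div_const 2)).neg
  simp only [sC, PX, coeff_mul, coeff_mk]
  refine DifferentiableAt.fun_sum fun p _ => (Hv_diff p.1 z).mul ?_
  refine DifferentiableAt.fun_sum fun q _ => ?_
  exact ((h1.pow q.1).div_const _).mul_const _

open PowerSeries in
/-- **the moments** -/
theorem tm_eq (k : ℕ) {z : ℂ} (hz : 0 < z.re) : tm (2 * k) 0 z / (2 * k).factorial = coeff (2 * k + 1) (sC z) := by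
  set U : Set ℂ := {z | 0 < z.re} with hU
  have hUo : IsOpen U := isOpen_lt continuous_const Complex.continuous_re
  have hUc : IsPreconnected U := (convex_halfSpace_re_gt 0).isPreconnected
  have hd : DifferentiableOn ℂ (fun z => tm (2 * k) 0 z / (2 * k).factorial - coeff (2 * k + 1) (sC z)) U := fun w hw =>
    (((tm_deriv (2 * k) 0 hw).differentiableAt.div_const _).sub (sC_diff _ (half_mem hw))).differentiableWithinAt
  have hreal : ∀ x : ℝ, 0 < x → tm (2 * k) 0 (x : ℂ) / (2 * k).factorial - coeff (2 * k + 1) (sC (x : ℂ)) = 0 := by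
    intro x hx
    have h1 := tr_eq k x hx
    rw [tm_real, sC_real hx, coeff_map]
    show _ - ((coeff (2 * k + 1) (sN x) : ℝ) : ℂ) = 0
    exact_mod_cast h1
  have hfr : ∃ᶠ w in 𝓝[≠] (1 : ℂ), tm (2 * k) 0 w / (2 * k).factorial - coeff (2 * k + 1) (sC w) = 0 := by
    have ht : Tendsto (fun x : ℝ => (x : ℂ)) (𝓝[≠] 1) (𝓝[≠] 1) := by
      refine tendsto_nhdsWithin_iff.2 ⟨?_, ?_⟩
      · have : Tendsto (fun x : ℝ => (x : ℂ)) (𝓝 1) (𝓝 ((1 : ℝ) : ℂ)) := Complex.continuous_ofReal.tendsto 1
        rw [Complex.ofReal_one] at this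
        exact this.mono_left nhdsWithin_le_nhds
      · filter_upwards [self_mem_nhdsWithin] with x hx
        intro h
        apply hx
        have h' : (x : ℂ) = 1 := h
        exact_mod_cast h'
    refine ht.frequently (Eventually.frequently ?_)
    have h1 : ∀ᶠ x : ℝ in 𝓝 1, 0 < x := lt_mem_nhds one_pos
    exact (h1.filter_mono nhdsWithin_le_nhds).mono fun x hx => hreal x hx
  have h := (hd.analyticOnNhd hUo).eqOn_zero_of_preconnected_of_frequently_eq_zero hUc
    (show (1 : ℂ) ∈ U by show (0 : ℝ) < (1 : ℂ).re; norm_num) hfr hz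
  exact sub_eq_zero.1 h

/-! ### Membership of the constants -/

open Pool.Agent.N902.EW

open PowerSeries in
theorem coeff_PX_zero (c : ℂ) : coeff 0 (PX c) = 1 := by
  rw [PX, coeff_mul]
  simp [PA, mo0]

open PowerSeries in
theorem dPX (c : ℂ) : PowerSeries.derivative ℂ (PX c) = PX c * (C c + PowerSeries.map Complex.ofRealHom PC) := by
  have h1 : PowerSeries.derivative ℂ (PowerSeries.mk (fun n => c ^ n / (n.factorial : ℂ))) =
      C c * PowerSeries.mk (fun n => c ^ n / (n.factorial : ℂ)) := by
    ext n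
    rw [coeff_derivative, coeff_C_mul, coeff_mk, coeff_mk, Nat.factorial_succ]
    have h4 : (n.factorial : ℂ) ≠ 0 := by exact_mod_cast n.factorial_ne_zero
    have h7 : ((n : ℂ) + 1) ≠ 0 := by exact_mod_cast Nat.succ_ne_zero n
    push_cast
    field_simp
    ring
  have h2 : PowerSeries.derivative ℂ (PowerSeries.map Complex.ofRealHom PA) =
      PowerSeries.map Complex.ofRealHom PA * PowerSeries.map Complex.ofRealHom PC := by
    rw [← map_mul, ← dPA]
    ext n
    rw [coeff_derivative, coeff_map, coeff_map, coeff_derivative, map_mul]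
    simp
  rw [PX, Derivation.leibniz, h1, h2]
  simp only [smul_eq_mul]
  ring

open PowerSeries in
theorem PX_mem {F : IntermediateField ℚ ℂ} {T : Set ℂ} {z : ℂ}
    (h0 : (Real.eulerMascheroniConstant : ℂ) + Complex.log (z / 2) ∈ clf F T) (J : ℕ)
    (hz : ∀ k, 2 ≤ k → k ≤ J → riemannZeta k ∈ clf F T) :
    ∀ n, n ≤ J ∨ n ≤ 1 → coeff n (PX (-Complex.log (z / 2))) ∈ clf F T := by
  have hc : ∀ j, j < J ∨ j < 1 → coeff j (C (-Complex.log (z / 2)) + PowerSeries.map Complex.ofRealHom PC : ℂ⟦X⟧) ∈ clf F T := by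
    intro j hj
    rw [map_add, coeff_C, coeff_map, PC, coeff_mk]
    cases j with
    | zero =>
      simp only [Pool.Agent.R352.E.cc, Nat.factorial_zero, Nat.cast_one, div_one, if_true]
      have := (clf F T).neg_mem h0
      convert this using 1
      rw [map_neg]
      simp
    | succ j =>
      have hj' : j + 1 < J := by omega
      simp only [Pool.Agent.R352.E.cc, Nat.succ_ne_zero, if_false, zero_add]
      have e : Complex.ofRealHom ((-1) ^ j * ((j + 1).factorial : ℝ) * zt (j + 2) / ((j + 1).factorial : ℝ)) =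
          (-1) ^ j * ((j + 1).factorial : ℂ) * riemannZeta ((j + 2 : ℕ) : ℂ) / ((j + 1).factorial : ℂ) := by
        rw [← zt_eq (k := j + 2) (by omega)]
        simp
      rw [e]
      refine (clf F T).div_mem ((clf F T).mul_mem ((clf F T).mul_mem ?_ ?_) (hz _ (by omega) (by omega))) ?_
      · exact (clf F T).pow_mem ((clf F T).neg_mem (clf F T).one_mem) _
      · exact natCast_mem (clf F T) _
      · exact natCast_mem (clf F T) _
  intro n
  induction n using Nat.strong_induction_on with
  | _ n ih =>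
    intro hn
    cases n with
    | zero => rw [coeff_PX_zero]; exact (clf F T).one_mem
    | succ n =>
      have h1 : coeff n (PowerSeries.derivative ℂ (PX (-Complex.log (z / 2)))) =
          coeff n (PX (-Complex.log (z / 2)) * (C (-Complex.log (z / 2)) + PowerSeries.map Complex.ofRealHom PC)) := by rw [dPX]
      rw [coeff_derivative, coeff_mul] at h1
      have h7 : ((n : ℂ) + 1) ≠ 0 := by exact_mod_cast Nat.succ_ne_zero n
      rw [← eq_div_iff h7] at h1
      rw [h1]
      refine (clf F T).div_mem ((clf F T).sum_mem fun p hp => ?_) ?_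
      · have hp' := Finset.HasAntidiagonal.mem_antidiagonal.1 hp
        exact (clf F T).mul_mem (ih p.1 (by omega) (by omega)) (hc p.2 (by omega))
      · exact_mod_cast natCast_mem (clf F T) (n + 1)

end Pool.Agent.H18.Wd
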