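import Pool.Agent.H18.Wd.HVal
import Pool.Agent.H18.Wd.MomC
import Pool.Agent.H18.Wd.Cnt
import Pool.Agent.H18.Bes.Fin

/-!
# The counting theorem with the moments
-/

set_option autoImplicit false
set_option linter.unusedSectionVars false

open Filter Topology Set MeasureTheory

namespace Pool.Agent.H18.Wd

open Pool.Agent.N902.EW Pool.Agent.H18.Bes Pool.Agent.R352.E

theorem slit {z : ℂ} (hz : 0 ≤ z.re) (h0 : z ≠ 0) : z / 2 ∈ Complex.slitPlane := by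
  rcases hz.lt_or_eq with h | h
  · exact half_mem h
  · refine Or.inr ?_
    have him : z.im ≠ 0 := fun h' => h0 (Complex.ext h.symm h')
    have h1 : (z / 2).im = z.im / 2 := by
      have := Complex.div_ofNat_im z 2
      exact this
    rw [h1]
    exact div_ne_zero him (by norm_num)

open PowerSeries in
/-- the limit on the closed half plane -/
theorem tm_tendsto (k : ℕ) {z : ℂ} (hz : 0 ≤ z.re) (h0 : z ≠ 0) :
    Tendsto (fun ε : ℝ => tm (2 * k) 0 (z + ε)) (𝓝[>] 0) (𝓝 ((2 * k).factorial * coeff (2 * k + 1) (sC z))) := by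
  have h1 : Tendsto (fun ε : ℝ => z + (ε : ℂ)) (𝓝[>] 0) (𝓝 z) := by
    have : Tendsto (fun ε : ℝ => z + (ε : ℂ)) (𝓝 0) (𝓝 (z + ((0 : ℝ) : ℂ))) :=
      (continuous_const.add Complex.continuous_ofReal).tendsto 0
    rw [Complex.ofReal_zero, add_zero] at this
    exact this.mono_left nhdsWithin_le_nhds
  refine (((sC_diff (2 * k + 1) (slit hz h0)).continuousAt.tendsto.comp h1).const_mul _).congr' ?_
  filter_upwards [self_mem_nhdsWithin] with ε hε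
  have hε' : (0 : ℝ) < ε := hε
  have h2 := tm_eq k (z := z + ε) (by rw [Complex.add_re, Complex.ofReal_re]; linarith)
  have h3 : ((2 * k).factorial : ℂ) ≠ 0 := by exact_mod_cast (2 * k).factorial_ne_zero
  show ((2 * k).factorial : ℂ) * coeff (2 * k + 1) (sC (z + ε)) = _
  rw [← h2]
  field_simp

/-- the moments `∫_0^∞ t^(2k) exp(-z cosh t) dt` for `0 ≤ re z`, `z ≠ 0` -/
noncomputable def Mo (k : ℕ) (z : ℂ) : ℂ := limUnder (𝓝[>] (0 : ℝ)) fun ε : ℝ =>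
  ∫ t in Ioi (0 : ℝ), (t : ℂ) ^ (2 * k) * Complex.exp (-(z + ε) * Real.cosh t)

theorem Mo_fun (k : ℕ) (z : ℂ) : (fun ε : ℝ => ∫ t in Ioi (0 : ℝ), (t : ℂ) ^ (2 * k) * Complex.exp (-(z + ε) * Real.cosh t)) =
    fun ε : ℝ => tm (2 * k) 0 (z + ε) := by
  funext ε
  rw [tm]
  refine integral_congr_ae (Eventually.of_forall fun t => ?_)
  show _ = tf (2 * k) 0 (z + ε) t
  rw [tf, kf, pow_zero, one_mul]

open PowerSeries in
theorem Mo_eq (k : ℕ) {z : ℂ} (hz : 0 ≤ z.re) (h0 : z ≠ 0) : Mo k z = (2 * k).factorial * coeff (2 * k + 1) (sC z) := by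
  rw [Mo, Mo_fun]
  exact (tm_tendsto k hz h0).limUnder_eq

/-- the index set of the moments -/
abbrev Iz (L : ℕ) (Z : Set ℂ) : Type := {p : ℂ × ℕ // p.1 ∈ Z ∧ (p.2 = 0 ∨ 2 * p.2 + 1 ≤ L)}

/-- the numbers -/
noncomputable def mu {L : ℕ} {P : Set ℝ} {X Z : Set ℂ} : Iz L Z ⊕ Ix L P X → ℂ :=
  Sum.elim (fun p => Mo p.1.2 p.1.1) nu

/-- the independent numbers -/
noncomputable def si {L : ℕ} {P : Set ℝ} {X Z : Set ℂ} : Iz L Z ⊕ Ix L P X → ℂ :=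
  Sum.elim (fun p => Hv (2 * p.1.2 + 1) p.1.1) su

section

variable {L : ℕ} {P : Set ℝ} {X Z : Set ℂ} {T : Set ℂ}

theorem su_mem'' (hP : ∀ x ∈ P, 0 < x ∧ IsAlgebraic ℚ x)
    (hL : ∀ k, 2 ≤ k → k ≤ L → riemannZeta k ∈ clf DB T)
    (hG : ∀ x ∈ P, ((Real.eulerMascheroniConstant + Real.log x : ℝ) : ℂ) ∈ clf DB T) (i : Ix L P X)
    (hi : nu i ∈ clf DB T) : su i ∈ clf DB T := by
  rcases i with p | p
  · have h3 := zeta_split p.2.1 p.1.2
    have h4 : PS p.1.1 p.1.2 = riemannZeta p.1.1 - PT p.1.1 p.1.2 := by rw [h3]; ring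
    show PS p.1.1 p.1.2 ∈ _
    rw [h4]
    exact (clf DB T).sub_mem (hL _ p.2.1 p.2.2.1) hi
  · show ((-EE p.1.1 p.1.2 : ℝ) : ℂ) ∈ _
    push_cast
    refine (clf DB T).neg_mem ?_
    refine EE_mem' (hP _ p.2.2.2).1 p.1.1 ?_ (hG _ p.2.2.2) (fun k h2 hk => hL k h2 (hk.trans p.2.2.1)) hi
    push_cast
    refine E0_le_clf (E0_le_DB (exp_mem_E0 ?_))
    exact (alg_cast (hP _ p.2.2.2).2).neg

open PowerSeries in
/-- the triangular relations -/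
theorem tri {z : ℂ} (hz : 0 ≤ z.re) (h0 : z ≠ 0) (ha : IsAlgebraic ℚ z) {k : ℕ} (hk : k = 0 ∨ 2 * k + 1 ≤ L)
    (hL : ∀ k, 2 ≤ k → k ≤ L → riemannZeta k ∈ clf DB T)
    (hg : (Real.eulerMascheroniConstant : ℂ) + Complex.log (z / 2) ∈ clf DB T)
    (hM : ∀ j ≤ k, Mo j z ∈ clf DB T) : ∀ j ≤ k, Hv (2 * j + 1) z ∈ clf DB T := by
  classical
  intro j
  induction j using Nat.strong_induction_on with
  | _ j ih =>
    intro hj
    have h1 := Mo_eq j hz h0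
    have h3 : ((2 * j).factorial : ℂ) ≠ 0 := by exact_mod_cast (2 * j).factorial_ne_zero
    have h2 : coeff (2 * j + 1) (sC z) = Mo j z / (2 * j).factorial := by rw [h1]; field_simp
    rw [sC, coeff_mul, Finset.Nat.antidiagonal_succ', Finset.sum_cons] at h2
    simp only [coeff_mk, coeff_PX_zero, mul_one] at h2
    rw [eq_sub_of_add_eq h2]
    refine (clf DB T).sub_mem ((clf DB T).div_mem (hM j hj) (natCast_mem (clf DB T) _)) ((clf DB T).sum_mem fun p hp => ?_)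
    obtain ⟨q, hq, rfl⟩ := Finset.mem_map.1 hp
    have hq' := Finset.HasAntidiagonal.mem_antidiagonal.1 hq
    simp only [Function.Embedding.prodMap, Function.Embedding.coeFn_mk, Prod.map, Function.Embedding.refl_apply]
    refine (clf DB T).mul_mem ?_ (PX_mem hg L hL _ ?_)
    · rcases Nat.even_or_odd' q.1 with ⟨i, hi | hi⟩
      · rw [hi]; exact E0_le_clf (Hv_mem ha i)
      · rw [hi]; exact ih i (by omega) (by omega)
    · rcases hk with hk | hk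
      · right; simp only [Nat.succ_eq_add_one]; omega
      · left; simp only [Nat.succ_eq_add_one]; omega

theorem tri_all (hP : ∀ x ∈ P, 0 < x ∧ IsAlgebraic ℚ x) {Y : Set ℂ}
    (hZ : ∀ z ∈ Z, IsAlgebraic ℚ z ∧ z ≠ 0 ∧ 0 ≤ z.re)
    (hL : ∀ k, 2 ≤ k → k ≤ L → riemannZeta k ∈ clf DB Y)
    (hG : ∀ x ∈ P, ((Real.eulerMascheroniConstant + Real.log x : ℝ) : ℂ) ∈ clf DB Y)
    (hg : ∀ z ∈ Z, (Real.eulerMascheroniConstant : ℂ) + Complex.log (z / 2) ∈ clf DB Y) (i : Iz L Z ⊕ Ix L P X) :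
    ∃ D : Finset (Iz L Z ⊕ Ix L P X), i ∈ D ∧ ∀ j ∈ D, si j ∈ clf DB (Y ∪ mu '' (D : Set (Iz L Z ⊕ Ix L P X))) := by
  classical
  rcases i with p | i
  · have hok : ∀ j : Fin (p.1.2 + 1), (j : ℕ) = 0 ∨ 2 * (j : ℕ) + 1 ≤ L := fun j => by
      have h1 := j.2
      rcases p.2.2 with h | h <;> omega
    let g : Fin (p.1.2 + 1) → Iz L Z ⊕ Ix L P X := fun j => Sum.inl ⟨(p.1.1, j), p.2.1, hok j⟩
    refine ⟨Finset.univ.image g, ?_, ?_⟩
    · refine Finset.mem_image.2 ⟨⟨p.1.2, Nat.lt_succ_self _⟩, Finset.mem_univ _, ?_⟩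
      rfl
    · intro j hj
      obtain ⟨j, -, rfl⟩ := Finset.mem_image.1 hj
      show Hv (2 * (j : ℕ) + 1) p.1.1 ∈ _
      have hsub : Y ⊆ Y ∪ mu '' ((Finset.univ.image g : Finset _) : Set (Iz L Z ⊕ Ix L P X)) := subset_union_left
      refine tri (hZ _ p.2.1).2.2 (hZ _ p.2.1).2.1 (hZ _ p.2.1).1 p.2.2 (fun k h2 hk => clf_mono hsub (hL k h2 hk))
        (clf_mono hsub (hg _ p.2.1)) (fun i hi => ?_) j (by have := j.2; omega)
      refine subset_clf _ (Or.inr ⟨g ⟨i, by omega⟩, ?_, rfl⟩)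
      exact Finset.mem_coe.2 (Finset.mem_image.2 ⟨_, Finset.mem_univ _, rfl⟩)
  · refine ⟨{Sum.inr i}, Finset.mem_singleton_self _, ?_⟩
    intro j hj
    obtain rfl := Finset.mem_singleton.1 hj
    have hsub : Y ⊆ Y ∪ mu '' (({Sum.inr i} : Finset (Iz L Z ⊕ Ix L P X)) : Set (Iz L Z ⊕ Ix L P X)) := subset_union_left
    refine su_mem'' hP (fun k h2 hk => clf_mono hsub (hL k h2 hk)) (fun x hx => clf_mono hsub (hG x hx)) i ?_
    exact subset_clf _ (Or.inr ⟨Sum.inr i, Finset.mem_coe.2 (Finset.mem_singleton_self _), rfl⟩)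

theorem ai_si (hP : ∀ x ∈ P, 0 < x ∧ IsAlgebraic ℚ x)
    (hX : ∀ x ∈ X, IsAlgebraic ℚ x ∧ ∀ y ∈ X, x + y ≠ 0) (hZ : Pts Z) :
    AlgebraicIndependent DB (si (L := L) (P := P) (X := X) (Z := Z)) := ai_odd' L P hP X hX hZ

variable {τ : Type} [Fintype τ] {y : τ → ℂ}

theorem count_M (hP : ∀ x ∈ P, 0 < x ∧ IsAlgebraic ℚ x)
    (hX : ∀ x ∈ X, IsAlgebraic ℚ x ∧ ∀ y ∈ X, x + y ≠ 0) (hZ : Pts Z) (hZ' : ∀ z ∈ Z, 0 ≤ z.re)
    (hL : ∀ k, 2 ≤ k → k ≤ L → riemannZeta k ∈ clf DB (range y))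
    (hG : ∀ x ∈ P, ((Real.eulerMascheroniConstant + Real.log x : ℝ) : ℂ) ∈ clf DB (range y))
    (hg : ∀ z ∈ Z, (Real.eulerMascheroniConstant : ℂ) + Complex.log (z / 2) ∈ clf DB (range y)) :
    {n : τ ⊕ (Iz L Z ⊕ Ix L P X) | Sum.elim (fun j => IsAlgebraic DB (y j)) (fun i => IsAlgebraic DB (mu i)) n}.encard ≤
      (Fintype.card τ : ℕ∞) :=
  cnt (ai_si hP hX hZ) (tri_all hP (fun z hz => ⟨(hZ.1 z hz).1, (hZ.1 z hz).2, hZ' z hz⟩) hL hG hg)

theorem trdeg_M (hP : ∀ x ∈ P, 0 < x ∧ IsAlgebraic ℚ x)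
    (hX : ∀ x ∈ X, IsAlgebraic ℚ x ∧ ∀ y ∈ X, x + y ≠ 0) (hZ : Pts Z) (hZ' : ∀ z ∈ Z, 0 ≤ z.re)
    (hL : ∀ k, 2 ≤ k → k ≤ L → riemannZeta k ∈ clf DB (range y))
    (hG : ∀ x ∈ P, ((Real.eulerMascheroniConstant + Real.log x : ℝ) : ℂ) ∈ clf DB (range y))
    (hg : ∀ z ∈ Z, (Real.eulerMascheroniConstant : ℂ) + Complex.log (z / 2) ∈ clf DB (range y))
    (A : Finset (Iz L Z ⊕ Ix L P X)) :
    (A.card : Cardinal) ≤ Algebra.trdeg DB (IntermediateField.adjoin DB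
      (range y ∪ mu '' (A : Set (Iz L Z ⊕ Ix L P X)))) :=
  trdeg_of_eRk (rk_ge (ai_si hP hX hZ) (tri_all hP (fun z hz => ⟨(hZ.1 z hz).1, (hZ.1 z hz).2, hZ' z hz⟩) hL hG hg) A)

end

theorem mem_zeta {T : Set ℂ} {c : ℕ} (h3 : riemannZeta 3 ∈ clf DB T) (h4 : riemannZeta 3 / (Real.pi : ℂ) ^ 3 ∈ clf DB T)
    (h5 : ∀ i : Fin c, riemannZeta ((2 * i + 5 : ℕ) : ℂ) ∈ clf DB T) (k : ℕ) (hk : 2 ≤ k) (hk' : k ≤ 2 * c + 4) :
    riemannZeta k ∈ clf DB T := by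
  have hz : riemannZeta 3 ≠ 0 := by
    refine riemannZeta_ne_zero_of_one_lt_re ?_
    norm_num
  have hpi0 : (Real.pi : ℂ) ≠ 0 := by exact_mod_cast Real.pi_ne_zero
  have hpi : (Real.pi : ℂ) ∈ clf DB T := by
    refine clf_pow (F := DB) (n := 3) (by norm_num) ?_
    have h5 : (Real.pi : ℂ) ^ 3 = riemannZeta 3 / (riemannZeta 3 / (Real.pi : ℂ) ^ 3) := by
      field_simp
    rw [h5]
    exact (clf DB _).div_mem h3 h4
  rcases Nat.even_or_odd' k with ⟨j, rfl | rfl⟩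
  · have h6 := riemannZeta_two_mul_nat (k := j) (by omega)
    push_cast at h6 ⊢
    rw [h6]
    refine (clf DB _).div_mem ((clf DB _).mul_mem ((clf DB _).mul_mem ((clf DB _).mul_mem ?_ ?_) ?_) ?_) ?_
    · exact (clf DB _).pow_mem ((clf DB _).neg_mem (clf DB _).one_mem) _
    · exact (clf DB _).pow_mem (ofNat_mem _ _) _
    · exact (clf DB _).pow_mem hpi _
    · exact E0_le_clf (SubfieldClass.ratCast_mem DB _)
    · exact natCast_mem (clf DB _) _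
  · rcases Nat.lt_or_ge j 2 with hj | hj
    · have : j = 1 := by omega
      subst this
      norm_num
      exact h3
    · have h7 := h5 (⟨j - 2, by omega⟩ : Fin c)
      have h8 : 2 * (j - 2) + 5 = 2 * j + 1 := by omega
      simp only [h8] at h7
      exact h7

end Pool.Agent.H18.Wd
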