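import Pool.Agent.H18.Bes.Ser
import Pool.Agent.H18.Wd.HF

/-!
# The entire functions `H_j`
-/

set_option autoImplicit false
set_option linter.unusedSectionVars false

open Filter Topology Set

namespace Pool.Agent.H18.Wd

open Pool.Agent.H18.Bes

section

variable {𝕜 : Type*} [RCLike 𝕜]

variable (𝕜) in
/-- `h_j(1, …, 1/k) / k!^2` -/
noncomputable def ah (j k : ℕ) : 𝕜 := hs 𝕜 j k / (k.factorial : 𝕜) ^ 2

theorem norm_hs' (j k : ℕ) : ‖hs 𝕜 j k‖ ≤ ((k : ℝ) + 1) ^ j := by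
  induction j generalizing k with
  | zero => rw [hs_zero]; simp
  | succ j ih =>
    induction k with
    | zero => rw [hs_succ_zero]; simp
    | succ k ihk =>
      rw [hs_succ_succ]
      refine (norm_add_le _ _).trans ?_
      have h2 : ((k : 𝕜) + 1) = ((k + 1 : ℕ) : 𝕜) := by push_cast; rfl
      have h3 : (1 : ℝ) ≤ ((k + 1 : ℕ) : ℝ) := by exact_mod_cast Nat.succ_le_succ (Nat.zero_le k)
      have h4 : ‖hs 𝕜 j (k + 1) / ((k : 𝕜) + 1)‖ ≤ (((k + 1 : ℕ) : ℝ) + 1) ^ j := by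
        rw [h2, norm_div, RCLike.norm_natCast]
        exact (div_le_self (norm_nonneg _) h3).trans (ih (k + 1))
      have h5 : ((k : ℝ) + 1) ^ (j + 1) ≤ ((k : ℝ) + 1) * (((k + 1 : ℕ) : ℝ) + 1) ^ j := by
        rw [pow_succ, mul_comm]
        refine mul_le_mul_of_nonneg_left ?_ (by positivity)
        refine pow_le_pow_left₀ (by positivity) ?_ j
        push_cast
        linarith
      calc ‖hs 𝕜 (j + 1) k‖ + ‖hs 𝕜 j (k + 1) / ((k : 𝕜) + 1)‖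
          ≤ ((k : ℝ) + 1) * (((k + 1 : ℕ) : ℝ) + 1) ^ j + (((k + 1 : ℕ) : ℝ) + 1) ^ j :=
            add_le_add (ihk.trans h5) h4
        _ = (((k + 1 : ℕ) : ℝ) + 1) ^ (j + 1) := by rw [pow_succ]; push_cast; ring

theorem Ent.of_le {a b : ℕ → 𝕜} (h : Ent b) (hab : ∀ n, ‖a n‖ ≤ ‖b n‖) : Ent a := fun r hr =>
  Summable.of_nonneg_of_le (fun n => by positivity)
    (fun n => mul_le_mul_of_nonneg_right (hab n) (by positivity)) (h r hr)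

theorem ent_pow (j : ℕ) : Ent (fun k => ((k : 𝕜) + 1) ^ j / (k.factorial : 𝕜)) := by
  induction j with
  | zero =>
    intro r hr
    refine (Real.summable_pow_div_factorial r).congr fun n => ?_
    show _ = ‖((n : 𝕜) + 1) ^ 0 / (n.factorial : 𝕜)‖ * r ^ n
    rw [pow_zero, norm_div, norm_one, RCLike.norm_natCast]
    ring
  | succ j ih =>
    have h1 : Ent (fun k => (k : 𝕜) * (((k : 𝕜) + 1) ^ j / (k.factorial : 𝕜)) + ((k : 𝕜) + 1) ^ j / (k.factorial : 𝕜)) := by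
      intro r hr
      refine Summable.of_nonneg_of_le (fun n => by positivity) (fun n => ?_) ((ih.nmul r hr).add (ih r hr))
      rw [← add_mul]
      exact mul_le_mul_of_nonneg_right (norm_add_le _ _) (by positivity)
    convert h1 using 2 with k
    rw [pow_succ]
    ring

theorem ent_ah (j : ℕ) : Ent (ah 𝕜 j) := by
  refine Ent.of_le (ent_pow (𝕜 := 𝕜) j) fun k => ?_
  have h2 : ((k : 𝕜) + 1) = ((k + 1 : ℕ) : 𝕜) := by push_cast; rfl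
  rw [ah, norm_div, norm_div, norm_pow, norm_pow, h2, RCLike.norm_natCast, RCLike.norm_natCast]
  have h3 : (1 : ℝ) ≤ k.factorial := by exact_mod_cast k.factorial_pos
  have h4 := norm_hs' (𝕜 := 𝕜) j k
  have h5 : (((k + 1 : ℕ) : ℝ)) ^ j = ((k : ℝ) + 1) ^ j := by push_cast; rfl
  rw [h5]
  calc ‖hs 𝕜 j k‖ / (k.factorial : ℝ) ^ 2 ≤ ((k : ℝ) + 1) ^ j / (k.factorial : ℝ) ^ 2 := by gcongr
    _ ≤ ((k : ℝ) + 1) ^ j / (k.factorial : ℝ) := by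
        refine div_le_div_of_nonneg_left (by positivity) (by positivity) ?_
        nlinarith

theorem dc_ah_zero : Bes.dc (fun n => (n : 𝕜) * ah 𝕜 0 n) = ah 𝕜 0 := by
  funext k
  rw [Bes.dc, ah, ah, Nat.factorial_succ, hs_zero, hs_zero]
  have := fac_ne (𝕜 := 𝕜) k
  have := succ_ne (𝕜 := 𝕜) k
  push_cast
  field_simp

theorem dc_ah_succ (j : ℕ) : Bes.dc (fun n => (n : 𝕜) * ah 𝕜 (j + 1) n) = fun n => ah 𝕜 (j + 1) n + Bes.dc (ah 𝕜 j) n := by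
  funext k
  rw [Bes.dc, Bes.dc, ah, ah, ah, Nat.factorial_succ, hs_succ_succ]
  have := fac_ne (𝕜 := 𝕜) k
  have := succ_ne (𝕜 := 𝕜) k
  push_cast
  field_simp

variable (𝕜)

/-- `H_j` in the variable `ρ` -/
noncomputable def Hk (j : ℕ) (z : 𝕜) : 𝕜 := sr (ah 𝕜 j) z
/-- `ρ d/dρ H_j` -/
noncomputable def Gk (j : ℕ) (z : 𝕜) : 𝕜 := sr (fun n => (n : 𝕜) * ah 𝕜 j n) z
noncomputable def H1 (j : ℕ) (z : 𝕜) : 𝕜 := sr (Bes.dc (ah 𝕜 j)) z

variable {𝕜}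

theorem Hk_deriv (j : ℕ) (z : 𝕜) : HasDerivAt (Hk 𝕜 j) (H1 𝕜 j z) z := sr_hasDerivAt (ent_ah j) z

theorem Gk_deriv_zero (z : 𝕜) : HasDerivAt (Gk 𝕜 0) (Hk 𝕜 0 z) z := by
  have := sr_hasDerivAt (𝕜 := 𝕜) (ent_ah 0).nmul z
  rwa [dc_ah_zero] at this

theorem Gk_deriv_succ (j : ℕ) (z : 𝕜) : HasDerivAt (Gk 𝕜 (j + 1)) (Hk 𝕜 (j + 1) z + H1 𝕜 j z) z := by
  have := sr_hasDerivAt (𝕜 := 𝕜) (ent_ah (j + 1)).nmul z
  rwa [dc_ah_succ, sr_add (ent_ah (j + 1)) (ent_ah j).dc] at this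

theorem mul_H1 (j : ℕ) (z : 𝕜) : z * H1 𝕜 j z = Gk 𝕜 j z := mul_sr_dc (ent_ah j) z

theorem Hk_zero (j : ℕ) : Hk 𝕜 j 0 = if j = 0 then 1 else 0 := by
  rw [Hk, sr_zero, ah]
  rcases j with _ | j
  · rw [hs_zero]; simp
  · rw [hs_succ_zero]; simp

end

/-! ### The series of the values -/

/-- `∑ h_j(1, …, 1/k) (z^2/4)^k / k!^2` -/
noncomputable def Hv (j : ℕ) (z : ℂ) : ℂ := ∑' k : ℕ, hs ℂ j k * ((z ^ 2 / 4) ^ k / (k.factorial : ℂ) ^ 2)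

/-- `∑ k h_j(1, …, 1/k) (z^2/4)^k / k!^2` -/
noncomputable def Hd (j : ℕ) (z : ℂ) : ℂ := ∑' k : ℕ, (k : ℂ) * (hs ℂ j k * ((z ^ 2 / 4) ^ k / (k.factorial : ℂ) ^ 2))

theorem Hv_eq (j : ℕ) (z : ℂ) : Hv j z = Hk ℂ j (z ^ 2 / 4) := by
  rw [Hv, Hk, sr]
  refine tsum_congr fun k => ?_
  rw [ah]
  ring

theorem hs_real (j k : ℕ) : hs ℂ j k = ((hs ℝ j k : ℝ) : ℂ) := (map_hs Complex.ofRealHom j k).symm

theorem Hk_real (j : ℕ) (x : ℝ) : Hk ℂ j (x : ℂ) = ((Hk ℝ j x : ℝ) : ℂ) := by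
  rw [Hk, Hk, sr, sr, Complex.ofReal_tsum]
  refine tsum_congr fun k => ?_
  rw [ah, ah, hs_real]
  push_cast
  rfl

theorem Hv_diff (j : ℕ) : Differentiable ℂ (Hv j) := by
  have h : Hv j = fun z => Hk ℂ j (z ^ 2 / 4) := funext (Hv_eq j)
  rw [h]
  intro z
  exact ((Hk_deriv j (z ^ 2 / 4)).differentiableAt).comp z (by fun_prop)

end Pool.Agent.H18.Wd
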