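import Pool.Agent.H18.Wd.HSer
import Pool.Agent.H18.Bes.Val2

/-!
# Algebraic independence of the values
-/

set_option autoImplicit false
set_option linter.unusedSectionVars false

open PowerSeries Set

namespace Pool.Agent.H18.Wd

open Pool.Agent.N902.EW Pool.Agent.H18.Bes Pool.Agent.R352.E

section

variable {K : Type} [Field K] [CharZero K] {σ τ : Type} {F : Fam σ} {b : τ → K⟦X⟧}

theorem ai_AA (hb : AlgebraicIndependent (LV K) (fun s => ps (b s))) : AlgebraicIndependent (AA K) b := by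
  have h := (tr_X.sumElim (ai_adj hb)).comp Sum.inl Sum.inl_injective
  exact h

theorem D1_le_FA (hF : ∀ s, b s ∈ FA F K) {f : K⟦X⟧} (hf : f ∈ D1 b) : f ∈ FA F K := by
  refine Algebra.adjoin_induction (p := fun f _ => f ∈ FA F K) ?_ ?_ ?_ ?_ hf
  · rintro _ ⟨p, rfl⟩
    exact hF p
  · intro r; exact SA_le_FA r.2
  · intro b c _ _ hb hc; exact (FA F K).add_mem hb hc
  · intro b c _ _ hb hc; exact (FA F K).mul_mem hb hc

end

/-- the evaluation on the algebra -/
noncomputable def evD {σ τ : Type} {F : Fam σ} {b : τ → (Qb : Type)⟦X⟧} (hF : ∀ s, b s ∈ FA F Qb) : D1 b →+* ℂ where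
  toFun f := evk io f.1
  map_one' := evk_one
  map_zero' := evk_zero
  map_mul' f g := evk_mul (EFK_FA (D1_le_FA hF f.2)) (EFK_FA (D1_le_FA hF g.2))
  map_add' f g := evk_add (EFK_FA (D1_le_FA hF f.2)) (EFK_FA (D1_le_FA hF g.2))

theorem evD_injective {σ τ : Type} {F : Fam σ} {b : τ → (Qb : Type)⟦X⟧} (hF : ∀ s, b s ∈ FA F Qb) :
    Function.Injective (evD hF) := by
  rw [injective_iff_map_eq_zero]
  intro f hf
  exact Subtype.ext (evk_inj_Qb'' io (D1_le_FA hF f.2) hf)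

/-- **the values are algebraically independent over the field of the values of the iterated integrals** -/
theorem ai_val {σ τ : Type} {F : Fam σ} {b : τ → (Qb : Type)⟦X⟧} (hb : AlgebraicIndependent (LV Qb) (fun s => ps (b s)))
    (hF : ∀ s, b s ∈ FA F Qb) : AlgebraicIndependent HH (fun p => evk io (b p)) := by
  rw [HH, IntermediateField.algebraicIndependent_adjoin_iff]
  let R' : Subalgebra ℚ ℂ := Algebra.adjoin ℚ (Set.range (evA io : AA Qb →+* ℂ))
  have hex : ∀ z ∈ R', ∃ f : AA Qb, evA io f = z := by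
    intro z hz
    induction hz using Algebra.adjoin_induction with
    | mem z hz => exact hz
    | algebraMap r =>
      refine ⟨algebraMap Qb (AA Qb) (algebraMap ℚ Qb r), ?_⟩
      rw [evA_algebraMap]
      simp
    | add x y _ _ hx hy =>
      obtain ⟨f, hf⟩ := hx
      obtain ⟨g, hg⟩ := hy
      exact ⟨f + g, by rw [map_add, hf, hg]⟩
    | mul x y _ _ hx hy =>
      obtain ⟨f, hf⟩ := hx
      obtain ⟨g, hg⟩ := hy
      exact ⟨f * g, by rw [map_mul, hf, hg]⟩
  let f : AA Qb →+* R' := (evA io).codRestrict R'.toSubring (fun b => Algebra.subset_adjoin ⟨b, rfl⟩)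
  have hf : Function.Surjective f := by
    rintro ⟨z, hz⟩
    obtain ⟨g, hg⟩ := hex z hz
    exact ⟨g, Subtype.ext hg⟩
  have h := algebraicIndependent_adjoin (ai_AA hb)
  exact h.ringHom_of_comp_eq f (evD hF) hf (evD_injective hF) (RingHom.ext fun b => rfl)

/-- the joint independence over the field of the exponentials -/
theorem ai_val_E0 {σ τ : Type} {F : Fam σ} {b : τ → (Qb : Type)⟦X⟧} (hb : AlgebraicIndependent (LV Qb) (fun s => ps (b s)))
    (hF : ∀ s, b s ∈ FA F Qb) (L : ℕ) (P : Set ℝ) (hP : ∀ x ∈ P, 0 < x ∧ IsAlgebraic ℚ x) (X : Set ℂ)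
    (hX : ∀ x ∈ X, IsAlgebraic ℚ x ∧ ∀ y ∈ X, x + y ≠ 0) :
    AlgebraicIndependent E0 (Sum.elim (fun p => evk io (b p)) (su (L := L) (P := P) (X := X))) := by
  let _ : Algebra E0 HH := (IntermediateField.inclusion E0_le_HH).toRingHom.toAlgebra
  have : IsScalarTower E0 HH ℂ := IsScalarTower.of_algebraMap_eq fun _ => rfl
  refine (ai_su L P hP X hX).sumElim_of_tower (S := HH) ?_ (ai_val hb hF)
  rintro _ ⟨i, rfl⟩
  refine ⟨⟨su i, su_mem_HH hP (fun x hx => ⟨(hX x hx).1, fun h0 => (hX x hx).2 x hx (by rw [h0, add_zero])⟩) i⟩, rfl⟩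

/-- change of the base field: the independent family is split -/
theorem ai_split {ι κ : Type*} {x : ι → ℂ} {y : κ → ℂ} (h : AlgebraicIndependent E0 (Sum.elim x y)) {G : Set ℂ} {B : IntermediateField ℚ ℂ}
    (hG : ∀ z ∈ G, z ∈ range y) (hB : B ≤ (IntermediateField.adjoin E0 G).restrictScalars ℚ) : AlgebraicIndependent B x := by
  have h1 : AlgebraicIndependent (IntermediateField.adjoin E0 (range y)) x := by
    rw [IntermediateField.algebraicIndependent_adjoin_iff]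
    exact (AlgebraicIndependent.sumElim_iff.1 h).2
  have hB' : B ≤ (IntermediateField.adjoin E0 (range y)).restrictScalars ℚ := by
    refine hB.trans ?_
    intro z hz
    exact IntermediateField.adjoin.mono _ _ _ (fun w hw => hG w hw) hz
  have h' : AlgebraicIndependent ((IntermediateField.adjoin E0 (range y)).restrictScalars ℚ) x := h1
  let _ : Algebra B ((IntermediateField.adjoin E0 (range y)).restrictScalars ℚ) :=
    (IntermediateField.inclusion hB').toRingHom.toAlgebra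
  have : IsScalarTower B ((IntermediateField.adjoin E0 (range y)).restrictScalars ℚ) ℂ := IsScalarTower.of_algebraMap_eq fun _ => rfl
  exact h'.restrictScalars (IntermediateField.inclusion hB').injective

/-! ### The functions `H_j` -/

theorem bH_mem (s : Jx (Kx Qb)) : bH (fun ρ : Kx Qb => ρ.1) s ∈ FA HF Qb := by
  rcases s with ⟨ρ, j | k⟩ | ρ | ρ
  · have := g_le_FA (F := HF) (j + 1, false) ρ
    rwa [show HF.g Qb (j + 1, false) ρ.1 = Hs ρ.1 (j + 1) from gH_false Qb (j + 1) ρ.1] at this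
  · have := g_le_FA (F := HF) (2 * k + 2, true) ρ
    rwa [show HF.g Qb (2 * k + 2, true) ρ.1 = th (Hs ρ.1 (2 * k + 2)) from gH_true Qb (2 * k + 2) ρ.1] at this
  · have := g_le_FA (F := HF) (0, true) ρ
    rw [show HF.g Qb (0, true) ρ.1 = th (Hs ρ.1 0) from gH_true Qb 0 ρ.1, Hs_zero] at this
    exact this
  · have := g_le_FA (F := HF) (0, false) ρ
    rw [show HF.g Qb (0, false) ρ.1 = Hs ρ.1 0 from gH_false Qb 0 ρ.1, Hs_zero] at this
    exact this

theorem evk_Hs (ρ : Qb) (j : ℕ) {z : ℂ} (hz : io ρ = z ^ 2 / 4) : evk io (Hs ρ j) = Hv j z := by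
  rw [evk, tsum_two (fun k => by rw [coeff_Hs_odd, map_zero]), Hv]
  refine tsum_congr fun k => ?_
  rw [coeff_Hs_even, map_mul, map_div₀, map_pow, map_pow, map_natCast, hz, map_hs]

theorem evk_thHs (ρ : Qb) (j : ℕ) {z : ℂ} (hz : io ρ = z ^ 2 / 4) : evk io (th (Hs ρ j)) = 2 * Hd j z := by
  rw [evk, tsum_two (fun k => by rw [coeff_th, coeff_Hs_odd, mul_zero, map_zero]), Hd, ← tsum_mul_left]
  refine tsum_congr fun k => ?_
  rw [coeff_th, coeff_Hs_even, map_mul, map_mul, map_div₀, map_pow, map_pow, map_natCast, map_natCast, hz, map_hs]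
  push_cast
  ring

/-- the generators of the base field -/
def GD : Set ℂ := GE ∪ {w | ∃ b : ℂ, IsAlgebraic ℚ b ∧ ∃ m : ℕ, (w = Hv (2 * m) b ∨ w = Hd (2 * m) b)}

/-- the base field -/
noncomputable def DB : IntermediateField ℚ ℂ := IntermediateField.adjoin ℚ GD

theorem E0_le_DB : E0 ≤ DB := IntermediateField.adjoin.mono _ _ _ subset_union_left

theorem Hv_mem {z : ℂ} (hz : IsAlgebraic ℚ z) (m : ℕ) : Hv (2 * m) z ∈ DB :=
  IntermediateField.subset_adjoin _ _ (Or.inr ⟨z, hz, m, Or.inl rfl⟩)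

/-- the rest of the indices -/
abbrev Rx (ι : Type*) := (ι × (ℕ ⊕ ℕ)) ⊕ (ι ⊕ ι)

/-- the values of the even functions -/
noncomputable def rv (x : Rx (Kx Qb)) : ℂ := match x with
  | Sum.inl (ρ, Sum.inl k) => evk io (Hs ρ.1 (2 * k + 2))
  | Sum.inl (ρ, Sum.inr k) => evk io (th (Hs ρ.1 (2 * k + 2)))
  | Sum.inr (Sum.inl ρ) => evk io (Js ρ.1)
  | Sum.inr (Sum.inr ρ) => evk io (fs ρ.1)

/-- the rearrangement -/
def reH {ι B : Type*} : ((ι × ℕ) ⊕ B) ⊕ Rx ι → Jx ι ⊕ B
  | Sum.inl (Sum.inl (ρ, k)) => Sum.inl (Sum.inl (ρ, Sum.inl (2 * k)))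
  | Sum.inl (Sum.inr b) => Sum.inr b
  | Sum.inr (Sum.inl (ρ, Sum.inl k)) => Sum.inl (Sum.inl (ρ, Sum.inl (2 * k + 1)))
  | Sum.inr (Sum.inl (ρ, Sum.inr k)) => Sum.inl (Sum.inl (ρ, Sum.inr k))
  | Sum.inr (Sum.inr (Sum.inl ρ)) => Sum.inl (Sum.inr (Sum.inl ρ))
  | Sum.inr (Sum.inr (Sum.inr ρ)) => Sum.inl (Sum.inr (Sum.inr ρ))

theorem reH_injective {ι B : Type*} : Function.Injective (reH (ι := ι) (B := B)) := by
  rintro ((⟨ρ, k⟩ | b) | ⟨ρ, k | k⟩ | ρ | ρ) ((⟨ρ', k'⟩ | b') | ⟨ρ', k' | k'⟩ | ρ' | ρ') h <;>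
    simp only [reH, Sum.inl.injEq, Sum.inr.injEq, Prod.mk.injEq, reduceCtorEq, and_false] at h ⊢
  · exact ⟨h.1, by omega⟩
  · omega
  · exact h
  · omega
  · exact ⟨h.1, by omega⟩
  · exact h
  · exact h
  · exact h

theorem DB_le : (DB : IntermediateField ℚ ℂ) ≤ (IntermediateField.adjoin E0 (range rv)).restrictScalars ℚ := by
  have h1 : (IntermediateField.adjoin E0 (range rv)).restrictScalars ℚ = IntermediateField.adjoin ℚ (GE ∪ range rv) := by
    rw [E0]
    exact IntermediateField.adjoin_adjoin_left ℚ GE (range rv)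
  rw [h1]
  refine IntermediateField.adjoin_le_iff.2 ?_
  have hsub := IntermediateField.subset_adjoin ℚ (GE ∪ range rv)
  have h2 : (2 : ℂ) ∈ IntermediateField.adjoin ℚ (GE ∪ range rv) := by
    exact_mod_cast (IntermediateField.adjoin ℚ (GE ∪ range rv)).algebraMap_mem (2 : ℚ)
  rintro w (hw | ⟨b, hb, m, hw⟩)
  · exact hsub (Or.inl hw)
  · by_cases h0 : b = 0
    · subst h0
      have e : ∀ j, Hv j 0 = if j = 0 then 1 else 0 := fun j => by
        rw [Hv_eq, zero_pow two_ne_zero, zero_div, Hk_zero]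
      have e' : ∀ j, Hd j 0 = 0 := fun j => by
        rw [Hd]
        rw [tsum_eq_single 0]
        · simp
        · intro k hk; rw [zero_pow two_ne_zero, zero_div, zero_pow hk]; simp
      rcases hw with rfl | rfl
      · rw [e]
        split_ifs
        · exact IntermediateField.one_mem _
        · exact IntermediateField.zero_mem _
      · rw [e']; exact IntermediateField.zero_mem _
    · obtain ⟨ρ, hρ⟩ := exists_rho hb h0
      rcases m with _ | m
      · rcases hw with rfl | rfl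
        · rw [mul_zero, ← evk_Hs ρ.1 0 hρ, Hs_zero]
          exact hsub (Or.inr ⟨Sum.inr (Sum.inr ρ), rfl⟩)
        · have h3 : Hd (2 * 0) b = evk io (Js ρ.1) / 2 := by
            rw [mul_zero, Js, ← Hs_zero, evk_thHs ρ.1 0 hρ]; ring
          rw [h3]
          exact IntermediateField.div_mem _ (hsub (Or.inr ⟨Sum.inr (Sum.inl ρ), rfl⟩)) h2
      · rcases hw with rfl | rfl
        · rw [show 2 * (m + 1) = 2 * m + 2 by ring, ← evk_Hs ρ.1 (2 * m + 2) hρ]
          exact hsub (Or.inr ⟨Sum.inl (ρ, Sum.inl m), rfl⟩)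
        · have h3 : Hd (2 * (m + 1)) b = evk io (th (Hs ρ.1 (2 * m + 2))) / 2 := by
            rw [show 2 * (m + 1) = 2 * m + 2 by ring, evk_thHs ρ.1 (2 * m + 2) hρ]; ring
          rw [h3]
          exact IntermediateField.div_mem _ (hsub (Or.inr ⟨Sum.inl (ρ, Sum.inr m), rfl⟩)) h2

/-- **the odd functions are independent over the base field** -/
theorem ai_odd (L : ℕ) (P : Set ℝ) (hP : ∀ x ∈ P, 0 < x ∧ IsAlgebraic ℚ x) (X : Set ℂ)
    (hX : ∀ x ∈ X, IsAlgebraic ℚ x ∧ ∀ y ∈ X, x + y ≠ 0) :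
    AlgebraicIndependent DB (Sum.elim (fun p : Kx Qb × ℕ => evk io (Hs p.1.1 (2 * p.2 + 1)))
      (su (L := L) (P := P) (X := X))) := by
  have h0 := (ai_val_E0 ai_bH bH_mem L P hP X hX).comp reH (reH_injective (ι := Kx Qb) (B := Ix L P X))
  refine ai_split (y := rv) (G := range rv) ?_ (fun z hz => hz) DB_le
  convert h0 using 1
  ext ((⟨ρ, k⟩ | b) | ⟨ρ, k | k⟩ | ρ | ρ) <;> rfl

theorem ai_odd' (L : ℕ) (P : Set ℝ) (hP : ∀ x ∈ P, 0 < x ∧ IsAlgebraic ℚ x) (X : Set ℂ)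
    (hX : ∀ x ∈ X, IsAlgebraic ℚ x ∧ ∀ y ∈ X, x + y ≠ 0) {Z : Set ℂ} (hZ : Pts Z) :
    AlgebraicIndependent DB (Sum.elim (fun p : {p : ℂ × ℕ // p.1 ∈ Z ∧ (p.2 = 0 ∨ 2 * p.2 + 1 ≤ L)} => Hv (2 * p.1.2 + 1) p.1.1)
      (su (L := L) (P := P) (X := X))) := by
  choose ρ hρ using fun z : Z => exists_rho (hZ.1 z z.2).1 (hZ.1 z z.2).2
  have hρi : Function.Injective ρ := by
    intro z w h
    apply Subtype.ext
    refine hZ.2 _ z.2 _ w.2 ?_
    have h1 : (z : ℂ) ^ 2 / 4 = (w : ℂ) ^ 2 / 4 := by rw [← hρ z, ← hρ w, h]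
    linear_combination 4 * h1
  let f : {p : ℂ × ℕ // p.1 ∈ Z ∧ (p.2 = 0 ∨ 2 * p.2 + 1 ≤ L)} → Kx Qb × ℕ := fun p => (ρ ⟨p.1.1, p.2.1⟩, p.1.2)
  have hf : Function.Injective f := by
    intro p q h
    have h1 := hρi (Prod.ext_iff.1 h).1
    have h2 : p.1.1 = q.1.1 := congrArg Subtype.val h1
    exact Subtype.ext (Prod.ext h2 (Prod.ext_iff.1 h).2)
  have h1 := (ai_odd L P hP X hX).comp (Sum.map f id) (Function.Injective.sumMap hf Function.injective_id)
  convert h1 using 1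
  ext (p | i)
  · exact (evk_Hs _ _ (hρ ⟨p.1.1, p.2.1⟩)).symm
  · rfl

end Pool.Agent.H18.Wd
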