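import Pool.Agent.H18.Wd.Vr
import Pool.Agent.H18.Wd.Dir

/-!
# The derivatives of the Bessel functions with respect to the order as power series
-/

set_option autoImplicit false
set_option linter.unusedSectionVars false

open PowerSeries
open scoped Differential

namespace Pool.Agent.H18.Wd

open Pool.Agent.N902.EW Pool.Agent.H18.Bes

section

variable {K : Type*} [Field K] [CharZero K]

/-- the complete symmetric function of degree `j` in `1, 1/2, …, 1/k` -/
noncomputable def hs (K : Type*) [Field K] : ℕ → ℕ → K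
  | 0, _ => 1
  | _ + 1, 0 => 0
  | j + 1, k + 1 => hs K (j + 1) k + hs K j (k + 1) / ((k : K) + 1)

theorem hs_zero (k : ℕ) : hs K 0 k = 1 := by rw [hs]
theorem hs_succ_zero (j : ℕ) : hs K (j + 1) 0 = 0 := by rw [hs]
theorem hs_succ_succ (j k : ℕ) : hs K (j + 1) (k + 1) = hs K (j + 1) k + hs K j (k + 1) / ((k : K) + 1) := by rw [hs]

/-- `∑ h_j(1, 1/2, …, 1/k) ρ^k X^(2k) / k!^2` -/
noncomputable def Hs (ρ : K) (j : ℕ) : K⟦X⟧ :=
  PowerSeries.mk fun n => if Even n then hs K j (n / 2) * (ρ ^ (n / 2) / ((n / 2).factorial : K) ^ 2) else 0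

theorem coeff_Hs_odd (ρ : K) (j k : ℕ) : coeff (2 * k + 1) (Hs ρ j) = 0 := by
  rw [Hs, coeff_mk, if_neg (by simp [parity_simps])]

theorem coeff_Hs_even (ρ : K) (j k : ℕ) : coeff (2 * k) (Hs ρ j) = hs K j k * (ρ ^ k / (k.factorial : K) ^ 2) := by
  rw [Hs, coeff_mk, if_pos (even_two_mul k), Nat.mul_div_cancel_left k (by norm_num)]

theorem Hs_zero (ρ : K) : Hs ρ 0 = fs ρ := by
  ext n
  rcases Nat.even_or_odd' n with ⟨k, rfl | rfl⟩
  · rw [coeff_Hs_even, coeff_fs_even, hs_zero, one_mul]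
  · rw [coeff_Hs_odd, coeff_fs_odd]

theorem coeff_zero_Hs (ρ : K) (j : ℕ) : coeff 0 (Hs ρ j) = if j = 0 then 1 else 0 := by
  have h1 := coeff_Hs_even ρ j 0
  rw [mul_zero] at h1
  rw [h1]
  rcases j with _ | j
  · rw [hs_zero]; simp
  · rw [hs_succ_zero]; simp

theorem th_th_Hs (ρ : K) (j : ℕ) :
    th (th (Hs ρ (j + 1))) = (4 * ρ) • (X ^ 2 * Hs ρ (j + 1)) + (2 : K) • th (Hs ρ j) := by
  ext n
  have e : coeff n ((2 : K) • th (Hs ρ j)) = 2 * (n * coeff n (Hs ρ j)) := by rw [coeff_smul, coeff_th, smul_eq_mul]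
  rw [coeff_th, coeff_th, map_add, e]
  rcases n with _ | _ | n
  · rw [coeff_sq_mul_zero]; simp
  · have h1 : coeff 1 (Hs ρ (j + 1)) = 0 := coeff_Hs_odd ρ (j + 1) 0
    have h2 : coeff 1 (Hs ρ j) = 0 := coeff_Hs_odd ρ j 0
    rw [show 0 + 1 = 1 from rfl, coeff_sq_mul_one, h1, h2]; simp
  · rw [show n + 1 + 1 = n + 2 from rfl, coeff_sq_mul]
    rcases Nat.even_or_odd' n with ⟨k, rfl | rfl⟩
    · rw [show 2 * k + 2 = 2 * (k + 1) by ring, coeff_Hs_even, coeff_Hs_even, coeff_Hs_even, Nat.factorial_succ,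
        hs_succ_succ]
      have h1 : (k.factorial : K) ≠ 0 := by exact_mod_cast k.factorial_ne_zero
      have h2 : ((k : K) + 1) ≠ 0 := by exact_mod_cast Nat.succ_ne_zero k
      push_cast
      field_simp
      ring
    · rw [show 2 * k + 1 + 2 = 2 * (k + 1) + 1 by ring, coeff_Hs_odd, coeff_Hs_odd, coeff_Hs_odd]; simp

/-- uniqueness of the solution -/
theorem ode_unique {ρ : K} {g : K⟦X⟧} (h : th (th g) = (4 * ρ) • (X ^ 2 * g)) (h0 : coeff 0 g = 0) : g = 0 := by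
  have key : ∀ n, coeff n g = 0 := by
    intro n
    induction n using Nat.strong_induction_on with
    | _ n ih =>
      rcases n with _ | _ | n
      · exact h0
      · have h1 := congrArg (coeff 1) h
        rw [coeff_th, coeff_th, coeff_sq_mul_one] at h1
        simpa using h1
      · have h1 := congrArg (coeff (n + 2)) h
        rw [coeff_th, coeff_th, coeff_sq_mul, ih n (by omega), mul_zero] at h1
        have h2 : ((n + 2 : ℕ) : K) ≠ 0 := by exact_mod_cast (by omega : n + 2 ≠ 0)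
        exact (mul_eq_zero.1 ((mul_eq_zero.1 h1).resolve_left h2)).resolve_left h2
  ext n
  rw [key, map_zero]

theorem th_sub (f g : K⟦X⟧) : th (f - g) = th f - th g := by
  rw [sub_eq_add_neg, th_add, ← neg_one_smul K g, th_smul, neg_one_smul, ← sub_eq_add_neg]

theorem fs_mul_inv (ρ : K) : fs ρ * (fs ρ)⁻¹ = 1 := PowerSeries.mul_inv_cancel _ (by
    rw [← coeff_zero_eq_constantCoeff_apply, coeff_zero_fs]; exact one_ne_zero)

theorem th_inv (ρ : K) : th ((fs ρ)⁻¹) = -((fs ρ)⁻¹ ^ 2 * Js ρ) := by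
  have h1 := congrArg th (fs_mul_inv ρ)
  rw [th_mul, th_one] at h1
  have h2 : th (fs ρ) = Js ρ := rfl
  rw [h2] at h1
  have h3 := fs_mul_inv ρ
  linear_combination (fs ρ)⁻¹ * h1 - th ((fs ρ)⁻¹) * h3

theorem pw_neg_two (f : K⟦X⟧) : pw f (-2) = f⁻¹ ^ 2 := rfl
theorem pw_two (f : K⟦X⟧) : pw f 2 = f ^ 2 := rfl

theorem fs_th_vv (ρ : K) (j : ℕ) : fs ρ * th (vv (fs ρ) j) = -((fs ρ)⁻¹ * th (rr (fs ρ) j)) := by
  rcases j with _ | j
  · rw [vv_zero, rr_zero, th_one]; ring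
  · rw [th_vv_succ (coeff_zero_fs ρ), th_rr_succ (coeff_zero_fs ρ), pw_neg_two, pw_two]
    have h3 := fs_mul_inv ρ
    linear_combination (-((fs ρ)⁻¹ * rr (fs ρ) j) - fs ρ * vv (fs ρ) j) * h3

theorem th_fv (ρ : K) (j : ℕ) : th (fs ρ * vv (fs ρ) (j + 1)) =
    Js ρ * vv (fs ρ) (j + 1) + fs ρ * vv (fs ρ) j - (fs ρ)⁻¹ * rr (fs ρ) j := by
  rw [th_mul, th_vv_succ (coeff_zero_fs ρ), pw_neg_two]
  have h2 : th (fs ρ) = Js ρ := rfl
  have h3 := fs_mul_inv ρ
  rw [h2]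
  linear_combination (-((fs ρ)⁻¹ * rr (fs ρ) j)) * h3

theorem Hs_eq (ρ : K) (j : ℕ) : Hs ρ j = fs ρ * vv (fs ρ) j := by
  induction j with
  | zero => rw [Hs_zero, vv_zero, mul_one]
  | succ j ih =>
    rw [← sub_eq_zero]
    refine ode_unique (ρ := ρ) ?_ ?_
    · rw [th_sub, th_sub, th_th_Hs, ih]
      have h1 : th (th (fs ρ * vv (fs ρ) (j + 1))) =
          (4 * ρ) • (X ^ 2 * (fs ρ * vv (fs ρ) (j + 1))) + (2 : K) • th (fs ρ * vv (fs ρ) j) := by
        have h2 : th (fs ρ) = Js ρ := rfl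
        have h3 := fs_mul_inv ρ
        have h4 := fs_th_vv ρ j
        rw [th_fv, th_sub, th_add, th_mul, th_Js, th_vv_succ (coeff_zero_fs ρ), pw_neg_two, th_mul ((fs ρ)⁻¹), th_inv,
          th_mul (fs ρ), h2, smul_eq_C_mul, smul_eq_C_mul, smul_eq_C_mul, map_ofNat]
        linear_combination -h4
      rw [h1]
      simp only [mul_sub, smul_sub]
      abel
    · rw [map_sub, coeff_zero_Hs, if_neg (Nat.succ_ne_zero j), coeff_zero_mul, sub_self]
      right
      rw [coeff_zero_vv, if_neg (Nat.succ_ne_zero j)]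

/-- `r_j` in terms of the functions `H` -/
theorem rr_eq (ρ : K) (j : ℕ) : rr (fs ρ) j = Js ρ * Hs ρ (j + 1) + fs ρ * Hs ρ j - fs ρ * th (Hs ρ (j + 1)) := by
  rw [Hs_eq, Hs_eq, th_fv]
  have h3 := fs_mul_inv ρ
  linear_combination (-rr (fs ρ) j) * h3

end

/-! ### Algebraic independence -/

section

variable {K : Type*} [Field K] [CharZero K]

/-- the indices -/
abbrev Jx (ι : Type*) := (ι × (ℕ ⊕ ℕ)) ⊕ (ι ⊕ ι)

/-- the functions `H_(j+1)`, `θ H_(2k+2)`, `θ H_0`, `H_0` -/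
noncomputable def bH {ι : Type*} (ρ : ι → K) : Jx ι → K⟦X⟧
  | Sum.inl (i, Sum.inl j) => Hs (ρ i) (j + 1)
  | Sum.inl (i, Sum.inr k) => th (Hs (ρ i) (2 * k + 2))
  | Sum.inr (Sum.inl i) => Js (ρ i)
  | Sum.inr (Sum.inr i) => fs (ρ i)

/-- the functions `v_(j+1)`, `r_(2k+1)`, `w`, `f` -/
noncomputable def xH {ι : Type*} (ρ : ι → K) : Jx ι → LF K
  | Sum.inl (i, Sum.inl j) => ps (vv (fs (ρ i)) (j + 1))
  | Sum.inl (i, Sum.inr k) => ps (rr (fs (ρ i)) (2 * k + 1))
  | Sum.inr (Sum.inl i) => wL (ρ i)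
  | Sum.inr (Sum.inr i) => fL (ρ i)

variable {ι : Type*} [Fintype ι] {ρ : ι → K} {E : Subfield (LF K)}

theorem ai_xH (hB : BS E (fun i => wL (ρ i)) (fun i => 4 * cc (ρ i) * xx ^ 2) (fun i => fL (ρ i)) (fun i => kL (ρ i)))
    (hE : ∀ c : K, cc c ∈ E) : AlgebraicIndependent E (xH ρ) := by
  classical
  have h0 : AlgebraicIndependent E (Sum.elim (fun i => wL (ρ i)) (fun i => fL (ρ i))) := by
    have h1 := hB.ai.comp (Sum.map id Sum.inl) (Function.Injective.sumMap Function.injective_id Sum.inl_injective)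
    convert h1 using 1
    ext (i | i) <;> rfl
  have hF := frm hB hE
  have h1 := ai_yC hF
  set C := GF E (fun i => wL (ρ i)) (fun i => fL (ρ i)) with hC
  have hle : ∀ a : Algebra.adjoin E (Set.range (Sum.elim (fun i => wL (ρ i)) (fun i => fL (ρ i)))), (a : LF K) ∈ C := by
    intro a
    refine Algebra.adjoin_induction (p := fun a _ => a ∈ C) ?_ ?_ ?_ ?_ a.2
    · rintro _ ⟨i | i, rfl⟩
      · exact le_AdS _ _ (subset_AdS _ _ ⟨i, rfl⟩)
      · exact subset_AdS _ _ ⟨i, rfl⟩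
    · intro r; exact le_AdS _ _ (le_AdS _ _ r.2)
    · intro b c _ _ hb hc; exact C.add_mem hb hc
    · intro b c _ _ hb hc; exact C.mul_mem hb hc
  have h2 : AlgebraicIndependent (Algebra.adjoin E (Set.range (Sum.elim (fun i => wL (ρ i)) (fun i => fL (ρ i)))))
      (fun x => ps (yA hF x : K⟦X⟧)) := by
    have h3 : AlgebraicIndependent C ((RingHom.id (LF K)) ∘ (fun x => ps (yA hF x : K⟦X⟧))) := h1
    refine h3.of_ringHom_of_comp_eq ((algebraMap (Algebra.adjoin E (Set.range (Sum.elim (fun i => wL (ρ i))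
      (fun i => fL (ρ i))))) (LF K)).codRestrict C hle) (RingHom.id (LF K)) ?_ ?_
    · intro a b hab
      have h4 := congrArg (Subtype.val : C → LF K) hab
      exact Subtype.ext h4
    · rfl
  have h3 := h0.sumElim h2
  convert h3 using 1
  ext (⟨i, j | k⟩ | i | i) <;> rfl

theorem ai_bH_fin (hB : BS E (fun i => wL (ρ i)) (fun i => 4 * cc (ρ i) * xx ^ 2) (fun i => fL (ρ i)) (fun i => kL (ρ i)))
    (hE : ∀ c : K, cc c ∈ E) : AlgebraicIndependent E (fun x => ps (bH ρ x)) := by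
  classical
  refine algebraicIndependent_of_finite_type fun t ht => ?_
  -- a finite set of indices closed under the operations
  obtain ⟨m, hm⟩ : ∃ m : ℕ, ∀ x ∈ t, (∀ i j, x = Sum.inl (i, Sum.inl j) → j < 2 * m) ∧
      (∀ i k, x = Sum.inl (i, Sum.inr k) → k < m) := by
    refine ht.induction_on _ ⟨0, fun x hx => absurd hx (Set.notMem_empty x)⟩ ?_
    rintro a s _ _ ⟨m, hm⟩
    obtain ⟨n, hn⟩ : ∃ n : ℕ, (∀ i j, a = Sum.inl (i, Sum.inl j) → j < 2 * n) ∧
        (∀ i k, a = Sum.inl (i, Sum.inr k) → k < n) := by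
      rcases a with ⟨i, j | k⟩ | i | i
      · refine ⟨j + 1, fun i' j' h => ?_, fun i' k' h => ?_⟩
        · have := Sum.inl.inj (Prod.ext_iff.1 (Sum.inl.inj h)).2
          omega
        · have := (Prod.ext_iff.1 (Sum.inl.inj h)).2
          exact absurd this (by simp)
      · refine ⟨k + 1, fun i' j' h => ?_, fun i' k' h => ?_⟩
        · have := (Prod.ext_iff.1 (Sum.inl.inj h)).2
          exact absurd this (by simp)
        · have := Sum.inr.inj (Prod.ext_iff.1 (Sum.inl.inj h)).2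
          omega
      · exact ⟨0, fun _ _ h => by simp at h, fun _ _ h => by simp at h⟩
      · exact ⟨0, fun _ _ h => by simp at h, fun _ _ h => by simp at h⟩
    refine ⟨m + n, fun x hx => ?_⟩
    rcases hx with rfl | hx
    · exact ⟨fun i j h => by have := hn.1 i j h; omega, fun i k h => by have := hn.2 i k h; omega⟩
    · exact ⟨fun i j h => by have := (hm x hx).1 i j h; omega, fun i k h => by have := (hm x hx).2 i k h; omega⟩
  let e : (ι × (Fin (2 * m) ⊕ Fin m)) ⊕ (ι ⊕ ι) → Jx ι :=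
    Sum.map (Prod.map id (Sum.map Fin.val Fin.val)) id
  have he : Function.Injective e := by
    refine Function.Injective.sumMap (Function.Injective.prodMap Function.injective_id
      (Function.Injective.sumMap Fin.val_injective Fin.val_injective)) Function.injective_id
  have h1 := (ai_xH hB hE).comp e he
  have h2 : AlgebraicIndependent E (fun z => ps (bH ρ (e z))) := by
    refine ai_exch h1 ?_
    have hj : ∀ i, jL (ρ i) ∈ clf E (Set.range (fun z => ps (bH ρ (e z)))) := fun i =>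
      subset_clf _ ⟨Sum.inr (Sum.inl i), rfl⟩
    have hf : ∀ i, fL (ρ i) ∈ clf E (Set.range (fun z => ps (bH ρ (e z)))) := fun i =>
      subset_clf _ ⟨Sum.inr (Sum.inr i), rfl⟩
    have hH : ∀ i j, j < 2 * m → ps (Hs (ρ i) (j + 1)) ∈ clf E (Set.range (fun z => ps (bH ρ (e z)))) :=
      fun i j hj => subset_clf _ ⟨Sum.inl (i, Sum.inl ⟨j, hj⟩), rfl⟩
    have hQ : ∀ i k, k < m → ps (th (Hs (ρ i) (2 * k + 2))) ∈ clf E (Set.range (fun z => ps (bH ρ (e z)))) :=
      fun i k hk => subset_clf _ ⟨Sum.inl (i, Sum.inr ⟨k, hk⟩), rfl⟩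
    rintro (⟨i, j | k⟩ | i | i)
    · show ps (vv (fs (ρ i)) (j + 1)) ∈ _
      have h3 : ps (vv (fs (ρ i)) (j + 1)) = ps (Hs (ρ i) (j + 1)) / fL (ρ i) := by
        rw [Hs_eq, map_mul, eq_div_iff (fL_ne _), mul_comm]; rfl
      rw [h3]
      exact Subfield.div_mem _ (hH i j j.2) (hf i)
    · show ps (rr (fs (ρ i)) (2 * k + 1)) ∈ _
      rw [rr_eq, map_sub, map_add, map_mul, map_mul, map_mul]
      refine Subfield.sub_mem _ (Subfield.add_mem _ (Subfield.mul_mem _ (hj i) ?_) (Subfield.mul_mem _ (hf i) ?_))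
        (Subfield.mul_mem _ (hf i) ?_)
      · exact hH i (2 * k + 1) (by omega)
      · exact hH i (2 * k) (by omega)
      · exact hQ i k k.2
    · show wL (ρ i) ∈ _
      exact Subfield.div_mem _ (hj i) (hf i)
    · exact hf i
  have hex : ∀ x : t, ∃ z, e z = x.1 := by
    rintro ⟨⟨i, j | k⟩ | i | i, hx⟩
    · exact ⟨Sum.inl (i, Sum.inl ⟨j, (hm _ hx).1 i j rfl⟩), rfl⟩
    · exact ⟨Sum.inl (i, Sum.inr ⟨k, (hm _ hx).2 i k rfl⟩), rfl⟩
    · exact ⟨Sum.inr (Sum.inl i), rfl⟩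
    · exact ⟨Sum.inr (Sum.inr i), rfl⟩
  choose g hg using hex
  have hgi : Function.Injective g := fun x y h => Subtype.ext (by rw [← hg x, ← hg y, h])
  have h3 := h2.comp g hgi
  convert h3 using 1
  ext x
  show ps (bH ρ x.1) = ps (bH ρ (e (g x)))
  rw [hg x]

/-- all parameters -/
theorem ai_bH : AlgebraicIndependent (LV K) (fun x => ps (bH (fun ρ : Kx K => ρ.1) x)) := by
  classical
  refine algebraicIndependent_of_finite_type fun t ht => ?_
  let π : Jx (Kx K) → Kx K := fun x => match x with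
    | Sum.inl (i, _) => i
    | Sum.inr (Sum.inl i) => i
    | Sum.inr (Sum.inr i) => i
  have hT : (π '' t).Finite := ht.image π
  have := hT.fintype
  have h0 : BS (LV K) (fun ρ : π '' t => wL ρ.1.1) (fun ρ : π '' t => 4 * cc ρ.1.1 * xx ^ 2) (fun ρ : π '' t => fL ρ.1.1)
      (fun ρ : π '' t => kL ρ.1.1) :=
    (bs_tow (ρ := fun ρ : π '' t => ρ.1.1) (Subtype.val_injective.comp Subtype.val_injective) (fun ρ => ρ.1.2)
      Tow.base).li
  have h1 := ai_bH_fin (ρ := fun ρ : π '' t => ρ.1.1) h0 cc_mem_LV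
  have hex : ∀ x : t, ∃ z : Jx (π '' t), Sum.map (Prod.map Subtype.val id) (Sum.map Subtype.val Subtype.val) z = x.1 := by
    rintro ⟨⟨i, j⟩ | i | i, hx⟩
    · exact ⟨Sum.inl (⟨i, _, hx, rfl⟩, j), rfl⟩
    · exact ⟨Sum.inr (Sum.inl ⟨i, _, hx, rfl⟩), rfl⟩
    · exact ⟨Sum.inr (Sum.inr ⟨i, _, hx, rfl⟩), rfl⟩
  choose g hg using hex
  have hgi : Function.Injective g := fun x y h => Subtype.ext (by rw [← hg x, ← hg y, h])
  have h2 := h1.comp g hgi
  convert h2 using 1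
  ext x
  show ps (bH _ x.1) = _
  rw [← hg x]
  rcases hgx : g x with ⟨z, j | k⟩ | z | z <;> simp [bH, hgx]

end

/-! ### All functions are quotients -/

section

variable {K : Type*} [Field K] [CharZero K]

open Finset in
theorem den_rr (ρ : Kx K) (j : ℕ) : Den (bH (fun ρ : Kx K => ρ.1)) (rr (fs ρ.1) j) := by
  have hf : Den (bH (fun ρ : Kx K => ρ.1)) (fs ρ.1) := Den.gen (b := bH (fun ρ : Kx K => ρ.1)) (Sum.inr (Sum.inr ρ))
  have hJ : Den (bH (fun ρ : Kx K => ρ.1)) (Js ρ.1) := Den.gen (b := bH (fun ρ : Kx K => ρ.1)) (Sum.inr (Sum.inl ρ))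
  have hH : ∀ j, Den (bH (fun ρ : Kx K => ρ.1)) (Hs ρ.1 j) := by
    intro j
    rcases j with _ | j
    · rw [Hs_zero]; exact hf
    · exact Den.gen (b := bH (fun ρ : Kx K => ρ.1)) (Sum.inl (ρ, Sum.inl j))
  have hv : ∀ j, Den (bH (fun ρ : Kx K => ρ.1)) (vv (fs ρ.1) j) := fun j =>
    Den.div hf (fs_ne ρ.1) (by rw [← Hs_eq]; exact hH j)
  induction j using Nat.strong_induction_on with
  | _ j ih =>
    rcases Nat.even_or_odd' j with ⟨k, rfl | rfl⟩
    · rcases k with _ | k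
      · rw [mul_zero, rr_zero]
        exact Den.of_mem (D1 _).one_mem
      · have h1 := wr_rel (coeff_zero_fs ρ.1) (n := 2 * k + 1) ⟨k, rfl⟩
        rw [Finset.Nat.antidiagonal_succ, Finset.sum_cons, vv_zero, one_mul, Finset.sum_map] at h1
        have h2 : ((-1 : K⟦X⟧)) ^ (2 * k + 1 + 1) = 1 := by
          rw [show 2 * k + 1 + 1 = 2 * (k + 1) by ring, pow_mul]; simp
        rw [h2, one_mul] at h1
        rw [show 2 * (k + 1) = 2 * k + 1 + 1 by ring, eq_neg_of_add_eq_zero_left h1]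
        refine Den.neg (Den.sum _ _ fun p hp => ?_)
        simp only [Function.Embedding.prodMap, Function.Embedding.coeFn_mk, Prod.map, Function.Embedding.refl_apply]
        have h3 := Finset.HasAntidiagonal.mem_antidiagonal.1 hp
        have h4 : (-1 : K⟦X⟧) ^ p.2 = C ((-1 : K) ^ p.2) := by rw [map_pow, map_neg, map_one]
        rw [h4]
        exact (Den.const _).mul ((hv _).mul (ih p.2 (by omega)))
    · rw [rr_eq]
      refine ((hJ.mul (hH _)).add (hf.mul (hH _))).sub (hf.mul ?_)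
      exact Den.gen (b := bH (fun ρ : Kx K => ρ.1)) (Sum.inl (ρ, Sum.inr k))

theorem den_H (ρ : Kx K) (j : ℕ) : Den (bH (fun ρ : Kx K => ρ.1)) (Hs ρ.1 j) := by
  rcases j with _ | j
  · rw [Hs_zero]; exact Den.gen (b := bH (fun ρ : Kx K => ρ.1)) (Sum.inr (Sum.inr ρ))
  · exact Den.gen (b := bH (fun ρ : Kx K => ρ.1)) (Sum.inl (ρ, Sum.inl j))

theorem den_thH (ρ : Kx K) (j : ℕ) : Den (bH (fun ρ : Kx K => ρ.1)) (th (Hs ρ.1 j)) := by
  have hf : Den (bH (fun ρ : Kx K => ρ.1)) (fs ρ.1) := Den.gen (b := bH (fun ρ : Kx K => ρ.1)) (Sum.inr (Sum.inr ρ))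
  have hJ : Den (bH (fun ρ : Kx K => ρ.1)) (Js ρ.1) := Den.gen (b := bH (fun ρ : Kx K => ρ.1)) (Sum.inr (Sum.inl ρ))
  rcases j with _ | j
  · rw [Hs_zero]; exact hJ
  · refine Den.div hf (fs_ne ρ.1) ?_
    have h1 : fs ρ.1 * th (Hs ρ.1 (j + 1)) = Js ρ.1 * Hs ρ.1 (j + 1) + fs ρ.1 * Hs ρ.1 j - rr (fs ρ.1) j := by
      rw [rr_eq]; ring
    rw [h1]
    exact ((hJ.mul (den_H ρ _)).add (hf.mul (den_H ρ _))).sub (den_rr ρ j)

end

end Pool.Agent.H18.Wd
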