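import Pool.Agent.H18.Wd.KVal

/-!
# The counting theorem with the Bessel means of the tails of `ζ(k)`
-/

set_option autoImplicit false
set_option linter.unusedSectionVars false

open Set

namespace Pool.Agent.H18.Wd

open Pool.Agent.N902.EW Pool.Agent.H18.Bes Pool.Agent.R352.E

/-- the Bessel mean of the tails of `ζ(k)` -/
noncomputable def RT (k : ℕ) (z : ℂ) : ℂ :=
  (∑' j : ℕ, (z ^ 2 / 4) ^ j / (j.factorial : ℂ) ^ 2 * ∑' i : ℕ, 1 / ((i : ℂ) + j + 1) ^ k) / I0 z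

theorem summ_I0 (w : ℂ) : Summable fun j : ℕ => ‖w ^ j / (j.factorial : ℂ) ^ 2‖ := by
  refine Summable.of_nonneg_of_le (fun _ => norm_nonneg _) (fun j => ?_) (NormedSpace.norm_expSeries_div_summable w)
  rw [norm_div, norm_div, norm_pow (j.factorial : ℂ), Complex.norm_natCast]
  have h1 : (1 : ℝ) ≤ (j.factorial : ℝ) := by exact_mod_cast j.factorial_pos
  refine div_le_div_of_nonneg_left (norm_nonneg _) (by linarith) ?_
  nlinarith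

theorem R_split {k : ℕ} (hk : 2 ≤ k) {z : ℂ} (hz : I0 z ≠ 0) : RT k z = riemannZeta k - Vv k z / I0 z := by
  have hs := summ_zeta hk
  have hn : Summable fun i : ℕ => ‖(1 : ℂ) / ((i : ℂ) + 1) ^ k‖ := hs.norm
  set Z := ∑' i : ℕ, ‖(1 : ℂ) / ((i : ℂ) + 1) ^ k‖ with hZ
  have hsplit : ∀ j : ℕ, (∑ i ∈ Finset.range j, 1 / ((i : ℂ) + 1) ^ k) + (∑' i : ℕ, 1 / ((i : ℂ) + j + 1) ^ k) =
      riemannZeta k := by
    intro j
    rw [zeta_eq hk, ← hs.sum_add_tsum_nat_add j]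
    congr 1
    exact tsum_congr fun i => by push_cast; rfl
  have hb1 : ∀ j : ℕ, ‖∑ i ∈ Finset.range j, (1 : ℂ) / ((i : ℂ) + 1) ^ k‖ ≤ Z := fun j =>
    (norm_sum_le _ _).trans (hn.sum_le_tsum _ fun _ _ => norm_nonneg _)
  set w := z ^ 2 / 4 with hw
  have hexp := summ_I0 w
  have h1 : Summable fun j : ℕ => w ^ j / (j.factorial : ℂ) ^ 2 * ∑ i ∈ Finset.range j, 1 / ((i : ℂ) + 1) ^ k := by
    refine Summable.of_norm_bounded (hexp.mul_right Z) fun j => ?_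
    rw [norm_mul]
    exact mul_le_mul_of_nonneg_left (hb1 j) (norm_nonneg _)
  have h2 : Summable fun j : ℕ => w ^ j / (j.factorial : ℂ) ^ 2 * riemannZeta k := hexp.of_norm.mul_right _
  have h3 : Summable fun j : ℕ => w ^ j / (j.factorial : ℂ) ^ 2 * ∑' i : ℕ, 1 / ((i : ℂ) + j + 1) ^ k := by
    refine (h2.sub h1).congr fun j => ?_
    rw [← hsplit j]; ring
  have h4 : Vv k z + ∑' j : ℕ, w ^ j / (j.factorial : ℂ) ^ 2 * ∑' i : ℕ, 1 / ((i : ℂ) + j + 1) ^ k = I0 z * riemannZeta k := by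
    have e : Vv k z = ∑' j : ℕ, w ^ j / (j.factorial : ℂ) ^ 2 * ∑ i ∈ Finset.range j, 1 / ((i : ℂ) + 1) ^ k := by
      rw [Vv]
      exact tsum_congr fun j => mul_comm _ _
    rw [e, ← h1.tsum_add h3, I0, ← tsum_mul_right]
    exact tsum_congr fun j => by rw [← mul_add, hsplit]
  rw [RT, eq_sub_iff_add_eq, ← add_div, div_eq_iff hz]
  linear_combination h4

/-- the index set of the numbers -/
abbrev Iq (Q : Set ℕ) (Z X : Set ℂ) (L : ℕ) (P : Set ℝ) : Type :=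
  {p : ℕ × ℂ // p.1 ∈ Q ∧ p.2 ∈ Z} ⊕ ({p : ℕ × ℂ // p.1 ∈ Q ∧ p.2 ∈ X} ⊕ {p : ℕ × ℝ // 1 ≤ p.1 ∧ p.1 ≤ L ∧ p.2 ∈ P})

/-- the independent numbers -/
noncomputable def sq {Q : Set ℕ} {Z X : Set ℂ} {L : ℕ} {P : Set ℝ} : Iq Q Z X L P → ℂ :=
  Sum.elim (fun p => Vv p.1.1 p.1.2 / I0 p.1.2)
    (Sum.elim (fun p => PS p.1.1 p.1.2) fun p => ((-EE p.1.1 p.1.2 : ℝ) : ℂ))

/-- the numbers -/
noncomputable def tq {Q : Set ℕ} {Z X : Set ℂ} {L : ℕ} {P : Set ℝ} : Iq Q Z X L P → ℂ :=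
  Sum.elim (fun p => RT p.1.1 p.1.2)
    (Sum.elim (fun p => PT p.1.1 p.1.2) fun p => ((Pool.Agent.R352.E.dl p.1.1 p.1.2 : ℝ) : ℂ))

section

variable {Q : Set ℕ} {Z X : Set ℂ} {L : ℕ} {P : Set ℝ}

theorem ai_sq (hQ : ∀ k ∈ Q, 2 ≤ k) (hX : ∀ x ∈ X, IsAlgebraic ℚ x ∧ ∀ y ∈ X, x + y ≠ 0) (hZ : Pts Z)
    (hP : ∀ x ∈ P, 0 < x ∧ IsAlgebraic ℚ x) :
    AlgebraicIndependent KB (sq (Q := Q) (Z := Z) (X := X) (L := L) (P := P)) := by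
  classical
  refine algebraicIndependent_of_finite_type fun t ht => ?_
  obtain ⟨M, hM⟩ : ∃ M : ℕ, ∀ p : {p : ℕ × ℂ // p.1 ∈ Q ∧ p.2 ∈ X}, Sum.inr (Sum.inl p) ∈ t → p.1.1 ≤ M := by
    have h1 : ((fun i : Iq Q Z X L P => Sum.elim (fun _ => 0) (Sum.elim (fun p => p.1.1) fun _ => 0) i) '' t).Finite :=
      ht.image _
    obtain ⟨M, hM⟩ := h1.bddAbove
    exact ⟨M, fun p hp => hM ⟨_, hp, rfl⟩⟩
  let g : t → Iy Z ⊕ Ix (max L M) P X := fun i => match i with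
    | ⟨Sum.inl p, _⟩ => Sum.inl ⟨p.1, hQ _ p.2.1, p.2.2⟩
    | ⟨Sum.inr (Sum.inl p), hp⟩ => Sum.inr (Sum.inl ⟨p.1, hQ _ p.2.1, (hM p hp).trans (le_max_right _ _), p.2.2⟩)
    | ⟨Sum.inr (Sum.inr p), _⟩ => Sum.inr (Sum.inr ⟨p.1, p.2.1, p.2.2.1.trans (le_max_left _ _), p.2.2.2⟩)
  have hg : Function.Injective g := by
    rintro ⟨p | p | p, hp⟩ ⟨q | q | q, hq⟩ h
    · have h2 : p.1 = q.1 := (Subtype.mk.injEq _ _ _ _).mp (Sum.inl.inj h)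
      exact Subtype.ext (congrArg Sum.inl (Subtype.ext h2))
    · cases h
    · cases h
    · cases h
    · have h2 : p.1 = q.1 := (Subtype.mk.injEq _ _ _ _).mp (Sum.inl.inj (Sum.inr.inj h))
      exact Subtype.ext (congrArg (Sum.inr ∘ Sum.inl) (Subtype.ext h2))
    · cases h
    · cases h
    · cases h
    · have h2 : p.1 = q.1 := (Subtype.mk.injEq _ _ _ _).mp (Sum.inr.inj (Sum.inr.inj h))
      exact Subtype.ext (congrArg (Sum.inr ∘ Sum.inr) (Subtype.ext h2))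
  have h2 := (ai_V' (max L M) P hP X hX hZ).comp g hg
  convert h2 using 1
  ext ⟨p | p | p, hp⟩ <;> rfl

theorem sq_mem (hQ : ∀ k ∈ Q, 2 ≤ k) (hLQ : ∀ k, 2 ≤ k → k ≤ L → k ∈ Q) (hZ : Pts Z) (hP : ∀ x ∈ P, 0 < x ∧ IsAlgebraic ℚ x)
    {T : Set ℂ} (hL : ∀ k ∈ Q, riemannZeta k ∈ clf KB T)
    (hG : ∀ x ∈ P, ((Real.eulerMascheroniConstant + Real.log x : ℝ) : ℂ) ∈ clf KB T) (i : Iq Q Z X L P)
    (hi : tq i ∈ clf KB T) : sq i ∈ clf KB T := by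
  rcases i with p | p | p
  · have h1 := R_split (hQ _ p.2.1) (I0_ne (hZ.1 _ p.2.2).1)
    have h2 : Vv p.1.1 p.1.2 / I0 p.1.2 = riemannZeta p.1.1 - RT p.1.1 p.1.2 := by rw [h1]; ring
    show Vv p.1.1 p.1.2 / I0 p.1.2 ∈ _
    rw [h2]
    exact (clf KB T).sub_mem (hL _ p.2.1) hi
  · have h3 := zeta_split (hQ _ p.2.1) p.1.2
    have h4 : PS p.1.1 p.1.2 = riemannZeta p.1.1 - PT p.1.1 p.1.2 := by rw [h3]; ring
    show PS p.1.1 p.1.2 ∈ _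
    rw [h4]
    exact (clf KB T).sub_mem (hL _ p.2.1) hi
  · show ((-EE p.1.1 p.1.2 : ℝ) : ℂ) ∈ _
    push_cast
    refine (clf KB T).neg_mem ?_
    refine EE_mem' (hP _ p.2.2.2).1 p.1.1 ?_ (hG _ p.2.2.2) (fun k h2 hk => hL k (hLQ k h2 (hk.trans p.2.2.1))) hi
    push_cast
    refine E0_le_clf (E0_le_KB (exp_mem_E0 ?_))
    exact (alg_cast (hP _ p.2.2.2).2).neg

theorem tri_q (hQ : ∀ k ∈ Q, 2 ≤ k) (hLQ : ∀ k, 2 ≤ k → k ≤ L → k ∈ Q) (hZ : Pts Z) (hP : ∀ x ∈ P, 0 < x ∧ IsAlgebraic ℚ x)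
    {Y : Set ℂ} (hL : ∀ k ∈ Q, riemannZeta k ∈ clf KB Y)
    (hG : ∀ x ∈ P, ((Real.eulerMascheroniConstant + Real.log x : ℝ) : ℂ) ∈ clf KB Y) (i : Iq Q Z X L P) :
    ∃ D : Finset (Iq Q Z X L P), i ∈ D ∧ ∀ j ∈ D, sq j ∈ clf KB (Y ∪ tq '' (D : Set (Iq Q Z X L P))) := by
  refine ⟨{i}, Finset.mem_singleton_self _, ?_⟩
  intro j hj
  obtain rfl := Finset.mem_singleton.1 hj
  have hsub : Y ⊆ Y ∪ tq '' (({j} : Finset (Iq Q Z X L P)) : Set (Iq Q Z X L P)) := subset_union_left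
  refine sq_mem hQ hLQ hZ hP (fun k hk => clf_mono hsub (hL k hk)) (fun x hx => clf_mono hsub (hG x hx)) j ?_
  exact subset_clf _ (Or.inr ⟨j, Finset.mem_coe.2 (Finset.mem_singleton_self _), rfl⟩)

variable {τ : Type} [Fintype τ] {y : τ → ℂ}

theorem count_q (hQ : ∀ k ∈ Q, 2 ≤ k) (hLQ : ∀ k, 2 ≤ k → k ≤ L → k ∈ Q) (hX : ∀ x ∈ X, IsAlgebraic ℚ x ∧ ∀ y ∈ X, x + y ≠ 0)
    (hZ : Pts Z) (hP : ∀ x ∈ P, 0 < x ∧ IsAlgebraic ℚ x) (hL : ∀ k ∈ Q, riemannZeta k ∈ clf KB (range y))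
    (hG : ∀ x ∈ P, ((Real.eulerMascheroniConstant + Real.log x : ℝ) : ℂ) ∈ clf KB (range y)) :
    {n : τ ⊕ Iq Q Z X L P | Sum.elim (fun j => IsAlgebraic KB (y j)) (fun i => IsAlgebraic KB (tq i)) n}.encard ≤
      (Fintype.card τ : ℕ∞) :=
  cnt (ai_sq hQ hX hZ hP) (tri_q hQ hLQ hZ hP hL hG)

theorem trdeg_q (hQ : ∀ k ∈ Q, 2 ≤ k) (hLQ : ∀ k, 2 ≤ k → k ≤ L → k ∈ Q) (hX : ∀ x ∈ X, IsAlgebraic ℚ x ∧ ∀ y ∈ X, x + y ≠ 0)
    (hZ : Pts Z) (hP : ∀ x ∈ P, 0 < x ∧ IsAlgebraic ℚ x) (hL : ∀ k ∈ Q, riemannZeta k ∈ clf KB (range y))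
    (hG : ∀ x ∈ P, ((Real.eulerMascheroniConstant + Real.log x : ℝ) : ℂ) ∈ clf KB (range y)) (A : Finset (Iq Q Z X L P)) :
    (A.card : Cardinal) ≤ Algebra.trdeg KB (IntermediateField.adjoin KB
      (range y ∪ tq '' (A : Set (Iq Q Z X L P)))) :=
  trdeg_of_eRk (rk_ge (ai_sq hQ hX hZ hP) (tri_q hQ hLQ hZ hP hL hG) A)

end

section

variable {F : IntermediateField ℚ ℂ} {T : Set ℂ}

theorem pi_mem' (h3 : riemannZeta 3 ∈ clf F T) (h4 : riemannZeta 3 / (Real.pi : ℂ) ^ 3 ∈ clf F T) :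
    (Real.pi : ℂ) ∈ clf F T := by
  have hz : riemannZeta 3 ≠ 0 := by
    refine riemannZeta_ne_zero_of_one_lt_re ?_
    norm_num
  have hpi0 : (Real.pi : ℂ) ≠ 0 := by exact_mod_cast Real.pi_ne_zero
  refine clf_pow (F := F) (n := 3) (by norm_num) ?_
  have h5 : (Real.pi : ℂ) ^ 3 = riemannZeta 3 / (riemannZeta 3 / (Real.pi : ℂ) ^ 3) := by
    field_simp
  rw [h5]
  exact (clf F _).div_mem h3 h4

theorem mem_zeta' {c : ℕ} (h3 : riemannZeta 3 ∈ clf F T) (h4 : riemannZeta 3 / (Real.pi : ℂ) ^ 3 ∈ clf F T)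
    (h5 : ∀ i : Fin c, riemannZeta ((2 * i + 5 : ℕ) : ℂ) ∈ clf F T) (k : ℕ) (hk : 2 ≤ k) (hk' : Even k ∨ k ≤ 2 * c + 3) :
    riemannZeta k ∈ clf F T := by
  have hpi := pi_mem' h3 h4
  rcases Nat.even_or_odd' k with ⟨j, rfl | rfl⟩
  · have h6 := riemannZeta_two_mul_nat (k := j) (by omega)
    push_cast at h6 ⊢
    rw [h6]
    refine (clf F _).div_mem ((clf F _).mul_mem ((clf F _).mul_mem ((clf F _).mul_mem ?_ ?_) ?_) ?_) ?_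
    · exact (clf F _).pow_mem ((clf F _).neg_mem (clf F _).one_mem) _
    · exact (clf F _).pow_mem (ofNat_mem _ _) _
    · exact (clf F _).pow_mem hpi _
    · exact E0_le_clf (SubfieldClass.ratCast_mem F _)
    · exact natCast_mem (clf F _) _
  · have hk2 : 2 * j + 1 ≤ 2 * c + 3 := by
      rcases hk' with h | h
      · exact absurd h (by simp [parity_simps])
      · exact h
    rcases Nat.lt_or_ge j 2 with hj | hj
    · have : j = 1 := by omega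
      subst this
      norm_num
      exact h3
    · have h7 := h5 (⟨j - 2, by omega⟩ : Fin c)
      have h8 : 2 * (j - 2) + 5 = 2 * j + 1 := by omega
      simp only [h8] at h7
      exact h7

end

end Pool.Agent.H18.Wd
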