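import Pool.Agent.H18.Wd.KbS
import Pool.Agent.H18.Wd.HVal
import Pool.Agent.H18.Wd.Cnt

/-!
# The values of the functions `A_k`, `V_k`, `B_k`
-/

set_option autoImplicit false
set_option linter.unusedSectionVars false

open PowerSeries Set

namespace Pool.Agent.H18.Wd

open Pool.Agent.N902.EW Pool.Agent.H18.Bes Pool.Agent.R352.E

/-- `∑_{n ≥ 1} (z^2/4)^n / (n!^2 n^k)` -/
noncomputable def Av (k : ℕ) (z : ℂ) : ℂ :=
  ∑' n : ℕ, (z ^ 2 / 4) ^ (n + 1) / (((n + 1).factorial : ℂ) ^ 2 * ((n : ℂ) + 1) ^ k)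

/-- `∑ H_n^(k) (z^2/4)^n / n!^2` -/
noncomputable def Vv (k : ℕ) (z : ℂ) : ℂ := ∑' n : ℕ, hz ℂ k n * ((z ^ 2 / 4) ^ n / (n.factorial : ℂ) ^ 2)

/-- `∑ n H_n^(k) (z^2/4)^n / n!^2` -/
noncomputable def Vd (k : ℕ) (z : ℂ) : ℂ := ∑' n : ℕ, (n : ℂ) * (hz ℂ k n * ((z ^ 2 / 4) ^ n / (n.factorial : ℂ) ^ 2))

/-- the Wronskian -/
noncomputable def Wv (k : ℕ) (z : ℂ) : ℂ := I0 z * Vd k z - z / 2 * I1 z * Vv k z

/-- `∑_{n ≥ 1} H_n (z^2/4)^n / (n!^2 n^k)` -/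
noncomputable def Cv (k : ℕ) (z : ℂ) : ℂ :=
  ∑' n : ℕ, hz ℂ 1 (n + 1) * ((z ^ 2 / 4) ^ (n + 1) / (((n + 1).factorial : ℂ) ^ 2 * ((n : ℂ) + 1) ^ k))

theorem tsum_two' {f : ℕ → ℂ} (h : ∀ k, f (2 * k + 1) = 0) (h0 : f 0 = 0) : ∑' m, f m = ∑' k, f (2 * (k + 1)) := by
  refine (Function.Injective.tsum_eq (g := fun k : ℕ => 2 * (k + 1)) (fun a b hab => by simpa using hab) ?_).symm
  intro m hm
  rcases Nat.even_or_odd' m with ⟨k, rfl | rfl⟩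
  · rcases k with _ | k
    · exact absurd h0 hm
    · exact ⟨k, rfl⟩
  · exact absurd (h k) hm

theorem coeff_Bs_odd {K : Type*} [Field K] [CharZero K] (ρ : K) (j k : ℕ) : coeff (2 * k + 1) (Bs ρ j) = 0 := by
  induction j with
  | zero => exact coeff_Vs_odd ρ 1 k
  | succ j ih =>
    show coeff (2 * k + 1) (ig (Bs ρ j)) = 0
    rw [coeff_ig, ih, zero_div]

theorem coeff_Bs_even {K : Type*} [Field K] [CharZero K] (ρ : K) (j k : ℕ) : coeff (2 * (k + 1)) (Bs ρ j) =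
    hz K 1 (k + 1) * (ρ ^ (k + 1) / ((k + 1).factorial : K) ^ 2) / (2 * ((k : K) + 1)) ^ j := by
  induction j with
  | zero =>
    show coeff (2 * (k + 1)) (Vs ρ 1) = _
    rw [coeff_Vs_even, pow_zero, div_one]
  | succ j ih =>
    show coeff (2 * (k + 1)) (ig (Bs ρ j)) = _
    rw [coeff_ig, ih, pow_succ (2 * ((k : K) + 1)) j, ← div_div]
    congr 1
    push_cast
    ring

theorem evk_Vs (ρ : Qb) (j : ℕ) {z : ℂ} (hz' : io ρ = z ^ 2 / 4) : evk io (Vs ρ j) = Vv j z := by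
  rw [evk, tsum_two (fun k => by rw [coeff_Vs_odd, map_zero]), Vv]
  refine tsum_congr fun k => ?_
  rw [coeff_Vs_even, map_mul, map_div₀, map_pow, map_pow, map_natCast, hz', map_hz]

theorem evk_thVs (ρ : Qb) (j : ℕ) {z : ℂ} (hz' : io ρ = z ^ 2 / 4) : evk io (th (Vs ρ j)) = 2 * Vd j z := by
  rw [evk, tsum_two (fun k => by rw [coeff_th, coeff_Vs_odd, mul_zero, map_zero]), Vd, ← tsum_mul_left]
  refine tsum_congr fun k => ?_
  rw [coeff_th, coeff_Vs_even, map_mul, map_mul, map_div₀, map_pow, map_pow, map_natCast, map_natCast, hz', map_hz]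
  push_cast
  ring

theorem evk_Ak (ρ : Qb) (j : ℕ) {z : ℂ} (hz' : io ρ = z ^ 2 / 4) : evk io (Ak (fs ρ) j) = Av j z / 2 ^ j := by
  rw [evk, tsum_two' (fun k => by rw [coeff_Ak_odd, map_zero]) (by rw [coeff_zero_Ak, map_zero]), Av, ← tsum_div_const]
  refine tsum_congr fun k => ?_
  rw [coeff_Ak_even, map_div₀, map_div₀, map_pow, map_pow, map_pow, map_mul, map_add, map_natCast, map_natCast, map_one, hz',
    mul_pow, map_ofNat]
  rw [div_div, div_div]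
  congr 1
  ring

theorem evk_Bs (ρ : Qb) (j : ℕ) {z : ℂ} (hz' : io ρ = z ^ 2 / 4) : evk io (Bs ρ j) = Cv j z / 2 ^ j := by
  rw [evk, tsum_two' (fun k => by rw [coeff_Bs_odd, map_zero]) (by rw [coeff_zero_Bs, map_zero]), Cv, ← tsum_div_const]
  refine tsum_congr fun k => ?_
  rw [coeff_Bs_even, map_div₀, map_mul, map_div₀, map_pow, map_pow, map_pow, map_mul, map_add, map_natCast, map_natCast,
    map_one, hz', mul_pow, map_hz, map_ofNat, mul_div_assoc, mul_div_assoc, div_div, div_div]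
  congr 2
  ring

/-! ### The base field -/

/-- the generators of the base field -/
def GK : Set ℂ := GE ∪ {w | ∃ b : ℂ, IsAlgebraic ℚ b ∧ (w = I0 b ∨ w = I1 b ∨ ∃ k : ℕ, w = Av (k + 1) b ∨ w = Cv k b ∨
  w = Wv (k + 2) b)}

/-- the base field -/
noncomputable def KB : IntermediateField ℚ ℂ := IntermediateField.adjoin ℚ GK

theorem E0_le_KB : E0 ≤ KB := IntermediateField.adjoin.mono _ _ _ subset_union_left

/-- the rest of the indices -/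
abbrev Rk (ι : Type*) := (ι × ((ℕ ⊕ ℕ) ⊕ ℕ)) ⊕ (ι ⊕ (ι ⊕ ι))

/-- the values of the rest of the functions -/
noncomputable def rk (x : Rk (Kx Qb)) : ℂ := match x with
  | Sum.inl (ρ, Sum.inl (Sum.inl k)) => evk io (Ak (fs ρ.1) (k + 1))
  | Sum.inl (ρ, Sum.inl (Sum.inr m)) => evk io (fs ρ.1 * th (Vs ρ.1 (2 * m + 2)) - Js ρ.1 * Vs ρ.1 (2 * m + 2))
  | Sum.inl (ρ, Sum.inr k) => evk io (Bs ρ.1 (k + 1))
  | Sum.inr (Sum.inl ρ) => evk io (Vs ρ.1 1)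
  | Sum.inr (Sum.inr (Sum.inl ρ)) => evk io (Js ρ.1)
  | Sum.inr (Sum.inr (Sum.inr ρ)) => evk io (fs ρ.1)

/-- the rearrangement -/
def reK {ι B : Type*} : ((ι × ℕ) ⊕ B) ⊕ Rk ι → Jk ι ⊕ B
  | Sum.inl (Sum.inl (ρ, k)) => Sum.inl (Sum.inl (ρ, Sum.inr (Sum.inl (k + 1))))
  | Sum.inl (Sum.inr b) => Sum.inr b
  | Sum.inr (Sum.inl (ρ, Sum.inl (Sum.inl k))) => Sum.inl (Sum.inl (ρ, Sum.inl (Sum.inl k)))
  | Sum.inr (Sum.inl (ρ, Sum.inl (Sum.inr m))) => Sum.inl (Sum.inl (ρ, Sum.inl (Sum.inr m)))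
  | Sum.inr (Sum.inl (ρ, Sum.inr k)) => Sum.inl (Sum.inl (ρ, Sum.inr (Sum.inr k)))
  | Sum.inr (Sum.inr (Sum.inl ρ)) => Sum.inl (Sum.inl (ρ, Sum.inr (Sum.inl 0)))
  | Sum.inr (Sum.inr (Sum.inr (Sum.inl ρ))) => Sum.inl (Sum.inr (Sum.inl ρ))
  | Sum.inr (Sum.inr (Sum.inr (Sum.inr ρ))) => Sum.inl (Sum.inr (Sum.inr ρ))

theorem reK_injective {ι B : Type*} : Function.Injective (reK (ι := ι) (B := B)) := by
  rintro ((⟨ρ, k⟩ | b) | ⟨ρ, (k | k) | k⟩ | ρ | ρ | ρ) ((⟨ρ', k'⟩ | b') | ⟨ρ', (k' | k') | k'⟩ | ρ' | ρ' | ρ') h <;>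
    simp only [reK, Sum.inl.injEq, Sum.inr.injEq, Prod.mk.injEq, reduceCtorEq, and_false, Nat.add_right_cancel_iff,
      Nat.succ_ne_zero, (Nat.succ_ne_zero _).symm, and_true] at h ⊢ <;> exact h

/-- the functions with value in a field -/
def PM (F : IntermediateField ℚ ℂ) (f : (Qb : Type)⟦X⟧) : Prop := EFK io f ∧ evk io f ∈ F

section

variable {F : IntermediateField ℚ ℂ} {f g : (Qb : Type)⟦X⟧}

theorem PM.add (hf : PM F f) (hg : PM F g) : PM F (f + g) :=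
  ⟨hf.1.add hg.1, by rw [evk_add hf.1 hg.1]; exact F.add_mem hf.2 hg.2⟩

theorem PM.mul (hf : PM F f) (hg : PM F g) : PM F (f * g) :=
  ⟨hf.1.mul hg.1, by rw [evk_mul hf.1 hg.1]; exact F.mul_mem hf.2 hg.2⟩

theorem PM.neg (hf : PM F f) : PM F (-f) := by
  refine ⟨hf.1.neg, ?_⟩
  have h1 : evk io (-f) = - evk io f := by
    have h2 := evk_add hf.1 hf.1.neg
    rw [add_neg_cancel, evk_zero] at h2
    exact (neg_eq_of_add_eq_zero_right h2.symm).symm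
  rw [h1]
  exact F.neg_mem hf.2

theorem PM.sub (hf : PM F f) (hg : PM F g) : PM F (f - g) := by
  rw [sub_eq_add_neg]; exact hf.add hg.neg

theorem PM.one : PM F 1 := ⟨EFK.one, by rw [evk_one]; exact F.one_mem⟩

theorem evk_rat_smul (c : ℚ) (f : (Qb : Type)⟦X⟧) : evk io ((algebraMap ℚ Qb c) • f) = (c : ℂ) * evk io f := by
  rw [evk, evk, ← tsum_mul_left]
  refine tsum_congr fun k => ?_
  rw [coeff_smul, smul_eq_mul, map_mul]
  congr 1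

theorem PM.rat (c : ℚ) (hf : PM F f) : PM F ((algebraMap ℚ Qb c) • f) := by
  refine ⟨hf.1.smul _, ?_⟩
  rw [evk_rat_smul]
  exact F.mul_mem (F.algebraMap_mem c) hf.2

variable {ρ : Kx Qb}

theorem PM_A (hf : PM F (fs ρ.1)) (hA : ∀ k, evk io (Ak (fs ρ.1) (k + 1)) ∈ F) (k : ℕ) : PM F (Ak (fs ρ.1) k) := by
  rcases k with _ | k
  · exact hf.sub PM.one
  · exact ⟨EFK_Ak ρ.1 _, hA k⟩

theorem PM_half (hf : PM F f) : PM F (((2 : Qb)⁻¹) • f) := by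
  have := hf.rat (1 / 2)
  have e : algebraMap ℚ Qb (1 / 2) = (2 : Qb)⁻¹ := by rw [one_div, map_inv₀, map_ofNat]
  rwa [e] at this

theorem PM_I (hA : ∀ k, PM F (Ak (fs ρ.1) k)) (m p : ℕ) : PM F (ig (Ak (fs ρ.1) p * Ak (fs ρ.1) (p + (2 * m + 1)))) := by
  induction m generalizing p with
  | zero =>
    have h1 := ig_A_mul ρ.1 p p
    have h2 : ig (Ak (fs ρ.1) (p + 1) * Ak (fs ρ.1) p) = ig (Ak (fs ρ.1) p * Ak (fs ρ.1) (p + 1)) := by rw [mul_comm]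
    rw [h2] at h1
    have h3 : ig (Ak (fs ρ.1) p * Ak (fs ρ.1) (p + (2 * 0 + 1))) =
        ((2 : Qb)⁻¹) • (Ak (fs ρ.1) (p + 1) * Ak (fs ρ.1) (p + 1)) := by
      rw [mul_zero, zero_add]
      have h4 : Ak (fs ρ.1) (p + 1) * Ak (fs ρ.1) (p + 1) = (2 : Qb) • ig (Ak (fs ρ.1) p * Ak (fs ρ.1) (p + 1)) := by
        rw [two_smul]
        nth_rewrite 1 [h1]
        ring
      rw [h4, smul_smul, inv_mul_cancel₀ two_ne_zero, one_smul]
    rw [h3]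
    exact PM_half ((hA _).mul (hA _))
  | succ m ih =>
    rw [show p + (2 * (m + 1) + 1) = (p + 2 * m + 2) + 1 by ring, ig_A_mul]
    refine ((hA _).mul (hA _)).sub ?_
    have := ih (p + 1)
    rwa [show p + 1 + (2 * m + 1) = p + 2 * m + 2 by ring] at this

theorem evk_wr (ρ : Qb) (k : ℕ) {z : ℂ} (hz' : io ρ = z ^ 2 / 4) : evk io (fs ρ * th (Vs ρ k) - Js ρ * Vs ρ k) = 2 * Wv k z := by
  have hf : EFK io (fs ρ) := EFK_fs ρ
  have hJ : EFK io (Js ρ) := EFK_th (EFK_fs ρ)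
  have hV : EFK io (Vs ρ k) := EFK_Vs ρ k
  have hT : EFK io (th (Vs ρ k)) := EFK_th (EFK_Vs ρ k)
  have h2 := evk_add (hf.mul hT) (hJ.mul hV).neg
  have h3 : evk io (-(Js ρ * Vs ρ k)) = - evk io (Js ρ * Vs ρ k) := by
    have h2 := evk_add (hJ.mul hV) (hJ.mul hV).neg
    rw [add_neg_cancel, evk_zero] at h2
    exact (neg_eq_of_add_eq_zero_right h2.symm).symm
  rw [sub_eq_add_neg, h2, h3, evk_mul hf hT, evk_mul hJ hV, evk_fs ρ hz', evk_Js ρ hz', evk_Vs ρ k hz', evk_thVs ρ k hz', Wv]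
  ring

/-- all Wronskians have their value in the field -/
theorem PM_W (hf : PM F (fs ρ.1)) (hA : ∀ k, evk io (Ak (fs ρ.1) (k + 1)) ∈ F)
    (hW : ∀ m, evk io (fs ρ.1 * th (Vs ρ.1 (2 * m + 2)) - Js ρ.1 * Vs ρ.1 (2 * m + 2)) ∈ F) (k : ℕ) :
    evk io (fs ρ.1 * th (Vs ρ.1 (k + 2)) - Js ρ.1 * Vs ρ.1 (k + 2)) ∈ F := by
  rcases Nat.even_or_odd' k with ⟨m, rfl | rfl⟩
  · exact hW m
  · have h1 : Xk (fs ρ.1) (2 * m + 1) = Ak (fs ρ.1) (2 * m + 2) + ig (Ak (fs ρ.1) 0 * Ak (fs ρ.1) (0 + (2 * m + 1))) := by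
      show ig (fs ρ.1 * Ak (fs ρ.1) (2 * m + 1)) = ig (Ak (fs ρ.1) (2 * m + 1)) + ig ((fs ρ.1 - 1) * Ak (fs ρ.1) (0 + (2 * m + 1)))
      rw [← ig_add, zero_add]
      congr 1
      ring
    have h2 : PM F (Xk (fs ρ.1) (2 * m + 1)) := by
      rw [h1]
      exact (PM_A hf hA _).add (PM_I (PM_A hf hA) m 0)
    have h3 := (h2.rat (2 ^ (2 * m + 1 + 2))).2
    have e : algebraMap ℚ Qb (2 ^ (2 * m + 1 + 2)) = (2 : Qb) ^ (2 * m + 1 + 2) := by rw [map_pow, map_ofNat]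
    rw [e] at h3
    rw [wr_Vs]
    exact h3

end

theorem Av_zero (k : ℕ) : Av k 0 = 0 := by
  rw [Av]
  refine (tsum_congr fun n => ?_).trans tsum_zero
  rw [zero_pow two_ne_zero, zero_div, zero_pow (Nat.succ_ne_zero n), zero_div]

theorem Cv_zero (k : ℕ) : Cv k 0 = 0 := by
  rw [Cv]
  refine (tsum_congr fun n => ?_).trans tsum_zero
  rw [zero_pow two_ne_zero, zero_div, zero_pow (Nat.succ_ne_zero n), zero_div, mul_zero]

theorem Wv_zero (k : ℕ) : Wv k 0 = 0 := by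
  have h1 : Vd k 0 = 0 := by
    rw [Vd]
    refine (tsum_congr fun n => ?_).trans tsum_zero
    rcases n with _ | n
    · simp
    · rw [zero_pow two_ne_zero, zero_div, zero_pow (Nat.succ_ne_zero n), zero_div, mul_zero, mul_zero]
  rw [Wv, h1, zero_div, zero_mul, zero_mul, mul_zero, sub_zero]

theorem KB_le : (KB : IntermediateField ℚ ℂ) ≤ (IntermediateField.adjoin E0 (range rk)).restrictScalars ℚ := by
  have h1 : (IntermediateField.adjoin E0 (range rk)).restrictScalars ℚ = IntermediateField.adjoin ℚ (GE ∪ range rk) := by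
    rw [E0]
    exact IntermediateField.adjoin_adjoin_left ℚ GE (range rk)
  rw [h1]
  refine IntermediateField.adjoin_le_iff.2 ?_
  set F := IntermediateField.adjoin ℚ (GE ∪ range rk) with hF
  have hsub : GE ∪ range rk ⊆ F := IntermediateField.subset_adjoin ℚ (GE ∪ range rk)
  have h2 : (2 : ℂ) ∈ F := by
    exact_mod_cast F.algebraMap_mem (2 : ℚ)
  rintro w (hw | ⟨b, hb, hw⟩)
  · exact hsub (Or.inl hw)
  · by_cases h0 : b = 0
    · subst h0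
      rcases hw with rfl | rfl | ⟨k, rfl | rfl | rfl⟩
      · rw [I0_zero]; exact F.one_mem
      · rw [I1_zero]; exact F.zero_mem
      · rw [Av_zero]; exact F.zero_mem
      · rw [Cv_zero]; exact F.zero_mem
      · rw [Wv_zero]; exact F.zero_mem
    · obtain ⟨ρ, hρ⟩ := exists_rho hb h0
      have hf : PM F (fs ρ.1) := ⟨EFK_fs ρ.1, hsub (Or.inr ⟨Sum.inr (Sum.inr (Sum.inr ρ)), rfl⟩)⟩
      rcases hw with rfl | rfl | ⟨k, rfl | rfl | rfl⟩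
      · have h3 := hf.2
        rwa [evk_fs _ hρ] at h3
      · have h3 : evk io (Js ρ.1) ∈ F := hsub (Or.inr ⟨Sum.inr (Sum.inr (Sum.inl ρ)), rfl⟩)
        rw [evk_Js _ hρ] at h3
        have h4 : I1 b = b * I1 b / b := by field_simp
        rw [h4]
        exact F.div_mem h3 (hsub (Or.inl (alg_mem_GE hb)))
      · have h3 : evk io (Ak (fs ρ.1) (k + 1)) ∈ F := hsub (Or.inr ⟨Sum.inl (ρ, Sum.inl (Sum.inl k)), rfl⟩)
        rw [evk_Ak _ _ hρ] at h3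
        have h4 : Av (k + 1) b = Av (k + 1) b / 2 ^ (k + 1) * 2 ^ (k + 1) := by field_simp
        rw [h4]
        exact F.mul_mem h3 (pow_mem h2 _)
      · have h3 : evk io (Bs ρ.1 k) ∈ F := by
          rcases k with _ | k
          · exact hsub (Or.inr ⟨Sum.inr (Sum.inl ρ), rfl⟩)
          · exact hsub (Or.inr ⟨Sum.inl (ρ, Sum.inr k), rfl⟩)
        rw [evk_Bs _ _ hρ] at h3
        have h4 : Cv k b = Cv k b / 2 ^ k * 2 ^ k := by field_simp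
        rw [h4]
        exact F.mul_mem h3 (pow_mem h2 _)
      · have h3 := PM_W hf (fun k => hsub (Or.inr ⟨Sum.inl (ρ, Sum.inl (Sum.inl k)), rfl⟩))
          (fun m => hsub (Or.inr ⟨Sum.inl (ρ, Sum.inl (Sum.inr m)), rfl⟩)) k
        rw [evk_wr _ _ hρ] at h3
        have h4 : Wv (k + 2) b = 2 * Wv (k + 2) b / 2 := by ring
        rw [h4]
        exact F.div_mem h3 h2

theorem bK_mem (s : Jk (Kx Qb)) : bK (fun ρ : Kx Qb => ρ.1) s ∈ FA FK Qb := by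
  rcases s with ⟨ρ, (k | m) | (k | k)⟩ | ρ | ρ
  · exact g_le_FA (F := FK) (some (k + 1, 0)) ρ
  · have hf : fs ρ.1 ∈ FA FK Qb := by
      have h := (FA FK Qb).add_mem (g_le_FA (F := FK) (some (0, 0)) ρ) (FA FK Qb).one_mem
      rwa [show FK.g Qb (some (0, 0)) ρ.1 + 1 = fs ρ.1 from sub_add_cancel _ _] at h
    have hV : Vs ρ.1 (2 * m + 2) ∈ FA FK Qb := g_le_FA (F := FK) (some (2 * m + 1, 1)) ρ
    have hT : th (Vs ρ.1 (2 * m + 2)) ∈ FA FK Qb := g_le_FA (F := FK) (some (2 * m + 1, 2)) ρ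
    have hJ : Js ρ.1 ∈ FA FK Qb := g_le_FA (F := FK) none ρ
    exact (FA FK Qb).sub_mem ((FA FK Qb).mul_mem hf hT) ((FA FK Qb).mul_mem hJ hV)
  · exact g_le_FA (F := FK) (some (k, 1)) ρ
  · exact g_le_FA (F := FK) (some (k, 3)) ρ
  · exact g_le_FA (F := FK) none ρ
  · have h := (FA FK Qb).add_mem (g_le_FA (F := FK) (some (0, 0)) ρ) (FA FK Qb).one_mem
    rwa [show FK.g Qb (some (0, 0)) ρ.1 + 1 = fs ρ.1 from sub_add_cancel _ _] at h

/-- **the functions `V_k`, `k ≥ 2`, are independent over the base field** -/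
theorem ai_V (L : ℕ) (P : Set ℝ) (hP : ∀ x ∈ P, 0 < x ∧ IsAlgebraic ℚ x) (X : Set ℂ)
    (hX : ∀ x ∈ X, IsAlgebraic ℚ x ∧ ∀ y ∈ X, x + y ≠ 0) :
    AlgebraicIndependent KB (Sum.elim (fun p : Kx Qb × ℕ => evk io (Vs p.1.1 (p.2 + 2)))
      (su (L := L) (P := P) (X := X))) := by
  have h0 := (ai_val_E0 ai_bK bK_mem L P hP X hX).comp reK (reK_injective (ι := Kx Qb) (B := Ix L P X))
  refine ai_split (y := rk) (G := range rk) ?_ (fun z hz => hz) KB_le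
  convert h0 using 1
  ext ((⟨ρ, k⟩ | b) | ⟨ρ, (k | k) | k⟩ | ρ | ρ | ρ) <;> rfl

theorem I0_mem_KB {z : ℂ} (hz : IsAlgebraic ℚ z) : I0 z ∈ KB :=
  IntermediateField.subset_adjoin _ _ (Or.inr ⟨z, hz, Or.inl rfl⟩)

/-- the index set of the means -/
abbrev Iy (Z : Set ℂ) : Type := {p : ℕ × ℂ // 2 ≤ p.1 ∧ p.2 ∈ Z}

theorem ai_V' (L : ℕ) (P : Set ℝ) (hP : ∀ x ∈ P, 0 < x ∧ IsAlgebraic ℚ x) (X : Set ℂ)
    (hX : ∀ x ∈ X, IsAlgebraic ℚ x ∧ ∀ y ∈ X, x + y ≠ 0) {Z : Set ℂ} (hZ : Pts Z) :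
    AlgebraicIndependent KB (Sum.elim (fun p : Iy Z => Vv p.1.1 p.1.2 / I0 p.1.2)
      (su (L := L) (P := P) (X := X))) := by
  choose ρ hρ using fun z : Z => exists_rho (hZ.1 z z.2).1 (hZ.1 z z.2).2
  have hρi : Function.Injective ρ := by
    intro z w h
    apply Subtype.ext
    refine hZ.2 _ z.2 _ w.2 ?_
    have h1 : (z : ℂ) ^ 2 / 4 = (w : ℂ) ^ 2 / 4 := by rw [← hρ z, ← hρ w, h]
    linear_combination 4 * h1
  let f : Iy Z → Kx Qb × ℕ := fun p => (ρ ⟨p.1.2, p.2.2⟩, p.1.1 - 2)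
  have hf : Function.Injective f := by
    intro p q h
    have h1 := hρi (Prod.ext_iff.1 h).1
    have h2 : p.1.2 = q.1.2 := congrArg Subtype.val h1
    have h3 : p.1.1 - 2 = q.1.1 - 2 := (Prod.ext_iff.1 h).2
    have h4 := p.2.1
    have h5 := q.2.1
    exact Subtype.ext (Prod.ext (by omega) h2)
  have h1 := (ai_V L P hP X hX).comp (Sum.map f id) (Function.Injective.sumMap hf Function.injective_id)
  refine ai_of_span h1 _ fun i => ?_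
  rcases i with p | i
  · show evk io (Vs (ρ ⟨p.1.2, p.2.2⟩).1 (p.1.1 - 2 + 2)) ∈ clf KB {Vv p.1.1 p.1.2 / I0 p.1.2}
    have h4 := p.2.1
    rw [evk_Vs _ _ (hρ ⟨p.1.2, p.2.2⟩), show p.1.1 - 2 + 2 = p.1.1 by omega]
    have h0 := I0_ne (hZ.1 _ p.2.2).1
    have h5 : Vv p.1.1 p.1.2 = Vv p.1.1 p.1.2 / I0 p.1.2 * I0 p.1.2 := by field_simp
    have h6 : Vv p.1.1 p.1.2 / I0 p.1.2 * I0 p.1.2 ∈ clf KB {Vv p.1.1 p.1.2 / I0 p.1.2} :=
      (clf KB _).mul_mem (subset_clf _ rfl) (E0_le_clf (I0_mem_KB (hZ.1 _ p.2.2).1))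
    rwa [← h5] at h6
  · exact subset_clf _ rfl

/-- the independent numbers -/
noncomputable def ty {X Z : Set ℂ} : Iy Z ⊕ Iy X → ℂ :=
  Sum.elim (fun p => Vv p.1.1 p.1.2 / I0 p.1.2) fun p => PS p.1.1 p.1.2

theorem ai_ty {X Z : Set ℂ} (hX : ∀ x ∈ X, IsAlgebraic ℚ x ∧ ∀ y ∈ X, x + y ≠ 0) (hZ : Pts Z) :
    AlgebraicIndependent KB (ty (X := X) (Z := Z)) := by
  classical
  refine algebraicIndependent_of_finite_type fun t ht => ?_
  obtain ⟨L, hL⟩ : ∃ L : ℕ, ∀ p : Iy X, Sum.inr p ∈ t → p.1.1 ≤ L := by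
    have h1 : ((fun i : Iy Z ⊕ Iy X => Sum.elim (fun _ => 0) (fun p : Iy X => p.1.1) i) '' t).Finite := ht.image _
    obtain ⟨L, hL⟩ := h1.bddAbove
    exact ⟨L, fun p hp => hL ⟨_, hp, rfl⟩⟩
  let g : t → Iy Z ⊕ Ix L ∅ X := fun i => match i with
    | ⟨Sum.inl p, _⟩ => Sum.inl p
    | ⟨Sum.inr p, hp⟩ => Sum.inr (Sum.inl ⟨p.1, p.2.1, hL p hp, p.2.2⟩)
  have hg : Function.Injective g := by
    rintro ⟨p | p, hp⟩ ⟨q | q, hq⟩ h
    · have h1 : p = q := Sum.inl.inj h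
      exact Subtype.ext (congrArg Sum.inl h1)
    · cases h
    · cases h
    · have h1 := Sum.inl.inj (Sum.inr.inj h)
      have h2 : p.1 = q.1 := (Subtype.mk.injEq _ _ _ _).mp h1
      exact Subtype.ext (congrArg Sum.inr (Subtype.ext h2))
  have h2 := (ai_V' L ∅ (by simp) X hX hZ).comp g hg
  convert h2 using 1
  ext ⟨p | p, hp⟩ <;> rfl

end Pool.Agent.H18.Wd
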