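import Pool.Agent.H18.Wd.Vr

/-!
# The iterated integrals `A_k`, `X_k`, `κ_k`, `B_k`: algebraic independence
-/

set_option autoImplicit false
set_option linter.unusedSectionVars false

open PowerSeries
open scoped Differential

namespace Pool.Agent.H18.Wd

open Pool.Agent.N902.EW Pool.Agent.H18.Bes

variable {K : Type*} [Field K] [CharZero K]

/-- `A_k` -/
noncomputable def Ak (f : K⟦X⟧) : ℕ → K⟦X⟧
  | 0 => f - 1
  | k + 1 => ig (Ak f k)

/-- `X_k` -/
noncomputable def Xk (f : K⟦X⟧) (k : ℕ) : K⟦X⟧ := ig (f * Ak f k)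

/-- `κ_(k+1)` -/
noncomputable def kk (f : K⟦X⟧) : ℕ → K⟦X⟧
  | 0 => ig (1 - pw f (-2))
  | k + 1 => ig (pw f (-2) * Xk f k)

/-- `B_k` -/
noncomputable def Bk (f : K⟦X⟧) : ℕ → K⟦X⟧
  | 0 => f * kk f 0
  | k + 1 => ig (Bk f k)

section der

variable {ι : Type*} [Fintype ι] {ρ : ι → K} {C : Subfield (LF K)}

/-- the letter -/
def al (i : ι) : ι × {e : ℤ // e ≠ 0} := (i, ⟨1, by norm_num⟩)

theorem al_ne_pl (i k : ι) : al i ≠ pl k := fun h => by
  have := congrArg (fun x => (x.2.1 : ℤ)) h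
  simp [al, pl] at this

theorem al_ne_bl (i k : ι) : al i ≠ bl k := fun h => by
  have := congrArg (fun x => (x.2.1 : ℤ)) h
  simp [al, bl] at this

theorem al_inj {i k : ι} (h : al i = al k) : i = k := congrArg Prod.fst h

theorem ig_sub (f g : K⟦X⟧) : ig (f - g) = ig f - ig g := by
  rw [sub_eq_add_neg, ig_add, ← neg_one_smul K g, ig_smul, neg_one_smul, ← sub_eq_add_neg]

theorem pw_one (f : K⟦X⟧) : pw f 1 = f := by
  show f ^ 1 = f
  rw [pow_one]

theorem lt_al (i : ι) : lt (bu ρ) (some (al i)) = fs (ρ i) - 1 := by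
  show pw (fs (ρ i)) 1 - 1 = _
  rw [pw_one]

theorem lt_none : lt (bu ρ) none = 1 := rfl

theorem a_one (i : ι) : Ak (fs (ρ i)) 1 = ig (lt (bu ρ) (some (al i)) * 1) := by
  rw [lt_al, mul_one]; rfl

theorem a_succ (i : ι) (k : ℕ) : Ak (fs (ρ i)) (k + 2) = ig (lt (bu ρ) none * Ak (fs (ρ i)) (k + 1)) := by
  rw [lt_none, one_mul]; rfl

theorem x_zero (i : ι) : Xk (fs (ρ i)) 0 = ig (lt (bu ρ) (some (pl i)) * 1) - ig (lt (bu ρ) (some (al i)) * 1) := by
  rw [lt_al, ← ig_sub, mul_one, mul_one]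
  show ig (fs (ρ i) * (fs (ρ i) - 1)) = ig ((fs (ρ i)) ^ 2 - 1 - (fs (ρ i) - 1))
  congr 1
  ring

theorem x_succ (i : ι) (k : ℕ) : Xk (fs (ρ i)) (k + 1) =
    ig (lt (bu ρ) (some (al i)) * Ak (fs (ρ i)) (k + 1)) + ig (lt (bu ρ) none * Ak (fs (ρ i)) (k + 1)) := by
  rw [lt_al, lt_none, ← ig_add, Xk]
  congr 1
  ring

theorem k_zero (i : ι) : kk (fs (ρ i)) 0 = -ig (lt (bu ρ) (some (bl i)) * 1) := by
  rw [mul_one, ← neg_one_smul K, ← ig_smul]
  show ig (1 - pw (fs (ρ i)) (-2)) = ig ((-1 : K) • (pw (fs (ρ i)) (-2) - 1))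
  congr 1
  rw [neg_one_smul]
  ring

theorem k_succ (i : ι) (k : ℕ) : kk (fs (ρ i)) (k + 1) =
    ig (lt (bu ρ) (some (bl i)) * Xk (fs (ρ i)) k) + ig (lt (bu ρ) none * Xk (fs (ρ i)) k) := by
  rw [lt_none, ← ig_add]
  show ig (pw (fs (ρ i)) (-2) * Xk (fs (ρ i)) k) = ig ((pw (fs (ρ i)) (-2) - 1) * Xk (fs (ρ i)) k + 1 * Xk (fs (ρ i)) k)
  congr 1
  ring

theorem b_one (i : ι) : Bk (fs (ρ i)) 1 =
    ig (lt (bu ρ) (some (al i)) * kk (fs (ρ i)) 0) + ig (lt (bu ρ) none * kk (fs (ρ i)) 0) := by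
  rw [lt_al, lt_none, ← ig_add]
  show ig (fs (ρ i) * kk (fs (ρ i)) 0) = _
  congr 1
  ring

theorem b_succ (i : ι) (k : ℕ) : Bk (fs (ρ i)) (k + 2) = ig (lt (bu ρ) none * Bk (fs (ρ i)) (k + 1)) := by
  rw [lt_none, one_mul]; rfl

theorem a_mem (i : ι) (k : ℕ) : Ak (fs (ρ i)) (k + 1) ∈ SP (bu ρ) := by
  induction k with
  | zero => rw [zero_add, a_one]; exact ig_mem _ one_mem_SW (Or.inl (by simp))
  | succ k ih => rw [a_succ]; exact ig_mul_mem none ih

theorem x_mem (i : ι) (k : ℕ) : Xk (fs (ρ i)) k ∈ SP (bu ρ) := by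
  rcases k with _ | k
  · rw [x_zero]
    exact Submodule.sub_mem _ (ig_mem _ one_mem_SW (Or.inl (by simp))) (ig_mem _ one_mem_SW (Or.inl (by simp)))
  · rw [x_succ]
    exact Submodule.add_mem _ (ig_mul_mem _ (a_mem i k)) (ig_mul_mem _ (a_mem i k))

theorem k_mem (i : ι) (k : ℕ) : kk (fs (ρ i)) k ∈ SP (bu ρ) := by
  rcases k with _ | k
  · rw [k_zero]
    exact Submodule.neg_mem _ (ig_mem _ one_mem_SW (Or.inl (by simp)))
  · rw [k_succ]
    exact Submodule.add_mem _ (ig_mul_mem _ (x_mem i k)) (ig_mul_mem _ (x_mem i k))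

theorem b_mem (i : ι) (k : ℕ) : Bk (fs (ρ i)) (k + 1) ∈ SP (bu ρ) := by
  induction k with
  | zero =>
    rw [zero_add, b_one]
    exact Submodule.add_mem _ (ig_mul_mem _ (k_mem i 0)) (ig_mul_mem _ (k_mem i 0))
  | succ k ih => rw [b_succ]; exact ig_mul_mem none ih

variable (h : Frm C (bu ρ))

/-- `A_(k+1)` -/
noncomputable def aA (i : ι) (k : ℕ) : AW h := ⟨Ak (fs (ρ i)) (k + 1), SP_le (a_mem i k)⟩
/-- `X_k` -/
noncomputable def xA (i : ι) (k : ℕ) : AW h := ⟨Xk (fs (ρ i)) k, SP_le (x_mem i k)⟩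
/-- `κ_(k+1)` -/
noncomputable def kA (i : ι) (k : ℕ) : AW h := ⟨kk (fs (ρ i)) k, SP_le (k_mem i k)⟩
/-- `B_(k+1)` -/
noncomputable def bB (i : ι) (k : ℕ) : AW h := ⟨Bk (fs (ρ i)) (k + 1), SP_le (b_mem i k)⟩

/-- the integral against a form -/
noncomputable def igA (b : Option (ι × {e : ℤ // e ≠ 0})) (f : AW h) (hb : b ≠ none ∨ (f : K⟦X⟧) ∈ SP (bu ρ)) : AW h :=
  ⟨ig (lt (bu ρ) b * (f : K⟦X⟧)), SP_le (ig_mem b f.2 hb)⟩

open Classical in
theorem DA_igA (a b : Option (ι × {e : ℤ // e ≠ 0})) (f : AW h) (hb : b ≠ none ∨ (f : K⟦X⟧) ∈ SP (bu ρ)) :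
    DA h a (igA h b f hb) = if b = a then f else 0 := DA_ig a b f.2 hb _ f.2

theorem SPa (i : ι) (k : ℕ) : (aA h i k : K⟦X⟧) ∈ SP (bu ρ) := a_mem i k
theorem SPx (i : ι) (k : ℕ) : (xA h i k : K⟦X⟧) ∈ SP (bu ρ) := x_mem i k
theorem SPk (i : ι) (k : ℕ) : (kA h i k : K⟦X⟧) ∈ SP (bu ρ) := k_mem i k
theorem SPb (i : ι) (k : ℕ) : (bB h i k : K⟦X⟧) ∈ SP (bu ρ) := b_mem i k

theorem aA_zero (i : ι) : aA h i 0 = igA h (some (al i)) 1 (Or.inl (by simp)) := Subtype.ext (a_one i)
theorem aA_succ (i : ι) (k : ℕ) : aA h i (k + 1) = igA h none (aA h i k) (Or.inr (SPa h i k)) := Subtype.ext (a_succ i k)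
theorem xA_zero (i : ι) : xA h i 0 = igA h (some (pl i)) 1 (Or.inl (by simp)) - igA h (some (al i)) 1 (Or.inl (by simp)) :=
  Subtype.ext (x_zero i)
theorem xA_succ (i : ι) (k : ℕ) : xA h i (k + 1) = igA h (some (al i)) (aA h i k) (Or.inl (by simp)) +
    igA h none (aA h i k) (Or.inr (SPa h i k)) := Subtype.ext (x_succ i k)
theorem kA_zero (i : ι) : kA h i 0 = -igA h (some (bl i)) 1 (Or.inl (by simp)) := Subtype.ext (k_zero i)
theorem kA_succ (i : ι) (k : ℕ) : kA h i (k + 1) = igA h (some (bl i)) (xA h i k) (Or.inl (by simp)) +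
    igA h none (xA h i k) (Or.inr (SPx h i k)) := Subtype.ext (k_succ i k)
theorem bB_zero (i : ι) : bB h i 0 = igA h (some (al i)) (kA h i 0) (Or.inl (by simp)) +
    igA h none (kA h i 0) (Or.inr (SPk h i 0)) := Subtype.ext (b_one i)
theorem bB_succ (i : ι) (k : ℕ) : bB h i (k + 1) = igA h none (bB h i k) (Or.inr (SPb h i k)) := Subtype.ext (b_succ i k)

section rules

theorem nn (x : ι × {e : ℤ // e ≠ 0}) : ¬((none : Option (ι × {e : ℤ // e ≠ 0})) = some x) := by simp

open Classical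

/-! the rules -/

theorem Da_a0 (i j : ι) : DA h (some (al j)) (aA h i 0) = if i = j then 1 else 0 := by
  rw [aA_zero, DA_igA]
  by_cases hij : i = j
  · rw [if_pos hij, if_pos (by rw [hij])]
  · rw [if_neg hij, if_neg (fun e => hij (al_inj (Option.some.inj e)))]

theorem Ds_a (x : ι × {e : ℤ // e ≠ 0}) (hx : ∀ i, al i ≠ x) (i : ι) (k : ℕ) : DA h (some x) (aA h i k) = 0 := by
  rcases k with _ | k
  · rw [aA_zero, DA_igA, if_neg (fun e => hx i (Option.some.inj e))]
  · rw [aA_succ, DA_igA, if_neg (by simp)]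

theorem Ds_a1 (x : ι × {e : ℤ // e ≠ 0}) (i : ι) (k : ℕ) : DA h (some x) (aA h i (k + 1)) = 0 := by
  rw [aA_succ, DA_igA, if_neg (by simp)]

theorem Dn_a0 (i : ι) : DA h none (aA h i 0) = 0 := by rw [aA_zero, DA_igA, if_neg (by simp)]
theorem Dn_a1 (i : ι) (k : ℕ) : DA h none (aA h i (k + 1)) = aA h i k := by rw [aA_succ, DA_igA, if_pos rfl]

theorem Da_x0 (i j : ι) : DA h (some (al j)) (xA h i 0) = if i = j then -1 else 0 := by
  rw [xA_zero, map_sub, DA_igA, DA_igA, if_neg (fun e => al_ne_pl _ _ (Option.some.inj e).symm), zero_sub]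
  by_cases hij : i = j
  · rw [if_pos hij, if_pos (by rw [hij])]
  · rw [if_neg hij, if_neg (fun e => hij (al_inj (Option.some.inj e))), neg_zero]

theorem Da_x1 (i j : ι) (k : ℕ) : DA h (some (al j)) (xA h i (k + 1)) = if i = j then aA h i k else 0 := by
  rw [xA_succ, map_add, DA_igA, DA_igA, if_neg (nn _), add_zero]
  by_cases hij : i = j
  · rw [if_pos hij, if_pos (by rw [hij])]
  · rw [if_neg hij, if_neg (fun e => hij (al_inj (Option.some.inj e)))]

theorem Dp_x0 (i j : ι) : DA h (some (pl j)) (xA h i 0) = if i = j then 1 else 0 := by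
  rw [xA_zero, map_sub, DA_igA, DA_igA, if_neg (fun e => al_ne_pl _ _ (Option.some.inj e)), sub_zero]
  by_cases hij : i = j
  · rw [if_pos hij, if_pos (by rw [hij])]
  · rw [if_neg hij, if_neg (fun e => hij (pl_inj (Option.some.inj e)))]

theorem Dp_x1 (i j : ι) (k : ℕ) : DA h (some (pl j)) (xA h i (k + 1)) = 0 := by
  rw [xA_succ, map_add, DA_igA, DA_igA, if_neg (nn _), if_neg (fun e => al_ne_pl _ _ (Option.some.inj e)), add_zero]

theorem Db_x (i j : ι) (k : ℕ) : DA h (some (bl j)) (xA h i k) = 0 := by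
  rcases k with _ | k
  · rw [xA_zero, map_sub, DA_igA, DA_igA, if_neg (fun e => al_ne_bl _ _ (Option.some.inj e)),
      if_neg (fun e => bl_ne_pl _ _ (Option.some.inj e).symm), sub_zero]
  · rw [xA_succ, map_add, DA_igA, DA_igA, if_neg (nn _), if_neg (fun e => al_ne_bl _ _ (Option.some.inj e)), add_zero]

theorem Dn_x0 (i : ι) : DA h none (xA h i 0) = 0 := by
  rw [xA_zero, map_sub, DA_igA, DA_igA, if_neg (by simp), if_neg (by simp), sub_zero]
theorem Dn_x1 (i : ι) (k : ℕ) : DA h none (xA h i (k + 1)) = aA h i k := by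
  rw [xA_succ, map_add, DA_igA, DA_igA, if_neg (by simp), if_pos rfl, zero_add]

theorem Ds_k (x : ι × {e : ℤ // e ≠ 0}) (hx : ∀ i, bl i ≠ x) (i : ι) (k : ℕ) : DA h (some x) (kA h i k) = 0 := by
  rcases k with _ | k
  · rw [kA_zero, map_neg, DA_igA, if_neg (fun e => hx i (Option.some.inj e)), neg_zero]
  · rw [kA_succ, map_add, DA_igA, DA_igA, if_neg (fun e => hx i (Option.some.inj e)), if_neg (by simp), add_zero]

theorem Db_k0 (i j : ι) : DA h (some (bl j)) (kA h i 0) = if i = j then -1 else 0 := by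
  rw [kA_zero, map_neg, DA_igA]
  by_cases hij : i = j
  · rw [if_pos hij, if_pos (by rw [hij])]
  · rw [if_neg hij, if_neg (fun e => hij (bl_inj (Option.some.inj e))), neg_zero]

theorem Db_k1 (i j : ι) (k : ℕ) : DA h (some (bl j)) (kA h i (k + 1)) = if i = j then xA h i k else 0 := by
  rw [kA_succ, map_add, DA_igA, DA_igA, if_neg (nn _), add_zero]
  by_cases hij : i = j
  · rw [if_pos hij, if_pos (by rw [hij])]
  · rw [if_neg hij, if_neg (fun e => hij (bl_inj (Option.some.inj e)))]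

theorem Dn_k0 (i : ι) : DA h none (kA h i 0) = 0 := by rw [kA_zero, map_neg, DA_igA, if_neg (by simp), neg_zero]
theorem Dn_k1 (i : ι) (k : ℕ) : DA h none (kA h i (k + 1)) = xA h i k := by
  rw [kA_succ, map_add, DA_igA, DA_igA, if_neg (by simp), if_pos rfl, zero_add]

theorem Da_b0 (i j : ι) : DA h (some (al j)) (bB h i 0) = if i = j then kA h i 0 else 0 := by
  rw [bB_zero, map_add, DA_igA, DA_igA, if_neg (nn _), add_zero]
  by_cases hij : i = j
  · rw [if_pos hij, if_pos (by rw [hij])]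
  · rw [if_neg hij, if_neg (fun e => hij (al_inj (Option.some.inj e)))]

theorem Ds_b (x : ι × {e : ℤ // e ≠ 0}) (hx : ∀ i, al i ≠ x) (i : ι) (k : ℕ) : DA h (some x) (bB h i k) = 0 := by
  rcases k with _ | k
  · rw [bB_zero, map_add, DA_igA, DA_igA, if_neg (nn _), if_neg (fun e => hx i (Option.some.inj e)), add_zero]
  · rw [bB_succ, DA_igA, if_neg (by simp)]

theorem Ds_b1 (x : ι × {e : ℤ // e ≠ 0}) (i : ι) (k : ℕ) : DA h (some x) (bB h i (k + 1)) = 0 := by
  rw [bB_succ, DA_igA, if_neg (by simp)]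

theorem Dn_b0 (i : ι) : DA h none (bB h i 0) = kA h i 0 := by
  rw [bB_zero, map_add, DA_igA, DA_igA, if_neg (by simp), if_pos rfl, zero_add]
theorem Dn_b1 (i : ι) (k : ℕ) : DA h none (bB h i (k + 1)) = bB h i k := by rw [bB_succ, DA_igA, if_pos rfl]

/-! ### The modules -/

/-- the span of `1` and the `A_k` -/
noncomputable def NA : Submodule K (AW h) := Submodule.span K (insert 1 (Set.range fun p : ι × ℕ => aA h p.1 p.2))

theorem one_NA : (1 : AW h) ∈ NA h := Submodule.subset_span (Or.inl rfl)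
theorem a_NA (i : ι) (k : ℕ) : aA h i k ∈ NA h := Submodule.subset_span (Or.inr ⟨(i, k), rfl⟩)

theorem Db_NA {f : AW h} (hf : f ∈ NA h) (j : ι) : DA h (some (bl j)) f = 0 := by
  refine Submodule.span_induction (p := fun f _ => DA h (some (bl j)) f = 0) ?_ ?_ ?_ ?_ hf
  · rintro _ (rfl | ⟨p, rfl⟩)
    · exact Derivation.map_one_eq_zero _
    · exact Ds_a h _ (fun i e => al_ne_bl _ _ e) p.1 p.2
  · rw [map_zero]
  · intro x y _ _ hx hy; rw [map_add, hx, hy, add_zero]
  · intro c x _ hx; rw [Derivation.map_smul, hx, smul_zero]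

theorem Dn_NA {f : AW h} (hf : f ∈ NA h) : DA h none f ∈ NA h := by
  refine Submodule.span_induction (p := fun f _ => DA h none f ∈ NA h) ?_ ?_ ?_ ?_ hf
  · rintro _ (rfl | ⟨⟨i, k⟩, rfl⟩)
    · rw [Derivation.map_one_eq_zero]; exact Submodule.zero_mem _
    · rcases k with _ | k
      · simp only [Dn_a0]; exact Submodule.zero_mem _
      · simp only [Dn_a1]; exact a_NA h i k
  · rw [map_zero]; exact Submodule.zero_mem _
  · intro x y _ _ hx hy; rw [map_add]; exact Submodule.add_mem _ hx hy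
  · intro c x _ hx; rw [Derivation.map_smul]; exact Submodule.smul_mem _ _ hx

/-- the action of `E_j` -/
structure Ev (P : Derivation K (AW h) (AW h)) (i : ι) (j : ℕ) (c : K) : Prop where
  a : ∀ i' k, P (aA h i' k) = if i' = i ∧ k = j then 1 else 0
  x : ∀ i' k, P (xA h i' k) = if i' = i then (if k = j then c • 1 else 0) +
    (if j < k then ((-1 : K) ^ j) • aA h i' (k - j - 1) else 0) else 0
  k0 : ∀ i', P (kA h i' 0) = 0
  k : ∀ i' k, P (kA h i' (k + 1)) ∈ NA h
  b : ∀ i' k, P (bB h i' k) = if i' = i ∧ k = j then kA h i' 0 else 0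

theorem Ev.zero (i : ι) : Ev h (DA h (some (al i))) i 0 (-1) := by
  refine ⟨fun i' k => ?_, fun i' k => ?_, fun i' => ?_, fun i' k => ?_, fun i' k => ?_⟩
  · rcases k with _ | k
    · rw [Da_a0]; simp
    · rw [Ds_a1, if_neg (by simp)]
  · rcases k with _ | k
    · rw [Da_x0]; simp
    · rw [Da_x1, if_neg (Nat.succ_ne_zero k), if_pos (Nat.succ_pos k)]; simp
  · exact Ds_k h _ (fun j e => al_ne_bl _ _ e.symm) i' 0
  · rw [Ds_k h _ (fun j e => al_ne_bl _ _ e.symm)]; exact Submodule.zero_mem _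
  · rcases k with _ | k
    · rw [Da_b0]; simp
    · rw [Ds_b1, if_neg (by simp)]

variable {h}

theorem smul_D (P : Derivation K (AW h) (AW h)) (c : K) (f : AW h) : P (c • f) = c • P f := P.map_smul c f

theorem Ev.succ {P : Derivation K (AW h) (AW h)} {i : ι} {j : ℕ} {c : K} (hP : Ev h P i j c) :
    Ev h ⁅P, DA h none⁆ i (j + 1) 1 := by
  refine ⟨fun i' k => ?_, fun i' k => ?_, fun i' => ?_, fun i' k => ?_, fun i' k => ?_⟩
  · rw [Derivation.commutator_apply]
    have h1 : DA h none (P (aA h i' k)) = 0 := by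
      rw [hP.a]; split_ifs
      · exact Derivation.map_one_eq_zero _
      · rw [map_zero]
    rw [h1, sub_zero]
    rcases k with _ | k
    · rw [Dn_a0, map_zero, if_neg (by simp)]
    · rw [Dn_a1, hP.a]; simp
  · rw [Derivation.commutator_apply]
    by_cases hi : i' = i
    · rw [if_pos hi]
      rcases k with _ | k
      · rw [Dn_x0, map_zero, hP.x, if_pos hi, map_add]
        have h1 : DA h none ((if 0 = j then c • (1 : AW h) else 0)) = 0 := by
          split_ifs
          · rw [smul_D, Derivation.map_one_eq_zero, smul_zero]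
          · rw [map_zero]
        rw [h1, if_neg (show ¬ j < 0 by omega), map_zero, add_zero, sub_zero, if_neg (show ¬ 0 = j + 1 by omega),
          if_neg (show ¬ j + 1 < 0 by omega), add_zero]
      · rw [Dn_x1, hP.a, hP.x, if_pos hi, map_add]
        have h1 : DA h none ((if k + 1 = j then c • (1 : AW h) else 0)) = 0 := by
          split_ifs
          · rw [smul_D, Derivation.map_one_eq_zero, smul_zero]
          · rw [map_zero]
        rw [h1, zero_add]
        rcases Nat.lt_trichotomy k j with hkj | hkj | hkj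
        · rw [if_neg (show ¬ (i' = i ∧ k = j) by omega), if_neg (show ¬ j < k + 1 by omega),
            if_neg (show ¬ k + 1 = j + 1 by omega), if_neg (show ¬ j + 1 < k + 1 by omega), map_zero]; simp
        · subst hkj
          rw [if_pos ⟨hi, rfl⟩, if_pos (show k < k + 1 by omega), if_pos rfl, if_neg (show ¬ k + 1 < k + 1 by omega), smul_D,
            show k + 1 - k - 1 = 0 by omega, Dn_a0, smul_zero]
          simp
        · rw [if_neg (show ¬ (i' = i ∧ k = j) by omega), if_pos (show j < k + 1 by omega),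
            if_neg (show ¬ k + 1 = j + 1 by omega), if_pos (show j + 1 < k + 1 by omega), smul_D,
            show k + 1 - j - 1 = (k - j - 1) + 1 by omega, Dn_a1, show k + 1 - (j + 1) - 1 = k - j - 1 by omega, pow_succ]
          simp
    · rw [if_neg hi, hP.x, if_neg hi, map_zero, sub_zero]
      rcases k with _ | k
      · rw [Dn_x0, map_zero]
      · rw [Dn_x1, hP.a, if_neg (fun e => hi e.1)]
  · rw [Derivation.commutator_apply, Dn_k0, hP.k0, map_zero, map_zero, sub_zero]
  · rw [Derivation.commutator_apply, Dn_k1]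
    refine Submodule.sub_mem _ ?_ (Dn_NA h (hP.k i' k))
    rw [hP.x]
    split_ifs
    · exact Submodule.add_mem _ (Submodule.smul_mem _ _ (one_NA h)) (Submodule.smul_mem _ _ (a_NA h _ _))
    · exact Submodule.add_mem _ (Submodule.smul_mem _ _ (one_NA h)) (Submodule.zero_mem _)
    · exact Submodule.add_mem _ (Submodule.zero_mem _) (Submodule.smul_mem _ _ (a_NA h _ _))
    · exact Submodule.add_mem _ (Submodule.zero_mem _) (Submodule.zero_mem _)
    · exact Submodule.zero_mem _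
  · rw [Derivation.commutator_apply]
    have h1 : DA h none (P (bB h i' k)) = 0 := by
      rw [hP.b]; split_ifs
      · exact Dn_k0 h i'
      · rw [map_zero]
    rw [h1, sub_zero]
    rcases k with _ | k
    · rw [Dn_b0, hP.k0, if_neg (by simp)]
    · rw [Dn_b1, hP.b]; simp

variable (h)

theorem exists_Ev (i : ι) (j : ℕ) : ∃ P : Derivation K (AW h) (AW h), Ev h P i j (if j = 0 then -1 else 1) := by
  induction j with
  | zero => exact ⟨_, by simpa using Ev.zero h i⟩
  | succ j ih =>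
    obtain ⟨P, hP⟩ := ih
    exact ⟨_, by simpa using hP.succ⟩

variable {h}

theorem Ev.x_NA {P : Derivation K (AW h) (AW h)} {i : ι} {j : ℕ} {c : K} (hP : Ev h P i j c) (i' : ι) (k : ℕ) :
    P (xA h i' k) ∈ NA h := by
  rw [hP.x]
  split_ifs
  · exact Submodule.add_mem _ (Submodule.smul_mem _ _ (one_NA h)) (Submodule.smul_mem _ _ (a_NA h _ _))
  · exact Submodule.add_mem _ (Submodule.smul_mem _ _ (one_NA h)) (Submodule.zero_mem _)
  · exact Submodule.add_mem _ (Submodule.zero_mem _) (Submodule.smul_mem _ _ (a_NA h _ _))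
  · exact Submodule.add_mem _ (Submodule.zero_mem _) (Submodule.zero_mem _)
  · exact Submodule.zero_mem _

/-- the action of `[E_j, D_β]` -/
theorem Ev.lieb {P : Derivation K (AW h) (AW h)} {i : ι} {j : ℕ} {c : K} (hP : Ev h P i j c) :
    (∀ i' k, ⁅P, DA h (some (bl i))⁆ (aA h i' k) = 0) ∧ (∀ i' k, ⁅P, DA h (some (bl i))⁆ (xA h i' k) = 0) ∧
    (∀ i', ⁅P, DA h (some (bl i))⁆ (kA h i' 0) = 0) ∧
    (∀ i' k, ⁅P, DA h (some (bl i))⁆ (kA h i' (k + 1)) = if i' = i then P (xA h i' k) else 0) ∧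
    (∀ i' k, ⁅P, DA h (some (bl i))⁆ (bB h i' k) = if i' = i ∧ k = j then 1 else 0) := by
  refine ⟨fun i' k => ?_, fun i' k => ?_, fun i' => ?_, fun i' k => ?_, fun i' k => ?_⟩
  · rw [Derivation.commutator_apply, Ds_a h _ (fun j e => al_ne_bl _ _ e), map_zero, hP.a]
    split_ifs
    · rw [Derivation.map_one_eq_zero, sub_zero]
    · rw [map_zero, sub_zero]
  · rw [Derivation.commutator_apply, Db_x, map_zero, Db_NA h (hP.x_NA i' k), sub_zero]
  · rw [Derivation.commutator_apply, Db_k0, hP.k0, map_zero, sub_zero]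
    split_ifs
    · rw [map_neg, Derivation.map_one_eq_zero, neg_zero]
    · rw [map_zero]
  · rw [Derivation.commutator_apply, Db_k1, Db_NA h (hP.k i' k), sub_zero]
    split_ifs
    · rfl
    · rw [map_zero]
  · rw [Derivation.commutator_apply, Ds_b h _ (fun j e => al_ne_bl _ _ e), map_zero, hP.b, zero_sub]
    split_ifs with hc
    · rw [Db_k0, if_pos hc.1, neg_neg]
    · rw [map_zero, neg_zero]

/-- the action of `P_j` -/
structure Pv (P : Derivation K (AW h) (AW h)) (i : ι) (j : ℕ) : Prop where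
  a : ∀ i' k, P (aA h i' k) = 0
  x : ∀ i' k, P (xA h i' k) = 0
  k0 : ∀ i', P (kA h i' 0) = 0
  k : ∀ i' k, P (kA h i' (k + 1)) = if i' = i then (if j = 0 ∧ k = 0 then -1 else 0) +
    (if j < k then ((-1 : K) ^ j) • aA h i' (k - j - 1) else 0) else 0
  b : ∀ i' k, P (bB h i' k) = if i' = i ∧ k = j then 1 else 0

variable (h)

theorem Pv.zero (i : ι) : Pv (h := h) ⁅DA h (some (al i)), DA h (some (bl i))⁆ i 0 := by
  have hE := Ev.zero h i
  obtain ⟨h1, h2, h3, h4, h5⟩ := hE.lieb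
  refine ⟨h1, h2, h3, fun i' k => ?_, h5⟩
  rw [h4]
  by_cases hi : i' = i
  · rw [if_pos hi, if_pos hi, hE.x, if_pos hi]
    simp
  · rw [if_neg hi, if_neg hi]

variable {h}

theorem Pv.succ {P : Derivation K (AW h) (AW h)} {i : ι} {j : ℕ} (hP : Pv P i j) : Pv ⁅P, DA h none⁆ i (j + 1) := by
  refine ⟨fun i' k => ?_, fun i' k => ?_, fun i' => ?_, fun i' k => ?_, fun i' k => ?_⟩
  · rw [Derivation.commutator_apply, hP.a, map_zero, sub_zero]
    rcases k with _ | k
    · rw [Dn_a0, map_zero]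
    · rw [Dn_a1, hP.a]
  · rw [Derivation.commutator_apply, hP.x, map_zero, sub_zero]
    rcases k with _ | k
    · rw [Dn_x0, map_zero]
    · rw [Dn_x1, hP.a]
  · rw [Derivation.commutator_apply, hP.k0, Dn_k0, map_zero, map_zero, sub_zero]
  · rw [Derivation.commutator_apply, Dn_k1, hP.x, zero_sub, hP.k]
    by_cases hi : i' = i
    · rw [if_pos hi, if_pos hi, map_add]
      have h1 : DA h none ((if j = 0 ∧ k = 0 then (-1 : AW h) else 0)) = 0 := by
        split_ifs
        · rw [map_neg, Derivation.map_one_eq_zero, neg_zero]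
        · rw [map_zero]
      rw [h1, zero_add, if_neg (show ¬ (j + 1 = 0 ∧ k = 0) from fun e => Nat.succ_ne_zero j e.1), zero_add]
      by_cases hk : j < k
      · rw [if_pos hk, smul_D]
        rcases Nat.lt_or_ge (j + 1) k with hk' | hk'
        · rw [if_pos hk', show k - j - 1 = (k - (j + 1) - 1) + 1 by omega, Dn_a1, pow_succ]
          simp
        · rw [if_neg (show ¬ j + 1 < k by omega), show k - j - 1 = 0 by omega, Dn_a0, smul_zero, neg_zero]
      · rw [if_neg hk, map_zero, neg_zero, if_neg (show ¬ j + 1 < k by omega)]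
    · rw [if_neg hi, if_neg hi, map_zero, neg_zero]
  · rw [Derivation.commutator_apply]
    have h1 : DA h none (P (bB h i' k)) = 0 := by
      rw [hP.b]; split_ifs
      · exact Derivation.map_one_eq_zero _
      · rw [map_zero]
    rw [h1, sub_zero]
    rcases k with _ | k
    · rw [Dn_b0, hP.k0, if_neg (by simp)]
    · rw [Dn_b1, hP.b]; simp

variable (h)

theorem exists_Pv (i : ι) (j : ℕ) : ∃ P : Derivation K (AW h) (AW h), Pv P i j := by
  induction j with
  | zero => exact ⟨_, Pv.zero h i⟩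
  | succ j ih =>
    obtain ⟨P, hP⟩ := ih
    exact ⟨_, hP.succ⟩

/-- the derivations for `κ_(k+2)` -/
theorem exists_Q (i : ι) (j : ℕ) : ∃ P : Derivation K (AW h) (AW h), (∀ i' k, P (aA h i' k) = 0) ∧
    (∀ i' k, P (xA h i' k) = 0) ∧ (∀ i', P (kA h i' 0) = 0) ∧
    (∀ i' k, P (kA h i' (k + 1)) = if i' = i ∧ k = j then 1 else 0) ∧ (∀ i' k, P (bB h i' k) = 0) := by
  rcases j with _ | j
  · refine ⟨⁅DA h (some (pl i)), DA h (some (bl i))⁆, fun i' k => ?_, fun i' k => ?_, fun i' => ?_, fun i' k => ?_,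
      fun i' k => ?_⟩
    · rw [Derivation.commutator_apply, Ds_a h _ (fun j e => al_ne_bl _ _ e), Ds_a h _ (fun j e => al_ne_pl _ _ e),
        map_zero, map_zero, sub_zero]
    · rw [Derivation.commutator_apply, Db_x, map_zero, zero_sub]
      rcases k with _ | k
      · rw [Dp_x0]
        split_ifs
        · rw [Derivation.map_one_eq_zero, neg_zero]
        · rw [map_zero, neg_zero]
      · rw [Dp_x1, map_zero, neg_zero]
    · rw [Derivation.commutator_apply, Db_k0, Ds_k h _ (fun j e => bl_ne_pl _ _ e), map_zero, sub_zero]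
      split_ifs
      · rw [map_neg, Derivation.map_one_eq_zero, neg_zero]
      · rw [map_zero]
    · rw [Derivation.commutator_apply, Db_k1, Ds_k h _ (fun j e => bl_ne_pl _ _ e), map_zero, sub_zero]
      by_cases hi : i' = i
      · rw [if_pos hi]
        rcases k with _ | k
        · rw [Dp_x0, if_pos hi, if_pos ⟨hi, rfl⟩]
        · rw [Dp_x1, if_neg (fun e => Nat.succ_ne_zero k e.2)]
      · rw [if_neg hi, map_zero, if_neg (fun e => hi e.1)]
    · rw [Derivation.commutator_apply, Ds_b h _ (fun j e => al_ne_bl _ _ e), Ds_b h _ (fun j e => al_ne_pl _ _ e),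
        map_zero, map_zero, sub_zero]
  · obtain ⟨E, hE⟩ := exists_Ev h i (j + 1)
    obtain ⟨P, hP⟩ := exists_Pv h i (j + 1)
    rw [if_neg (Nat.succ_ne_zero j)] at hE
    obtain ⟨h1, h2, h3, h4, h5⟩ := hE.lieb
    refine ⟨⁅E, DA h (some (bl i))⁆ - P, fun i' k => ?_, fun i' k => ?_, fun i' => ?_, fun i' k => ?_,
      fun i' k => ?_⟩
    · rw [Derivation.sub_apply, h1, hP.a, sub_zero]
    · rw [Derivation.sub_apply, h2, hP.x, sub_zero]
    · rw [Derivation.sub_apply, h3, hP.k0, sub_zero]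
    · rw [Derivation.sub_apply, h4, hP.k]
      by_cases hi : i' = i
      · rw [if_pos hi, if_pos hi, hE.x, if_pos hi, if_neg (fun e : j + 1 = 0 ∧ k = 0 => Nat.succ_ne_zero j e.1), zero_add,
          add_sub_cancel_right]
        by_cases hk : k = j + 1
        · rw [if_pos hk, if_pos ⟨hi, hk⟩, one_smul]
        · rw [if_neg hk, if_neg (fun e => hk e.2)]
      · rw [if_neg hi, if_neg hi, if_neg (fun e => hi e.1), sub_zero]
    · rw [Derivation.sub_apply, h5, hP.b, sub_self]

/-- the derivations for `X_(2m)` -/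
theorem exists_Z (i : ι) (m : ℕ) : ∃ P : Derivation K (AW h) (AW h), ∃ c : K, c ≠ 0 ∧ (∀ i' k, P (aA h i' k) = 0) ∧
    (∀ i' k, P (xA h i' k) = if i' = i ∧ k = 2 * m then c • 1 else 0) := by
  rcases m with _ | m
  · refine ⟨DA h (some (pl i)), 1, one_ne_zero, fun i' k => Ds_a h _ (fun j e => al_ne_pl _ _ e) i' k, fun i' k => ?_⟩
    rcases k with _ | k
    · rw [Dp_x0]; simp
    · rw [Dp_x1, if_neg (by simp)]
  · obtain ⟨P, hP⟩ := exists_Ev h i (2 * m + 1)
    rw [if_neg (Nat.succ_ne_zero _)] at hP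
    have hE := Ev.zero h i
    refine ⟨⁅DA h (some (al i)), P⁆, -2, neg_ne_zero.2 two_ne_zero, fun i' k => ?_, fun i' k => ?_⟩
    · rw [Derivation.commutator_apply, hP.a, hE.a]
      have h1 : ∀ (D : Derivation K (AW h) (AW h)) (p : Prop) [Decidable p], D (if p then (1 : AW h) else 0) = 0 := by
        intro D p _
        split_ifs
        · exact Derivation.map_one_eq_zero _
        · exact map_zero _
      rw [h1, h1, sub_zero]
    · rw [Derivation.commutator_apply, hP.x, hE.x]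
      by_cases hi : i' = i
      · rw [if_pos hi, if_pos hi, map_add, map_add]
        have h1 : ∀ (D : Derivation K (AW h) (AW h)) (p : Prop) [Decidable p] (c : K), D (if p then c • (1 : AW h) else 0) = 0 := by
          intro D p _ c
          split_ifs
          · rw [smul_D, Derivation.map_one_eq_zero, smul_zero]
          · exact map_zero _
        rw [h1, h1, zero_add, zero_add]
        rcases Nat.lt_trichotomy k (2 * m + 1) with hk | hk | hk
        · rw [if_neg (by omega), map_zero, zero_sub]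
          by_cases hk0 : 0 < k
          · rw [if_pos hk0, smul_D, hP.a, if_neg (by omega), smul_zero, neg_zero, if_neg (by omega)]
          · rw [if_neg hk0, map_zero, neg_zero, if_neg (by omega)]
        · rw [if_neg (by omega), map_zero, zero_sub, if_pos (by omega), smul_D, hP.a, if_neg (by omega), smul_zero,
            neg_zero, if_neg (by omega)]
        · rw [if_pos (by omega), if_pos (by omega), smul_D, smul_D, hE.a, hP.a]
          have e : (-1 : K) ^ (2 * m + 1) = -1 := by rw [pow_succ, pow_mul]; simp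
          by_cases hk' : k = 2 * (m + 1)
          · rw [if_pos ⟨hi, by omega⟩, if_pos ⟨hi, by omega⟩, if_pos ⟨hi, hk'⟩, e, pow_zero, one_smul]
            rw [show (-2 : K) = -1 - 1 by norm_num, sub_smul, one_smul]
          · rw [if_neg (by omega), if_neg (by omega), if_neg (by omega), smul_zero, smul_zero, sub_zero]
      · rw [if_neg hi, if_neg hi, map_zero, map_zero, sub_zero, if_neg (fun e => hi e.1)]

/-- the family `A_(k+1)`, `X_(2m)`, `κ_(k+1)`, `B_(k+1)` -/
noncomputable def yK : ι × ((ℕ ⊕ ℕ) ⊕ (ℕ ⊕ ℕ)) → AW h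
  | (i, Sum.inl (Sum.inl k)) => aA h i k
  | (i, Sum.inl (Sum.inr m)) => xA h i (2 * m)
  | (i, Sum.inr (Sum.inl k)) => kA h i k
  | (i, Sum.inr (Sum.inr k)) => bB h i k

/-- the classes -/
def dK : ι × ((ℕ ⊕ ℕ) ⊕ (ℕ ⊕ ℕ)) → ℕ
  | (_, Sum.inl (Sum.inl _)) => 0
  | (_, Sum.inl (Sum.inr _)) => 1
  | (_, Sum.inr (Sum.inl 0)) => 2
  | (_, Sum.inr (Sum.inl (_ + 1))) => 4
  | (_, Sum.inr (Sum.inr _)) => 3

theorem ai_yK : AlgebraicIndependent K (yK h) := by
  have hchar : CharZero (AW h) := charZero_of_injective_algebraMap (R := K) (algebraMap K (AW h)).injective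
  choose E hE using exists_Ev h
  choose P hP using exists_Pv h
  choose Q qa qx qk0 qk qb using exists_Q h
  choose Z z hz za zx using exists_Z h
  refine ai_of_der_deg (d := dK) (yK h)
    (fun x => match x with
      | (i, Sum.inl (Sum.inl k)) => E i k
      | (i, Sum.inl (Sum.inr m)) => Z i m
      | (i, Sum.inr (Sum.inl 0)) => DA h (some (bl i))
      | (i, Sum.inr (Sum.inl (k + 1))) => Q i k
      | (i, Sum.inr (Sum.inr k)) => P i k) ?_ ?_
  · rintro ⟨i, (k | m) | ((_ | k) | k)⟩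
    · simp only [yK]
      rw [(hE i k).a, if_pos ⟨rfl, rfl⟩]; exact one_ne_zero
    · simp only [yK]
      rw [zx, if_pos ⟨rfl, rfl⟩]
      exact smul_ne_zero (hz i m) one_ne_zero
    · simp only [yK]
      rw [Db_k0, if_pos rfl]; exact neg_ne_zero.2 one_ne_zero
    · simp only [yK]
      rw [qk, if_pos ⟨rfl, rfl⟩]; exact one_ne_zero
    · simp only [yK]
      rw [(hP i k).b, if_pos ⟨rfl, rfl⟩]; exact one_ne_zero
  · rintro ⟨i, (k | m) | ((_ | k) | k)⟩ ⟨i', (k' | m') | ((_ | k') | k')⟩ hne hle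
    all_goals simp only [dK] at hle
    all_goals try omega
    all_goals simp only [yK]
    · rw [(hE i k).a, if_neg]; rintro ⟨rfl, rfl⟩; exact hne rfl
    · exact za i m i' k'
    · rw [zx, if_neg]; rintro ⟨rfl, h2⟩; exact hne (by rw [show m = m' by omega])
    · exact Ds_a h _ (fun j e => al_ne_bl _ _ e) i' k'
    · exact Db_x h i' i _
    · rw [Db_k0, if_neg]; rintro rfl; exact hne rfl
    · exact qa i k i' k'
    · exact qx i k i' _
    · exact qk0 i k i'
    · rw [qk, if_neg]; rintro ⟨rfl, rfl⟩; exact hne rfl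
    · exact qb i k i' k'
    · exact (hP i k).a i' k'
    · exact (hP i k).x i' _
    · exact (hP i k).k0 i'
    · rw [(hP i k).b, if_neg]; rintro ⟨rfl, rfl⟩; exact hne rfl

end rules

/-- the algebraic independence over the differential field -/
theorem ai_yKC : AlgebraicIndependent C (fun x => ps (yK h x : K⟦X⟧)) := AI_up h (ai_yK h)

end der

end Pool.Agent.H18.Wd
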