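import Pool.Agent.H18.Wd.Kb
import Pool.Agent.H18.Wd.HF

/-!
# The functions `A_k`, `V_k`, `B_k` as power series and as a family of E-functions
-/

set_option autoImplicit false
set_option linter.unusedSectionVars false

open PowerSeries
open scoped Differential

namespace Pool.Agent.H18.Wd

open Pool.Agent.N902.EW Pool.Agent.H18.Bes

section

variable {K : Type*} [Field K] [CharZero K]

/-- `∑_{j ≤ n} 1/j^k` -/
noncomputable def hz (K : Type*) [Field K] (k n : ℕ) : K := ∑ j ∈ Finset.range n, 1 / ((j : K) + 1) ^ k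

/-- `∑ H_n^(k) ρ^n X^(2n) / n!^2` -/
noncomputable def Vs (ρ : K) (k : ℕ) : K⟦X⟧ :=
  PowerSeries.mk fun n => if Even n then hz K k (n / 2) * (ρ ^ (n / 2) / ((n / 2).factorial : K) ^ 2) else 0

theorem coeff_Vs_odd (ρ : K) (j k : ℕ) : coeff (2 * k + 1) (Vs ρ j) = 0 := by
  rw [Vs, coeff_mk, if_neg (by simp [parity_simps])]

theorem coeff_Vs_even (ρ : K) (j k : ℕ) : coeff (2 * k) (Vs ρ j) = hz K j k * (ρ ^ k / (k.factorial : K) ^ 2) := by
  rw [Vs, coeff_mk, if_pos (even_two_mul k), Nat.mul_div_cancel_left k (by norm_num)]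

theorem hz_zero (k : ℕ) : hz K k 0 = 0 := by rw [hz]; simp
theorem hz_succ (k n : ℕ) : hz K k (n + 1) = hz K k n + 1 / ((n : K) + 1) ^ k := by rw [hz, hz, Finset.sum_range_succ]

theorem coeff_zero_Vs (ρ : K) (k : ℕ) : coeff 0 (Vs ρ k) = 0 := by
  have h1 := coeff_Vs_even ρ k 0
  rw [mul_zero] at h1
  rw [h1, hz_zero, zero_mul]

theorem coeff_Ak_odd (ρ : K) (j k : ℕ) : coeff (2 * k + 1) (Ak (fs ρ) j) = 0 := by
  induction j with
  | zero =>
    show coeff (2 * k + 1) (fs ρ - 1) = 0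
    rw [map_sub, coeff_fs_odd, coeff_one, if_neg (by omega), sub_zero]
  | succ j ih =>
    show coeff (2 * k + 1) (ig (Ak (fs ρ) j)) = 0
    rw [coeff_ig, ih, zero_div]

theorem coeff_Ak_even (ρ : K) (j k : ℕ) : coeff (2 * (k + 1)) (Ak (fs ρ) j) =
    ρ ^ (k + 1) / ((k + 1).factorial : K) ^ 2 / (2 * ((k : K) + 1)) ^ j := by
  induction j with
  | zero =>
    show coeff (2 * (k + 1)) (fs ρ - 1) = _
    rw [map_sub, coeff_fs_even, coeff_one, if_neg (by omega), sub_zero, pow_zero, div_one]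
  | succ j ih =>
    show coeff (2 * (k + 1)) (ig (Ak (fs ρ) j)) = _
    rw [coeff_ig, ih, pow_succ (2 * ((k : K) + 1)) j, ← div_div]
    congr 1
    push_cast
    ring

theorem coeff_zero_Ak (ρ : K) (j : ℕ) : coeff 0 (Ak (fs ρ) j) = 0 := by
  rcases j with _ | j
  · show coeff 0 (fs ρ - 1) = 0
    rw [map_sub, coeff_zero_fs, coeff_one, if_pos rfl, sub_self]
  · exact coeff_zero_ig _

theorem hs_one (k : ℕ) : hs K 1 k = hz K 1 k := by
  induction k with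
  | zero => rw [hs_succ_zero, hz_zero]
  | succ k ih => rw [hs_succ_succ, hz_succ, ih, hs_zero, pow_one]

theorem Vs_one (ρ : K) : Vs ρ 1 = Hs ρ 1 := by
  ext n
  rcases Nat.even_or_odd' n with ⟨k, rfl | rfl⟩
  · rw [coeff_Vs_even, coeff_Hs_even, hs_one]
  · rw [coeff_Vs_odd, coeff_Hs_odd]

theorem kk_zero (f : K⟦X⟧) : kk f 0 = vv f 1 := by
  rw [vv_succ, vv_zero, rr_zero, mul_one]; rfl

theorem Vs_kk_zero (ρ : K) : Vs ρ 1 = fs ρ * kk (fs ρ) 0 := by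
  rw [Vs_one, Hs_eq, kk_zero]

theorem th_Ak (ρ : K) (k : ℕ) : th (Ak (fs ρ) (k + 1)) = Ak (fs ρ) k := th_ig (coeff_zero_Ak ρ k)

theorem th_Ak_zero (ρ : K) : th (Ak (fs ρ) 0) = Js ρ := by
  show th (fs ρ - 1) = _
  rw [th_sub, th_one, sub_zero]; rfl

theorem th_Xk (ρ : K) (k : ℕ) : th (Xk (fs ρ) k) = fs ρ * Ak (fs ρ) k :=
  th_ig (coeff_zero_mul (Or.inr (coeff_zero_Ak ρ k)))

theorem coeff_zero_Xk (ρ : K) (k : ℕ) : coeff 0 (Xk (fs ρ) k) = 0 := coeff_zero_ig _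

theorem coeff_zero_kk (ρ : K) (k : ℕ) : coeff 0 (kk (fs ρ) (k + 1)) = 0 := coeff_zero_ig _

theorem th_kk (ρ : K) (k : ℕ) : th (kk (fs ρ) (k + 1)) = (fs ρ)⁻¹ ^ 2 * Xk (fs ρ) k := by
  show th (ig (pw (fs ρ) (-2) * Xk (fs ρ) k)) = _
  rw [th_ig (coeff_zero_mul (Or.inr (coeff_zero_Xk ρ k))), pw_neg_two]

theorem th_th_Vs (ρ : K) (k : ℕ) :
    th (th (Vs ρ (k + 2))) = (4 * ρ) • (X ^ 2 * Vs ρ (k + 2)) + ((2 : K) ^ (k + 2)) • Ak (fs ρ) k := by
  ext n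
  rw [coeff_th, coeff_th, map_add]
  rcases n with _ | _ | n
  · rw [coeff_sq_mul_zero, coeff_smul, coeff_zero_Ak]; simp
  · have h1 : coeff 1 (Vs ρ (k + 2)) = 0 := coeff_Vs_odd ρ (k + 2) 0
    have h2 : coeff 1 (Ak (fs ρ) k) = 0 := coeff_Ak_odd ρ k 0
    rw [show 0 + 1 = 1 from rfl, coeff_sq_mul_one, coeff_smul, h1, h2]; simp
  · rw [show n + 1 + 1 = n + 2 from rfl, coeff_sq_mul, coeff_smul, smul_eq_mul]
    rcases Nat.even_or_odd' n with ⟨m, rfl | rfl⟩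
    · rw [show 2 * m + 2 = 2 * (m + 1) by ring, coeff_Vs_even, coeff_Vs_even, coeff_Ak_even, Nat.factorial_succ,
        hz_succ]
      have h1 : (m.factorial : K) ≠ 0 := by exact_mod_cast m.factorial_ne_zero
      have h2 : ((m : K) + 1) ≠ 0 := by exact_mod_cast Nat.succ_ne_zero m
      rw [mul_pow (2 : K) ((m : K) + 1) k, pow_add (2 : K), pow_add ((m : K) + 1)]
      push_cast
      field_simp
      ring
    · rw [show 2 * m + 1 + 2 = 2 * (m + 1) + 1 by ring, coeff_Vs_odd, coeff_Vs_odd, coeff_Ak_odd]; simp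

/-- the variation of constants -/
theorem Vs_kk (ρ : K) (k : ℕ) : Vs ρ (k + 2) = ((2 : K) ^ (k + 2)) • (fs ρ * kk (fs ρ) (k + 1)) := by
  rw [← sub_eq_zero]
  refine ode_unique (ρ := ρ) ?_ ?_
  · have h1 : th (th (fs ρ * kk (fs ρ) (k + 1))) = (4 * ρ) • (X ^ 2 * (fs ρ * kk (fs ρ) (k + 1))) + Ak (fs ρ) k := by
      have h2 : th (fs ρ) = Js ρ := rfl
      have h3 := fs_mul_inv ρ
      have e : th (fs ρ * kk (fs ρ) (k + 1)) = Js ρ * kk (fs ρ) (k + 1) + (fs ρ)⁻¹ * Xk (fs ρ) k := by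
        rw [th_mul, th_kk, h2]
        linear_combination ((fs ρ)⁻¹ * Xk (fs ρ) k) * h3
      rw [e, th_add, th_mul, th_Js, th_kk, th_mul, th_inv, th_Xk, smul_eq_C_mul, smul_eq_C_mul]
      linear_combination (Ak (fs ρ) k) * h3
    rw [th_sub, th_sub, th_smul, th_smul, th_th_Vs, h1, mul_sub, mul_smul_comm]
    simp only [smul_sub, smul_add]
    rw [smul_comm ((2 : K) ^ (k + 2)) (4 * ρ)]
    abel
  · rw [map_sub, coeff_zero_Vs, coeff_smul, coeff_zero_mul (Or.inr (coeff_zero_kk ρ k)), smul_zero, sub_zero]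

/-- the Wronskian -/
theorem wr_Vs (ρ : K) (k : ℕ) : fs ρ * th (Vs ρ (k + 2)) - Js ρ * Vs ρ (k + 2) = ((2 : K) ^ (k + 2)) • Xk (fs ρ) k := by
  have h2 : th (fs ρ) = Js ρ := rfl
  have h3 := fs_mul_inv ρ
  rw [Vs_kk, th_smul, th_mul, th_kk, h2]
  simp only [smul_eq_C_mul]
  linear_combination (C ((2 : K) ^ (k + 2)) * Xk (fs ρ) k) * ((fs ρ) * (fs ρ)⁻¹ + 1) * h3

theorem wr_one (ρ : K) : fs ρ * th (Vs ρ 1) = Js ρ * Vs ρ 1 + fs ρ ^ 2 - 1 := by
  have h2 : th (fs ρ) = Js ρ := rfl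
  have h3 := fs_mul_inv ρ
  rw [Vs_kk_zero, th_mul, kk_zero, th_vv_succ (coeff_zero_fs ρ), vv_zero, rr_zero, pw_neg_two, h2]
  linear_combination (-(fs ρ * (fs ρ)⁻¹) - 1) * h3

theorem th_th_V1 (ρ : K) : th (th (Vs ρ 1)) = (4 * ρ) • (X ^ 2 * Vs ρ 1) + (2 : K) • Js ρ := by
  have := th_th_Hs ρ 0
  rw [Hs_zero] at this
  rw [Vs_one]
  exact this

/-- `B_k` -/
noncomputable def Bs (ρ : K) : ℕ → K⟦X⟧
  | 0 => Vs ρ 1
  | k + 1 => ig (Bs ρ k)

theorem Bs_eq (ρ : K) (k : ℕ) : Bs ρ k = Bk (fs ρ) k := by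
  induction k with
  | zero => exact Vs_kk_zero ρ
  | succ k ih =>
    show ig (Bs ρ k) = ig (Bk (fs ρ) k)
    rw [ih]

theorem coeff_zero_Bs (ρ : K) (k : ℕ) : coeff 0 (Bs ρ k) = 0 := by
  rcases k with _ | k
  · exact coeff_zero_Vs ρ 1
  · exact coeff_zero_ig _

theorem th_Bs (ρ : K) (k : ℕ) : th (Bs ρ (k + 1)) = Bs ρ k := th_ig (coeff_zero_Bs ρ k)

/-! ### The relation for the odd indices -/

theorem ig_A_mul (ρ : K) (p q : ℕ) : ig (Ak (fs ρ) p * Ak (fs ρ) (q + 1)) =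
    Ak (fs ρ) (p + 1) * Ak (fs ρ) (q + 1) - ig (Ak (fs ρ) (p + 1) * Ak (fs ρ) q) := by
  have h0 : coeff 0 (Ak (fs ρ) (p + 1) * Ak (fs ρ) (q + 1)) = 0 := coeff_zero_mul (Or.inl (coeff_zero_Ak ρ _))
  rw [eq_sub_iff_add_eq, ← ig_th h0, th_mul, th_Ak, th_Ak, ← ig_add]

end

/-! ### Algebraic independence -/

section

variable {K : Type*} [Field K] [CharZero K]

/-- the indices -/
abbrev Jk (ι : Type*) := (ι × ((ℕ ⊕ ℕ) ⊕ (ℕ ⊕ ℕ))) ⊕ (ι ⊕ ι)

/-- the functions `A_(k+1)`, the Wronskians of `V_(2m+2)`, `V_(k+1)`, `B_(k+1)` -/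
noncomputable def bK1 {ι : Type*} (ρ : ι → K) : ι × ((ℕ ⊕ ℕ) ⊕ (ℕ ⊕ ℕ)) → K⟦X⟧
  | (i, Sum.inl (Sum.inl k)) => Ak (fs (ρ i)) (k + 1)
  | (i, Sum.inl (Sum.inr m)) => fs (ρ i) * th (Vs (ρ i) (2 * m + 2)) - Js (ρ i) * Vs (ρ i) (2 * m + 2)
  | (i, Sum.inr (Sum.inl k)) => Vs (ρ i) (k + 1)
  | (i, Sum.inr (Sum.inr k)) => Bs (ρ i) (k + 1)

/-- the functions -/
noncomputable def bK {ι : Type*} (ρ : ι → K) : Jk ι → K⟦X⟧
  | Sum.inl x => bK1 ρ x
  | Sum.inr (Sum.inl i) => Js (ρ i)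
  | Sum.inr (Sum.inr i) => fs (ρ i)

variable {ι : Type*} [Fintype ι] {ρ : ι → K} {E : Subfield (LF K)}

theorem ai_bK_fin (hB : BS E (fun i => wL (ρ i)) (fun i => 4 * cc (ρ i) * xx ^ 2) (fun i => fL (ρ i)) (fun i => kL (ρ i)))
    (hE : ∀ c : K, cc c ∈ E) : AlgebraicIndependent E (fun x => ps (bK ρ x)) := by
  classical
  have h0 : AlgebraicIndependent E (Sum.elim (fun i => wL (ρ i)) (fun i => fL (ρ i))) := by
    have h1 := hB.ai.comp (Sum.map id Sum.inl) (Function.Injective.sumMap Function.injective_id Sum.inl_injective)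
    convert h1 using 1
    ext (i | i) <;> rfl
  have h0' : AlgebraicIndependent E (Sum.elim (fun i => jL (ρ i)) (fun i => fL (ρ i))) := by
    refine ai_exch h0 ?_
    have hj : ∀ i, jL (ρ i) ∈ clf E (Set.range (Sum.elim (fun i => jL (ρ i)) (fun i => fL (ρ i)))) := fun i =>
      subset_clf _ ⟨Sum.inl i, rfl⟩
    have hf : ∀ i, fL (ρ i) ∈ clf E (Set.range (Sum.elim (fun i => jL (ρ i)) (fun i => fL (ρ i)))) := fun i =>
      subset_clf _ ⟨Sum.inr i, rfl⟩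
    rintro (i | i)
    · exact Subfield.div_mem _ (hj i) (hf i)
    · exact hf i
  have hF := frm hB hE
  have h1 := ai_yKC hF
  set C := GF E (fun i => wL (ρ i)) (fun i => fL (ρ i)) with hC
  have hfC : ∀ i, fL (ρ i) ∈ C := fun i => subset_AdS _ _ ⟨i, rfl⟩
  have hwC : ∀ i, wL (ρ i) ∈ C := fun i => le_AdS _ _ (subset_AdS _ _ ⟨i, rfl⟩)
  have hjC : ∀ i, jL (ρ i) ∈ C := fun i => by
    have : jL (ρ i) = wL (ρ i) * fL (ρ i) := by
      show _ = jL (ρ i) / fL (ρ i) * fL (ρ i)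
      rw [div_mul_cancel₀ _ (fL_ne _)]
    rw [this]
    exact C.mul_mem (hwC i) (hfC i)
  have hcl : ∀ {T : Set (LF K)} {z : LF K}, z ∈ C → z ∈ clf C T := fun {T z} hz =>
    clf_of_alg (isAlgebraic_algebraMap (⟨z, hz⟩ : C))
  have hcc : ∀ {T : Set (LF K)} (c : K), cc c ∈ clf C T := fun {T} c =>
    hcl (le_AdS _ _ (le_AdS _ _ (hE c)))
  have h2 : AlgebraicIndependent C (fun x => ps (bK1 ρ x)) := by
    refine ai_of_span h1 _ ?_
    rintro ⟨i, (k | m) | (k | k)⟩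
    · exact subset_clf _ rfl
    · show ps (Xk (fs (ρ i)) (2 * m)) ∈ clf C {ps (bK1 ρ (i, Sum.inl (Sum.inr m)))}
      have h3 : ps (bK1 ρ (i, Sum.inl (Sum.inr m))) = cc ((2 : K) ^ (2 * m + 2)) * ps (Xk (fs (ρ i)) (2 * m)) := by
        rw [← ps_smul, ← wr_Vs]; rfl
      have h4 : cc ((2 : K) ^ (2 * m + 2)) ≠ 0 := by
        rw [_root_.map_ne_zero]; exact pow_ne_zero _ two_ne_zero
      have h5 : ps (Xk (fs (ρ i)) (2 * m)) = ps (bK1 ρ (i, Sum.inl (Sum.inr m))) / cc ((2 : K) ^ (2 * m + 2)) := by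
        rw [h3]; field_simp
      rw [h5]
      exact Subfield.div_mem _ (subset_clf _ rfl) (hcc _)
    · show ps (kk (fs (ρ i)) k) ∈ clf C {ps (bK1 ρ (i, Sum.inr (Sum.inl k)))}
      rcases k with _ | k
      · have h3 : ps (bK1 ρ (i, Sum.inr (Sum.inl 0))) = fL (ρ i) * ps (kk (fs (ρ i)) 0) := by
          show ps (Vs (ρ i) 1) = _
          rw [Vs_kk_zero, map_mul]; rfl
        have h5 : ps (kk (fs (ρ i)) 0) = ps (bK1 ρ (i, Sum.inr (Sum.inl 0))) / fL (ρ i) := by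
          rw [h3, mul_comm, mul_div_cancel_right₀ _ (fL_ne _)]
        rw [h5]
        exact Subfield.div_mem _ (subset_clf _ rfl) (hcl (hfC i))
      · have h3 : ps (bK1 ρ (i, Sum.inr (Sum.inl (k + 1)))) = (cc ((2 : K) ^ (k + 2)) * fL (ρ i)) * ps (kk (fs (ρ i)) (k + 1)) := by
          show ps (Vs (ρ i) (k + 2)) = _
          rw [Vs_kk, ps_smul, map_mul, mul_assoc]; rfl
        have h4 : cc ((2 : K) ^ (k + 2)) * fL (ρ i) ≠ 0 := by
          refine mul_ne_zero ?_ (fL_ne _)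
          rw [_root_.map_ne_zero]; exact pow_ne_zero _ two_ne_zero
        have h5 : ps (kk (fs (ρ i)) (k + 1)) = ps (bK1 ρ (i, Sum.inr (Sum.inl (k + 1)))) / (cc ((2 : K) ^ (k + 2)) * fL (ρ i)) := by
          rw [h3, mul_comm, mul_div_cancel_right₀ _ h4]
        rw [h5]
        exact Subfield.div_mem _ (subset_clf _ rfl) (Subfield.mul_mem _ (hcc _) (hcl (hfC i)))
    · show ps (Bk (fs (ρ i)) (k + 1)) ∈ clf C {ps (bK1 ρ (i, Sum.inr (Sum.inr k)))}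
      rw [← Bs_eq]
      exact subset_clf _ rfl
  have hle : ∀ a : Algebra.adjoin E (Set.range (Sum.elim (fun i => jL (ρ i)) (fun i => fL (ρ i)))), (a : LF K) ∈ C := by
    intro a
    refine Algebra.adjoin_induction (p := fun a _ => a ∈ C) ?_ ?_ ?_ ?_ a.2
    · rintro _ ⟨i | i, rfl⟩
      · exact hjC i
      · exact hfC i
    · intro r; exact le_AdS _ _ (le_AdS _ _ r.2)
    · intro b c _ _ hb hc; exact C.add_mem hb hc
    · intro b c _ _ hb hc; exact C.mul_mem hb hc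
  have h3 : AlgebraicIndependent (Algebra.adjoin E (Set.range (Sum.elim (fun i => jL (ρ i)) (fun i => fL (ρ i)))))
      (fun x => ps (bK1 ρ x)) := by
    have h3 : AlgebraicIndependent C ((RingHom.id (LF K)) ∘ (fun x => ps (bK1 ρ x))) := h2
    refine h3.of_ringHom_of_comp_eq ((algebraMap (Algebra.adjoin E (Set.range (Sum.elim (fun i => jL (ρ i))
      (fun i => fL (ρ i))))) (LF K)).codRestrict C hle) (RingHom.id (LF K)) ?_ ?_
    · intro a b hab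
      have h4 := congrArg (Subtype.val : C → LF K) hab
      exact Subtype.ext h4
    · rfl
  have h4 := h0'.sumElim h3
  convert h4 using 1
  ext (x | i | i) <;> rfl

/-- all parameters -/
theorem ai_bK : AlgebraicIndependent (LV K) (fun x => ps (bK (fun ρ : Kx K => ρ.1) x)) := by
  classical
  refine algebraicIndependent_of_finite_type fun t ht => ?_
  let π : Jk (Kx K) → Kx K := fun x => match x with
    | Sum.inl (i, _) => i
    | Sum.inr (Sum.inl i) => i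
    | Sum.inr (Sum.inr i) => i
  have hT : (π '' t).Finite := ht.image π
  have := hT.fintype
  have h0 : BS (LV K) (fun ρ : π '' t => wL ρ.1.1) (fun ρ : π '' t => 4 * cc ρ.1.1 * xx ^ 2) (fun ρ : π '' t => fL ρ.1.1)
      (fun ρ : π '' t => kL ρ.1.1) :=
    (bs_tow (ρ := fun ρ : π '' t => ρ.1.1) (Subtype.val_injective.comp Subtype.val_injective) (fun ρ => ρ.1.2)
      Tow.base).li
  have h1 := ai_bK_fin (ρ := fun ρ : π '' t => ρ.1.1) h0 cc_mem_LV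
  have hex : ∀ x : t, ∃ z : Jk (π '' t), Sum.map (Prod.map Subtype.val id) (Sum.map Subtype.val Subtype.val) z = x.1 := by
    rintro ⟨⟨i, j⟩ | i | i, hx⟩
    · exact ⟨Sum.inl (⟨i, _, hx, rfl⟩, j), rfl⟩
    · exact ⟨Sum.inr (Sum.inl ⟨i, _, hx, rfl⟩), rfl⟩
    · exact ⟨Sum.inr (Sum.inr ⟨i, _, hx, rfl⟩), rfl⟩
  choose g hg using hex
  have hgi : Function.Injective g := fun x y h => Subtype.ext (by rw [← hg x, ← hg y, h])
  have h2 := h1.comp g hgi
  convert h2 using 1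
  ext x
  show ps (bK _ x.1) = _
  rw [← hg x]
  rcases hgx : g x with ⟨z, (k | m) | (k | k)⟩ | z | z <;> simp [bK, bK1, hgx]

end

/-! ### All functions are quotients -/

section

variable {K : Type*} [Field K] [CharZero K] (ρ : Kx K)

theorem dK_f : Den (bK (fun ρ : Kx K => ρ.1)) (fs ρ.1) := Den.gen (b := bK (fun ρ : Kx K => ρ.1)) (Sum.inr (Sum.inr ρ))
theorem dK_J : Den (bK (fun ρ : Kx K => ρ.1)) (Js ρ.1) := Den.gen (b := bK (fun ρ : Kx K => ρ.1)) (Sum.inr (Sum.inl ρ))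

theorem dK_A (k : ℕ) : Den (bK (fun ρ : Kx K => ρ.1)) (Ak (fs ρ.1) k) := by
  rcases k with _ | k
  · show Den _ (fs ρ.1 - 1)
    have h := Den.const (b := bK (fun ρ : Kx K => ρ.1)) (1 : K)
    rw [map_one] at h
    exact (dK_f ρ).sub h
  · exact Den.gen (b := bK (fun ρ : Kx K => ρ.1)) (Sum.inl (ρ, Sum.inl (Sum.inl k)))

theorem dK_V (k : ℕ) : Den (bK (fun ρ : Kx K => ρ.1)) (Vs ρ.1 (k + 1)) :=
  Den.gen (b := bK (fun ρ : Kx K => ρ.1)) (Sum.inl (ρ, Sum.inr (Sum.inl k)))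

theorem dK_B (k : ℕ) : Den (bK (fun ρ : Kx K => ρ.1)) (Bs ρ.1 (k + 1)) :=
  Den.gen (b := bK (fun ρ : Kx K => ρ.1)) (Sum.inl (ρ, Sum.inr (Sum.inr k)))

theorem dK_smul {f : K⟦X⟧} (c : K) (hf : Den (bK (fun ρ : Kx K => ρ.1)) f) : Den (bK (fun ρ : Kx K => ρ.1)) (c • f) := by
  rw [smul_eq_C_mul]; exact (Den.const c).mul hf

theorem dK_I (m p : ℕ) : Den (bK (fun ρ : Kx K => ρ.1)) (ig (Ak (fs ρ.1) p * Ak (fs ρ.1) (p + (2 * m + 1)))) := by
  induction m generalizing p with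
  | zero =>
    have h1 := ig_A_mul ρ.1 p p
    have h2 : ig (Ak (fs ρ.1) (p + 1) * Ak (fs ρ.1) p) = ig (Ak (fs ρ.1) p * Ak (fs ρ.1) (p + 1)) := by rw [mul_comm]
    rw [h2] at h1
    have h3 : ig (Ak (fs ρ.1) p * Ak (fs ρ.1) (p + (2 * 0 + 1))) =
        ((2 : K)⁻¹) • (Ak (fs ρ.1) (p + 1) * Ak (fs ρ.1) (p + 1)) := by
      rw [mul_zero, zero_add]
      have h4 : Ak (fs ρ.1) (p + 1) * Ak (fs ρ.1) (p + 1) = (2 : K) • ig (Ak (fs ρ.1) p * Ak (fs ρ.1) (p + 1)) := by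
        rw [two_smul]
        nth_rewrite 1 [h1]
        ring
      rw [h4, smul_smul, inv_mul_cancel₀ two_ne_zero, one_smul]
    rw [h3]
    exact dK_smul _ ((dK_A ρ _).mul (dK_A ρ _))
  | succ m ih =>
    rw [show p + (2 * (m + 1) + 1) = (p + 2 * m + 2) + 1 by ring, ig_A_mul]
    refine ((dK_A ρ _).mul (dK_A ρ _)).sub ?_
    have := ih (p + 1)
    rwa [show p + 1 + (2 * m + 1) = p + 2 * m + 2 by ring] at this

theorem dK_X (k : ℕ) : Den (bK (fun ρ : Kx K => ρ.1)) (Xk (fs ρ.1) k) := by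
  rcases Nat.even_or_odd' k with ⟨m, rfl | rfl⟩
  · have h1 := Den.gen (b := bK (fun ρ : Kx K => ρ.1)) (Sum.inl (ρ, Sum.inl (Sum.inr m)))
    have h2 : Xk (fs ρ.1) (2 * m) = (((2 : K) ^ (2 * m + 2))⁻¹) • (bK (fun ρ : Kx K => ρ.1)) (Sum.inl (ρ, Sum.inl (Sum.inr m))) := by
      show _ = (((2 : K) ^ (2 * m + 2))⁻¹) • (fs ρ.1 * th (Vs ρ.1 (2 * m + 2)) - Js ρ.1 * Vs ρ.1 (2 * m + 2))
      rw [wr_Vs, smul_smul, inv_mul_cancel₀ (pow_ne_zero _ two_ne_zero), one_smul]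
    rw [h2]
    exact dK_smul _ h1
  · have h1 : Xk (fs ρ.1) (2 * m + 1) = Ak (fs ρ.1) (2 * m + 2) + ig (Ak (fs ρ.1) 0 * Ak (fs ρ.1) (0 + (2 * m + 1))) := by
      show ig (fs ρ.1 * Ak (fs ρ.1) (2 * m + 1)) = ig (Ak (fs ρ.1) (2 * m + 1)) + ig ((fs ρ.1 - 1) * Ak (fs ρ.1) (0 + (2 * m + 1)))
      rw [← ig_add, zero_add]
      congr 1
      ring
    rw [h1]
    exact (dK_A ρ _).add (dK_I ρ m 0)

theorem dK_thV (k : ℕ) : Den (bK (fun ρ : Kx K => ρ.1)) (th (Vs ρ.1 (k + 1))) := by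
  refine Den.div (dK_f ρ) (fs_ne ρ.1) ?_
  rcases k with _ | k
  · rw [zero_add, wr_one]
    have h := Den.const (b := bK (fun ρ : Kx K => ρ.1)) (1 : K)
    rw [map_one] at h
    rw [pow_two]
    exact (((dK_J ρ).mul (dK_V ρ 0)).add ((dK_f ρ).mul (dK_f ρ))).sub h
  · have h1 : fs ρ.1 * th (Vs ρ.1 (k + 2)) = Js ρ.1 * Vs ρ.1 (k + 2) + ((2 : K) ^ (k + 2)) • Xk (fs ρ.1) k := by
      rw [← wr_Vs]; ring
    rw [show k + 1 + 1 = k + 2 from rfl, h1]
    exact ((dK_J ρ).mul (dK_V ρ _)).add (dK_smul _ (dK_X ρ k))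

end

/-! ### The family -/

section

variable {K L : Type*} [Field K] [CharZero K] [Field L] [CharZero L] (φ : K →+* L)

theorem map_hz (k n : ℕ) : φ (hz K k n) = hz L k n := by
  rw [hz, hz, map_sum]
  refine Finset.sum_congr rfl fun j _ => ?_
  rw [map_div₀, map_one, map_pow, map_add, map_natCast, map_one]

theorem map_Vs (ρ : K) (j : ℕ) : PowerSeries.map φ (Vs ρ j) = Vs (φ ρ) j := by
  ext n
  rw [coeff_map, Vs, Vs, coeff_mk, coeff_mk]
  split_ifs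
  · rw [map_mul, map_div₀, map_pow, map_pow, map_natCast, map_hz]
  · rw [map_zero]

theorem map_ig (f : K⟦X⟧) : PowerSeries.map φ (ig f) = ig (PowerSeries.map φ f) := by
  ext n
  rw [coeff_map, coeff_ig, coeff_ig, coeff_map, map_div₀, map_natCast]

theorem map_Ak (ρ : K) (j : ℕ) : PowerSeries.map φ (Ak (fs ρ) j) = Ak (fs (φ ρ)) j := by
  induction j with
  | zero =>
    show PowerSeries.map φ (fs ρ - 1) = fs (φ ρ) - 1
    rw [map_sub, map_fs, map_one]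
  | succ j ih =>
    show PowerSeries.map φ (ig _) = ig _
    rw [map_ig, ih]

theorem map_Bs (ρ : K) (j : ℕ) : PowerSeries.map φ (Bs ρ j) = Bs (φ ρ) j := by
  induction j with
  | zero => exact map_Vs φ ρ 1
  | succ j ih =>
    show PowerSeries.map φ (ig _) = ig _
    rw [map_ig, ih]

theorem map_Js (ρ : K) : PowerSeries.map φ (Js ρ) = Js (φ ρ) := by rw [Js, map_th, map_fs, Js]

end

section

variable {K : Type*} [Field K] [CharZero K] {φ : K →+* ℂ}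

theorem ck_Vs_even (ρ : K) (j k : ℕ) : ck (2 * k) (Vs ρ j) = hz K j k * ck (2 * k) (fs ρ) := by
  rw [ck, ck, coeff_fs_even, coeff_Vs_even]
  ring

theorem ck_Vs_odd (ρ : K) (j k : ℕ) : ck (2 * k + 1) (Vs ρ j) = 0 := by
  rw [ck, coeff_Vs_odd, mul_zero]

variable (φ) in
theorem norm_hz (j k : ℕ) : ‖φ (hz K j k)‖ ≤ k := by
  rw [hz, map_sum]
  refine (norm_sum_le _ _).trans ?_
  have h1 : ∀ i ∈ Finset.range k, ‖φ (1 / ((i : K) + 1) ^ j)‖ ≤ 1 := by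
    intro i _
    rw [map_div₀, map_one, map_pow, map_add, map_natCast, map_one, norm_div, norm_one, norm_pow]
    have h2 : ((i : ℂ) + 1) = ((i + 1 : ℕ) : ℂ) := by push_cast; rfl
    rw [h2, Complex.norm_natCast]
    have h3 : (1 : ℝ) ≤ ((i + 1 : ℕ) : ℝ) := by exact_mod_cast Nat.succ_le_succ (Nat.zero_le i)
    have h4 : (1 : ℝ) ≤ ((i + 1 : ℕ) : ℝ) ^ j := one_le_pow₀ h3
    rw [div_le_one (by linarith)]
    exact h4
  refine (Finset.sum_le_sum h1).trans ?_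
  simp

theorem integral_hz {m : ℕ} (j : ℕ) {k : ℕ} (hk : k ≤ m) : IsIntegral ℤ ((Nat.lcmUpto m : K) ^ j * hz K j k) := by
  rw [hz, Finset.mul_sum]
  refine IsIntegral.sum _ fun i hi => ?_
  have hi' := Finset.mem_range.1 hi
  obtain ⟨c, hc⟩ : i + 1 ∣ Nat.lcmUpto m := Finset.dvd_lcm (f := id) (Finset.mem_Icc.2 ⟨by omega, by omega⟩)
  have h3 : ((i : K) + 1) ≠ 0 := by exact_mod_cast Nat.succ_ne_zero i
  have : (Nat.lcmUpto m : K) ^ j * (1 / ((i : K) + 1) ^ j) = (c : K) ^ j := by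
    rw [hc]
    push_cast
    rw [mul_pow]
    field_simp
  rw [this]
  exact (isIntegral_natCast _).pow j

theorem EFK_Vs [Algebra.IsAlgebraic ℚ K] (ρ : K) (n : ℕ) : EFK φ (Vs ρ n) := by
  obtain ⟨C, hC, h1, d1⟩ := EFK_fs (φ := φ) ρ
  have hA : (1 : ℝ) ≤ (2 ^ 8) ^ n := one_le_pow₀ (by norm_num)
  refine ⟨(2 ^ 8) * ((2 ^ 8) ^ n * C), by nlinarith, fun m => ?_, fun m => ?_⟩
  · have hCC : C ^ (m + 1) ≤ ((2 ^ 8) ^ n * C) ^ (m + 1) :=
      pow_le_pow_left₀ (by linarith) (le_mul_of_one_le_left (by linarith) hA) _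
    rcases Nat.even_or_odd' m with ⟨k, rfl | rfl⟩
    · rw [ck_Vs_even, map_mul, norm_mul, mul_pow]
      refine mul_le_mul ((norm_hz φ n k).trans ?_) ((h1 _).trans hCC) (norm_nonneg _) (by positivity)
      have h2 : (k : ℝ) ≤ 2 ^ k := by exact_mod_cast (Nat.lt_two_pow_self (n := k)).le
      have h3 : (2 : ℝ) ^ k ≤ (2 ^ 8) ^ k := pow_le_pow_left₀ (by norm_num) (by norm_num) k
      exact h2.trans (h3.trans (pow_le_pow_right₀ (by norm_num) (by omega)))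
    · rw [ck_Vs_odd, map_zero, norm_zero]; positivity
  · obtain ⟨e, he, heC, hei⟩ := d1 m
    refine ⟨Nat.lcmUpto m ^ n * e, Nat.mul_pos (pow_pos (Nat.lcmUpto_pos m) n) he, ?_, fun j hj => ?_⟩
    · push_cast
      have h2 : (Nat.lcmUpto m : ℝ) ≤ (2 ^ 8) ^ (m + 1) :=
        (Pool.Agent.R352.E.lcm_bound m).trans (pow_le_pow_right₀ (by norm_num) (Nat.le_succ m))
      have h3 : (Nat.lcmUpto m : ℝ) ^ n ≤ ((2 ^ 8) ^ n) ^ (m + 1) := by
        calc (Nat.lcmUpto m : ℝ) ^ n ≤ ((2 ^ 8) ^ (m + 1)) ^ n := pow_le_pow_left₀ (by positivity) h2 n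
          _ = ((2 ^ 8) ^ n) ^ (m + 1) := pow_right_comm _ _ _
      calc (Nat.lcmUpto m : ℝ) ^ n * e ≤ ((2 ^ 8) ^ n) ^ (m + 1) * C ^ (m + 1) :=
            mul_le_mul h3 heC (by positivity) (by positivity)
        _ = ((2 ^ 8) ^ n * C) ^ (m + 1) := (mul_pow _ _ _).symm
        _ ≤ ((2 ^ 8) * ((2 ^ 8) ^ n * C)) ^ (m + 1) :=
            pow_le_pow_left₀ (by positivity) (le_mul_of_one_le_left (by positivity) (by norm_num)) _
    · rcases Nat.even_or_odd' j with ⟨k, rfl | rfl⟩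
      · rw [ck_Vs_even]
        have : ((Nat.lcmUpto m ^ n * e : ℕ) : K) * (hz K n k * ck (2 * k) (fs ρ)) =
            ((Nat.lcmUpto m : K) ^ n * hz K n k) * ((e : K) * ck (2 * k) (fs ρ)) := by push_cast; ring
        rw [this]
        exact (integral_hz n (by omega)).mul (hei _ hj)
      · rw [ck_Vs_odd, mul_zero]; exact isIntegral_zero

theorem EFK_Ak [Algebra.IsAlgebraic ℚ K] (ρ : K) (n : ℕ) : EFK φ (Ak (fs ρ) n) := by
  induction n with
  | zero =>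
    show EFK φ (fs ρ - 1)
    rw [sub_eq_add_neg]
    exact (EFK_fs ρ).add EFK.one.neg
  | succ n ih => exact ih.ig

theorem EFK_Bs [Algebra.IsAlgebraic ℚ K] (ρ : K) (n : ℕ) : EFK φ (Bs ρ n) := by
  induction n with
  | zero => exact EFK_Vs ρ 1
  | succ n ih => exact ih.ig

end

/-- the functions -/
noncomputable def gK (K : Type) [Field K] : Option (ℕ × Fin 4) → K → K⟦X⟧
  | none, ρ => Js ρ
  | some (k, 0), ρ => Ak (fs ρ) k
  | some (k, 1), ρ => Vs ρ (k + 1)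
  | some (k, 2), ρ => th (Vs ρ (k + 1))
  | some (k, 3), ρ => Bs ρ (k + 1)

theorem den_gK {K : Type} [Field K] [CharZero K] (ρ : Kx K) (s : Option (ℕ × Fin 4)) :
    Den (bK (fun ρ : Kx K => ρ.1)) (gK K s ρ.1) := by
  rcases s with _ | ⟨k, c⟩
  · exact dK_J ρ
  · fin_cases c
    · exact dK_A ρ k
    · exact dK_V ρ k
    · exact dK_thV ρ k
    · exact dK_B ρ k

theorem fin_gK (K : Type) [Field K] [CharZero K] (ρ : K) (m : ℕ) (V : Submodule K K⟦X⟧) (h1 : (1 : K⟦X⟧) ∈ V)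
    (hJ : Js ρ ∈ V) (hA : ∀ i ≤ m, Ak (fs ρ) i ∈ V) (hV : ∀ i ≤ m, Vs ρ (i + 1) ∈ V) (hT : ∀ i ≤ m, th (Vs ρ (i + 1)) ∈ V)
    (hB : ∀ i ≤ m, Bs ρ (i + 1) ∈ V) (t : Option (ℕ × Fin 4)) (ht : ∀ p ∈ t, p.1 ≤ m) :
    ∃ g₀ ∈ V, ∃ g₁ ∈ V, ∃ g₂ ∈ V, th (gK K t ρ) = g₀ + X * g₁ + X ^ 2 * g₂ := by
  rcases t with _ | ⟨i, c⟩
  · refine ⟨0, V.zero_mem, 0, V.zero_mem, (4 * ρ) • (Ak (fs ρ) 0 + 1), V.smul_mem _ (V.add_mem (hA 0 (Nat.zero_le _)) h1), ?_⟩
    show th (Js ρ) = 0 + X * 0 + X ^ 2 * ((4 * ρ) • (fs ρ - 1 + 1))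
    rw [th_Js, sub_add_cancel, mul_smul_comm]
    ring
  · have hi : i ≤ m := ht (i, c) rfl
    fin_cases c
    · rcases i with _ | i
      · refine ⟨Js ρ, hJ, 0, V.zero_mem, 0, V.zero_mem, ?_⟩
        show th (Ak (fs ρ) 0) = _
        rw [th_Ak_zero]; ring
      · refine ⟨Ak (fs ρ) i, hA i (by omega), 0, V.zero_mem, 0, V.zero_mem, ?_⟩
        show th (Ak (fs ρ) (i + 1)) = _
        rw [th_Ak]; ring
    · refine ⟨th (Vs ρ (i + 1)), hT i hi, 0, V.zero_mem, 0, V.zero_mem, ?_⟩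
      show th (Vs ρ (i + 1)) = _
      ring
    · rcases i with _ | i
      · refine ⟨(2 : K) • Js ρ, V.smul_mem _ hJ, 0, V.zero_mem, (4 * ρ) • Vs ρ 1, V.smul_mem _ (hV 0 hi), ?_⟩
        show th (th (Vs ρ 1)) = _
        rw [th_th_V1, mul_smul_comm]; ring
      · refine ⟨((2 : K) ^ (i + 2)) • Ak (fs ρ) i, V.smul_mem _ (hA i (by omega)), 0, V.zero_mem, (4 * ρ) • Vs ρ (i + 2),
          V.smul_mem _ (hV (i + 1) hi), ?_⟩
        show th (th (Vs ρ (i + 2))) = _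
        rw [th_th_Vs, mul_smul_comm]; ring
    · rcases i with _ | i
      · refine ⟨Vs ρ 1, hV 0 hi, 0, V.zero_mem, 0, V.zero_mem, ?_⟩
        show th (Bs ρ 1) = _
        rw [th_Bs]
        show Vs ρ 1 = _
        ring
      · refine ⟨Bs ρ (i + 1), hB i (by omega), 0, V.zero_mem, 0, V.zero_mem, ?_⟩
        show th (Bs ρ (i + 2)) = _
        rw [th_Bs]
        ring

/-- the family -/
noncomputable def FK : Fam (Option (ℕ × Fin 4)) where
  g := fun K _ _ s ρ => gK K s ρ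
  map := by
    intro K L _ _ _ _ φ s ρ
    rcases s with _ | ⟨k, c⟩
    · exact map_Js φ ρ
    · fin_cases c
      · exact map_Ak φ ρ k
      · exact map_Vs φ ρ (k + 1)
      · show PowerSeries.map φ (th (Vs ρ (k + 1))) = th (Vs (φ ρ) (k + 1))
        rw [map_th, map_Vs]
      · exact map_Bs φ ρ (k + 1)
  efk := by
    intro K _ _ _ φ s ρ
    rcases s with _ | ⟨k, c⟩
    · exact EFK_th (EFK_fs ρ)
    · fin_cases c
      · exact EFK_Ak ρ k
      · exact EFK_Vs ρ (k + 1)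
      · exact EFK_th (EFK_Vs ρ (k + 1))
      · exact EFK_Bs ρ (k + 1)
  fin := by
    classical
    intro s
    set m : ℕ := s.elim 0 (fun p => p.1) with hm
    set S : Finset (Option (ℕ × Fin 4)) := insert none ((Finset.range (m + 1) ×ˢ Finset.univ).image some) with hS
    have hmem : ∀ i ≤ m, ∀ c : Fin 4, some (i, c) ∈ S := by
      intro i hi c
      rw [hS, Finset.mem_insert]
      right
      rw [Finset.mem_image]
      refine ⟨(i, c), ?_, rfl⟩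
      simp only [Finset.mem_product, Finset.mem_range, Finset.mem_univ, and_true]; omega
    refine ⟨S, ?_, fun K _ _ ρ t ht => ?_⟩
    · rcases s with _ | ⟨k, c⟩
      · exact Finset.mem_insert_self _ _
      · exact hmem k (by rw [hm]; exact le_rfl) c
    · refine fin_gK K ρ m _ (Submodule.subset_span (Or.inl rfl))
        (Submodule.subset_span (Or.inr ⟨none, Finset.mem_insert_self _ _, rfl⟩))
        (fun i hi => Submodule.subset_span (Or.inr ⟨some (i, 0), hmem i hi 0, rfl⟩))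
        (fun i hi => Submodule.subset_span (Or.inr ⟨some (i, 1), hmem i hi 1, rfl⟩))
        (fun i hi => Submodule.subset_span (Or.inr ⟨some (i, 2), hmem i hi 2, rfl⟩))
        (fun i hi => Submodule.subset_span (Or.inr ⟨some (i, 3), hmem i hi 3, rfl⟩)) t ?_
      rintro p rfl
      have h := Finset.mem_insert.1 ht
      rcases h with h | h
      · exact absurd h (by simp)
      · obtain ⟨q, hq, hq'⟩ := Finset.mem_image.1 h
        obtain rfl := Option.some.inj hq'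
        have := (Finset.mem_product.1 hq).1
        rw [Finset.mem_range] at this
        omega
  dir := by
    intro K _ _ m h hh h0
    refine direct_Den ai_bK m h (fun n => ?_) h0
    refine Algebra.adjoin_induction (p := fun f _ => Den (bK (fun ρ : Kx K => ρ.1)) f) ?_ ?_ ?_ ?_ (hh n)
    · rintro f (hf | ⟨s, ρ, rfl⟩)
      · exact Den.of_SA hf
      · exact den_gK ρ s
    · intro r
      exact Den.const r
    · intro x y _ _ hx hy; exact hx.add hy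
    · intro x y _ _ hx hy; exact hx.mul hy

end Pool.Agent.H18.Wd
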