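import Pool.Agent.H18.Wd.Lc

/-!
# The iterated integrals of `K_0` in the right half plane: the identity
-/

set_option autoImplicit false
set_option linter.unusedSectionVars false

open Filter Topology Set MeasureTheory

namespace Pool.Agent.H18.Wd

open Pool.Agent.H18.Bes Pool.Agent.R352.E

/-- `L_0 = K_0`, `L_(k+1)(z) = ∫_1^∞ L_k(z t) dt / t` -/
noncomputable def LL : ℕ → ℂ → ℂ
  | 0, z => ∫ t in Ioi (0 : ℝ), Complex.exp (-z * Real.cosh t)
  | k + 1, z => ∫ t in Ioi (1 : ℝ), LL k (z * t) / t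

theorem LL_zero (z : ℂ) : LL 0 z = kn 0 z := by
  rw [LL, kn]
  refine integral_congr_ae (Eventually.of_forall fun t => ?_)
  show _ = kf 0 z t
  rw [kf, pow_zero, one_mul]

theorem kn_zero_norm {z : ℂ} (hz : 0 < z.re) : ‖kn 0 z‖ ≤ 2 / z.re := by
  have h0 : ∀ t : ℝ, ‖kf 0 z t‖ ≤ 2 / z.re * Real.exp (-t) := fun t => by
    have := kf_bound 0 hz le_rfl t
    simpa using this
  have h1 := norm_integral_le_of_norm_le (μ := volume.restrict (Ioi (0 : ℝ))) (f := kf 0 z)
    (g := fun t : ℝ => 2 / z.re * Real.exp (-t)) (exp_neg_int _) (Eventually.of_forall h0)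
  rw [integral_const_mul, exp_neg_integral, mul_one] at h1
  exact h1

theorem sq_int : IntegrableOn (fun t : ℝ => t ^ (-2 : ℝ)) (Ioi 1) ∧ ∫ t in Ioi (1 : ℝ), t ^ (-2 : ℝ) = 1 := by
  refine ⟨integrableOn_Ioi_rpow_of_lt (by norm_num) one_pos, ?_⟩
  rw [integral_Ioi_rpow_of_lt (by norm_num) one_pos]
  norm_num

theorem Nc_diff (k : ℕ) {z : ℂ} (hz : z / 2 ∈ Complex.slitPlane) : DifferentiableAt ℂ (Nc k) z := by
  rcases k with _ | k
  · have : Nc 0 = ks := funext Nc_zero
    rw [this]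
    exact ks_diff hz
  · exact (Nc_deriv k hz).differentiableAt

theorem Nc_bound_aux {k : ℕ} (hb : ∀ z : ℂ, 0 < z.re → ‖Nc k z‖ ≤ 2 / z.re) {a : ℝ} (ha : 0 < a) {w : ℂ} (hw : a ≤ w.re) :
    ‖-(Nc k w / w)‖ ≤ 2 / a ^ 2 := by
  have hw0 : 0 < w.re := ha.trans_le hw
  have h1 : a ≤ ‖w‖ := hw.trans ((le_abs_self _).trans (Complex.abs_re_le_norm w))
  rw [norm_neg, norm_div]
  calc ‖Nc k w‖ / ‖w‖ ≤ (2 / w.re) / a := div_le_div₀ (by positivity) (hb w hw0) ha h1
    _ ≤ (2 / a) / a := by gcongr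
    _ = 2 / a ^ 2 := by field_simp

theorem Nc_tendsto {k : ℕ} (hb : ∀ z : ℂ, 0 < z.re → ‖Nc k z‖ ≤ 2 / z.re) {z : ℂ} (hz : 0 < z.re) :
    Tendsto (fun t : ℝ => Nc (k + 1) (z * t)) atTop (𝓝 0) := by
  set x := z.re with hx
  have h1 : Tendsto (fun t : ℝ => Nc (k + 1) ((x * t : ℝ) : ℂ)) atTop (𝓝 0) := by
    have h2 : Tendsto (fun t : ℝ => ((Nr (k + 1) (x * t) : ℝ) : ℂ)) atTop (𝓝 ((0 : ℝ) : ℂ)) :=
      (Complex.continuous_ofReal.tendsto 0).comp ((Nr_atTop (k + 1)).comp (tendsto_id.const_mul_atTop hz))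
    rw [Complex.ofReal_zero] at h2
    refine h2.congr' ?_
    filter_upwards [eventually_gt_atTop 0] with t ht
    rw [Nc_real _ (by positivity)]
  have h3 : Tendsto (fun t : ℝ => Nc (k + 1) (z * t) - Nc (k + 1) ((x * t : ℝ) : ℂ)) atTop (𝓝 0) := by
    have h4 : Tendsto (fun t : ℝ => (2 * ‖z - x‖ / x ^ 2) * t⁻¹) atTop (𝓝 0) := by
      have := tendsto_inv_atTop_zero.const_mul (2 * ‖z - x‖ / x ^ 2)
      rwa [mul_zero] at this
    refine squeeze_zero_norm' ?_ h4
    filter_upwards [eventually_gt_atTop 0] with t ht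
    have ha : 0 < x * t := by positivity
    have hs : Convex ℝ {w : ℂ | x * t ≤ w.re} := convex_halfSpace_re_ge _
    have h5 := hs.norm_image_sub_le_of_norm_hasDerivWithin_le (𝕜 := ℂ) (f := Nc (k + 1)) (f' := fun w => -(Nc k w / w))
      (C := 2 / (x * t) ^ 2) (x := ((x * t : ℝ) : ℂ)) (y := z * t)
      (fun w hw => (Nc_deriv k (half_mem (ha.trans_le hw))).hasDerivWithinAt) (fun w hw => Nc_bound_aux hb ha hw)
      (by show x * t ≤ (((x * t : ℝ)) : ℂ).re; rw [Complex.ofReal_re])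
      (by show x * t ≤ (z * t).re; rw [Complex.re_mul_ofReal])
    refine h5.trans_eq ?_
    have h6 : z * t - ((x * t : ℝ) : ℂ) = (z - x) * t := by push_cast; ring
    rw [h6, norm_mul, Complex.norm_real, Real.norm_eq_abs, abs_of_pos ht]
    field_simp
  have h7 := h3.add h1
  rw [add_zero] at h7
  refine h7.congr fun t => ?_
  ring

/-- **the identity** -/
theorem LL_eq (k : ℕ) : ∀ z : ℂ, 0 < z.re → LL k z = Nc k z ∧ ‖Nc k z‖ ≤ 2 / z.re := by
  induction k with
  | zero =>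
    intro z hz
    rw [LL_zero, Nc_zero, ← kn_eq hz]
    exact ⟨rfl, kn_zero_norm hz⟩
  | succ k ih =>
    intro z hz
    have hb : ∀ z : ℂ, 0 < z.re → ‖Nc k z‖ ≤ 2 / z.re := fun z hz => (ih z hz).2
    have hzt : ∀ t : ℝ, 0 < t → 0 < (z * t).re := fun t ht => by
      rw [Complex.re_mul_ofReal]; positivity
    have hnorm : ∀ t ∈ Ioi (1 : ℝ), ‖Nc k (z * t) / t‖ ≤ 2 / z.re * t ^ (-2 : ℝ) := by
      intro t ht
      have ht0 : (0 : ℝ) < t := one_pos.trans ht
      rw [norm_div, Complex.norm_real, Real.norm_eq_abs, abs_of_pos ht0]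
      have h1 := hb (z * t) (hzt t ht0)
      rw [Complex.re_mul_ofReal] at h1
      have h2 : t ^ (-2 : ℝ) = 1 / t ^ 2 := by
        rw [Real.rpow_neg ht0.le, one_div]
        norm_cast
      rw [h2]
      calc ‖Nc k (z * t)‖ / t ≤ (2 / (z.re * t)) / t := by gcongr
        _ = 2 / z.re * (1 / t ^ 2) := by field_simp
    have hint : IntegrableOn (fun t : ℝ => Nc k (z * t) / t) (Ioi 1) := by
      refine Integrable.mono' (sq_int.1.const_mul (2 / z.re)) ?_ ((ae_restrict_mem measurableSet_Ioi).mono hnorm)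
      refine ContinuousOn.aestronglyMeasurable (fun t ht => ?_) measurableSet_Ioi
      have ht0 : (0 : ℝ) < t := one_pos.trans ht
      refine ContinuousAt.continuousWithinAt ?_
      refine ContinuousAt.div ?_ Complex.continuous_ofReal.continuousAt (by exact_mod_cast ht0.ne')
      have h1 : ContinuousAt (Nc k) (z * t) := (Nc_diff k (half_mem (hzt t ht0))).continuousAt
      exact ContinuousAt.comp (g := Nc k) (f := fun t : ℝ => z * (t : ℂ)) h1
        (continuous_const.mul Complex.continuous_ofReal).continuousAt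
    have hd : ∀ t ∈ Ici (1 : ℝ), HasDerivAt (fun t : ℝ => -Nc (k + 1) (z * t)) (Nc k (z * t) / t) t := by
      intro t ht
      have ht0 : (0 : ℝ) < t := lt_of_lt_of_le one_pos ht
      have hz0 : z ≠ 0 := by rintro rfl; simp at hz
      have h1 := Nc_deriv k (half_mem (hzt t ht0))
      have h2 : HasDerivAt (fun w : ℂ => z * w) z (t : ℂ) := by
        simpa using (hasDerivAt_id (t : ℂ)).const_mul z
      have h3 := (HasDerivAt.comp (t : ℂ) h1 h2).comp_ofReal.neg
      refine h3.congr_deriv ?_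
      have h4 : (t : ℂ) ≠ 0 := by exact_mod_cast ht0.ne'
      field_simp
    have hlim : Tendsto (fun t : ℝ => -Nc (k + 1) (z * t)) atTop (𝓝 (-0)) := (Nc_tendsto hb hz).neg
    have hftc := integral_Ioi_of_hasDerivAt_of_tendsto' hd hint hlim
    have e1 : LL (k + 1) z = ∫ t in Ioi (1 : ℝ), Nc k (z * t) / t := by
      rw [LL]
      refine setIntegral_congr_fun measurableSet_Ioi fun t ht => ?_
      have ht0 : (0 : ℝ) < t := one_pos.trans ht
      show LL k (z * t) / t = Nc k (z * t) / t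
      rw [(ih (z * t) (hzt t ht0)).1]
    have e2 : LL (k + 1) z = Nc (k + 1) z := by
      rw [e1, hftc]
      simp
    refine ⟨e2, ?_⟩
    rw [← e2, e1]
    have h1 := norm_integral_le_of_norm_le (μ := volume.restrict (Ioi (1 : ℝ))) (sq_int.1.const_mul (2 / z.re))
      ((ae_restrict_mem measurableSet_Ioi).mono hnorm)
    rw [integral_const_mul, sq_int.2, mul_one] at h1
    exact h1

end Pool.Agent.H18.Wd
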