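import Pool.Agent.H18.Wd.KFin
import Pool.Agent.H18.Wd.HFin
import Pool.Agent.H18.Wd.Lz

/-!
# The counting theorem with the iterated integrals of `K_0`
-/

set_option autoImplicit false
set_option linter.unusedSectionVars false

open Set Filter Topology MeasureTheory

namespace Pool.Agent.H18.Wd

open Pool.Agent.N902.EW Pool.Agent.H18.Bes Pool.Agent.R352.E

/-! ### The independence -/

/-- the generators of the base field -/
def GLb : Set ℂ := GE ∪ {w | ∃ b : ℂ, IsAlgebraic ℚ b ∧ (w = I0 b ∨ w = I1 b ∨ ∃ k : ℕ, w = Av (k + 1) b ∨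
  w = Wv (k + 2) b)}

/-- the base field -/
noncomputable def LB : IntermediateField ℚ ℂ := IntermediateField.adjoin ℚ GLb

theorem E0_le_LB : E0 ≤ LB := IntermediateField.adjoin.mono _ _ _ subset_union_left

theorem I0_mem_LB {z : ℂ} (hz : IsAlgebraic ℚ z) : I0 z ∈ LB :=
  IntermediateField.subset_adjoin _ _ (Or.inr ⟨z, hz, Or.inl rfl⟩)

theorem Av_zero' (b : ℂ) : Av 0 b = I0 b - 1 := by
  have h1 : Summable fun j : ℕ => (b ^ 2 / 4) ^ j / (j.factorial : ℂ) ^ 2 := (summ_I0 (b ^ 2 / 4)).of_norm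
  rw [I0, h1.tsum_eq_zero_add, Av]
  simp

theorem Av_mem_LB {z : ℂ} (hz : IsAlgebraic ℚ z) (k : ℕ) : Av k z ∈ LB := by
  rcases k with _ | k
  · rw [Av_zero']
    exact LB.sub_mem (I0_mem_LB hz) LB.one_mem
  · exact IntermediateField.subset_adjoin _ _ (Or.inr ⟨z, hz, Or.inr (Or.inr ⟨k, Or.inl rfl⟩)⟩)

/-- the rest of the indices -/
abbrev Rl (ι : Type*) := (ι × (ℕ ⊕ ℕ)) ⊕ (ι ⊕ ι)

/-- the values of the rest of the functions -/
noncomputable def rl (x : Rl (Kx Qb)) : ℂ := match x with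
  | Sum.inl (ρ, Sum.inl k) => evk io (Ak (fs ρ.1) (k + 1))
  | Sum.inl (ρ, Sum.inr m) => evk io (fs ρ.1 * th (Vs ρ.1 (2 * m + 2)) - Js ρ.1 * Vs ρ.1 (2 * m + 2))
  | Sum.inr (Sum.inl ρ) => evk io (Js ρ.1)
  | Sum.inr (Sum.inr ρ) => evk io (fs ρ.1)

/-- the rearrangement -/
def reL {ι B : Type*} : (((ι × ℕ) ⊕ (ι × ℕ)) ⊕ B) ⊕ Rl ι → Jk ι ⊕ B
  | Sum.inl (Sum.inl (Sum.inl (ρ, k))) => Sum.inl (Sum.inl (ρ, Sum.inr (Sum.inl (k + 1))))
  | Sum.inl (Sum.inl (Sum.inr (ρ, 0))) => Sum.inl (Sum.inl (ρ, Sum.inr (Sum.inl 0)))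
  | Sum.inl (Sum.inl (Sum.inr (ρ, k + 1))) => Sum.inl (Sum.inl (ρ, Sum.inr (Sum.inr k)))
  | Sum.inl (Sum.inr b) => Sum.inr b
  | Sum.inr (Sum.inl (ρ, Sum.inl k)) => Sum.inl (Sum.inl (ρ, Sum.inl (Sum.inl k)))
  | Sum.inr (Sum.inl (ρ, Sum.inr m)) => Sum.inl (Sum.inl (ρ, Sum.inl (Sum.inr m)))
  | Sum.inr (Sum.inr (Sum.inl ρ)) => Sum.inl (Sum.inr (Sum.inl ρ))
  | Sum.inr (Sum.inr (Sum.inr ρ)) => Sum.inl (Sum.inr (Sum.inr ρ))

theorem reL_injective {ι B : Type*} : Function.Injective (reL (ι := ι) (B := B)) := by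
  rintro (((⟨ρ, k⟩ | ⟨ρ, _ | k⟩) | b) | ⟨ρ, k | k⟩ | ρ | ρ) (((⟨ρ', k'⟩ | ⟨ρ', _ | k'⟩) | b') | ⟨ρ', k' | k'⟩ | ρ' | ρ') h <;>
    simp only [reL, Sum.inl.injEq, Sum.inr.injEq, Prod.mk.injEq, reduceCtorEq, and_false, Nat.add_right_cancel_iff,
      Nat.succ_ne_zero, (Nat.succ_ne_zero _).symm, and_true] at h ⊢ <;> exact h

theorem LB_le : (LB : IntermediateField ℚ ℂ) ≤ (IntermediateField.adjoin E0 (range rl)).restrictScalars ℚ := by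
  have h1 : (IntermediateField.adjoin E0 (range rl)).restrictScalars ℚ = IntermediateField.adjoin ℚ (GE ∪ range rl) := by
    rw [E0]
    exact IntermediateField.adjoin_adjoin_left ℚ GE (range rl)
  rw [h1]
  refine IntermediateField.adjoin_le_iff.2 ?_
  set F := IntermediateField.adjoin ℚ (GE ∪ range rl) with hF
  have hsub : GE ∪ range rl ⊆ F := IntermediateField.subset_adjoin ℚ (GE ∪ range rl)
  have h2 : (2 : ℂ) ∈ F := by
    exact_mod_cast F.algebraMap_mem (2 : ℚ)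
  rintro w (hw | ⟨b, hb, hw⟩)
  · exact hsub (Or.inl hw)
  · by_cases h0 : b = 0
    · subst h0
      rcases hw with rfl | rfl | ⟨k, rfl | rfl⟩
      · rw [I0_zero]; exact F.one_mem
      · rw [I1_zero]; exact F.zero_mem
      · rw [Av_zero]; exact F.zero_mem
      · rw [Wv_zero]; exact F.zero_mem
    · obtain ⟨ρ, hρ⟩ := exists_rho hb h0
      have hf : PM F (fs ρ.1) := ⟨EFK_fs ρ.1, hsub (Or.inr ⟨Sum.inr (Sum.inr ρ), rfl⟩)⟩
      rcases hw with rfl | rfl | ⟨k, rfl | rfl⟩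
      · have h3 := hf.2
        rwa [evk_fs _ hρ] at h3
      · have h3 : evk io (Js ρ.1) ∈ F := hsub (Or.inr ⟨Sum.inr (Sum.inl ρ), rfl⟩)
        rw [evk_Js _ hρ] at h3
        have h4 : I1 b = b * I1 b / b := by field_simp
        rw [h4]
        exact F.div_mem h3 (hsub (Or.inl (alg_mem_GE hb)))
      · have h3 : evk io (Ak (fs ρ.1) (k + 1)) ∈ F := hsub (Or.inr ⟨Sum.inl (ρ, Sum.inl k), rfl⟩)
        rw [evk_Ak _ _ hρ] at h3
        have h4 : Av (k + 1) b = Av (k + 1) b / 2 ^ (k + 1) * 2 ^ (k + 1) := by field_simp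
        rw [h4]
        exact F.mul_mem h3 (pow_mem h2 _)
      · have h3 := PM_W hf (fun k => hsub (Or.inr ⟨Sum.inl (ρ, Sum.inl k), rfl⟩))
          (fun m => hsub (Or.inr ⟨Sum.inl (ρ, Sum.inr m), rfl⟩)) k
        rw [evk_wr _ _ hρ] at h3
        have h4 : Wv (k + 2) b = 2 * Wv (k + 2) b / 2 := by ring
        rw [h4]
        exact F.div_mem h3 h2

/-- **the functions `V_k`, `k ≥ 2`, and `B_k` are independent over the base field** -/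
theorem ai_VB (L : ℕ) (P : Set ℝ) (hP : ∀ x ∈ P, 0 < x ∧ IsAlgebraic ℚ x) (X : Set ℂ)
    (hX : ∀ x ∈ X, IsAlgebraic ℚ x ∧ ∀ y ∈ X, x + y ≠ 0) :
    AlgebraicIndependent LB (Sum.elim (Sum.elim (fun p : Kx Qb × ℕ => evk io (Vs p.1.1 (p.2 + 2)))
      (fun p : Kx Qb × ℕ => evk io (Bs p.1.1 p.2))) (su (L := L) (P := P) (X := X))) := by
  have h0 := (ai_val_E0 ai_bK bK_mem L P hP X hX).comp reL (reL_injective (ι := Kx Qb) (B := Ix L P X))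
  refine ai_split (y := rl) (G := range rl) ?_ (fun z hz => hz) LB_le
  convert h0 using 1
  ext (((⟨ρ, k⟩ | ⟨ρ, _ | k⟩) | b) | ⟨ρ, k | k⟩ | ρ | ρ) <;> rfl

/-- the algebraic numbers with positive real part -/
abbrev Hp : Type := {z : ℂ // IsAlgebraic ℚ z ∧ 0 < z.re}

theorem ne_zero_of_re {z : ℂ} (hz : 0 < z.re) : z ≠ 0 := by
  rintro rfl
  simp at hz

theorem ai_VB' (L : ℕ) (P : Set ℝ) (hP : ∀ x ∈ P, 0 < x ∧ IsAlgebraic ℚ x) (X : Set ℂ)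
    (hX : ∀ x ∈ X, IsAlgebraic ℚ x ∧ ∀ y ∈ X, x + y ≠ 0) :
    AlgebraicIndependent LB (Sum.elim (Sum.elim (fun p : Hp × ℕ => Vv (p.2 + 2) p.1.1 / I0 p.1.1)
      (fun p : Hp × ℕ => Cv p.2 p.1.1)) (su (L := L) (P := P) (X := X))) := by
  choose ρ hρ using fun z : Hp => exists_rho z.2.1 (ne_zero_of_re z.2.2)
  have hρi : Function.Injective ρ := by
    intro z w h
    apply Subtype.ext
    have h1 : (z : ℂ) ^ 2 / 4 = (w : ℂ) ^ 2 / 4 := by rw [← hρ z, ← hρ w, h]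
    have h2 : ((z : ℂ) - w) * (z + w) = 0 := by linear_combination 4 * h1
    rcases mul_eq_zero.1 h2 with h3 | h3
    · exact sub_eq_zero.1 h3
    · exfalso
      have h4 := congrArg Complex.re h3
      rw [Complex.add_re, Complex.zero_re] at h4
      have := z.2.2
      have := w.2.2
      linarith
  let f : Hp × ℕ → Kx Qb × ℕ := Prod.map ρ id
  have hf : Function.Injective f := Function.Injective.prodMap hρi Function.injective_id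
  have h1 := (ai_VB L P hP X hX).comp (Sum.map (Sum.map f f) id)
    (Function.Injective.sumMap (Function.Injective.sumMap hf hf) Function.injective_id)
  refine ai_of_span h1 _ fun i => ?_
  rcases i with (p | p) | i
  · show evk io (Vs (ρ p.1).1 (p.2 + 2)) ∈ clf LB {Vv (p.2 + 2) p.1.1 / I0 p.1.1}
    rw [evk_Vs _ _ (hρ p.1)]
    have h0 := I0_ne p.1.2.1
    have h5 : Vv (p.2 + 2) p.1.1 = Vv (p.2 + 2) p.1.1 / I0 p.1.1 * I0 p.1.1 := by field_simp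
    have h6 : Vv (p.2 + 2) p.1.1 / I0 p.1.1 * I0 p.1.1 ∈ clf LB {Vv (p.2 + 2) p.1.1 / I0 p.1.1} :=
      (clf LB _).mul_mem (subset_clf _ rfl) (E0_le_clf (I0_mem_LB p.1.2.1))
    rwa [← h5] at h6
  · show evk io (Bs (ρ p.1).1 p.2) ∈ clf LB {Cv p.2 p.1.1}
    rw [evk_Bs _ _ (hρ p.1)]
    exact (clf LB _).div_mem (subset_clf _ rfl) ((clf LB _).pow_mem (ofNat_mem _ _) _)
  · exact subset_clf _ rfl

/-! ### The numbers -/

/-- the index set of the numbers -/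
abbrev Il (Q : Set ℕ) (Z X : Set ℂ) (L : ℕ) (P : Set ℝ) : Type :=
  (({p : ℕ × ℂ // p.1 ∈ Q ∧ IsAlgebraic ℚ p.2 ∧ 0 < p.2.re}) ⊕ {p : ℕ × ℂ // (p.1 = 0 ∨ p.1 + 1 ≤ L) ∧ p.2 ∈ Z}) ⊕
  ({p : ℕ × ℂ // p.1 ∈ Q ∧ p.2 ∈ X} ⊕ {p : ℕ × ℝ // 1 ≤ p.1 ∧ p.1 ≤ L ∧ p.2 ∈ P})

/-- the independent numbers -/
noncomputable def sl {Q : Set ℕ} {Z X : Set ℂ} {L : ℕ} {P : Set ℝ} : Il Q Z X L P → ℂ :=
  Sum.elim (Sum.elim (fun p => Vv p.1.1 p.1.2 / I0 p.1.2) fun p => Cv p.1.1 p.1.2)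
    (Sum.elim (fun p => PS p.1.1 p.1.2) fun p => ((-EE p.1.1 p.1.2 : ℝ) : ℂ))

/-- the numbers -/
noncomputable def tl {Q : Set ℕ} {Z X : Set ℂ} {L : ℕ} {P : Set ℝ} : Il Q Z X L P → ℂ :=
  Sum.elim (Sum.elim (fun p => RT p.1.1 p.1.2) fun p => LL p.1.1 p.1.2)
    (Sum.elim (fun p => PT p.1.1 p.1.2) fun p => ((Pool.Agent.R352.E.dl p.1.1 p.1.2 : ℝ) : ℂ))

section

variable {Q : Set ℕ} {Z X : Set ℂ} {L : ℕ} {P : Set ℝ}

theorem ai_sl (hQ : ∀ k ∈ Q, 2 ≤ k) (hX : ∀ x ∈ X, IsAlgebraic ℚ x ∧ ∀ y ∈ X, x + y ≠ 0)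
    (hZ : ∀ z ∈ Z, IsAlgebraic ℚ z ∧ 0 < z.re) (hP : ∀ x ∈ P, 0 < x ∧ IsAlgebraic ℚ x) :
    AlgebraicIndependent LB (sl (Q := Q) (Z := Z) (X := X) (L := L) (P := P)) := by
  classical
  refine algebraicIndependent_of_finite_type fun t ht => ?_
  obtain ⟨M, hM⟩ : ∃ M : ℕ, ∀ p : {p : ℕ × ℂ // p.1 ∈ Q ∧ p.2 ∈ X}, Sum.inr (Sum.inl p) ∈ t → p.1.1 ≤ M := by
    have h1 : ((fun i : Il Q Z X L P => Sum.elim (fun _ => 0) (Sum.elim (fun p => p.1.1) fun _ => 0) i) '' t).Finite :=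
      ht.image _
    obtain ⟨M, hM⟩ := h1.bddAbove
    exact ⟨M, fun p hp => hM ⟨_, hp, rfl⟩⟩
  let g : t → ((Hp × ℕ) ⊕ (Hp × ℕ)) ⊕ Ix (max L M) P X := fun i => match i with
    | ⟨Sum.inl (Sum.inl p), _⟩ => Sum.inl (Sum.inl (⟨p.1.2, p.2.2⟩, p.1.1 - 2))
    | ⟨Sum.inl (Sum.inr p), _⟩ => Sum.inl (Sum.inr (⟨p.1.2, hZ _ p.2.2⟩, p.1.1))
    | ⟨Sum.inr (Sum.inl p), hp⟩ => Sum.inr (Sum.inl ⟨p.1, hQ _ p.2.1, (hM p hp).trans (le_max_right _ _), p.2.2⟩)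
    | ⟨Sum.inr (Sum.inr p), _⟩ => Sum.inr (Sum.inr ⟨p.1, p.2.1, p.2.2.1.trans (le_max_left _ _), p.2.2.2⟩)
  have hg : Function.Injective g := by
    rintro ⟨(p | p) | p | p, hp⟩ ⟨(q | q) | q | q, hq⟩ h
    · have h1 := Sum.inl.inj (Sum.inl.inj h)
      have h2 : p.1.2 = q.1.2 := (Subtype.mk.injEq _ _ _ _).mp (Prod.ext_iff.1 h1).1
      have h3 : p.1.1 - 2 = q.1.1 - 2 := (Prod.ext_iff.1 h1).2
      have h4 := hQ _ p.2.1
      have h5 := hQ _ q.2.1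
      exact Subtype.ext (congrArg (Sum.inl ∘ Sum.inl) (Subtype.ext (Prod.ext (by omega) h2)))
    · cases h
    · cases h
    · cases h
    · cases h
    · have h1 := Sum.inr.inj (Sum.inl.inj h)
      have h2 : p.1.2 = q.1.2 := (Subtype.mk.injEq _ _ _ _).mp (Prod.ext_iff.1 h1).1
      have h3 : p.1.1 = q.1.1 := (Prod.ext_iff.1 h1).2
      exact Subtype.ext (congrArg (Sum.inl ∘ Sum.inr) (Subtype.ext (Prod.ext h3 h2)))
    · cases h
    · cases h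
    · cases h
    · cases h
    · have h2 : p.1 = q.1 := (Subtype.mk.injEq _ _ _ _).mp (Sum.inl.inj (Sum.inr.inj h))
      exact Subtype.ext (congrArg (Sum.inr ∘ Sum.inl) (Subtype.ext h2))
    · cases h
    · cases h
    · cases h
    · cases h
    · have h2 : p.1 = q.1 := (Subtype.mk.injEq _ _ _ _).mp (Sum.inr.inj (Sum.inr.inj h))
      exact Subtype.ext (congrArg (Sum.inr ∘ Sum.inr) (Subtype.ext h2))
  have h2 := (ai_VB' (max L M) P hP X hX).comp g hg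
  convert h2 using 1
  ext ⟨(p | p) | p | p, hp⟩
  · have h4 := hQ _ p.2.1
    show Vv p.1.1 p.1.2 / I0 p.1.2 = Vv (p.1.1 - 2 + 2) p.1.2 / I0 p.1.2
    rw [show p.1.1 - 2 + 2 = p.1.1 by omega]
  · rfl
  · rfl
  · rfl

open PowerSeries in
theorem PY_eq (c : ℂ) (n : ℕ) : coeff n (PY c) = (1 / 2) ^ n * coeff n (PX c * PX c) := by
  have h1 : PY c = PowerSeries.rescale (1 / 2 : ℂ) (PX c * PX c) := by
    have e1 : PowerSeries.rescale (1 / 2 : ℂ) (PowerSeries.map Complex.ofRealHom PA) = PowerSeries.map Complex.ofRealHom PH := by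
      ext n
      rw [coeff_rescale, coeff_map, coeff_map, PA, PH, coeff_mk, coeff_mk]
      simp only [Complex.ofRealHom_eq_coe]
      push_cast
      rw [div_pow, one_pow]
      field_simp
    have e2 : (PowerSeries.mk (fun n => c ^ n / (n.factorial : ℂ)) : ℂ⟦X⟧) =
        PowerSeries.rescale (1 / 2 : ℂ) (PowerSeries.mk (fun n => c ^ n / (n.factorial : ℂ))) *
        PowerSeries.rescale (1 / 2 : ℂ) (PowerSeries.mk (fun n => c ^ n / (n.factorial : ℂ))) := by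
      ext n
      rw [coeff_mul, coeff_mk]
      simp only [coeff_rescale, coeff_mk]
      rw [Finset.Nat.sum_antidiagonal_eq_sum_range_succ (fun i j => (1 / 2 : ℂ) ^ i * (c ^ i / (i.factorial : ℂ)) *
        ((1 / 2 : ℂ) ^ j * (c ^ j / (j.factorial : ℂ)))),
        show c ^ n = (1 / 2 * c + 1 / 2 * c) ^ n by congr 1; ring, add_pow, Finset.sum_div]
      refine Finset.sum_congr rfl fun i hi => ?_
      have hi' : i ≤ n := by have := Finset.mem_range.1 hi; omega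
      have h1 : (n.choose i : ℂ) * (i.factorial : ℂ) * ((n - i).factorial : ℂ) = (n.factorial : ℂ) := by
        exact_mod_cast Nat.choose_mul_factorial_mul_factorial hi'
      have h2 : (n.factorial : ℂ) ≠ 0 := by exact_mod_cast n.factorial_ne_zero
      have h3 : (i.factorial : ℂ) ≠ 0 := by exact_mod_cast i.factorial_ne_zero
      have h4 : ((n - i).factorial : ℂ) ≠ 0 := by exact_mod_cast (n - i).factorial_ne_zero
      rw [mul_pow, mul_pow, ← mul_div_assoc, ← mul_div_assoc, div_mul_div_comm, div_eq_div_iff h2 (mul_ne_zero h3 h4), ← h1]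
      ring
    rw [PY, PX, map_mul (PowerSeries.rescale (1 / 2 : ℂ)), map_mul (PowerSeries.rescale (1 / 2 : ℂ)), e1, map_mul
      (PowerSeries.map Complex.ofRealHom)]
    nth_rewrite 1 [e2]
    ring
  rw [h1, coeff_rescale]

open PowerSeries in
theorem PY_mem {F : IntermediateField ℚ ℂ} {T : Set ℂ} {z : ℂ}
    (h0 : (Real.eulerMascheroniConstant : ℂ) + Complex.log (z / 2) ∈ clf F T) (J : ℕ)
    (hz : ∀ k, 2 ≤ k → k ≤ J → riemannZeta k ∈ clf F T) (n : ℕ) (hn : n ≤ J ∨ n ≤ 1) :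
    coeff n (PY (-Complex.log (z / 2))) ∈ clf F T := by
  rw [PY_eq, coeff_mul]
  refine (clf F T).mul_mem ((clf F T).pow_mem ((clf F T).div_mem (clf F T).one_mem (ofNat_mem _ _)) _)
    ((clf F T).sum_mem fun p hp => ?_)
  have hp' := Finset.HasAntidiagonal.mem_antidiagonal.1 hp
  exact (clf F T).mul_mem (PX_mem h0 J hz _ (by omega)) (PX_mem h0 J hz _ (by omega))

theorem Gr_a1 (k : ℕ) (z : ℂ) : Gr (a1 ℂ) k (z ^ 2 / 4) = Av k z / 2 ^ k := by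
  have hs : Summable fun n => It (a1 ℂ) k n * (z ^ 2 / 4) ^ n := (ent_It (ent_a1 (𝕜 := ℂ)) k).summable (z ^ 2 / 4)
  rw [Gr, sr, hs.tsum_eq_zero_add, It, if_pos rfl, zero_mul, zero_add, Av, ← tsum_div_const]
  refine tsum_congr fun n => ?_
  rw [It, if_neg (Nat.succ_ne_zero n), a1, mul_pow]
  push_cast
  have h1 : ((n + 1).factorial : ℂ) ≠ 0 := by exact_mod_cast (n + 1).factorial_ne_zero
  have h2 : ((n : ℂ) + 1) ≠ 0 := by exact_mod_cast Nat.succ_ne_zero n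
  field_simp

theorem Gr_a2 (k : ℕ) (z : ℂ) : Gr (a2 ℂ) k (z ^ 2 / 4) = Cv k z / 2 ^ k := by
  have hs : Summable fun n => It (a2 ℂ) k n * (z ^ 2 / 4) ^ n := (ent_It (ent_a2 (𝕜 := ℂ)) k).summable (z ^ 2 / 4)
  rw [Gr, sr, hs.tsum_eq_zero_add, It, if_pos rfl, zero_mul, zero_add, Cv, ← tsum_div_const]
  refine tsum_congr fun n => ?_
  have e : ((harmonic (n + 1) : ℚ) : ℂ) = hz ℂ 1 (n + 1) := by
    rw [← hn_eq, hz, hn]
    simp only [pow_one]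
  rw [It, if_neg (Nat.succ_ne_zero n), a2, mul_pow, e]
  push_cast
  have h1 : ((n + 1).factorial : ℂ) ≠ 0 := by exact_mod_cast (n + 1).factorial_ne_zero
  have h2 : ((n : ℂ) + 1) ≠ 0 := by exact_mod_cast Nat.succ_ne_zero n
  field_simp

theorem sl_mem (hQ : ∀ k ∈ Q, 2 ≤ k) (hLQ : ∀ k, 2 ≤ k → k ≤ L → k ∈ Q)
    (hZ : ∀ z ∈ Z, IsAlgebraic ℚ z ∧ 0 < z.re) (hP : ∀ x ∈ P, 0 < x ∧ IsAlgebraic ℚ x)
    {T : Set ℂ} (hL : ∀ k ∈ Q, riemannZeta k ∈ clf LB T)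
    (hG : ∀ x ∈ P, ((Real.eulerMascheroniConstant + Real.log x : ℝ) : ℂ) ∈ clf LB T)
    (hg : ∀ z ∈ Z, (Real.eulerMascheroniConstant : ℂ) + Complex.log (z / 2) ∈ clf LB T) (i : Il Q Z X L P)
    (hi : tl i ∈ clf LB T) : sl i ∈ clf LB T := by
  rcases i with (p | p) | p | p
  · have h1 := R_split (hQ _ p.2.1) (I0_ne p.2.2.1)
    have h2 : Vv p.1.1 p.1.2 / I0 p.1.2 = riemannZeta p.1.1 - RT p.1.1 p.1.2 := by rw [h1]; ring
    show Vv p.1.1 p.1.2 / I0 p.1.2 ∈ _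
    rw [h2]
    exact (clf LB T).sub_mem (hL _ p.2.1) hi
  · obtain ⟨hz1, hz2⟩ := hZ _ p.2.2
    have h1 := (LL_eq p.1.1 p.1.2 hz2).1
    have h2 : LL p.1.1 p.1.2 ∈ clf LB T := hi
    rw [h1, Nc, Gr_a1, Gr_a1, Gr_a2] at h2
    show Cv p.1.1 p.1.2 ∈ _
    set k := p.1.1 with hk
    set z := p.1.2 with hz
    have h3 : PowerSeries.coeff (k + 1) (PY (-Complex.log (z / 2))) ∈ clf LB T := by
      refine PY_mem (hg _ p.2.2) L (fun k h2 hk => hL k (hLQ k h2 hk)) _ ?_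
      rcases p.2.1 with h | h
      · exact Or.inr (by omega)
      · exact Or.inl h
    have hA : ∀ k, Av k z ∈ clf LB T := fun k => E0_le_clf (Av_mem_LB hz1 k)
    have h4 : ∀ k, (2 : ℂ) ^ k ∈ clf LB T := fun k => (clf LB _).pow_mem (ofNat_mem _ _) _
    have h5 : (-1 : ℂ) ^ (k + 1) ∈ clf LB T := (clf LB T).pow_mem ((clf LB T).neg_mem (clf LB T).one_mem) _
    set c := PowerSeries.coeff (k + 1) (PY (-Complex.log (z / 2))) with hc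
    have h6 : (-1 : ℂ) ^ (k + 1) * (-1) ^ (k + 1) = 1 := by rw [← mul_pow]; norm_num
    have h7 : Cv k z = 2 ^ k * ((cz z * (Av k z / 2 ^ k) - k * (Av (k + 1) z / 2 ^ (k + 1))) -
        (-1) ^ (k + 1) * ((c + (-1) ^ (k + 1) * (cz z * (Av k z / 2 ^ k) - k * (Av (k + 1) z / 2 ^ (k + 1)) - Cv k z / 2 ^ k)) - c)) := by
      have h8 : (2 : ℂ) ^ k ≠ 0 := pow_ne_zero _ two_ne_zero
      have h9 : (-1 : ℂ) ^ (k + 1) * ((c + (-1) ^ (k + 1) * (cz z * (Av k z / 2 ^ k) - k * (Av (k + 1) z / 2 ^ (k + 1)) - Cv k z / 2 ^ k)) - c) =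
          cz z * (Av k z / 2 ^ k) - k * (Av (k + 1) z / 2 ^ (k + 1)) - Cv k z / 2 ^ k := by
        linear_combination (cz z * (Av k z / 2 ^ k) - k * (Av (k + 1) z / 2 ^ (k + 1)) - Cv k z / 2 ^ k) * h6
      rw [h9]
      field_simp
      ring
    rw [h7]
    refine (clf LB T).mul_mem (h4 k) ((clf LB T).sub_mem ((clf LB T).sub_mem ?_ ?_) ((clf LB T).mul_mem h5
      ((clf LB T).sub_mem h2 h3)))
    · exact (clf LB T).mul_mem (hg _ p.2.2) ((clf LB T).div_mem (hA _) (h4 _))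
    · exact (clf LB T).mul_mem (natCast_mem (clf LB T) _) ((clf LB T).div_mem (hA _) (h4 _))
  · have h3 := zeta_split (hQ _ p.2.1) p.1.2
    have h4 : PS p.1.1 p.1.2 = riemannZeta p.1.1 - PT p.1.1 p.1.2 := by rw [h3]; ring
    show PS p.1.1 p.1.2 ∈ _
    rw [h4]
    exact (clf LB T).sub_mem (hL _ p.2.1) hi
  · show ((-EE p.1.1 p.1.2 : ℝ) : ℂ) ∈ _
    push_cast
    refine (clf LB T).neg_mem ?_
    refine EE_mem' (hP _ p.2.2.2).1 p.1.1 ?_ (hG _ p.2.2.2) (fun k h2 hk => hL k (hLQ k h2 (hk.trans p.2.2.1))) hi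
    push_cast
    refine E0_le_clf (E0_le_LB (exp_mem_E0 ?_))
    exact (alg_cast (hP _ p.2.2.2).2).neg

theorem tri_l (hQ : ∀ k ∈ Q, 2 ≤ k) (hLQ : ∀ k, 2 ≤ k → k ≤ L → k ∈ Q)
    (hZ : ∀ z ∈ Z, IsAlgebraic ℚ z ∧ 0 < z.re) (hP : ∀ x ∈ P, 0 < x ∧ IsAlgebraic ℚ x)
    {Y : Set ℂ} (hL : ∀ k ∈ Q, riemannZeta k ∈ clf LB Y)
    (hG : ∀ x ∈ P, ((Real.eulerMascheroniConstant + Real.log x : ℝ) : ℂ) ∈ clf LB Y)
    (hg : ∀ z ∈ Z, (Real.eulerMascheroniConstant : ℂ) + Complex.log (z / 2) ∈ clf LB Y) (i : Il Q Z X L P) :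
    ∃ D : Finset (Il Q Z X L P), i ∈ D ∧ ∀ j ∈ D, sl j ∈ clf LB (Y ∪ tl '' (D : Set (Il Q Z X L P))) := by
  refine ⟨{i}, Finset.mem_singleton_self _, ?_⟩
  intro j hj
  obtain rfl := Finset.mem_singleton.1 hj
  have hsub : Y ⊆ Y ∪ tl '' (({j} : Finset (Il Q Z X L P)) : Set (Il Q Z X L P)) := subset_union_left
  refine sl_mem hQ hLQ hZ hP (fun k hk => clf_mono hsub (hL k hk)) (fun x hx => clf_mono hsub (hG x hx))
    (fun z hz => clf_mono hsub (hg z hz)) j ?_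
  exact subset_clf _ (Or.inr ⟨j, Finset.mem_coe.2 (Finset.mem_singleton_self _), rfl⟩)

variable {τ : Type} [Fintype τ] {y : τ → ℂ}

theorem count_l (hQ : ∀ k ∈ Q, 2 ≤ k) (hLQ : ∀ k, 2 ≤ k → k ≤ L → k ∈ Q) (hX : ∀ x ∈ X, IsAlgebraic ℚ x ∧ ∀ y ∈ X, x + y ≠ 0)
    (hZ : ∀ z ∈ Z, IsAlgebraic ℚ z ∧ 0 < z.re) (hP : ∀ x ∈ P, 0 < x ∧ IsAlgebraic ℚ x)
    (hL : ∀ k ∈ Q, riemannZeta k ∈ clf LB (range y))
    (hG : ∀ x ∈ P, ((Real.eulerMascheroniConstant + Real.log x : ℝ) : ℂ) ∈ clf LB (range y))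
    (hg : ∀ z ∈ Z, (Real.eulerMascheroniConstant : ℂ) + Complex.log (z / 2) ∈ clf LB (range y)) :
    {n : τ ⊕ Il Q Z X L P | Sum.elim (fun j => IsAlgebraic LB (y j)) (fun i => IsAlgebraic LB (tl i)) n}.encard ≤
      (Fintype.card τ : ℕ∞) :=
  cnt (ai_sl hQ hX hZ hP) (tri_l hQ hLQ hZ hP hL hG hg)

theorem trdeg_l (hQ : ∀ k ∈ Q, 2 ≤ k) (hLQ : ∀ k, 2 ≤ k → k ≤ L → k ∈ Q) (hX : ∀ x ∈ X, IsAlgebraic ℚ x ∧ ∀ y ∈ X, x + y ≠ 0)
    (hZ : ∀ z ∈ Z, IsAlgebraic ℚ z ∧ 0 < z.re) (hP : ∀ x ∈ P, 0 < x ∧ IsAlgebraic ℚ x)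
    (hL : ∀ k ∈ Q, riemannZeta k ∈ clf LB (range y))
    (hG : ∀ x ∈ P, ((Real.eulerMascheroniConstant + Real.log x : ℝ) : ℂ) ∈ clf LB (range y))
    (hg : ∀ z ∈ Z, (Real.eulerMascheroniConstant : ℂ) + Complex.log (z / 2) ∈ clf LB (range y)) (A : Finset (Il Q Z X L P)) :
    (A.card : Cardinal) ≤ Algebra.trdeg LB (IntermediateField.adjoin LB
      (range y ∪ tl '' (A : Set (Il Q Z X L P)))) :=
  trdeg_of_eRk (rk_ge (ai_sl hQ hX hZ hP) (tri_l hQ hLQ hZ hP hL hG hg) A)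

end

end Pool.Agent.H18.Wd
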