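import Pool.Agent.H18.Wd.Lr2
import Pool.Agent.H18.Wd.MomC

/-!
# The iterated integrals of `K_0` in the right half plane
-/

set_option autoImplicit false
set_option linter.unusedSectionVars false

open Filter Topology Set MeasureTheory

namespace Pool.Agent.H18.Wd

open Pool.Agent.H18.Bes Pool.Agent.R352.E

section

variable {𝕜 : Type*} [RCLike 𝕜]

/-- the coefficients of the iterated integrals -/
noncomputable def It (a : ℕ → 𝕜) (k n : ℕ) : 𝕜 := if n = 0 then 0 else a n / (2 * (n : 𝕜)) ^ k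

theorem ent_It {a : ℕ → 𝕜} (h : Ent a) (k : ℕ) : Ent (It a k) := by
  refine Ent.of_le h fun n => ?_
  rw [It]
  split_ifs with hn
  · simp
  · rw [norm_div, norm_pow, norm_mul, RCLike.norm_natCast, RCLike.norm_ofNat]
    have h1 : (1 : ℝ) ≤ n := by exact_mod_cast Nat.one_le_iff_ne_zero.2 hn
    exact div_le_self (norm_nonneg _) (one_le_pow₀ (by linarith))

theorem two_It (a : ℕ → 𝕜) (k n : ℕ) : 2 * ((n : 𝕜) * It a (k + 1) n) = It a k n := by
  rw [It, It]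
  split_ifs with hn
  · simp
  · have h1 : (n : 𝕜) ≠ 0 := by exact_mod_cast hn
    rw [pow_succ]
    field_simp

/-- the iterated integrals -/
noncomputable def Gr (a : ℕ → 𝕜) (k : ℕ) (z : 𝕜) : 𝕜 := sr (It a k) z

theorem Gr_zero (a : ℕ → 𝕜) (k : ℕ) : Gr a k 0 = 0 := by
  rw [Gr, sr_zero, It, if_pos rfl]

theorem sq_deriv' (z : 𝕜) : HasDerivAt (fun z : 𝕜 => z ^ 2 / 4) (z / 2) z := by
  refine ((hasDerivAt_pow 2 z).div_const 4).congr_deriv ?_
  push_cast
  ring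

theorem Gr_deriv {a : ℕ → 𝕜} (h : Ent a) (k : ℕ) {z : 𝕜} (hz : z ≠ 0) :
    HasDerivAt (fun z => Gr a (k + 1) (z ^ 2 / 4)) (Gr a k (z ^ 2 / 4) / z) z := by
  refine ((sr_hasDerivAt (ent_It h (k + 1)) (z ^ 2 / 4)).comp z (sq_deriv' z)).congr_deriv ?_
  have h1 := mul_sr_dc (ent_It h (k + 1)) (z ^ 2 / 4)
  have h2 : 2 * sr (fun n => (n : 𝕜) * It a (k + 1) n) (z ^ 2 / 4) = Gr a k (z ^ 2 / 4) := by
    rw [Gr, sr, sr, ← tsum_mul_left]
    refine tsum_congr fun n => ?_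
    rw [← two_It a k n]
    ring
  rw [← h2, ← h1]
  field_simp
  ring

theorem Gr_a1_zero (z : 𝕜) : Gr (a1 𝕜) 0 z = Fk 𝕜 z - 1 := by
  rw [eq_sub_iff_add_eq, Gr, Fk, sr, sr, (ent_a1.summable z).tsum_eq_zero_add, ((ent_It ent_a1 0).summable z).tsum_eq_zero_add, It,
    if_pos rfl, zero_mul, zero_add, pow_zero, mul_one, a1, Nat.factorial_zero, Nat.cast_one, one_pow, div_one, add_comm]
  congr 1
  refine tsum_congr fun n => ?_
  rw [It, if_neg (Nat.succ_ne_zero n), pow_zero, div_one]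

theorem Gr_a2_zero (z : 𝕜) : Gr (a2 𝕜) 0 z = Sk 𝕜 z := by
  rw [Gr, Sk, sr, sr]
  refine tsum_congr fun n => ?_
  rw [It]
  split_ifs with h
  · subst h
    rw [a2]
    simp
  · rw [pow_zero, div_one]

end

theorem Gr_real {a : ℕ → ℝ} {b : ℕ → ℂ} (h : ∀ n, b n = ((a n : ℝ) : ℂ)) (k : ℕ) (x : ℝ) : Gr b k (x : ℂ) = ((Gr a k x : ℝ) : ℂ) := by
  rw [Gr, Gr, sr, sr, Complex.ofReal_tsum]
  refine tsum_congr fun n => ?_
  rw [It, It]
  split_ifs
  · simp
  · rw [h n]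
    push_cast
    rfl

theorem a1_real (n : ℕ) : a1 ℂ n = ((a1 ℝ n : ℝ) : ℂ) := by
  rw [a1, a1]
  push_cast
  rfl

theorem a2_real (n : ℕ) : a2 ℂ n = ((a2 ℝ n : ℝ) : ℂ) := by
  rw [a2, a2]
  push_cast
  rfl

/-! ### The explicit functions -/

open PowerSeries in
/-- `exp(c s) Γ(1 + s / 2)^2` -/
noncomputable def PY (c : ℂ) : ℂ⟦X⟧ :=
  PowerSeries.mk (fun n => c ^ n / (n.factorial : ℂ)) * PowerSeries.map Complex.ofRealHom (PH * PH)

open PowerSeries in
theorem coeff_PY_succ (n : ℕ) (c : ℂ) : coeff (n + 1) (PY c) = coeff (n + 1) (PowerSeries.map Complex.ofRealHom (PH * PH)) +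
    ∑ p ∈ Finset.HasAntidiagonal.antidiagonal n, c ^ (p.1 + 1) / ((p.1 + 1).factorial : ℂ) *
      coeff p.2 (PowerSeries.map Complex.ofRealHom (PH * PH)) := by
  rw [PY, coeff_mul, Finset.Nat.sum_antidiagonal_succ]
  simp only [coeff_mk, pow_zero, Nat.factorial_zero, Nat.cast_one, div_one, one_mul]

open PowerSeries in
theorem PY_deriv (n : ℕ) {c : ℂ → ℂ} {c' z : ℂ} (hc : HasDerivAt c c' z) :
    HasDerivAt (fun z => coeff (n + 1) (PY (c z))) (c' * coeff n (PY (c z))) z := by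
  simp only [coeff_PY_succ]
  have h1 : HasDerivAt (fun z => ∑ p ∈ Finset.HasAntidiagonal.antidiagonal n, c z ^ (p.1 + 1) / ((p.1 + 1).factorial : ℂ) *
      coeff p.2 (PowerSeries.map Complex.ofRealHom (PH * PH))) (∑ p ∈ Finset.HasAntidiagonal.antidiagonal n,
        (((p.1 + 1 : ℕ) : ℂ) * c z ^ p.1 * c') / ((p.1 + 1).factorial : ℂ) *
        coeff p.2 (PowerSeries.map Complex.ofRealHom (PH * PH))) z := by
    refine HasDerivAt.fun_sum fun p _ => ?_
    have := ((hc.pow (p.1 + 1)).div_const ((p.1 + 1).factorial : ℂ)).mul_const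
      (coeff p.2 (PowerSeries.map Complex.ofRealHom (PH * PH)))
    rwa [Nat.add_sub_cancel] at this
  refine (h1.const_add _).congr_deriv ?_
  rw [PY, coeff_mul, Finset.mul_sum]
  refine Finset.sum_congr rfl fun p _ => ?_
  rw [coeff_mk, Nat.factorial_succ]
  have h2 : ((p.1 : ℂ) + 1) ≠ 0 := by exact_mod_cast Nat.succ_ne_zero p.1
  have h3 : (p.1.factorial : ℂ) ≠ 0 := by exact_mod_cast p.1.factorial_ne_zero
  push_cast
  field_simp

/-- `γ + log (z / 2)` -/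
noncomputable def cz (z : ℂ) : ℂ := Real.eulerMascheroniConstant + Complex.log (z / 2)

open PowerSeries in
/-- the functions `L_k` -/
noncomputable def Nc (k : ℕ) (z : ℂ) : ℂ := coeff (k + 1) (PY (-Complex.log (z / 2))) +
  (-1) ^ (k + 1) * (cz z * Gr (a1 ℂ) k (z ^ 2 / 4) - k * Gr (a1 ℂ) (k + 1) (z ^ 2 / 4) - Gr (a2 ℂ) k (z ^ 2 / 4))

theorem log_half_deriv {z : ℂ} (hz : z / 2 ∈ Complex.slitPlane) : HasDerivAt (fun z : ℂ => Complex.log (z / 2)) (1 / z) z := by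
  have h0 : z ≠ 0 := by
    rintro rfl
    rw [zero_div] at hz
    exact Complex.zero_notMem_slitPlane hz
  have h1 : HasDerivAt (fun z : ℂ => z / 2) (1 / 2) z := (hasDerivAt_id z).div_const 2
  refine (h1.clog hz).congr_deriv ?_
  field_simp

open PowerSeries in
theorem Nc_deriv (k : ℕ) {z : ℂ} (hz : z / 2 ∈ Complex.slitPlane) : HasDerivAt (Nc (k + 1)) (-(Nc k z / z)) z := by
  have h0 : z ≠ 0 := by
    rintro rfl
    rw [zero_div] at hz
    exact Complex.zero_notMem_slitPlane hz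
  have hl := log_half_deriv hz
  have hn : HasDerivAt (fun z : ℂ => -Complex.log (z / 2)) (-(1 / z)) z := hl.neg
  have h1 := PY_deriv (k + 1) hn
  have h2 := (hl.const_add (Real.eulerMascheroniConstant : ℂ)).mul (Gr_deriv (ent_a1 (𝕜 := ℂ)) k h0)
  have h3 := (Gr_deriv (ent_a1 (𝕜 := ℂ)) (k + 1) h0).const_mul ((k + 1 : ℕ) : ℂ)
  have h4 := Gr_deriv (ent_a2 (𝕜 := ℂ)) k h0
  refine (h1.add (((h2.sub h3).sub h4).const_mul ((-1) ^ (k + 1 + 1)))).congr_deriv ?_
  rw [Nc, cz]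
  push_cast
  field_simp
  ring

open PowerSeries in
theorem PH2_zero : coeff 0 (PH * PH) = 1 := by
  rw [coeff_mul]
  simp [PH, mo0]

open PowerSeries in
theorem PH2_one : coeff (0 + 1) (PH * PH) = -Real.eulerMascheroniConstant := by
  rw [coeff_mul, Finset.Nat.sum_antidiagonal_succ]
  simp [PH, mo0, mo1]

open PowerSeries in
theorem coeff_PY_zero (c : ℂ) : coeff 0 (PY c) = 1 := by
  rw [PY, coeff_mul]
  simp only [Finset.Nat.antidiagonal_zero, Finset.sum_singleton, coeff_mk, pow_zero, Nat.factorial_zero, Nat.cast_one, div_one,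
    one_mul]
  rw [coeff_map, PH2_zero, map_one]

open PowerSeries in
theorem Nc_zero (z : ℂ) : Nc 0 z = ks z := by
  have h1 : coeff (0 + 1) (PY (-Complex.log (z / 2))) = -Complex.log (z / 2) - Real.eulerMascheroniConstant := by
    rw [coeff_PY_succ, coeff_map, PH2_one]
    simp only [Finset.Nat.antidiagonal_zero, Finset.sum_singleton]
    rw [coeff_map, PH2_zero]
    simp
    ring
  rw [Nc, h1, ks, Gr_a1_zero, Gr_a2_zero, cz, I0_eq, HS_eq]
  push_cast
  ring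

/-- the real functions -/
noncomputable def Nr (k : ℕ) (x : ℝ) : ℝ := PowerSeries.coeff (k + 1) (PE (-Real.log (x / 2)) * (PH * PH)) +
  (-1) ^ (k + 1) * ((Real.eulerMascheroniConstant + Real.log (x / 2)) * Gr (a1 ℝ) k (x ^ 2 / 4) -
    k * Gr (a1 ℝ) (k + 1) (x ^ 2 / 4) - Gr (a2 ℝ) k (x ^ 2 / 4))

open PowerSeries in
theorem Nc_real (k : ℕ) {x : ℝ} (hx : 0 < x) : Nc k (x : ℂ) = ((Nr k x : ℝ) : ℂ) := by
  have h1 : PY (-Complex.log ((x : ℂ) / 2)) = PowerSeries.map Complex.ofRealHom (PE (-Real.log (x / 2)) * (PH * PH)) := by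
    rw [PY, map_mul (PowerSeries.map Complex.ofRealHom) (PE (-Real.log (x / 2)))]
    congr 1
    ext n
    rw [coeff_mk, coeff_map, PE, coeff_mk, log_half_real hx]
    simp
  have h2 : (x : ℂ) ^ 2 / 4 = ((x ^ 2 / 4 : ℝ) : ℂ) := by push_cast; rfl
  rw [Nc, Nr, h1, coeff_map, cz, h2, Gr_real a1_real, Gr_real a1_real, Gr_real a2_real, log_half_real hx]
  push_cast
  rfl

theorem Nr_deriv (k : ℕ) {x : ℝ} (hx : 0 < x) : HasDerivAt (Nr (k + 1)) (-(Nr k x / x)) x := by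
  have h1 := (Nc_deriv k (z := (x : ℂ)) (half_mem (by rwa [Complex.ofReal_re]))).real_of_complex
  have h2 : (-(Nc k (x : ℂ) / (x : ℂ))).re = -(Nr k x / x) := by
    rw [Nc_real k hx]
    norm_cast
  rw [h2] at h1
  refine h1.congr_of_eventuallyEq ?_
  filter_upwards [lt_mem_nhds hx] with y hy
  rw [Nc_real _ hy, Complex.ofReal_re]

/-! ### The identity on the positive real axis -/

theorem Gr_tendsto {a : ℕ → ℝ} (h : Ent a) (k : ℕ) : Tendsto (fun x : ℝ => Gr a k (x ^ 2 / 4)) (𝓝[>] 0) (𝓝 0) := by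
  have h1 := ((sr_hasDerivAt (ent_It h k) (0 : ℝ)).continuousAt.tendsto).comp (tendsto_sq.mono_right nhdsWithin_le_nhds)
  have h2 : sr (It a k) 0 = 0 := Gr_zero a k
  rw [h2] at h1
  exact h1

theorem Nr_zero (k : ℕ) : Tendsto (fun x => Pn (k + 1) x - Nr k x) (𝓝[>] 0) (𝓝 0) := by
  have h1 := log_pow_tendsto 1 (g := Gr (a1 ℝ) k) (sr_hasDerivAt (ent_It ent_a1 k) (0 : ℝ)) (Gr_zero _ _)
  have h2 := (Gr_tendsto (ent_a1 (𝕜 := ℝ)) k).const_mul Real.eulerMascheroniConstant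
  have h3 := (Gr_tendsto (ent_a1 (𝕜 := ℝ)) (k + 1)).const_mul (k : ℝ)
  have h4 := Gr_tendsto (ent_a2 (𝕜 := ℝ)) k
  have h5 := ((((h2.add h1).sub h3).sub h4).const_mul (-(-1) ^ (k + 1)))
  simp only [mul_zero, add_zero, sub_zero] at h5
  refine h5.congr' ?_
  filter_upwards [self_mem_nhdsWithin] with x hx
  have hx' : (0 : ℝ) < x := hx
  rw [Pn_eq _ hx', Nr, pow_one]
  ring

theorem Fn_eq (k : ℕ) : ∀ x, 0 < x → Fn (k + 1) x = Nr k x := by
  induction k with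
  | zero =>
    intro x hx
    have h1 := kr0_eq hx
    have h2 := Nc_real 0 hx
    rw [Nc_zero, ← kn_eq (by rwa [Complex.ofReal_re]), kn_real] at h2
    rw [zero_add, Fn_one hx]
    exact_mod_cast h2
  | succ k ih =>
    intro x hx
    refine sub_eq_zero.1 (zero_of_deriv (F := fun x => Fn (k + 2) x - Nr (k + 1) x) (fun y hy => ?_) ?_ hx)
    · have h1 := (Fn_deriv k hy).sub (Nr_deriv k hy)
      refine h1.congr_deriv ?_
      rw [ih y hy, sub_self]
    · have h1 := (Fn_zero (k + 2)).add (Nr_zero (k + 1))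
      rw [add_zero] at h1
      refine h1.congr fun x => ?_
      ring

theorem Nr_atTop (k : ℕ) : Tendsto (Nr k) atTop (𝓝 0) := by
  refine (Fn_atTop k).congr' ?_
  filter_upwards [eventually_gt_atTop 0] with x hx
  exact Fn_eq k x hx

end Pool.Agent.H18.Wd
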