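import Pool.Agent.H18.Bes.AI
import Pool.Agent.H18.Bes.Sys

/-!
# Iterated integrals of general forms: linear independence over a differential field
-/

set_option autoImplicit false
set_option linter.unusedSectionVars false

open PowerSeries
open scoped Differential

namespace Pool.Agent.H18.Wd

open Pool.Agent.N902.EW Pool.Agent.H18.Bes

variable {K : Type*} [Field K] [CharZero K] {Λ : Type*} (u : Λ → K⟦X⟧)

/-- the forms; `none` is the form `dX / X` -/
noncomputable def lt : Option Λ → K⟦X⟧
  | none => 1
  | some x => u x

/-- the iterated integral of a word -/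
noncomputable def U : List (Option Λ) → K⟦X⟧
  | [] => 1
  | a :: v => ig (lt u a * U v)

/-- the words whose last letter is not `none` -/
def Adm : List (Option Λ) → Prop
  | [] => True
  | a :: v => Adm v ∧ (v = [] → a ≠ none)

variable {u}

theorem U_nil : U u ([] : List (Option Λ)) = 1 := rfl

theorem U_cons (a : Option Λ) (v : List (Option Λ)) : U u (a :: v) = ig (lt u a * U u v) := rfl

theorem coeff_zero_U {w : List (Option Λ)} (h : w ≠ []) : coeff 0 (U u w) = 0 := by
  rcases w with _ | ⟨a, v⟩
  · exact absurd rfl h
  · rw [U_cons, coeff_zero_ig]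

theorem Adm.tail {a : Option Λ} {v : List (Option Λ)} (h : Adm (a :: v)) : Adm v := h.1

theorem adm_cons {a : Option Λ} {v : List (Option Λ)} (h : Adm v) (hv : v ≠ []) : Adm (a :: v) :=
  ⟨h, fun h' => absurd h' hv⟩

theorem adm_some (x : Λ) {v : List (Option Λ)} (h : Adm v) : Adm (some x :: v) := ⟨h, fun _ h' => by cases h'⟩

theorem coeff_zero_mul {f g : K⟦X⟧} (h : coeff 0 f = 0 ∨ coeff 0 g = 0) : coeff 0 (f * g) = 0 := by
  rw [coeff_zero_eq_constantCoeff_apply, map_mul, ← coeff_zero_eq_constantCoeff_apply,
    ← coeff_zero_eq_constantCoeff_apply]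
  rcases h with h | h
  · rw [h, zero_mul]
  · rw [h, mul_zero]

theorem coeff_zero_lt_mul_U (hu : ∀ x, coeff 0 (u x) = 0) {a : Option Λ} {v : List (Option Λ)} (h : Adm (a :: v)) :
    coeff 0 (lt u a * U u v) = 0 := by
  rcases a with _ | x
  · refine coeff_zero_mul (Or.inr (coeff_zero_U fun hv => ?_))
    exact h.2 hv rfl
  · exact coeff_zero_mul (Or.inl (hu x))

theorem th_U_cons (hu : ∀ x, coeff 0 (u x) = 0) {a : Option Λ} {v : List (Option Λ)} (h : Adm (a :: v)) :
    th (U u (a :: v)) = lt u a * U u v := by
  rw [U_cons, th_ig (coeff_zero_lt_mul_U hu h)]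

/-! ### Linear independence -/

/-- the function given by coefficients -/
noncomputable def Ph (u : Λ → K⟦X⟧) (g : List (Option Λ) →₀ LF K) : LF K := g.sum fun w c => c * ps (U u w)

theorem Ph_add (g h : List (Option Λ) →₀ LF K) : Ph u (g + h) = Ph u g + Ph u h :=
  Finsupp.sum_add_index' (fun _ => zero_mul _) fun _ _ _ => add_mul _ _ _

theorem Ph_single (w : List (Option Λ)) (c : LF K) : Ph u (Finsupp.single w c) = c * ps (U u w) :=
  Finsupp.sum_single_index (zero_mul _)

theorem Ph_zero : Ph u (0 : List (Option Λ) →₀ LF K) = 0 := Finsupp.sum_zero_index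

/-- the removal of the first letter with the coefficient -/
noncomputable def hd (u : Λ → K⟦X⟧) : List (Option Λ) → LF K → (List (Option Λ) →₀ LF K)
  | [], _ => 0
  | a :: v, c => Finsupp.single v (c * ps (lt u a))

theorem hd_zero (w : List (Option Λ)) : hd u w (0 : LF K) = 0 := by
  rcases w with _ | ⟨a, v⟩
  · rfl
  · rw [hd, zero_mul, Finsupp.single_zero]

theorem hd_add (w : List (Option Λ)) (c d : LF K) : hd u w (c + d) = hd u w c + hd u w d := by
  rcases w with _ | ⟨a, v⟩
  · rw [hd, hd, hd, add_zero]
  · rw [hd, hd, hd, add_mul, Finsupp.single_add]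

/-- the coefficients of the derivative -/
noncomputable def dg (u : Λ → K⟦X⟧) (g : List (Option Λ) →₀ LF K) : List (Option Λ) →₀ LF K :=
  g.sum fun w c => Finsupp.single w (c′) + hd u w c

theorem dg_add (g h : List (Option Λ) →₀ LF K) : dg u (g + h) = dg u g + dg u h :=
  Finsupp.sum_add_index' (fun w => by rw [map_zero, Finsupp.single_zero, hd_zero, add_zero]) fun w c d => by
    rw [map_add, Finsupp.single_add, hd_add]; abel

theorem dg_single (w : List (Option Λ)) (c : LF K) : dg u (Finsupp.single w c) = Finsupp.single w (c′) + hd u w c :=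
  Finsupp.sum_single_index (by rw [map_zero, Finsupp.single_zero, hd_zero, add_zero])

theorem Ph_dg (hu : ∀ x, coeff 0 (u x) = 0) (g : List (Option Λ) →₀ LF K) (hg : ∀ w, g w ≠ 0 → Adm w) :
    Ph u (dg u g) = (Ph u g)′ := by
  classical
  induction g using Finsupp.induction with
  | zero =>
    have : dg u (0 : List (Option Λ) →₀ LF K) = 0 := Finsupp.sum_zero_index
    rw [this, Ph_zero, map_zero]
  | single_add w c g hw hc ih =>
    have hw' : Adm w := hg w (by
      rw [Finsupp.add_apply, Finsupp.single_eq_same, Finsupp.notMem_support_iff.1 hw, add_zero]; exact hc)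
    have hg' : ∀ w', g w' ≠ 0 → Adm w' := fun w' hw' => hg w' (by
      have : w ≠ w' := fun e => hw' (by rw [← e]; exact Finsupp.notMem_support_iff.1 hw)
      rw [Finsupp.add_apply, Finsupp.single_eq_of_ne (Ne.symm this), zero_add]; exact hw')
    rw [dg_add, Ph_add, Ph_add, map_add, ih hg', dg_single, Ph_add, Ph_single, Ph_single, Derivation.leibniz, ps_th]
    congr 1
    rw [smul_eq_mul, smul_eq_mul]
    rcases w with _ | ⟨a, v⟩
    · have h1 : th (U u ([] : List (Option Λ))) = 0 := by
        ext n
        rw [coeff_th, U_nil, coeff_one, map_zero]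
        split_ifs with h
        · rw [h]; simp
        · simp
      rw [hd, Ph_zero, h1, map_zero, mul_zero]
      ring
    · rw [hd, Ph_single, th_U_cons hu hw', map_mul]
      ring

theorem dg_apply (g : List (Option Λ) →₀ LF K) (w : List (Option Λ)) (s : Finset (Option Λ))
    (hs : ∀ a, g (a :: w) ≠ 0 → a ∈ s) :
    dg u g w = (g w)′ + ∑ a ∈ s, g (a :: w) * ps (lt u a) := by
  classical
  rw [dg, Finsupp.sum, Finsupp.finsetSum_apply]
  simp only [Finsupp.add_apply]
  rw [Finset.sum_add_distrib]
  congr 1
  · by_cases hw : w ∈ g.support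
    · rw [Finset.sum_eq_single w]
      · rw [Finsupp.single_eq_same]
      · intro w' _ hne
        rw [Finsupp.single_eq_of_ne (Ne.symm hne)]
      · intro h; exact absurd hw h
    · rw [Finsupp.notMem_support_iff.1 hw, map_zero]
      refine Finset.sum_eq_zero fun w' hw' => ?_
      rw [Finsupp.single_eq_of_ne]
      rintro rfl
      exact hw hw'
  · have hF : ∀ a, g (a :: w) * ps (lt u a) = (hd u (a :: w) (g (a :: w))) w := fun a => by
      rw [hd, Finsupp.single_eq_same]
    rw [Finset.sum_congr rfl fun a _ => hF a]
    have hinj : Function.Injective fun a : Option Λ => a :: w := fun a b h => (List.cons.inj h).1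
    rw [← Finset.sum_image (f := fun w' => (hd u w' (g w')) w) (s := s) (g := fun a => a :: w) (hinj.injOn)]
    refine Finset.sum_congr_of_eq_on_inter ?_ ?_ ?_
    · intro w' hw' hnot
      rcases w' with _ | ⟨a, v⟩
      · rw [hd]; rfl
      · rw [hd]
        by_cases hvw : v = w
        · subst hvw
          exact absurd (Finset.mem_image_of_mem _ (hs a (Finsupp.mem_support_iff.1 hw'))) hnot
        · rw [Finsupp.single_eq_of_ne (Ne.symm hvw)]
    · intro w' _ hnot
      rw [Finsupp.notMem_support_iff.1 hnot, hd_zero]; rfl
    · intro w' _ _; rfl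

/-- the condition on the forms -/
def HC (C : Subfield (LF K)) (u : Λ → K⟦X⟧) : Prop := ∀ (s : Finset (Option Λ)) (c : Option Λ → K), ∀ g ∈ C,
  g′ = ∑ a ∈ s, cc (c a) * ps (lt u a) → ∀ a ∈ s, c a = 0

theorem Ph_inj {C : Subfield (LF K)} (hC : St C) (huC : ∀ x, ps (u x) ∈ C) (hu : ∀ x, coeff 0 (u x) = 0) (H : HC C u) :
    ∀ (N : ℕ) (g : List (Option Λ) →₀ LF K), (∀ w, g w ∈ C) → (∀ w, g w ≠ 0 → Adm w ∧ w.length ≤ N) → Ph u g = 0 →
      g = 0 := by
  classical
  have hlt : ∀ a, ps (lt u a) ∈ C := by
    rintro (_ | x)
    · rw [lt, map_one]; exact C.one_mem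
    · exact huC x
  intro N
  induction N with
  | zero =>
    intro g _ hg h0
    have h1 : g = Finsupp.single [] (g []) := by
      ext w
      by_cases hw : w = []
      · rw [hw, Finsupp.single_eq_same]
      · rw [Finsupp.single_eq_of_ne hw]
        by_contra h2
        exact hw (List.length_eq_zero_iff.1 (Nat.le_zero.1 (hg w h2).2))
    rw [h1, Ph_single, U_nil, map_one, mul_one] at h0
    rw [h1, h0, Finsupp.single_zero]
  | succ N ih =>
    have main : ∀ (n : ℕ) (g : List (Option Λ) →₀ LF K), (g.support.filter fun w => w.length = N + 1).card ≤ n →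
        (∀ w, g w ∈ C) → (∀ w, g w ≠ 0 → Adm w ∧ w.length ≤ N + 1) → Ph u g = 0 → g = 0 := by
      intro n
      induction n with
      | zero =>
        intro g hn hgC hg h0
        refine ih g hgC (fun w hw => ⟨(hg w hw).1, ?_⟩) h0
        have h1 := (hg w hw).2
        by_contra h2
        have h3 : w ∈ g.support.filter fun w => w.length = N + 1 :=
          Finset.mem_filter.2 ⟨Finsupp.mem_support_iff.2 hw, by omega⟩
        rw [Nat.le_zero, Finset.card_eq_zero] at hn
        rw [hn] at h3
        exact Finset.notMem_empty _ h3
      | succ n ihn =>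
        intro g hn hgC hg h0
        by_cases hcase : (g.support.filter fun w => w.length = N + 1).card ≤ n
        · exact ihn g hcase hgC hg h0
        exfalso
        have hne : (g.support.filter fun w => w.length = N + 1).Nonempty := by
          rw [← Finset.card_pos]; omega
        obtain ⟨w0, hw0⟩ := hne
        obtain ⟨hw0s, hw0l⟩ := Finset.mem_filter.1 hw0
        have hgw0 := Finsupp.mem_support_iff.1 hw0s
        set b := (g w0)⁻¹ with hb
        have hbC : b ∈ C := C.inv_mem (hgC w0)
        have hb0 : b ≠ 0 := inv_ne_zero hgw0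
        set k : List (Option Λ) →₀ LF K := g.mapRange (fun c => b * c) (mul_zero b) with hk
        have hkw : ∀ w, k w = b * g w := fun w => Finsupp.mapRange_apply
        have hks : k.support = g.support := by
          ext w
          rw [Finsupp.mem_support_iff, Finsupp.mem_support_iff, hkw]
          simp [hb0]
        have hk0 : k w0 = 1 := by rw [hkw, hb, inv_mul_cancel₀ hgw0]
        have hkC : ∀ w, k w ∈ C := fun w => by rw [hkw]; exact C.mul_mem hbC (hgC w)
        have hkg : ∀ w, k w ≠ 0 → Adm w ∧ w.length ≤ N + 1 := fun w hw => hg w fun h => hw (by rw [hkw, h, mul_zero])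
        have hkP : Ph u k = 0 := by
          have : Ph u k = b * Ph u g := by
            rw [Ph, Ph, Finsupp.sum, Finsupp.sum, hks, Finset.mul_sum]
            refine Finset.sum_congr rfl fun w _ => ?_
            rw [hkw]; ring
          rw [this, h0, mul_zero]
        set s : Finset (Option Λ) := k.support.biUnion fun w => w.toFinset with hs
        have hsk : ∀ (w : List (Option Λ)) a, k (a :: w) ≠ 0 → a ∈ s := fun w a h =>
          Finset.mem_biUnion.2 ⟨a :: w, Finsupp.mem_support_iff.2 h, by simp⟩
        have hdg : ∀ w, dg u k w = (k w)′ + ∑ a ∈ s, k (a :: w) * ps (lt u a) := fun w => dg_apply k w s (hsk w)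
        have hlong : ∀ w : List (Option Λ), N + 1 ≤ w.length → ∀ a, k (a :: w) = 0 := by
          intro w hw a
          by_contra h
          have := (hkg _ h).2
          rw [List.length_cons] at this
          omega
        have hdl : ∀ w : List (Option Λ), N + 1 ≤ w.length → dg u k w = (k w)′ := by
          intro w hw
          rw [hdg, Finset.sum_eq_zero fun a _ => by rw [hlong w hw a, zero_mul], add_zero]
        have hd0 : dg u k = 0 := by
          refine ihn (dg u k) ?_ ?_ ?_ ?_
          · have hsub : ((dg u k).support.filter fun w => w.length = N + 1) ⊆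
                (g.support.filter fun w => w.length = N + 1).erase w0 := by
              intro w hw
              obtain ⟨h1, h2⟩ := Finset.mem_filter.1 hw
              have h3 := Finsupp.mem_support_iff.1 h1
              rw [hdl w (by omega)] at h3
              refine Finset.mem_erase.2 ⟨?_, Finset.mem_filter.2 ⟨?_, h2⟩⟩
              · rintro rfl
                rw [hk0, Derivation.map_one_eq_zero] at h3
                exact h3 rfl
              · rw [← hks, Finsupp.mem_support_iff]
                intro h4
                rw [h4, map_zero] at h3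
                exact h3 rfl
            have h4 := Finset.card_le_card hsub
            rw [Finset.card_erase_of_mem hw0] at h4
            omega
          · intro w
            rw [hdg]
            exact C.add_mem (hC _ (hkC w)) (C.sum_mem fun a _ => C.mul_mem (hkC _) (hlt a))
          · intro w hw
            by_cases h1 : k w = 0
            · rw [hdg, h1, map_zero, zero_add] at hw
              obtain ⟨a, _, ha⟩ := Finset.exists_ne_zero_of_sum_ne_zero hw
              have h2 := hkg (a :: w) fun h => ha (by rw [h, zero_mul])
              refine ⟨h2.1.1, ?_⟩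
              have := h2.2
              rw [List.length_cons] at this
              omega
            · exact hkg w h1
          · rw [Ph_dg hu k fun w hw => (hkg w hw).1, hkP, map_zero]
        -- the coefficients of the longest words are constants
        have hconst : ∀ w : List (Option Λ), N + 1 ≤ w.length → ∃ c : K, k w = cc c := by
          intro w hw
          have h1 : (k w)′ = 0 := by
            rw [← hdl w hw, hd0]; rfl
          obtain ⟨c, hc⟩ := const_iff h1
          exact ⟨c, hc⟩
        rcases w0 with _ | ⟨a0, v⟩
        · simp at hw0l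
        rw [List.length_cons] at hw0l
        choose c hc using fun a => hconst (a :: v) (by rw [List.length_cons]; omega)
        have h1 : dg u k v = 0 := by rw [hd0]; rfl
        rw [hdg] at h1
        have h2 := H s c (-k v) (C.neg_mem (hkC v)) (by
          rw [map_neg]
          rw [Finset.sum_congr rfl fun a _ => by rw [hc a]] at h1
          linear_combination -h1) a0 (hsk v a0 (by rw [hk0]; exact one_ne_zero))
        have h3 := hc a0
        rw [hk0, h2, map_zero] at h3
        exact one_ne_zero h3
    intro g hgC hg h0
    exact main _ g le_rfl hgC hg h0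

/-- **linear independence over the differential field** -/
theorem LI_C {C : Subfield (LF K)} (hC : St C) (huC : ∀ x, ps (u x) ∈ C) (hu : ∀ x, coeff 0 (u x) = 0) (H : HC C u) :
    LinearIndependent C (fun w : {w : List (Option Λ) // Adm w} => ps (U u w.1)) := by
  classical
  rw [linearIndependent_iff']
  intro s g h x hx
  set G : List (Option Λ) →₀ LF K := ∑ y ∈ s, Finsupp.single y.1 (g y : LF K) with hG
  have hGw : ∀ w, G w = ∑ y ∈ s, Finsupp.single y.1 (g y : LF K) w := fun w => by rw [hG, Finsupp.finsetSum_apply]
  have h1 : Ph u G = 0 := by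
    have : ∀ t : Finset {w : List (Option Λ) // Adm w}, Ph u (∑ y ∈ t, Finsupp.single y.1 (g y : LF K)) =
        ∑ y ∈ t, g y • ps (U u y.1) := by
      intro t
      induction t using Finset.induction_on with
      | empty => rw [Finset.sum_empty, Finset.sum_empty, Ph_zero]
      | insert a t ha ih => rw [Finset.sum_insert ha, Finset.sum_insert ha, Ph_add, ih, Ph_single]; rfl
    rw [hG, this s, h]
  have h2 : G = 0 := by
    refine Ph_inj hC huC hu H (s.sup fun y => y.1.length) G (fun w => ?_) (fun w hw => ?_) h1
    · rw [hGw]
      refine C.sum_mem fun y _ => ?_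
      by_cases hy : y.1 = w
      · rw [hy, Finsupp.single_eq_same]; exact (g y).2
      · rw [Finsupp.single_eq_of_ne (Ne.symm hy)]; exact C.zero_mem
    · rw [hGw] at hw
      obtain ⟨y, hy, hne⟩ := Finset.exists_ne_zero_of_sum_ne_zero hw
      have hyw : y.1 = w := by
        by_contra hyw
        exact hne (Finsupp.single_eq_of_ne (Ne.symm hyw))
      rw [← hyw]
      exact ⟨y.2, Finset.le_sup (f := fun y : {w : List (Option Λ) // Adm w} => y.1.length) hy⟩
  have h3 : G x.1 = 0 := by rw [h2]; rfl
  rw [hGw, Finset.sum_eq_single x] at h3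
  · rw [Finsupp.single_eq_same] at h3
    exact Subtype.ext h3
  · intro y _ hyx
    rw [Finsupp.single_eq_of_ne]
    exact fun h => hyx (Subtype.ext h.symm)
  · intro h; exact absurd hx h

end Pool.Agent.H18.Wd
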