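import Pool.Agent.H18.Wd.MomEq

/-!
# The iterated integrals of `K_0` on the positive real axis: the double integrals
-/

set_option autoImplicit false
set_option linter.unusedSectionVars false

open Filter Topology Set MeasureTheory

namespace Pool.Agent.H18.Wd

open Pool.Agent.H18.Bes Pool.Agent.R352.E

/-- the measure -/
noncomputable def Qm : Measure (ℝ × ℝ) := (volume.restrict (Ioi (0 : ℝ))).prod (volume.restrict (Ioi (0 : ℝ)))

/-- the weight -/
noncomputable def wt (p : ℝ × ℝ) : ℝ := Real.exp (-p.1) * Real.exp (-p.2)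

/-- the logarithm of `2 √(t y)` -/
noncomputable def Vl (p : ℝ × ℝ) : ℝ := Real.log 2 + (Real.log p.1 / 2 + Real.log p.2 / 2)

theorem wt_pos (p : ℝ × ℝ) : 0 < wt p := mul_pos (Real.exp_pos _) (Real.exp_pos _)

theorem measurable_Vl : Measurable Vl := by
  unfold Vl
  exact measurable_const.add (((Real.measurable_log.comp measurable_fst).div_const 2).add
    ((Real.measurable_log.comp measurable_snd).div_const 2))

theorem measurable_wt : Measurable wt := by
  unfold wt
  fun_prop

theorem log_int (c : ℝ) (n : ℕ) : IntegrableOn (fun t : ℝ => Real.exp (-t) * (c + Real.log t / 2) ^ n) (Ioi 0) := by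
  have h1 : Integrable (fun v : ℝ => ∑ i ∈ Finset.range (n + 1), ((n.choose i : ℝ) * c ^ i * (1 / 2) ^ (n - i)) * fr (n - i) v)
      (volume.restrict (Ioi 0)) := integrable_finsetSum _ fun i _ => (fr_integrable (n - i)).const_mul _
  refine h1.congr (Eventually.of_forall fun v => ?_)
  show _ = Real.exp (-v) * (c + Real.log v / 2) ^ n
  rw [add_pow, Finset.mul_sum]
  refine Finset.sum_congr rfl fun i _ => ?_
  rw [fr, div_eq_mul_one_div (Real.log v) 2, mul_pow]
  ring

/-- integrability of polynomials of the logarithm -/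
theorem Vl_int (c : ℝ) (n : ℕ) : Integrable (fun p => wt p * (Vl p - c) ^ n) Qm := by
  have h1 : Integrable (fun p : ℝ × ℝ => ∑ i ∈ Finset.range (n + 1), (n.choose i : ℝ) *
      ((Real.exp (-p.1) * ((Real.log 2 - c) + Real.log p.1 / 2) ^ i) * (Real.exp (-p.2) * (0 + Real.log p.2 / 2) ^ (n - i)))) Qm := by
    refine integrable_finsetSum _ fun i _ => Integrable.const_mul ?_ _
    exact (log_int (Real.log 2 - c) i).mul_prod (log_int 0 (n - i))
  refine h1.congr (Eventually.of_forall fun p => ?_)
  show _ = wt p * (Vl p - c) ^ n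
  have e : Vl p - c = ((Real.log 2 - c) + Real.log p.1 / 2) + (0 + Real.log p.2 / 2) := by rw [Vl]; ring
  rw [e, add_pow, Finset.mul_sum, wt]
  refine Finset.sum_congr rfl fun i _ => ?_
  ring

theorem Vl_int_abs (n : ℕ) (C : ℝ) : Integrable (fun p => wt p * (|Vl p| + C) ^ n) Qm := by
  have h1 : Integrable (fun p : ℝ × ℝ => ∑ i ∈ Finset.range (n + 1), ((n.choose i : ℝ) * C ^ (n - i)) * |wt p * (Vl p - 0) ^ i|) Qm :=
    integrable_finsetSum _ fun i _ => (Vl_int 0 i).abs.const_mul _
  refine h1.congr (Eventually.of_forall fun p => ?_)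
  show _ = wt p * (|Vl p| + C) ^ n
  rw [add_pow, Finset.mul_sum]
  refine Finset.sum_congr rfl fun i _ => ?_
  rw [sub_zero, abs_mul, abs_pow, abs_of_pos (wt_pos p)]
  ring

/-- the truncated power -/
noncomputable def tp (n : ℕ) (u : ℝ) : ℝ := max u 0 ^ n / n.factorial

theorem tp_nonneg (n : ℕ) (u : ℝ) : 0 ≤ tp n u := div_nonneg (pow_nonneg (le_max_right _ _) _) (by positivity)

theorem continuous_tp (n : ℕ) : Continuous (tp n) := by
  unfold tp
  fun_prop

theorem tp_le (n : ℕ) {u v : ℝ} (h : |u| ≤ v) : tp n u ≤ v ^ n := by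
  have hv : 0 ≤ v := (abs_nonneg u).trans h
  have h1 : max u 0 ≤ v := max_le ((le_abs_self u).trans h) hv
  rw [tp]
  have h2 : (1 : ℝ) ≤ n.factorial := by exact_mod_cast n.factorial_pos
  exact (div_le_self (pow_nonneg (le_max_right _ _) _) h2).trans (pow_le_pow_left₀ (le_max_right _ _) h1 n)

theorem tp_deriv (n : ℕ) (u : ℝ) : HasDerivAt (tp (n + 2)) (tp (n + 1) u) u := by
  have hf : ((n + 2).factorial : ℝ) = ((n : ℝ) + 2) * ((n + 1).factorial : ℝ) := by
    rw [Nat.factorial_succ]; push_cast; ring
  have hf1 : ((n + 1).factorial : ℝ) ≠ 0 := by positivity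
  have hf2 : ((n : ℝ) + 2) ≠ 0 := by positivity
  rcases lt_trichotomy u 0 with h | h | h
  · have h1 : tp (n + 2) =ᶠ[𝓝 u] fun _ => 0 := by
      filter_upwards [gt_mem_nhds h] with v hv
      rw [tp, max_eq_right hv.le, zero_pow (by omega), zero_div]
    have h2 : tp (n + 1) u = 0 := by rw [tp, max_eq_right h.le, zero_pow (by omega), zero_div]
    rw [h2]
    exact (hasDerivAt_const u (0 : ℝ)).congr_of_eventuallyEq h1
  · subst h
    have h2 : tp (n + 1) 0 = 0 := by rw [tp, max_self, zero_pow (by omega), zero_div]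
    have h3 : tp (n + 2) 0 = 0 := by rw [tp, max_self, zero_pow (by omega), zero_div]
    rw [h2, hasDerivAt_iff_isLittleO]
    simp only [h3, sub_zero, smul_zero]
    have h4 : (fun v : ℝ => tp (n + 2) v) =O[𝓝 0] fun v => v ^ (n + 2) := by
      refine Asymptotics.IsBigO.of_bound 1 (Eventually.of_forall fun v => ?_)
      rw [Real.norm_eq_abs, abs_of_nonneg (tp_nonneg _ _), one_mul, norm_pow, Real.norm_eq_abs]
      exact tp_le _ le_rfl
    refine h4.trans_isLittleO ?_
    have h5 := Asymptotics.isLittleO_pow_pow (𝕜 := ℝ) (m := 1) (n := n + 2) (by omega)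
    simpa using h5
  · have h1 : tp (n + 2) =ᶠ[𝓝 u] fun v => v ^ (n + 2) / (n + 2).factorial := by
      filter_upwards [lt_mem_nhds h] with v hv
      rw [tp, max_eq_left hv.le]
    have h2 : tp (n + 1) u = u ^ (n + 1) / (n + 1).factorial := by rw [tp, max_eq_left h.le]
    rw [h2]
    refine HasDerivAt.congr_of_eventuallyEq ?_ h1
    refine ((hasDerivAt_pow (n + 2) u).div_const _).congr_deriv ?_
    rw [hf]
    push_cast
    field_simp

/-- `F_n` -/
noncomputable def Fn (n : ℕ) (x : ℝ) : ℝ := ∫ p, wt p * tp n (Vl p - Real.log x) ∂Qm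

theorem Fn_int (n : ℕ) (c : ℝ) : Integrable (fun p => wt p * tp n (Vl p - c)) Qm := by
  refine Integrable.mono' (Vl_int_abs n |c|) ?_ (Eventually.of_forall fun p => ?_)
  · exact (measurable_wt.mul ((continuous_tp n).measurable.comp (measurable_Vl.sub measurable_const))).aestronglyMeasurable
  · rw [Real.norm_eq_abs, abs_of_nonneg (mul_nonneg (wt_pos p).le (tp_nonneg _ _))]
    exact mul_le_mul_of_nonneg_left (tp_le n (abs_sub _ _)) (wt_pos p).le

/-- the derivatives -/
theorem Fn_deriv (n : ℕ) {x : ℝ} (hx : 0 < x) : HasDerivAt (Fn (n + 2)) (-(Fn (n + 1) x / x)) x := by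
  -- a bound for the logarithm
  have hs : Ioo (x / 2) (2 * x) ∈ 𝓝 x := Ioo_mem_nhds (by linarith) (by linarith)
  have hlog : ∀ y ∈ Ioo (x / 2) (2 * x), |Real.log y| ≤ |Real.log (x / 2)| + |Real.log (2 * x)| := by
    intro y hy
    have hy0 : 0 < y := lt_trans (by positivity) hy.1
    have h1 := Real.log_le_log (by positivity) hy.1.le
    have h2 := Real.log_le_log hy0 hy.2.le
    rw [abs_le]
    constructor
    · have := neg_abs_le (Real.log (x / 2))
      have := abs_nonneg (Real.log (2 * x))
      linarith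
    · have := le_abs_self (Real.log (2 * x))
      have := abs_nonneg (Real.log (x / 2))
      linarith
  set C := |Real.log (x / 2)| + |Real.log (2 * x)| with hC
  have key := hasDerivAt_integral_of_dominated_loc_of_deriv_le (μ := Qm) (x₀ := x)
    (F := fun x p => wt p * tp (n + 2) (Vl p - Real.log x))
    (F' := fun x p => -(wt p * tp (n + 1) (Vl p - Real.log x)) / x)
    (bound := fun p => (wt p * (|Vl p| + C) ^ (n + 1)) * (2 / x)) hs
    (Eventually.of_forall fun y => (Fn_int (n + 2) (Real.log y)).aestronglyMeasurable) (Fn_int (n + 2) (Real.log x))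
    ((Fn_int (n + 1) (Real.log x)).neg.div_const x).aestronglyMeasurable
    (Eventually.of_forall fun p y hy => by
      have hy0 : 0 < y := lt_trans (by positivity) hy.1
      rw [norm_div, norm_neg, Real.norm_eq_abs, Real.norm_eq_abs, abs_of_pos hy0,
        abs_of_nonneg (mul_nonneg (wt_pos p).le (tp_nonneg _ _)), div_eq_mul_inv]
      have h1 : tp (n + 1) (Vl p - Real.log y) ≤ (|Vl p| + C) ^ (n + 1) := by
        refine tp_le _ ((abs_sub _ _).trans ?_)
        have := hlog y hy
        linarith
      have h2 : y⁻¹ ≤ 2 / x := by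
        rw [inv_le_comm₀ hy0 (by positivity), inv_div]
        exact hy.1.le
      exact mul_le_mul (mul_le_mul_of_nonneg_left h1 (wt_pos p).le) h2 (by positivity)
        (mul_nonneg (wt_pos p).le (by positivity)))
    ((Vl_int_abs (n + 1) C).mul_const _)
    (Eventually.of_forall fun p y hy => by
      have hy0 : 0 < y := lt_trans (by positivity) hy.1
      have h1 : HasDerivAt (fun y => Vl p - Real.log y) (-y⁻¹) y := by
        have := (Real.hasDerivAt_log hy0.ne').const_sub (Vl p)
        exact this
      have h2 := ((tp_deriv n (Vl p - Real.log y)).comp y h1).const_mul (wt p)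
      refine h2.congr_deriv ?_
      rw [neg_div, div_eq_mul_inv]
      ring)
  have h2 := key.2
  have e : ∫ p, -(wt p * tp (n + 1) (Vl p - Real.log x)) / x ∂Qm = -(Fn (n + 1) x / x) := by
    rw [integral_div, integral_neg, neg_div, Fn]
  rw [e] at h2
  exact h2

/-- the limit at infinity -/
theorem Fn_atTop (n : ℕ) : Tendsto (Fn (n + 1)) atTop (𝓝 0) := by
  have h := tendsto_integral_filter_of_dominated_convergence (μ := Qm) (l := atTop)
    (F := fun x p => wt p * tp (n + 1) (Vl p - Real.log x)) (f := fun _ => 0)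
    (fun p => wt p * (|Vl p| + 0) ^ (n + 1))
    (Eventually.of_forall fun y => (Fn_int (n + 1) (Real.log y)).aestronglyMeasurable)
    ((eventually_ge_atTop 1).mono fun x hx => Eventually.of_forall fun p => by
      rw [Real.norm_eq_abs, abs_of_nonneg (mul_nonneg (wt_pos p).le (tp_nonneg _ _)), add_zero]
      refine mul_le_mul_of_nonneg_left ?_ (wt_pos p).le
      have h1 := Real.log_nonneg hx
      have h2 : max (Vl p - Real.log x) 0 ≤ max |Vl p| 0 := by
        refine max_le_max ?_ le_rfl
        have := le_abs_self (Vl p)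
        linarith
      have h3 : tp (n + 1) (Vl p - Real.log x) ≤ tp (n + 1) |Vl p| := by
        rw [tp, tp]
        exact div_le_div_of_nonneg_right (pow_le_pow_left₀ (le_max_right _ _) h2 _) (by positivity)
      refine h3.trans (tp_le _ ?_)
      rw [abs_abs])
    (Vl_int_abs (n + 1) 0)
    (Eventually.of_forall fun p => by
      refine tendsto_const_nhds.congr' ?_
      filter_upwards [Real.tendsto_log_atTop.eventually_ge_atTop (Vl p)] with x hx
      rw [tp, max_eq_right (by linarith), zero_pow (Nat.succ_ne_zero n), zero_div, mul_zero])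
  rw [integral_zero] at h
  exact h

/-- the polynomials -/
noncomputable def Pn (n : ℕ) (x : ℝ) : ℝ := ∫ p, wt p * ((Vl p - Real.log x) ^ n / n.factorial) ∂Qm

theorem Pn_int (n : ℕ) (c : ℝ) : Integrable (fun p => wt p * ((Vl p - c) ^ n / n.factorial)) Qm := by
  refine ((Vl_int c n).div_const (n.factorial : ℝ)).congr (Eventually.of_forall fun p => ?_)
  show wt p * (Vl p - c) ^ n / n.factorial = wt p * ((Vl p - c) ^ n / n.factorial)
  ring

/-- the limit at zero -/
theorem Fn_zero (n : ℕ) : Tendsto (fun x => Fn n x - Pn n x) (𝓝[>] 0) (𝓝 0) := by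
  have h := tendsto_integral_filter_of_dominated_convergence (μ := Qm) (l := 𝓝[>] (0 : ℝ))
    (F := fun x p => wt p * tp n (Vl p - Real.log x) - wt p * ((Vl p - Real.log x) ^ n / n.factorial)) (f := fun _ => 0)
    (fun p => wt p * (|Vl p| + 0) ^ n)
    (Eventually.of_forall fun y => ((Fn_int n (Real.log y)).sub (Pn_int n (Real.log y))).aestronglyMeasurable)
    (by
      filter_upwards [Ioo_mem_nhdsGT (show (0 : ℝ) < 1 from one_pos)] with x hx
      refine Eventually.of_forall fun p => ?_
      rw [← mul_sub, Real.norm_eq_abs, abs_mul, abs_of_pos (wt_pos p), add_zero]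
      refine mul_le_mul_of_nonneg_left ?_ (wt_pos p).le
      have h1 := Real.log_neg hx.1 hx.2
      rcases le_total 0 (Vl p - Real.log x) with h | h
      · rw [tp, max_eq_left h, sub_self, abs_zero]
        positivity
      · rcases Nat.eq_zero_or_pos n with hn | hn
        · subst hn
          simp [tp]
        · rw [tp, max_eq_right h, zero_pow hn.ne', zero_div, zero_sub, abs_neg, abs_div, abs_pow,
            abs_of_pos (show (0 : ℝ) < n.factorial by positivity)]
          have h2 : (1 : ℝ) ≤ n.factorial := by exact_mod_cast n.factorial_pos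
          refine (div_le_self (by positivity) h2).trans (pow_le_pow_left₀ (abs_nonneg _) ?_ n)
          rw [abs_of_nonpos h]
          have := neg_abs_le (Vl p)
          linarith)
    (Vl_int_abs n 0)
    (Eventually.of_forall fun p => by
      refine tendsto_const_nhds.congr' ?_
      have h1 : Tendsto Real.log (𝓝[>] 0) atBot := Real.tendsto_log_nhdsGT_zero
      filter_upwards [h1.eventually_le_atBot (Vl p)] with x hx
      rw [tp, max_eq_left (by linarith), sub_self])
  rw [integral_zero] at h
  refine h.congr fun x => ?_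
  rw [integral_sub (Fn_int n (Real.log x)) (Pn_int n (Real.log x))]
  rfl

end Pool.Agent.H18.Wd
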