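import Pool.Agent.H18.Wd.Lr

/-!
# The iterated integrals of `K_0` on the positive real axis: the moments and the first integral
-/

set_option autoImplicit false
set_option linter.unusedSectionVars false

open Filter Topology Set MeasureTheory

namespace Pool.Agent.H18.Wd

open Pool.Agent.H18.Bes Pool.Agent.R352.E

open PowerSeries in
theorem PE_add (a b : ℝ) : PE (a + b) = PE a * PE b := by
  ext n
  rw [coeff_mul]
  simp only [PE, coeff_mk]
  rw [Finset.Nat.sum_antidiagonal_eq_sum_range_succ (fun i j => a ^ i / (i.factorial : ℝ) * (b ^ j / (j.factorial : ℝ))), add_pow,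
    Finset.sum_div]
  refine Finset.sum_congr rfl fun i hi => ?_
  have hi' : i ≤ n := by have := Finset.mem_range.1 hi; omega
  have h1 : (n.choose i : ℝ) * (i.factorial : ℝ) * ((n - i).factorial : ℝ) = (n.factorial : ℝ) := by
    exact_mod_cast Nat.choose_mul_factorial_mul_factorial hi'
  have h2 : (n.factorial : ℝ) ≠ 0 := by positivity
  have h3 : (i.factorial : ℝ) ≠ 0 := by positivity
  have h4 : ((n - i).factorial : ℝ) ≠ 0 := by positivity
  rw [div_mul_div_comm, div_eq_div_iff h2 (mul_ne_zero h3 h4), ← h1]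
  ring

open PowerSeries in
/-- `Γ(1 + s / 2)` -/
noncomputable def PH : ℝ⟦X⟧ := PowerSeries.mk fun n => mo n / (2 ^ n * n.factorial)

theorem half_log_int (k : ℕ) : IntegrableOn (fun t : ℝ => Real.exp (-t) * ((Real.log t / 2) ^ k / (k.factorial : ℝ))) (Ioi 0) := by
  refine ((log_int 0 k).div_const (k.factorial : ℝ)).congr (Eventually.of_forall fun t => ?_)
  show Real.exp (-t) * (0 + Real.log t / 2) ^ k / (k.factorial : ℝ) = _
  rw [zero_add]
  ring

theorem half_log (k : ℕ) : ∫ t in Ioi (0 : ℝ), Real.exp (-t) * ((Real.log t / 2) ^ k / (k.factorial : ℝ)) = mo k / (2 ^ k * k.factorial) := by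
  rw [mo, ← integral_div]
  refine integral_congr_ae (Eventually.of_forall fun t => ?_)
  show Real.exp (-t) * ((Real.log t / 2) ^ k / (k.factorial : ℝ)) = fr k t / (2 ^ k * (k.factorial : ℝ))
  rw [fr, div_pow]
  field_simp

open PowerSeries in
/-- the moments -/
theorem Pn_eq (n : ℕ) {x : ℝ} (hx : 0 < x) : Pn n x = coeff n (PE (-Real.log (x / 2)) * (PH * PH)) := by
  have e : ∀ p : ℝ × ℝ, wt p * ((Vl p - Real.log x) ^ n / n.factorial) =
      ∑ q ∈ Finset.HasAntidiagonal.antidiagonal n, ∑ r ∈ Finset.HasAntidiagonal.antidiagonal q.2,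
        ((-Real.log (x / 2)) ^ q.1 / (q.1.factorial : ℝ)) *
        ((Real.exp (-p.1) * ((Real.log p.1 / 2) ^ r.1 / (r.1.factorial : ℝ))) *
          (Real.exp (-p.2) * ((Real.log p.2 / 2) ^ r.2 / (r.2.factorial : ℝ)))) := by
    intro p
    have h1 : Vl p - Real.log x = -Real.log (x / 2) + (Real.log p.1 / 2 + Real.log p.2 / 2) := by
      rw [Vl, Real.log_div hx.ne' two_ne_zero]
      ring
    have h2 : (Vl p - Real.log x) ^ n / (n.factorial : ℝ) = coeff n (PE (Vl p - Real.log x)) := by
      rw [PE, coeff_mk]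
    rw [h2, h1, PE_add, PE_add, coeff_mul, Finset.mul_sum]
    refine Finset.sum_congr rfl fun q _ => ?_
    rw [coeff_mul, Finset.mul_sum, Finset.mul_sum]
    refine Finset.sum_congr rfl fun r _ => ?_
    simp only [PE, coeff_mk, wt]
    ring
  have hi : ∀ r : ℕ × ℕ, Integrable (fun p : ℝ × ℝ => (Real.exp (-p.1) * ((Real.log p.1 / 2) ^ r.1 / (r.1.factorial : ℝ))) *
          (Real.exp (-p.2) * ((Real.log p.2 / 2) ^ r.2 / (r.2.factorial : ℝ)))) Qm := fun r =>
    (half_log_int r.1).mul_prod (half_log_int r.2)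
  rw [Pn]
  simp only [e]
  rw [integral_finsetSum _ fun q _ => integrable_finsetSum _ fun r _ => (hi r).const_mul _, coeff_mul]
  refine Finset.sum_congr rfl fun q _ => ?_
  rw [integral_finsetSum _ fun r _ => (hi r).const_mul _, coeff_mul, Finset.mul_sum]
  refine Finset.sum_congr rfl fun r _ => ?_
  rw [integral_const_mul, Qm, integral_prod_mul (fun t : ℝ => Real.exp (-t) * ((Real.log t / 2) ^ r.1 / (r.1.factorial : ℝ)))
    (fun t : ℝ => Real.exp (-t) * ((Real.log t / 2) ^ r.2 / (r.2.factorial : ℝ))), half_log, half_log]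
  simp only [PE, PH, coeff_mk]

/-! ### The first integral -/

instance : SFinite Qm := by unfold Qm; infer_instance

theorem lint_exp {a : ℝ} : ∫⁻ t in Ioi a, ENNReal.ofReal (Real.exp (-t)) = ENNReal.ofReal (Real.exp (-a)) := by
  rw [← integral_exp_neg_Ioi a, ofReal_integral_eq_lintegral_ofReal]
  · have := integrableOn_exp_neg_Ioi a
    exact this
  · exact Eventually.of_forall fun t => (Real.exp_pos _).le

theorem Fn_one {x : ℝ} (hx : 0 < x) : Fn 1 x = kr 0 x := by
  classical
  set f : ℝ → ℝ × ℝ → ENNReal := fun u p =>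
    {q : ℝ × (ℝ × ℝ) | x / 2 * Real.exp q.1 < q.2.1 ∧ x / 2 * Real.exp (-q.1) < q.2.2}.indicator
      (fun q => ENNReal.ofReal (wt q.2)) (u, p) with hf
  have hmeas : MeasurableSet {q : ℝ × (ℝ × ℝ) | x / 2 * Real.exp q.1 < q.2.1 ∧ x / 2 * Real.exp (-q.1) < q.2.2} := by
    have m1 : MeasurableSet {q : ℝ × (ℝ × ℝ) | x / 2 * Real.exp q.1 < q.2.1} := measurableSet_lt (by fun_prop) (by fun_prop)
    have m2 : MeasurableSet {q : ℝ × (ℝ × ℝ) | x / 2 * Real.exp (-q.1) < q.2.2} := measurableSet_lt (by fun_prop) (by fun_prop)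
    exact m1.inter m2
  have hfm : AEMeasurable (Function.uncurry f) ((volume : Measure ℝ).prod Qm) := by
    refine Measurable.aemeasurable ?_
    exact (ENNReal.measurable_ofReal.comp (measurable_wt.comp measurable_snd)).indicator hmeas
  have hswap := lintegral_lintegral_swap hfm
  -- the inner integrals on the left
  have hL : ∀ u : ℝ, ∫⁻ p, f u p ∂Qm = ENNReal.ofReal (Real.exp (-x * Real.cosh u)) := by
    intro u
    have ha : 0 < x / 2 * Real.exp u := by positivity
    have hb : 0 < x / 2 * Real.exp (-u) := by positivity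
    have e1 : ∀ p : ℝ × ℝ, f u p = (Ioi (x / 2 * Real.exp u) ×ˢ Ioi (x / 2 * Real.exp (-u))).indicator
        (fun p => ENNReal.ofReal (Real.exp (-p.1)) * ENNReal.ofReal (Real.exp (-p.2))) p := by
      intro p
      simp only [hf, indicator, mem_ofPred_eq, mem_prod, mem_Ioi, wt]
      split_ifs
      · rw [ENNReal.ofReal_mul (Real.exp_pos _).le]
      · rfl
    simp only [e1]
    rw [lintegral_indicator (measurableSet_Ioi.prod measurableSet_Ioi), Qm, ← Measure.prod_restrict,
      Measure.restrict_restrict measurableSet_Ioi, Measure.restrict_restrict measurableSet_Ioi,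
      inter_eq_left.2 (Ioi_subset_Ioi ha.le), inter_eq_left.2 (Ioi_subset_Ioi hb.le),
      lintegral_prod_mul (f := fun t : ℝ => ENNReal.ofReal (Real.exp (-t))) (g := fun t : ℝ => ENNReal.ofReal (Real.exp (-t)))
        (by fun_prop) (by fun_prop), lint_exp, lint_exp, ← ENNReal.ofReal_mul (Real.exp_pos _).le, ← Real.exp_add]
    congr 2
    rw [Real.cosh_eq]
    ring
  -- the inner integrals on the right
  have hR : ∀ᵐ p ∂Qm, ∫⁻ u, f u p = ENNReal.ofReal (wt p * (2 * tp 1 (Vl p - Real.log x))) := by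
    have h0 : ∀ᵐ p ∂Qm, p ∈ Ioi (0 : ℝ) ×ˢ Ioi (0 : ℝ) := by
      rw [Qm, Measure.prod_restrict]
      exact ae_restrict_mem (measurableSet_Ioi.prod measurableSet_Ioi)
    filter_upwards [h0] with p hp
    obtain ⟨h1, h2⟩ := hp
    have h1' : 0 < p.1 := h1
    have h2' : 0 < p.2 := h2
    have e1 : ∀ u : ℝ, f u p = (Ioo (-Real.log (2 * p.2 / x)) (Real.log (2 * p.1 / x))).indicator
        (fun _ => ENNReal.ofReal (wt p)) u := by
      intro u
      have e2 : x / 2 * Real.exp u < p.1 ↔ u < Real.log (2 * p.1 / x) := by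
        rw [Real.lt_log_iff_exp_lt (by positivity), lt_div_iff₀ hx]
        constructor <;> intro h <;> nlinarith
      have e3 : x / 2 * Real.exp (-u) < p.2 ↔ -Real.log (2 * p.2 / x) < u := by
        rw [neg_lt, Real.lt_log_iff_exp_lt (by positivity), lt_div_iff₀ hx]
        constructor <;> intro h <;> nlinarith
      simp only [hf, indicator, mem_ofPred_eq, mem_Ioo, e2, e3, and_comm]
    simp only [e1]
    rw [lintegral_indicator measurableSet_Ioo, lintegral_const, Measure.restrict_apply_univ, Real.volume_Ioo,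
      ENNReal.ofReal_mul (wt_pos p).le]
    congr 1
    have e4 : Real.log (2 * p.1 / x) - -Real.log (2 * p.2 / x) = 2 * (Vl p - Real.log x) := by
      rw [Real.log_div (by positivity) hx.ne', Real.log_div (by positivity) hx.ne', Real.log_mul two_ne_zero h1'.ne',
        Real.log_mul two_ne_zero h2'.ne', Vl]
      ring
    rw [e4, tp, pow_one, Nat.factorial_one, Nat.cast_one, div_one]
    rcases le_total 0 (Vl p - Real.log x) with h | h
    · rw [max_eq_left h]
    · rw [max_eq_right h, mul_zero, ENNReal.ofReal_zero, ENNReal.ofReal_eq_zero]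
      linarith
  simp only [hL] at hswap
  rw [lintegral_congr_ae hR] at hswap
  -- back to the integrals
  have h1 : ∫ u : ℝ, Real.exp (-x * Real.cosh u) = 2 * kr 0 x := by
    have h2 := integral_comp_abs (f := fun u : ℝ => Real.exp (-x * Real.cosh u))
    simp only [Real.cosh_abs] at h2
    rw [h2, kr]
    congr 1
    refine integral_congr_ae (Eventually.of_forall fun t => ?_)
    show _ = krf 0 x t
    rw [krf, pow_zero, one_mul]
  have h2 : ∫ u : ℝ, Real.exp (-x * Real.cosh u) = (∫⁻ u : ℝ, ENNReal.ofReal (Real.exp (-x * Real.cosh u))).toReal := by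
    rw [integral_eq_lintegral_of_nonneg_ae (Eventually.of_forall fun u => (Real.exp_pos _).le)]
    have : Continuous fun u : ℝ => Real.exp (-x * Real.cosh u) :=
      Real.continuous_exp.comp (continuous_const.mul Real.continuous_cosh)
    exact this.aestronglyMeasurable
  have h3 : ∫ p, wt p * (2 * tp 1 (Vl p - Real.log x)) ∂Qm =
      (∫⁻ p, ENNReal.ofReal (wt p * (2 * tp 1 (Vl p - Real.log x))) ∂Qm).toReal := by
    rw [integral_eq_lintegral_of_nonneg_ae (Eventually.of_forall fun p =>
      mul_nonneg (wt_pos p).le (mul_nonneg two_pos.le (tp_nonneg _ _)))]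
    refine (((Fn_int 1 (Real.log x)).const_mul 2).congr (Eventually.of_forall fun p => ?_)).aestronglyMeasurable
    show 2 * (wt p * tp 1 (Vl p - Real.log x)) = _
    ring
  have h4 : ∫ p, wt p * (2 * tp 1 (Vl p - Real.log x)) ∂Qm = 2 * Fn 1 x := by
    rw [Fn, ← integral_const_mul]
    refine integral_congr_ae (Eventually.of_forall fun p => ?_)
    show wt p * (2 * tp 1 (Vl p - Real.log x)) = 2 * (wt p * tp 1 (Vl p - Real.log x))
    ring
  rw [h1] at h2
  rw [h4] at h3
  rw [← hswap, ← h2] at h3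
  linarith

end Pool.Agent.H18.Wd
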