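import Pool.Agent.H18.Bes.Ana2

/-!
# The moments `∫_0^∞ t^m cosh(t)^n exp(-z cosh t) dt`
-/

set_option autoImplicit false
set_option linter.unusedSectionVars false

open Filter Topology Set MeasureTheory

namespace Pool.Agent.H18.Wd

open Pool.Agent.H18.Bes Pool.Agent.R352.E

/-- `t^m exp(-t)` -/
theorem pow_exp_int (m : ℕ) (C : ℝ) : IntegrableOn (fun t : ℝ => C * (t ^ m * Real.exp (-t))) (Ioi 0) := by
  have h := Real.GammaIntegral_convergent (s := (m : ℝ) + 1) (by positivity)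
  refine Integrable.const_mul ?_ C
  refine h.congr ((ae_restrict_mem measurableSet_Ioi).mono fun t ht => ?_)
  show Real.exp (-t) * t ^ ((m : ℝ) + 1 - 1) = t ^ m * Real.exp (-t)
  rw [add_sub_cancel_right, Real.rpow_natCast, mul_comm]

/-- the integrand -/
noncomputable def tf (m n : ℕ) (z : ℂ) (t : ℝ) : ℂ := (t : ℂ) ^ m * kf n z t

/-- the integrals -/
noncomputable def tm (m n : ℕ) (z : ℂ) : ℂ := ∫ t in Ioi (0 : ℝ), tf m n z t

theorem tf_continuous (m n : ℕ) (z : ℂ) : Continuous (tf m n z) :=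
  (Complex.continuous_ofReal.pow m).mul (kf_continuous n z)

theorem tf_bound (m n : ℕ) {a : ℝ} (ha : 0 < a) {z : ℂ} (hz : a ≤ z.re) {t : ℝ} (ht : 0 ≤ t) :
    ‖tf m n z t‖ ≤ (2 * (n + 1).factorial / a ^ (n + 1)) * (t ^ m * Real.exp (-t)) := by
  rw [tf, norm_mul, norm_pow, Complex.norm_real, Real.norm_eq_abs, abs_of_nonneg ht]
  calc t ^ m * ‖kf n z t‖ ≤ t ^ m * ((2 * (n + 1).factorial / a ^ (n + 1)) * Real.exp (-t)) :=
        mul_le_mul_of_nonneg_left (kf_bound n ha hz t) (by positivity)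
    _ = _ := by ring

theorem tf_int (m n : ℕ) {z : ℂ} (hz : 0 < z.re) : IntegrableOn (tf m n z) (Ioi 0) :=
  Integrable.mono' (pow_exp_int m _) (tf_continuous m n z).aestronglyMeasurable
    ((ae_restrict_mem measurableSet_Ioi).mono fun _ ht => tf_bound m n hz le_rfl (le_of_lt ht))

theorem tm_deriv (m n : ℕ) {z : ℂ} (hz : 0 < z.re) : HasDerivAt (tm m n) (-tm m (n + 1) z) z := by
  have hs : {w : ℂ | z.re / 2 < w.re} ∈ 𝓝 z :=
    (isOpen_lt continuous_const Complex.continuous_re).mem_nhds (by show z.re / 2 < z.re; linarith)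
  have key := hasDerivAt_integral_of_dominated_loc_of_deriv_le (μ := volume.restrict (Ioi (0 : ℝ))) (F := tf m n)
    (F' := fun w t => -tf m (n + 1) w t)
    (bound := fun t => (2 * (n + 1 + 1).factorial / (z.re / 2) ^ (n + 1 + 1)) * (t ^ m * Real.exp (-t)))
    hs (Eventually.of_forall fun w => (tf_continuous m n w).aestronglyMeasurable) (tf_int m n hz)
    (tf_continuous m (n + 1) z).neg.aestronglyMeasurable
    ((ae_restrict_mem measurableSet_Ioi).mono fun t ht w hw => by
      rw [norm_neg]; exact tf_bound m (n + 1) (by linarith) (le_of_lt hw) (le_of_lt ht))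
    (pow_exp_int m _)
    (Eventually.of_forall fun t w _ => by
      have h1 : HasDerivAt (fun w : ℂ => -w * ((Real.cosh t : ℝ) : ℂ)) (-((Real.cosh t : ℝ) : ℂ)) w := by
        have := ((hasDerivAt_id w).neg).mul_const ((Real.cosh t : ℝ) : ℂ)
        simpa using this
      have h2 := ((h1.cexp).const_mul (((Real.cosh t : ℝ) : ℂ) ^ n)).const_mul ((t : ℂ) ^ m)
      refine h2.congr_deriv ?_
      rw [tf, kf, pow_succ]
      ring)
  rw [tm, ← integral_neg]
  exact key.2

theorem tf_tendsto (m n : ℕ) {z : ℂ} (hz : 0 < z.re) : Tendsto (tf m n z) atTop (𝓝 0) := by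
  rw [tendsto_zero_iff_norm_tendsto_zero]
  have h0 : Tendsto (fun t : ℝ => (2 * (n + 1).factorial / z.re ^ (n + 1)) * (t ^ m * Real.exp (-t))) atTop (𝓝 0) := by
    have := (Real.tendsto_pow_mul_exp_neg_atTop_nhds_zero m).const_mul (2 * (n + 1).factorial / z.re ^ (n + 1))
    rwa [mul_zero] at this
  refine squeeze_zero' (Eventually.of_forall fun t => norm_nonneg _)
    ((eventually_ge_atTop 0).mono fun t ht => tf_bound m n hz le_rfl ht) h0

/-- the differential equation -/
theorem tm_ode (p : ℕ) {z : ℂ} (hz : 0 < z.re) :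
    z ^ 2 * tm (p + 2) 2 z - z * tm (p + 2) 1 z = z ^ 2 * tm (p + 2) 0 z + ((p : ℂ) + 2) * ((p : ℂ) + 1) * tm p 0 z := by
  have hd : ∀ t : ℝ, HasDerivAt (fun t : ℝ => (t : ℂ) ^ (p + 2) * (-z * ((Real.sinh t : ℝ) : ℂ) *
      Complex.exp (-z * ((Real.cosh t : ℝ) : ℂ))) - ((p : ℂ) + 2) * ((t : ℂ) ^ (p + 1) *
      Complex.exp (-z * ((Real.cosh t : ℝ) : ℂ))))
      (z ^ 2 * tf (p + 2) 2 z t - z * tf (p + 2) 1 z t - (z ^ 2 * tf (p + 2) 0 z t + ((p : ℂ) + 2) * ((p : ℂ) + 1) * tf p 0 z t))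
      t := by
    intro t
    have h1 : HasDerivAt (fun t : ℝ => ((Real.cosh t : ℝ) : ℂ)) ((Real.sinh t : ℝ) : ℂ) t :=
      (Real.hasDerivAt_cosh t).ofReal_comp
    have h2 : HasDerivAt (fun t : ℝ => ((Real.sinh t : ℝ) : ℂ)) ((Real.cosh t : ℝ) : ℂ) t :=
      (Real.hasDerivAt_sinh t).ofReal_comp
    have h0 : HasDerivAt (fun t : ℝ => (t : ℂ)) 1 t := Complex.ofRealCLM.hasDerivAt
    have h3 := (h1.const_mul (-z)).cexp
    have h4 := ((h0.pow (p + 2)).mul ((h2.const_mul (-z)).mul h3)).sub (((h0.pow (p + 1)).mul h3).const_mul ((p : ℂ) + 2))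
    refine h4.congr_deriv ?_
    have h5 : (((Real.sinh t : ℝ) : ℂ)) ^ 2 = ((Real.cosh t : ℝ) : ℂ) ^ 2 - 1 := by
      have := Real.cosh_sq t
      have h5 : Real.sinh t ^ 2 = Real.cosh t ^ 2 - 1 := by linarith
      exact_mod_cast h5
    simp only [tf, kf, Pi.pow_apply, Pi.mul_apply, Nat.add_sub_cancel, show p + 2 - 1 = p + 1 by omega]
    push_cast
    linear_combination (z ^ 2 * (t : ℂ) ^ (p + 2) * Complex.exp (-z * Complex.cosh t)) * (by exact_mod_cast h5 :
      (Complex.sinh t) ^ 2 = Complex.cosh t ^ 2 - 1)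
  have hlim : Tendsto (fun t : ℝ => (t : ℂ) ^ (p + 2) * (-z * ((Real.sinh t : ℝ) : ℂ) *
      Complex.exp (-z * ((Real.cosh t : ℝ) : ℂ))) - ((p : ℂ) + 2) * ((t : ℂ) ^ (p + 1) *
      Complex.exp (-z * ((Real.cosh t : ℝ) : ℂ)))) atTop (𝓝 0) := by
    rw [← sub_zero (0 : ℂ)]
    refine Tendsto.sub ?_ ?_
    · rw [tendsto_zero_iff_norm_tendsto_zero]
      have h1 := ((tf_tendsto (p + 2) 1 hz).norm).const_mul ‖z‖
      rw [norm_zero, mul_zero] at h1
      refine squeeze_zero (fun t => norm_nonneg _) (fun t => ?_) h1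
      rw [tf, kf, norm_mul, norm_mul, norm_mul, norm_mul, norm_mul, norm_neg, pow_one]
      have h2 : ‖((Real.sinh t : ℝ) : ℂ)‖ ≤ ‖((Real.cosh t : ℝ) : ℂ)‖ := by
        rw [Complex.norm_real, Complex.norm_real, Real.norm_eq_abs, Real.norm_eq_abs, abs_of_pos (Real.cosh_pos t), abs_le]
        constructor
        · have := Real.exp_pos t
          rw [Real.cosh_eq, Real.sinh_eq]
          linarith
        · exact (Real.sinh_lt_cosh t).le
      calc ‖(t : ℂ) ^ (p + 2)‖ * (‖z‖ * ‖((Real.sinh t : ℝ) : ℂ)‖ * ‖Complex.exp (-z * ((Real.cosh t : ℝ) : ℂ))‖)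
          ≤ ‖(t : ℂ) ^ (p + 2)‖ * (‖z‖ * ‖((Real.cosh t : ℝ) : ℂ)‖ * ‖Complex.exp (-z * ((Real.cosh t : ℝ) : ℂ))‖) := by
            gcongr
        _ = _ := by ring
    · have h1 := (tf_tendsto (p + 1) 0 hz).const_mul ((p : ℂ) + 2)
      rw [mul_zero] at h1
      refine h1.congr fun t => ?_
      rw [tf, kf, pow_zero, one_mul]
  have i2 := (tf_int (p + 2) 2 hz).const_mul (z ^ 2)
  have i1 := (tf_int (p + 2) 1 hz).const_mul z
  have i0 := (tf_int (p + 2) 0 hz).const_mul (z ^ 2)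
  have i3 := (tf_int p 0 hz).const_mul (((p : ℂ) + 2) * ((p : ℂ) + 1))
  have h := integral_Ioi_of_hasDerivAt_of_tendsto' (a := (0 : ℝ)) (fun t _ => hd t) ((i2.sub i1).sub (i0.add i3)) hlim
  have e1 := integral_sub (μ := volume.restrict (Ioi (0 : ℝ))) (f := fun t => z ^ 2 * tf (p + 2) 2 z t - z * tf (p + 2) 1 z t)
    (g := fun t => z ^ 2 * tf (p + 2) 0 z t + ((p : ℂ) + 2) * ((p : ℂ) + 1) * tf p 0 z t) (i2.sub i1) (i0.add i3)
  have e2 := integral_sub (μ := volume.restrict (Ioi (0 : ℝ))) (f := fun t => z ^ 2 * tf (p + 2) 2 z t)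
    (g := fun t => z * tf (p + 2) 1 z t) i2 i1
  have e3 := integral_add (μ := volume.restrict (Ioi (0 : ℝ))) (f := fun t => z ^ 2 * tf (p + 2) 0 z t)
    (g := fun t => ((p : ℂ) + 2) * ((p : ℂ) + 1) * tf p 0 z t) i0 i3
  rw [e1, e2, e3, integral_const_mul, integral_const_mul, integral_const_mul, integral_const_mul] at h
  have h0 : ((Real.sinh 0 : ℝ) : ℂ) = 0 := by rw [Real.sinh_zero, Complex.ofReal_zero]
  rw [h0] at h
  simp only [Complex.ofReal_zero, mul_zero, zero_mul, zero_pow (Nat.succ_ne_zero _), sub_zero] at h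
  rw [tm, tm, tm, tm]
  exact sub_eq_zero.1 h

theorem tm_zero (n : ℕ) (z : ℂ) : tm 0 n z = kn n z := by
  rw [tm, kn]
  refine integral_congr_ae (Eventually.of_forall fun t => ?_)
  show tf 0 n z t = kf n z t
  rw [tf, pow_zero, one_mul]

/-- the differential equation for the zeroth moment -/
theorem tm_ode_zero {z : ℂ} (hz : 0 < z.re) : z ^ 2 * tm 0 2 z - z * tm 0 1 z = z ^ 2 * tm 0 0 z := by
  rw [tm_zero, tm_zero, tm_zero]
  linear_combination z * kn_ode hz

/-! ### The real integrals -/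

/-- the real integrand -/
noncomputable def trf (m n : ℕ) (x t : ℝ) : ℝ := t ^ m * krf n x t

/-- the real integrals -/
noncomputable def tr (m n : ℕ) (x : ℝ) : ℝ := ∫ t in Ioi (0 : ℝ), trf m n x t

theorem tf_real (m n : ℕ) (x t : ℝ) : tf m n x t = ((trf m n x t : ℝ) : ℂ) := by
  rw [tf, trf, kf_real]; push_cast; rfl

theorem tm_real (m n : ℕ) (x : ℝ) : tm m n x = ((tr m n x : ℝ) : ℂ) := by
  rw [tm, tr, ← integral_complex_ofReal]
  simp only [tf_real]

theorem trf_int (m n : ℕ) {x : ℝ} (hx : 0 < x) : IntegrableOn (trf m n x) (Ioi 0) := by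
  have h1 : IntegrableOn (tf m n x) (Ioi 0) := tf_int m n (by simpa using hx)
  have h2 := h1.re
  refine h2.congr (Eventually.of_forall fun t => ?_)
  show (tf m n x t).re = trf m n x t
  rw [tf_real, Complex.ofReal_re]

theorem tr_deriv (m n : ℕ) {x : ℝ} (hx : 0 < x) : HasDerivAt (tr m n) (-tr m (n + 1) x) x := by
  have h1 : HasDerivAt (tm m n) (-tm m (n + 1) x) (x : ℂ) := tm_deriv m n (by simpa using hx)
  have h2 := h1.real_of_complex
  have h3 : (fun x : ℝ => (tm m n (x : ℂ)).re) = tr m n := by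
    funext y
    rw [tm_real, Complex.ofReal_re]
  rw [h3, tm_real, ← Complex.ofReal_neg, Complex.ofReal_re] at h2
  exact h2

theorem tr_ode (p : ℕ) {x : ℝ} (hx : 0 < x) :
    x ^ 2 * tr (p + 2) 2 x - x * tr (p + 2) 1 x = x ^ 2 * tr (p + 2) 0 x + ((p : ℝ) + 2) * ((p : ℝ) + 1) * tr p 0 x := by
  have h := tm_ode p (z := (x : ℂ)) (by simpa using hx)
  rw [tm_real, tm_real, tm_real, tm_real] at h
  exact_mod_cast h

theorem tr_ode_zero {x : ℝ} (hx : 0 < x) : x ^ 2 * tr 0 2 x - x * tr 0 1 x = x ^ 2 * tr 0 0 x := by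
  have h := tm_ode_zero (z := (x : ℂ)) (by simpa using hx)
  rw [tm_real, tm_real, tm_real] at h
  exact_mod_cast h

/-! ### The asymptotics at zero -/

theorem Em_bound {y : ℝ} (hy : 0 < y) (t : ℝ) : Real.exp (-(y * Real.exp t)) ≤ 1 / y * Real.exp (-t) := by
  have h1 := Real.pow_div_factorial_le_exp (x := y * Real.exp t) (by positivity) 1
  rw [pow_one, Nat.factorial_one, Nat.cast_one, div_one] at h1
  rw [Real.exp_neg, Real.exp_neg, one_div, ← mul_inv]
  exact inv_anti₀ (by positivity) h1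

theorem Em_int (m : ℕ) {y : ℝ} (hy : 0 < y) : IntegrableOn (fun t => t ^ m * Real.exp (-(y * Real.exp t))) (Ioi 0) := by
  refine Integrable.mono' (pow_exp_int m (1 / y)) ?_ ((ae_restrict_mem measurableSet_Ioi).mono fun t ht => ?_)
  · exact Continuous.aestronglyMeasurable (by fun_prop)
  · have ht' : (0 : ℝ) < t := ht
    rw [Real.norm_eq_abs, abs_of_nonneg (by positivity)]
    calc t ^ m * Real.exp (-(y * Real.exp t)) ≤ t ^ m * (1 / y * Real.exp (-t)) :=
          mul_le_mul_of_nonneg_left (Em_bound hy t) (by positivity)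
      _ = _ := by ring

/-- `∫_0^∞ t^m exp(-y e^t) dt` -/
theorem Em (m : ℕ) {y : ℝ} (hy : 0 < y) :
    ∫ t in Ioi (0 : ℝ), t ^ m * Real.exp (-(y * Real.exp t)) = Real.exp (-y) * dl (m + 1) y / ((m : ℝ) + 1) := by
  have hE : ∀ t : ℝ, 0 < Real.exp t := Real.exp_pos
  have hi1 := Em_int m hy
  have hi2 : IntegrableOn (fun t => t ^ (m + 1) * Real.exp (-(y * Real.exp t)) * (y * Real.exp t)) (Ioi 0) := by
    refine Integrable.mono' (pow_exp_int (m + 1) (2 / y)) ?_ ((ae_restrict_mem measurableSet_Ioi).mono fun t ht => ?_)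
    · exact Continuous.aestronglyMeasurable (by fun_prop)
    · have ht' : (0 : ℝ) < t := ht
      rw [Real.norm_eq_abs, abs_of_nonneg (by positivity)]
      have h1 := Real.pow_div_factorial_le_exp (x := y * Real.exp t) (by positivity) 2
      have h2 : Real.exp (-(y * Real.exp t)) ≤ 2 / (y * Real.exp t) ^ 2 := by
        rw [Real.exp_neg, ← inv_div]
        refine inv_anti₀ (by positivity) ?_
        have : ((2 : ℕ).factorial : ℝ) = 2 := by norm_num [Nat.factorial]
        rwa [this] at h1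
      calc t ^ (m + 1) * Real.exp (-(y * Real.exp t)) * (y * Real.exp t)
          ≤ t ^ (m + 1) * (2 / (y * Real.exp t) ^ 2) * (y * Real.exp t) := by gcongr
        _ = 2 / y * (t ^ (m + 1) * Real.exp (-t)) := by
            rw [Real.exp_neg]
            have := (hE t).ne'
            field_simp
  -- integration by parts
  have hd : ∀ t : ℝ, HasDerivAt (fun t : ℝ => t ^ (m + 1) * Real.exp (-(y * Real.exp t)))
      (((m : ℝ) + 1) * (t ^ m * Real.exp (-(y * Real.exp t))) - t ^ (m + 1) * Real.exp (-(y * Real.exp t)) * (y * Real.exp t)) t := by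
    intro t
    have h0 : HasDerivAt (fun t : ℝ => -(y * Real.exp t)) (-(y * Real.exp t)) t := ((Real.hasDerivAt_exp t).const_mul y).neg
    have h1 := (hasDerivAt_pow (m + 1) t).mul h0.exp
    refine h1.congr_deriv ?_
    rw [Nat.add_sub_cancel]
    push_cast
    ring
  have hlim : Tendsto (fun t : ℝ => t ^ (m + 1) * Real.exp (-(y * Real.exp t))) atTop (𝓝 0) := by
    have h0 : Tendsto (fun t : ℝ => 1 / y * (t ^ (m + 1) * Real.exp (-t))) atTop (𝓝 0) := by
      have h2 := (Real.tendsto_pow_mul_exp_neg_atTop_nhds_zero (m + 1)).const_mul (1 / y)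
      rwa [mul_zero] at h2
    refine squeeze_zero' ((eventually_ge_atTop 0).mono fun t ht => by positivity)
      ((eventually_ge_atTop 0).mono fun t ht => ?_) h0
    calc t ^ (m + 1) * Real.exp (-(y * Real.exp t)) ≤ t ^ (m + 1) * (1 / y * Real.exp (-t)) :=
          mul_le_mul_of_nonneg_left (Em_bound hy t) (by positivity)
      _ = _ := by ring
  have hparts := integral_Ioi_of_hasDerivAt_of_tendsto' (a := (0 : ℝ)) (fun t _ => hd t)
    ((hi1.const_mul ((m : ℝ) + 1)).sub hi2) hlim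
  rw [zero_pow (Nat.succ_ne_zero m), zero_mul, sub_zero] at hparts
  have e1 := integral_sub (μ := volume.restrict (Ioi (0 : ℝ))) (f := fun t => ((m : ℝ) + 1) * (t ^ m * Real.exp (-(y * Real.exp t))))
    (g := fun t => t ^ (m + 1) * Real.exp (-(y * Real.exp t)) * (y * Real.exp t)) (hi1.const_mul _) hi2
  rw [e1, integral_const_mul] at hparts
  -- the substitution
  have hg : IntegrableOn (fun v : ℝ => (Real.log v - Real.log y) ^ (m + 1) * Real.exp (-v)) (Ici y) := by
    have h1 : Integrable (fun v : ℝ => ∑ i ∈ Finset.range (m + 1 + 1),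
        (((m + 1).choose i : ℝ) * (-1) ^ (m + 1 - i) * Real.log y ^ (m + 1 - i)) * fr i v) (volume.restrict (Ioi 0)) :=
      integrable_finsetSum _ fun i _ => (fr_integrable i).const_mul _
    have h2 : IntegrableOn (fun v : ℝ => (Real.log v - Real.log y) ^ (m + 1) * Real.exp (-v)) (Ioi 0) := by
      refine h1.congr (Eventually.of_forall fun v => ?_)
      show _ = (Real.log v - Real.log y) ^ (m + 1) * Real.exp (-v)
      rw [sub_eq_add_neg, add_pow, Finset.sum_mul]
      refine Finset.sum_congr rfl fun i _ => ?_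
      rw [fr, neg_pow (Real.log y)]
      ring
    exact h2.mono_set fun v hv => lt_of_lt_of_le hy hv
  have hsub := integral_comp_mul_deriv_Ioi (f := fun t => y * Real.exp t) (f' := fun t => y * Real.exp t)
    (g := fun v : ℝ => (Real.log v - Real.log y) ^ (m + 1) * Real.exp (-v)) (a := 0)
    (by fun_prop) (Real.tendsto_exp_atTop.const_mul_atTop hy)
    (fun t _ => ((Real.hasDerivAt_exp t).const_mul y).hasDerivWithinAt)
    (by
      refine ContinuousOn.mul (ContinuousOn.pow (ContinuousOn.sub (Real.continuousOn_log.mono ?_) continuousOn_const) (m + 1))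
        (Continuous.continuousOn (by fun_prop))
      rintro _ ⟨t, _, rfl⟩
      have : 0 < y * Real.exp t := by positivity
      exact this.ne')
    (hg.mono_set (by
      rintro _ ⟨t, ht, rfl⟩
      have ht' : (0 : ℝ) ≤ t := ht
      show y ≤ y * Real.exp t
      exact le_mul_of_one_le_right hy.le (Real.one_le_exp ht')))
    (by
      rw [integrableOn_Ici_iff_integrableOn_Ioi]
      refine hi2.congr (Eventually.of_forall fun t => ?_)
      show _ = (Real.log (y * Real.exp t) - Real.log y) ^ (m + 1) * Real.exp (-(y * Real.exp t)) * (y * Real.exp t)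
      rw [Real.log_mul hy.ne' (hE t).ne', Real.log_exp]
      ring)
  have hsub' : ∫ t in Ioi (0 : ℝ), t ^ (m + 1) * Real.exp (-(y * Real.exp t)) * (y * Real.exp t) =
      Real.exp (-y) * dl (m + 1) y := by
    rw [exp_dl (m + 1) hy]
    rw [Real.exp_zero, mul_one] at hsub
    rw [← hsub]
    refine integral_congr_ae (Eventually.of_forall fun t => ?_)
    show _ = (Real.log (y * Real.exp t) - Real.log y) ^ (m + 1) * Real.exp (-(y * Real.exp t)) * (y * Real.exp t)
    rw [Real.log_mul hy.ne' (hE t).ne', Real.log_exp]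
    ring
  rw [← hsub', eq_div_iff (by positivity)]
  linarith

theorem tr_E (m : ℕ) {x : ℝ} (hx : 0 < x) : |tr m 0 x - ∫ t in Ioi (0 : ℝ), t ^ m * Real.exp (-(x / 2 * Real.exp t))| ≤
    x / 2 * ∫ t in Ioi (0 : ℝ), 1 * (t ^ m * Real.exp (-t)) := by
  have hi1 := trf_int m 0 hx
  have hi2 := Em_int m (y := x / 2) (by positivity)
  have e : ∀ t : ℝ, trf m 0 x t = t ^ m * (Real.exp (-(x / 2 * Real.exp t)) * Real.exp (-(x / 2 * Real.exp (-t)))) := by
    intro t
    rw [trf, krf, pow_zero, one_mul, ← Real.exp_add, Real.cosh_eq]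
    congr 2
    ring
  rw [tr, ← integral_sub hi1 hi2]
  refine (abs_integral_le_integral_abs).trans ?_
  rw [← integral_const_mul]
  have hi3 : IntegrableOn (fun t : ℝ => x / 2 * (1 * (t ^ m * Real.exp (-t)))) (Ioi 0) := (pow_exp_int m 1).const_mul (x / 2)
  refine integral_mono_ae (hi1.sub hi2).abs hi3 ((ae_restrict_mem measurableSet_Ioi).mono fun t ht => ?_)
  have ht' : (0 : ℝ) < t := ht
  show |trf m 0 x t - t ^ m * Real.exp (-(x / 2 * Real.exp t))| ≤ x / 2 * (1 * (t ^ m * Real.exp (-t)))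
  rw [e]
  have h2 : Real.exp (-(x / 2 * Real.exp t)) ≤ 1 := by
    rw [Real.exp_le_one_iff]
    have := Real.exp_pos t
    nlinarith
  have h3 : Real.exp (-(x / 2 * Real.exp (-t))) ≤ 1 := by
    rw [Real.exp_le_one_iff]
    have := Real.exp_pos (-t)
    nlinarith
  have h4 : 1 - x / 2 * Real.exp (-t) ≤ Real.exp (-(x / 2 * Real.exp (-t))) := by
    have := Real.add_one_le_exp (-(x / 2 * Real.exp (-t)))
    linarith
  have h5 := Real.exp_pos (-(x / 2 * Real.exp t))
  have h6 : 0 < x / 2 * Real.exp (-t) := by positivity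
  have h7 : |Real.exp (-(x / 2 * Real.exp t)) * Real.exp (-(x / 2 * Real.exp (-t))) - Real.exp (-(x / 2 * Real.exp t))| ≤
      x / 2 * Real.exp (-t) := by
    rw [abs_le]
    constructor <;> nlinarith
  rw [← mul_sub, abs_mul, abs_of_pos (pow_pos ht' m)]
  calc t ^ m * _ ≤ t ^ m * (x / 2 * Real.exp (-t)) := mul_le_mul_of_nonneg_left h7 (by positivity)
    _ = _ := by ring

/-- the limit -/
theorem tr_tendsto (m : ℕ) : Tendsto (fun x => tr m 0 x / m.factorial - NN (m + 1) (x / 2) / (m + 1).factorial) (𝓝[>] 0) (𝓝 0) := by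
  have h1 : Tendsto (fun x => tr m 0 x - ∫ t in Ioi (0 : ℝ), t ^ m * Real.exp (-(x / 2 * Real.exp t))) (𝓝[>] 0) (𝓝 0) := by
    rw [tendsto_zero_iff_norm_tendsto_zero]
    have h2 := (tendsto_half.mono_right nhdsWithin_le_nhds).mul_const (∫ t in Ioi (0 : ℝ), 1 * (t ^ m * Real.exp (-t)))
    rw [zero_mul] at h2
    refine squeeze_zero' (Eventually.of_forall fun x => norm_nonneg _) ?_ h2
    filter_upwards [self_mem_nhdsWithin] with x hx
    exact tr_E m hx
  have h2 : Tendsto (fun x : ℝ => EE (m + 1) (x / 2)) (𝓝[>] 0) (𝓝 0) := (EE_tendsto m).comp tendsto_half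
  have h3 := (h1.div_const (m.factorial : ℝ)).sub (h2.const_mul ((-1) ^ (m + 1)))
  rw [zero_div, mul_zero, sub_zero] at h3
  refine h3.congr' ?_
  filter_upwards [self_mem_nhdsWithin] with x hx
  have hx' : (0 : ℝ) < x := hx
  rw [Em m (y := x / 2) (by positivity), EE_rel (m + 1) (x := x / 2) (by positivity), Nat.factorial_succ]
  have h4 : ((-1 : ℝ) ^ (m + 1)) * (-1) ^ (m + 1) = 1 := by rw [← mul_pow]; norm_num
  have h5 : (m.factorial : ℝ) ≠ 0 := by positivity
  have h6 : ((m : ℝ) + 1) ≠ 0 := by positivity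
  push_cast
  field_simp
  ring_nf
  ring_nf at h4
  linear_combination (Real.exp (x * (-1 / 2)) * dl (1 + m) (x * (1 / 2)) - NN (1 + m) (x * (1 / 2))) * h4

end Pool.Agent.H18.Wd
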