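import Pool.Agent.H18.Wd.Mom
import Pool.Agent.H18.Wd.HSer

/-!
# The moments as combinations of the functions `H_j`
-/

set_option autoImplicit false
set_option linter.unusedSectionVars false

open Filter Topology Set MeasureTheory

namespace Pool.Agent.H18.Wd

open Pool.Agent.H18.Bes Pool.Agent.R352.E

/-! ### Uniqueness for the Bessel equation -/

/-- a solution of the Bessel equation tending to `0` vanishes -/
theorem bessel_zero {D M : ℝ → ℝ} (hD' : ∀ x, 0 < x → HasDerivAt D (M x / x) x)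
    (hM' : ∀ x, 0 < x → HasDerivAt M (x * D x) x) (lD : Tendsto D (𝓝[>] 0) (𝓝 0)) : ∀ x, 0 < x → D x = 0 := by
  set f : ℝ → ℝ := fun x => Fk ℝ (x ^ 2 / 4) with hf
  set j : ℝ → ℝ := fun x => 2 * Jk ℝ (x ^ 2 / 4) with hj
  have hf' : ∀ x, 0 < x → HasDerivAt f (j x / x) x := fun x hx => by
    refine ((Fk_deriv (x ^ 2 / 4)).comp x (sq_deriv x)).congr_deriv ?_
    show F1 ℝ (x ^ 2 / 4) * (x / 2) = 2 * Jk ℝ (x ^ 2 / 4) / x
    rw [← mul_F1]
    field_simp
    ring
  have hj' : ∀ x, 0 < x → HasDerivAt j (x * f x) x := fun x hx => by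
    refine (((Jk_deriv (x ^ 2 / 4)).comp x (sq_deriv x)).const_mul 2).congr_deriv ?_
    show 2 * (Fk ℝ (x ^ 2 / 4) * (x / 2)) = x * Fk ℝ (x ^ 2 / 4)
    ring
  have lf : Tendsto f (𝓝[>] 0) (𝓝 1) := by
    have h1 := ((Fk_deriv (0 : ℝ)).continuousAt.tendsto).comp (tendsto_sq.mono_right nhdsWithin_le_nhds)
    rwa [Fk_zero] at h1
  have lj : Tendsto j (𝓝[>] 0) (𝓝 0) := by
    have h1 := (((Jk_deriv (0 : ℝ)).continuousAt.tendsto).comp (tendsto_sq.mono_right nhdsWithin_le_nhds)).const_mul 2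
    rwa [Jk_zero, mul_zero] at h1
  have hfp : ∀ x, 0 < f x := fun x => by
    have := Fk_pos (ρ := x ^ 2 / 4) (by positivity)
    show 0 < Fk ℝ (x ^ 2 / 4)
    linarith
  -- the Wronskian is constant
  have hWd : ∀ y, 0 < y → HasDerivAt (fun x => f x * M x - j x * D x) 0 y := fun y hy => by
    have h1 := ((hf' y hy).mul (hM' y hy)).sub ((hj' y hy).mul (hD' y hy))
    refine h1.congr_deriv ?_
    show j y / y * M y + f y * (y * D y) - (y * f y * D y + j y * (M y / y)) = 0
    ring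
  set W : ℝ := f 1 * M 1 - j 1 * D 1 with hW
  have hWc : ∀ x, 0 < x → f x * M x - j x * D x = W := by
    intro x hx
    have h1 : (Ioi (0 : ℝ)).EqOn (fun x => f x * M x - j x * D x) (fun _ => W) := by
      refine isOpen_Ioi.eqOn_of_deriv_eq (𝕜 := ℝ) (f := fun x => f x * M x - j x * D x)
        (g := fun _ => W) (convex_Ioi (0 : ℝ)).isPreconnected ?_ ?_ ?_ (show (1 : ℝ) ∈ Ioi (0 : ℝ) from (one_pos : (0 : ℝ) < 1)) rfl
      · intro y hy; exact (hWd y hy).differentiableAt.differentiableWithinAt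
      · exact differentiableOn_const _
      · intro y hy
        rw [(hWd y hy).deriv, deriv_const]
    exact h1 hx
  have lM : Tendsto M (𝓝[>] 0) (𝓝 W) := by
    have h1 : Tendsto (fun x => (W + j x * D x) / f x) (𝓝[>] 0) (𝓝 ((W + 0 * 0) / 1)) :=
      ((lj.mul lD).const_add W).div lf one_ne_zero
    rw [mul_zero, add_zero, div_one] at h1
    refine h1.congr' ?_
    filter_upwards [self_mem_nhdsWithin] with x hx
    rw [← hWc x hx, div_eq_iff (hfp x).ne']
    ring
  -- the constant is zero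
  have hW0 : W = 0 := by
    by_contra hne
    have hpos : 0 < |W| := abs_pos.2 hne
    have e1 : ∀ᶠ x in 𝓝[>] (0 : ℝ), |W| / 2 < |M x| := by
      have := lM.abs
      exact this.eventually (lt_mem_nhds (by linarith))
    have e2 : ∀ᶠ x in 𝓝[>] (0 : ℝ), |D x| < |W| / 16 := by
      have := lD.abs
      rw [abs_zero] at this
      exact this.eventually (gt_mem_nhds (by linarith))
    obtain ⟨u, hu0, hu⟩ := mem_nhdsGT_iff_exists_Ioo_subset.1 (e1.and e2)
    have hu0' : (0 : ℝ) < u := hu0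
    have ha : (0 : ℝ) < u / 4 := by positivity
    have hab : u / 4 < u / 2 := by linarith
    obtain ⟨ξ, hξ, hξ'⟩ := exists_hasDerivAt_eq_slope D (fun x => M x / x) hab
      (fun y hy => (hD' y (ha.trans_le hy.1)).continuousAt.continuousWithinAt) (fun y hy => hD' y (ha.trans hy.1))
    have hξ0 : 0 < ξ := ha.trans hξ.1
    have h1 := (hu (show ξ ∈ Ioo 0 u from ⟨hξ0, by linarith [hξ.2]⟩)).1
    have h2 := (hu (show u / 4 ∈ Ioo 0 u from ⟨ha, by linarith⟩)).2
    have h3 := (hu (show u / 2 ∈ Ioo 0 u from ⟨by linarith, by linarith⟩)).2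
    have h4 : M ξ = (D (u / 2) - D (u / 4)) * (ξ / (u / 4)) := by
      have h5 : u / 2 - u / 4 = u / 4 := by ring
      rw [h5] at hξ'
      rw [div_eq_div_iff hξ0.ne' ha.ne'] at hξ'
      field_simp
      linarith
    have h5 : |M ξ| ≤ (|D (u / 2)| + |D (u / 4)|) * 2 := by
      rw [h4, abs_mul, abs_of_pos (show 0 < ξ / (u / 4) by positivity)]
      have h6 : ξ / (u / 4) ≤ 2 := by
        rw [div_le_iff₀ ha]
        linarith [hξ.2]
      exact mul_le_mul (abs_sub _ _) h6 (by positivity) (by positivity)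
    have h1' : |W| / 2 < |M ξ| := h1
    have h2' : |D (u / 4)| < |W| / 16 := h2
    have h3' : |D (u / 2)| < |W| / 16 := h3
    linarith
  have hG : ∀ x, 0 < x → D x / f x = 0 := by
    intro x hx
    refine zero_of_deriv (F := fun x => D x / f x) (fun y hy => ?_) ?_ hx
    · have h1 := (hD' y hy).div (hf' y hy) (hfp y).ne'
      refine h1.congr_deriv ?_
      have h2 := hWc y hy
      rw [hW0] at h2
      have h3 : M y / y * f y - D y * (j y / y) = 0 := by
        field_simp
        linear_combination h2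
      rw [h3, zero_div]
    · have h1 := lD.div lf one_ne_zero
      rw [zero_div] at h1
      exact h1
  intro x hx
  have := hG x hx
  rw [div_eq_zero_iff] at this
  exact this.resolve_right (hfp x).ne'

/-! ### Power series with coefficients depending on a parameter -/

open PowerSeries in
/-- the coefficients are differentiable -/
def PD (A : ℝ → ℝ⟦X⟧) (A' : ℝ⟦X⟧) (x : ℝ) : Prop := ∀ n, HasDerivAt (fun x => coeff n (A x)) (coeff n A') x

open PowerSeries in
theorem PD.mul {A B : ℝ → ℝ⟦X⟧} {A' B' : ℝ⟦X⟧} {x : ℝ} (hA : PD A A' x) (hB : PD B B' x) :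
    PD (fun x => A x * B x) (A' * B x + A x * B') x := by
  intro n
  simp only [coeff_mul, map_add]
  rw [← Finset.sum_add_distrib]
  exact HasDerivAt.fun_sum fun p _ => (hA p.1).mul (hB p.2)

open PowerSeries in
theorem PD.sub {A B : ℝ → ℝ⟦X⟧} {A' B' : ℝ⟦X⟧} {x : ℝ} (hA : PD A A' x) (hB : PD B B' x) :
    PD (fun x => A x - B x) (A' - B') x := by
  intro n
  simp only [map_sub]
  exact (hA n).sub (hB n)

open PowerSeries in
theorem PD.X_mul {A : ℝ → ℝ⟦X⟧} {A' : ℝ⟦X⟧} {x : ℝ} (hA : PD A A' x) :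
    PD (fun x => X * A x) (X * A') x := by
  intro n
  rcases n with _ | n
  · simp only [coeff_zero_X_mul]
    exact hasDerivAt_const _ _
  · simp only [coeff_succ_X_mul]
    exact hA n

open PowerSeries in
theorem PD.congr {A : ℝ → ℝ⟦X⟧} {A' B' : ℝ⟦X⟧} {x : ℝ} (hA : PD A A' x) (h : A' = B') : PD A B' x := h ▸ hA

open PowerSeries in
/-- generating series -/
noncomputable def sH (x : ℝ) : ℝ⟦X⟧ := PowerSeries.mk fun j => Hk ℝ j (x ^ 2 / 4)

open PowerSeries in
noncomputable def sG (x : ℝ) : ℝ⟦X⟧ := PowerSeries.mk fun j => 2 * Gk ℝ j (x ^ 2 / 4)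

open PowerSeries in
theorem sH_deriv {x : ℝ} (hx : 0 < x) : PD sH (C (1 / x) * sG x) x := by
  intro n
  simp only [sH, sG, coeff_mk, coeff_C_mul]
  refine ((Hk_deriv n (x ^ 2 / 4)).comp x (sq_deriv x)).congr_deriv ?_
  rw [← mul_H1]
  field_simp
  ring

open PowerSeries in
theorem sG_deriv {x : ℝ} (hx : 0 < x) : PD sG (C x * sH x + C (2 / x) * (X * sG x)) x := by
  intro n
  rcases n with _ | n
  · simp only [sH, sG, coeff_mk, map_add, coeff_C_mul, coeff_zero_X_mul]
    refine (((Gk_deriv_zero (x ^ 2 / 4)).comp x (sq_deriv x)).const_mul 2).congr_deriv ?_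
    ring
  · simp only [sH, sG, coeff_mk, map_add, coeff_C_mul, coeff_succ_X_mul]
    refine (((Gk_deriv_succ n (x ^ 2 / 4)).comp x (sq_deriv x)).const_mul 2).congr_deriv ?_
    rw [← mul_H1]
    field_simp
    ring

open PowerSeries in
theorem PB_deriv {x : ℝ} (hx : 0 < x) : PD (fun x => PB (x / 2)) (C (-1 / x) * (X * PB (x / 2))) x := by
  have h1 : PD (fun x => PE (-Real.log (x / 2))) (C (-1 / x) * (X * PE (-Real.log (x / 2)))) x := by
    intro n
    have h2 : HasDerivAt (fun x : ℝ => -Real.log (x / 2)) (-1 / x) x := by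
      have h3 : HasDerivAt (fun x : ℝ => x / 2) (1 / 2) x := (hasDerivAt_id x).div_const 2
      refine ((h3.log (by positivity)).neg).congr_deriv ?_
      field_simp
    rcases n with _ | n
    · simp only [PE, coeff_mk, coeff_C_mul, coeff_zero_X_mul, pow_zero, mul_zero]
      exact hasDerivAt_const _ _
    · simp only [PE, coeff_mk, coeff_C_mul, coeff_succ_X_mul]
      refine ((h2.pow (n + 1)).div_const _).congr_deriv ?_
      rw [Nat.add_sub_cancel, Nat.factorial_succ]
      have h5 : (n.factorial : ℝ) ≠ 0 := by positivity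
      have h6 : ((n : ℝ) + 1) ≠ 0 := by positivity
      push_cast
      field_simp
  have h2 : PD (fun _ => PA) 0 x := fun n => by
    simp only [map_zero]
    exact hasDerivAt_const _ _
  refine (h1.mul h2).congr ?_
  rw [PB]
  ring

open PowerSeries in
/-- the series of the solutions -/
noncomputable def sN (x : ℝ) : ℝ⟦X⟧ := sH x * PB (x / 2)

open PowerSeries in
noncomputable def sM (x : ℝ) : ℝ⟦X⟧ := sG x * PB (x / 2) - X * (sH x * PB (x / 2))

open PowerSeries in
theorem sN_deriv {x : ℝ} (hx : 0 < x) : PD sN (C (1 / x) * sM x) x := by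
  refine ((sH_deriv hx).mul (PB_deriv hx)).congr ?_
  have h : (C (-1 / x) : ℝ⟦X⟧) = -C (1 / x) := by rw [← map_neg]; congr 1; ring
  rw [h, sM]
  ring

open PowerSeries in
theorem sM_deriv {x : ℝ} (hx : 0 < x) : PD sM (C x * sN x + C (1 / x) * (X ^ 2 * sN x)) x := by
  refine (((sG_deriv hx).mul (PB_deriv hx)).sub ((sH_deriv hx).mul (PB_deriv hx)).X_mul).congr ?_
  have h : (C (-1 / x) : ℝ⟦X⟧) = -C (1 / x) := by rw [← map_neg]; congr 1; ring
  have h' : (C (2 / x) : ℝ⟦X⟧) = 2 * C (1 / x) := by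
    have : (2 : ℝ⟦X⟧) = C 2 := by rw [map_ofNat]
    rw [this, ← map_mul]; congr 1; ring
  rw [h, h', sN]
  ring

/-! ### Limits -/

theorem log_pow_mul_tendsto (a : ℕ) : Tendsto (fun y : ℝ => Real.log y ^ a * y) (𝓝[>] 0) (𝓝 0) := by
  have h1 : Tendsto (fun x : ℝ => Real.log x ^ a / x) atTop (𝓝 0) :=
    (Real.isLittleO_pow_log_id_atTop (n := a)).tendsto_div_nhds_zero
  have h2 := (h1.comp tendsto_inv_nhdsGT_zero).const_mul ((-1) ^ a)
  rw [mul_zero] at h2
  refine h2.congr' ?_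
  filter_upwards [self_mem_nhdsWithin] with y hy
  have hy' : (0 : ℝ) < y := hy
  show (-1) ^ a * (Real.log y⁻¹ ^ a / y⁻¹) = _
  rw [Real.log_inv, neg_pow, div_inv_eq_mul]
  have h3 : ((-1 : ℝ) ^ a) * (-1) ^ a = 1 := by rw [← mul_pow]; norm_num
  linear_combination (Real.log y ^ a * y) * h3

theorem log_pow_tendsto (a : ℕ) {g : ℝ → ℝ} {g' : ℝ} (hg : HasDerivAt g g' 0) (h0 : g 0 = 0) :
    Tendsto (fun x => Real.log (x / 2) ^ a * g (x ^ 2 / 4)) (𝓝[>] 0) (𝓝 0) := by
  have h1 : Tendsto (fun ρ : ℝ => ρ⁻¹ * g ρ) (𝓝[≠] 0) (𝓝 g') := by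
    have := hasDerivAt_iff_tendsto_slope.1 hg
    refine this.congr fun ρ => ?_
    rw [slope_def_field, h0, sub_zero, sub_zero]
    ring
  have h2 := h1.comp tendsto_sq
  have h3 := (log_pow_mul_tendsto a).comp tendsto_half
  have h4 : Tendsto (fun x : ℝ => x / 2) (𝓝[>] 0) (𝓝 0) := tendsto_half.mono_right nhdsWithin_le_nhds
  have h5 := h3.mul (h4.mul h2)
  rw [zero_mul] at h5
  refine h5.congr' ?_
  filter_upwards [self_mem_nhdsWithin] with x hx
  have hx' : (0 : ℝ) < x := hx
  show Real.log (x / 2) ^ a * (x / 2) * (x / 2 * ((x ^ 2 / 4)⁻¹ * g (x ^ 2 / 4))) = _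
  field_simp
  ring

theorem tendsto_sum_zero {ι : Type*} (s : Finset ι) {f : ι → ℝ → ℝ} {l : Filter ℝ} (h : ∀ i ∈ s, Tendsto (f i) l (𝓝 0)) :
    Tendsto (fun x => ∑ i ∈ s, f i x) l (𝓝 0) := by
  have := tendsto_finsetSum s h
  rwa [Finset.sum_const_zero] at this

open PowerSeries in
theorem sN_tendsto (n : ℕ) : Tendsto (fun x => coeff n (sN x) - coeff n (PB (x / 2))) (𝓝[>] 0) (𝓝 0) := by
  have h1 : ∀ x, coeff n (sN x) - coeff n (PB (x / 2)) = ∑ p ∈ Finset.HasAntidiagonal.antidiagonal n,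
      ∑ q ∈ Finset.HasAntidiagonal.antidiagonal p.2, ((-1) ^ q.1 / (q.1.factorial : ℝ) * (mo q.2 / q.2.factorial)) *
        (Real.log (x / 2) ^ q.1 * (Hk ℝ p.1 (x ^ 2 / 4) - (if p.1 = 0 then 1 else 0))) := by
    intro x
    have e : sN x - PB (x / 2) = (sH x - 1) * (PE (-Real.log (x / 2)) * PA) := by rw [sN, PB]; ring
    rw [← map_sub, e, coeff_mul]
    refine Finset.sum_congr rfl fun p _ => ?_
    rw [coeff_mul, Finset.mul_sum]
    refine Finset.sum_congr rfl fun q _ => ?_
    rw [map_sub, coeff_one, sH, PE, PA, coeff_mk, coeff_mk, coeff_mk, neg_pow]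
    ring
  simp only [h1]
  refine tendsto_sum_zero _ fun p _ => ?_
  refine tendsto_sum_zero _ fun q _ => ?_
  have h2 := (log_pow_tendsto q.1 (g := fun ρ => Hk ℝ p.1 ρ - (if p.1 = 0 then 1 else 0))
    ((Hk_deriv p.1 0).sub_const _) (by show Hk ℝ p.1 0 - _ = 0; rw [Hk_zero, sub_self])).const_mul
    ((-1) ^ q.1 / (q.1.factorial : ℝ) * (mo q.2 / q.2.factorial))
  rw [mul_zero] at h2
  exact h2

/-! ### The identity on the positive real axis -/

open PowerSeries in
theorem tr_eq (k : ℕ) : ∀ x, 0 < x → tr (2 * k) 0 x / (2 * k).factorial - coeff (2 * k + 1) (sN x) = 0 := by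
  induction k with
  | zero =>
    refine bessel_zero (M := fun x => -x * tr 0 1 x / (2 * 0).factorial - coeff (2 * 0 + 1) (sM x)) ?_ ?_ ?_
    · intro x hx
      have h1 := sN_deriv hx (2 * 0 + 1)
      rw [coeff_C_mul] at h1
      refine (((tr_deriv (2 * 0) 0 hx).div_const _).sub h1).congr_deriv ?_
      field_simp
    · intro x hx
      have h1 := sM_deriv hx (2 * 0 + 1)
      rw [map_add, coeff_C_mul, coeff_C_mul, coeff_X_pow_mul', if_neg (by norm_num)] at h1
      have h2 : HasDerivAt (fun x => -x * tr 0 1 x / (2 * 0).factorial) ((-1 * tr 0 1 x + -x * -tr 0 (1 + 1) x) / (2 * 0).factorial) x :=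
        (((hasDerivAt_id x).neg).mul (tr_deriv 0 1 hx)).div_const _
      refine (h2.sub h1).congr_deriv ?_
      have h3 := tr_ode_zero hx
      simp only [mul_zero, Nat.factorial_zero, Nat.cast_one, div_one, zero_add]
      refine mul_left_cancel₀ hx.ne' ?_
      linear_combination h3
    · have h1 := (tr_tendsto (2 * 0)).sub (sN_tendsto (2 * 0 + 1))
      rw [sub_zero] at h1
      refine h1.congr fun x => ?_
      rw [coeff_PB]
      ring
  | succ k ih =>
    refine bessel_zero (M := fun x => -x * tr (2 * (k + 1)) 1 x / (2 * (k + 1)).factorial - coeff (2 * (k + 1) + 1) (sM x)) ?_ ?_ ?_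
    · intro x hx
      have h1 := sN_deriv hx (2 * (k + 1) + 1)
      rw [coeff_C_mul] at h1
      refine (((tr_deriv (2 * (k + 1)) 0 hx).div_const _).sub h1).congr_deriv ?_
      field_simp
    · intro x hx
      have h1 := sM_deriv hx (2 * (k + 1) + 1)
      rw [map_add, coeff_C_mul, coeff_C_mul, show 2 * (k + 1) + 1 = (2 * k + 1) + 2 by ring, coeff_X_pow_mul] at h1
      have h2 : HasDerivAt (fun x => -x * tr (2 * (k + 1)) 1 x / (2 * (k + 1)).factorial)
          ((-1 * tr (2 * (k + 1)) 1 x + -x * -tr (2 * (k + 1)) (1 + 1) x) / (2 * (k + 1)).factorial) x :=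
        (((hasDerivAt_id x).neg).mul (tr_deriv (2 * (k + 1)) 1 hx)).div_const _
      refine (h2.sub h1).congr_deriv ?_
      have h3 := tr_ode (2 * k) hx
      have h4 := ih x hx
      have h5 : ((2 * (k + 1)).factorial : ℝ) = (((2 * k : ℕ) : ℝ) + 2) * (((2 * k : ℕ) : ℝ) + 1) * ((2 * k).factorial : ℝ) := by
        rw [show 2 * (k + 1) = 2 * k + 1 + 1 by ring, Nat.factorial_succ, Nat.factorial_succ]
        push_cast
        ring
      have h6 : ((2 * k).factorial : ℝ) ≠ 0 := by positivity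
      have h7 : (((2 * k : ℕ) : ℝ) + 2) ≠ 0 := by positivity
      have h8 : (((2 * k : ℕ) : ℝ) + 1) ≠ 0 := by positivity
      have e : 2 * (k + 1) = 2 * k + 2 := by ring
      rw [sub_eq_zero, div_eq_iff h6] at h4
      rw [h5, e, show (1 : ℕ) + 1 = 2 from rfl]
      rw [h4] at h3
      set F := (((2 * k : ℕ) : ℝ) + 2) * (((2 * k : ℕ) : ℝ) + 1) * ((2 * k).factorial : ℝ) with hF
      have hF0 : F ≠ 0 := by rw [hF]; positivity
      have h9 : x ^ 2 * tr (2 * k + 2) 2 x - x * tr (2 * k + 2) 1 x = x ^ 2 * tr (2 * k + 2) 0 x + F * coeff (2 * k + 1) (sN x) := by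
        rw [hF]
        linear_combination h3
      field_simp
      linear_combination h9
    · have h1 := (tr_tendsto (2 * (k + 1))).sub (sN_tendsto (2 * (k + 1) + 1))
      rw [sub_zero] at h1
      refine h1.congr fun x => ?_
      rw [coeff_PB]
      ring

end Pool.Agent.H18.Wd
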