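import Pool.Agent.H18.Wd.KFin
import Pool.Agent.H18.L.N902.EW.Ex
import Pool.Agent.H18.L.N902.EW.Ex3

/-!
# The quotients `ζ(2n) / D(n)²`, `D(2n) / D(n)²` for the Bessel and Poisson means `D(k)` of the tails of `ζ(k)`
-/

set_option autoImplicit false
set_option linter.unusedSectionVars false

open Set

namespace Pool.Agent.H18.Wd

open Pool.Agent.N902.EW Pool.Agent.H18.Bes Pool.Agent.R352.E

section

variable {F : Type*} {E : Type*} [Field F] [Field E] [Algebra F E]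

/-- exchange in a finite family -/
lemma ai_of_range {ι : Type*} [Fintype ι] {s t : ι → E} (hs : AlgebraicIndependent F s)
    (h : ∀ i, s i ∈ clf F (range t)) : AlgebraicIndependent F t := by
  by_contra hcon
  obtain ⟨I, hI, hI'⟩ := exists_small t hcon
  have h1 : ∀ i, s i ∈ clf F (I : Set E) := fun i => clf_le (by rintro _ ⟨j, rfl⟩; exact hI' j) (h i)
  have h2 := (card_le_eRk hs h1).trans (Matroid.eRk_le_encard _ _)
  rw [encard_coe_eq_coe_finsetCard] at h2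
  have h3 : Fintype.card ι ≤ I.card := by exact_mod_cast h2
  omega

/-- exchange in a family of pairs -/
lemma ai_of_pairs {N : Type*} {s t : N × Bool → E} (hs : AlgebraicIndependent F s)
    (h : ∀ n b, s (n, b) ∈ clf F {t (n, false), t (n, true)}) : AlgebraicIndependent F t := by
  classical
  refine algebraicIndependent_of_finite_type fun T hT => ?_
  let B : Finset N := hT.toFinset.image Prod.fst
  have h1 : AlgebraicIndependent F (fun p : B × Bool => t (p.1.1, p.2)) := by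
    have h0 : AlgebraicIndependent F (fun p : B × Bool => s (p.1.1, p.2)) := by
      refine hs.comp (fun p : B × Bool => ((p.1.1, p.2) : N × Bool)) ?_
      rintro ⟨a, b⟩ ⟨c, d⟩ hab
      have h1 := (Prod.mk.injEq _ _ _ _ ▸ hab : (a : N) = c ∧ b = d)
      exact Prod.ext (Subtype.ext h1.1) h1.2
    refine ai_of_range h0 ?_
    rintro ⟨a, b⟩
    refine clf_mono ?_ (h a.1 b)
    rintro z (rfl | rfl)
    · exact ⟨(a, false), rfl⟩
    · exact ⟨(a, true), rfl⟩
  refine h1.comp (fun p : T => ((⟨p.1.1, Finset.mem_image.2 ⟨p.1, by simp, rfl⟩⟩, p.1.2) : B × Bool)) ?_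
  intro p q hpq
  have h2 := (Prod.mk.injEq _ _ _ _ ▸ hpq : (⟨p.1.1, _⟩ : B) = ⟨q.1.1, _⟩ ∧ p.1.2 = q.1.2)
  exact Subtype.ext (Prod.ext (congrArg (fun z => z.1) h2.1) h2.2)

end

universe u

/-- the total defect is at most `r` -/
theorem total_defect' {F : Type*} {E : Type u} [Field F] [Field E] [Algebra F E] {α β : Type*} {s : α × β → E}
    (hs : AlgebraicIndependent F s) {r : ℕ} (y : Fin r → E)
    (T : α → Set E) (A : Finset α) (B : Finset β) (hT : ∀ a ∈ A, (T a).Finite)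
    (h : ∀ a ∈ A, ∀ b ∈ B, s (a, b) ∈ clf F (T a ∪ range y)) :
    ((A.card * B.card : ℕ) : Cardinal) ≤ (r : Cardinal) + ∑ a ∈ A, Algebra.trdeg (IntermediateField.adjoin F (range y))
      (IntermediateField.adjoin (IntermediateField.adjoin F (range y)) (T a)) := by
  classical
  let L := IntermediateField.adjoin F (range y)
  choose I hI using fun a => (Ma L).exists_isBasis (T a) (subset_univ _)
  have hfin : ∀ a : A, (I a.1).Finite := fun a => (hT a.1 a.2).subset (hI a.1).subset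
  have htr : ∀ a : A, (((hfin a).toFinset.card : ℕ) : Cardinal) ≤ Algebra.trdeg L (IntermediateField.adjoin L (T a.1)) := by
    intro a
    have hind : AlgebraicIndependent L (fun i : I a.1 => (i : E)) := (hI a.1).indep
    have htA : ∀ i : I a.1, (i : E) ∈ IntermediateField.adjoin L (T a.1) := fun i =>
      IntermediateField.subset_adjoin L _ ((hI a.1).subset i.2)
    let f : I a.1 → IntermediateField.adjoin L (T a.1) := fun i => ⟨i, htA i⟩
    have hf : AlgebraicIndependent L f := ai_sub (IntermediateField.adjoin L (T a.1)) f hind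
    have := (hfin a).fintype
    have h2 := hf.cardinalMk_le_trdeg
    have h3 : (hfin a).toFinset.card = Fintype.card (I a.1) := by
      rw [Set.Finite.card_toFinset]
    rw [h3, ← Cardinal.mk_fintype]
    exact h2
  let J : Set E := range y ∪ ((A.attach.biUnion fun a => (hfin a).toFinset : Finset E) : Set E)
  have hcl : ∀ p : A × B, s (p.1.1, p.2.1) ∈ clf F J := by
    rintro ⟨a, b⟩
    refine clf_le ?_ (h a a.2 b b.2)
    rintro z (hz | hz)
    · have h0 : z ∈ clf L (I a.1) := (hI a.1).subset_closure hz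
      have h1 := clf_adjoin h0
      refine clf_mono ?_ h1
      rintro w (hw | hw)
      · right
        exact Finset.mem_coe.2 (Finset.mem_biUnion.2 ⟨a, Finset.mem_attach _ _, (Set.Finite.mem_toFinset _).2 hw⟩)
      · left; exact hw
    · exact subset_clf _ (Or.inl hz)
  have hx : AlgebraicIndependent F (fun p : A × B => s (p.1.1, p.2.1)) := by
    refine hs.comp (fun p : A × B => (p.1.1, p.2.1)) ?_
    rintro ⟨a, b⟩ ⟨c, d⟩ hab
    have h1 := (Prod.mk.injEq _ _ _ _ ▸ hab : (a : α) = c ∧ (b : β) = d)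
    exact Prod.ext (Subtype.ext h1.1) (Subtype.ext h1.2)
  have h1 := card_le_eRk hx hcl
  have h2 : (Ma F).eRk J ≤ ((r + ∑ a ∈ A.attach, (hfin a).toFinset.card : ℕ) : ℕ∞) := by
    refine (Matroid.eRk_le_encard _ _).trans ((encard_union_le _ _).trans ?_)
    have e1 : (range y).encard ≤ (r : ℕ∞) := by
      rw [← image_univ]
      refine (encard_image_le _ _).trans ?_
      rw [encard_univ, ENat.card_eq_coe_fintype_card, Fintype.card_fin]
    have e2 : (((A.attach.biUnion fun a => (hfin a).toFinset : Finset E) : Set E)).encard ≤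
        ((∑ a ∈ A.attach, (hfin a).toFinset.card : ℕ) : ℕ∞) := by
      rw [encard_coe_eq_coe_finsetCard]
      exact_mod_cast Finset.card_biUnion_le
    rw [Nat.cast_add]
    exact add_le_add e1 e2
  have h3 := h1.trans h2
  rw [Fintype.card_prod, Fintype.card_coe, Fintype.card_coe] at h3
  have h4 : A.card * B.card ≤ r + ∑ a ∈ A.attach, (hfin a).toFinset.card := by exact_mod_cast h3
  calc ((A.card * B.card : ℕ) : Cardinal) ≤ ((r + ∑ a ∈ A.attach, (hfin a).toFinset.card : ℕ) : Cardinal) := by exact_mod_cast h4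
    _ = (r : Cardinal) + ∑ a ∈ A.attach, (((hfin a).toFinset.card : ℕ) : Cardinal) := by push_cast; rfl
    _ ≤ (r : Cardinal) + ∑ a ∈ A.attach, Algebra.trdeg L (IntermediateField.adjoin L (T a.1)) := by
      gcongr with a ha
      exact htr a
    _ = _ := by rw [Finset.sum_attach A fun a => Algebra.trdeg L (IntermediateField.adjoin L (T a))]

/-- the even zeta values -/
lemma zeta_even_mem {L : Subfield ℂ} (hpi : (Real.pi : ℂ) ∈ L) {n : ℕ} (hn : n ≠ 0) : riemannZeta ((2 * n : ℕ) : ℂ) ∈ L := by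
  have h6 := riemannZeta_two_mul_nat (k := n) hn
  have h7 : ((2 * n : ℕ) : ℂ) = 2 * (n : ℂ) := by push_cast; ring
  rw [h7, h6]
  have hq : ∀ q : ℚ, (q : ℂ) ∈ L := fun q => SubfieldClass.ratCast_mem L q
  have hn' : ∀ n : ℕ, (n : ℂ) ∈ L := fun n => natCast_mem L n
  refine L.div_mem (L.mul_mem (L.mul_mem (L.mul_mem (L.pow_mem (L.neg_mem L.one_mem) _) (L.pow_mem ?_ _)) (L.pow_mem hpi _))
    (hq _)) (hn' _)
  exact_mod_cast hn' 2

lemma zeta_ne_zero' {n : ℕ} (hn : 2 ≤ n) : riemannZeta (n : ℂ) ≠ 0 :=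
  riemannZeta_ne_zero_of_one_le_re (by
    simp only [Complex.natCast_re]
    exact_mod_cast (by omega : 1 ≤ n))

/-- the means at a point -/
noncomputable def DM (Z X : Set ℂ) : Z ⊕ X → ℕ → ℂ := fun p k => Sum.elim (fun z => RT k z.1) (fun x => PT k x.1) p

/-- the independent numbers at a point -/
noncomputable def SM (Z X : Set ℂ) : Z ⊕ X → ℕ → ℂ := fun p k =>
  Sum.elim (fun z => Vv k z.1 / I0 z.1) (fun x => PS k x.1) p

/-- the two quotients for the sequence `D` -/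
noncomputable def quo (D : ℕ → ℂ) (n : ℕ) (b : Bool) : ℂ :=
  bif b then riemannZeta ((2 * n : ℕ) : ℂ) / D n ^ 2 else D (2 * n) / D n ^ 2

section

variable {Z X : Set ℂ}

theorem DM_split (hZ : Pts Z) (p : Z ⊕ X) {k : ℕ} (hk : 2 ≤ k) : SM Z X p k = riemannZeta k - DM Z X p k := by
  rcases p with z | x
  · have h1 := R_split hk (I0_ne (hZ.1 _ z.2).1)
    show Vv k z.1 / I0 z.1 = riemannZeta k - RT k z.1
    rw [h1]; ring
  · have h3 := zeta_split hk x.1
    show PS k x.1 = riemannZeta k - PT k x.1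
    rw [h3]; ring

theorem ai_SM (hX : ∀ x ∈ X, IsAlgebraic ℚ x ∧ ∀ y ∈ X, x + y ≠ 0) (hZ : Pts Z) :
    AlgebraicIndependent KB (fun p : (Z ⊕ X) × {k : ℕ // 2 ≤ k} => SM Z X p.1 p.2.1) := by
  have h := ai_sq (Q := {k | 2 ≤ k}) (Z := Z) (X := X) (L := 0) (P := ∅) (fun k hk => hk) hX hZ (by simp)
  let g : (Z ⊕ X) × {k : ℕ // 2 ≤ k} → Iq {k | 2 ≤ k} Z X 0 ∅ := fun p => match p with
    | (Sum.inl z, k) => Sum.inl ⟨(k.1, z.1), k.2, z.2⟩
    | (Sum.inr x, k) => Sum.inr (Sum.inl ⟨(k.1, x.1), k.2, x.2⟩)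
  have hg : Function.Injective g := by
    rintro ⟨z | x, k⟩ ⟨w | y, l⟩ h
    · have h2 : (k.1, z.1) = (l.1, w.1) := (Subtype.mk.injEq _ _ _ _).mp (Sum.inl.inj h)
      obtain ⟨h3, h4⟩ := (Prod.mk.injEq _ _ _ _).mp h2
      exact Prod.ext (congrArg Sum.inl (Subtype.ext h4)) (Subtype.ext h3)
    · cases h
    · cases h
    · have h2 : (k.1, x.1) = (l.1, y.1) := (Subtype.mk.injEq _ _ _ _).mp (Sum.inl.inj (Sum.inr.inj h))
      obtain ⟨h3, h4⟩ := (Prod.mk.injEq _ _ _ _).mp h2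
      exact Prod.ext (congrArg Sum.inr (Subtype.ext h4)) (Subtype.ext h3)
  have h2 := h.comp g hg
  convert h2 using 1
  ext ⟨z | x, k⟩ <;> rfl

/-- at most `r` exceptional points -/
theorem exc_DM (hX : ∀ x ∈ X, IsAlgebraic ℚ x ∧ ∀ y ∈ X, x + y ≠ 0) (hZ : Pts Z) {r : ℕ} (y : Fin r → ℂ) (Q : Set ℕ)
    (hQ : ∀ k ∈ Q, 2 ≤ k ∧ riemannZeta k ∈ clf KB (range y)) :
    {p : Z ⊕ X | ¬ AlgebraicIndependent (IntermediateField.adjoin KB (range y)) (fun k : Q => DM Z X p k)}.encard ≤ (r : ℕ∞) := by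
  let g : (Z ⊕ X) × Q → (Z ⊕ X) × {k : ℕ // 2 ≤ k} := fun p => (p.1, ⟨p.2.1, (hQ _ p.2.2).1⟩)
  have hg : Function.Injective g := by
    rintro ⟨a, b⟩ ⟨c, d⟩ h
    obtain ⟨h1, h2⟩ := (Prod.mk.injEq _ _ _ _).mp h
    exact Prod.ext h1 (Subtype.ext (congrArg (fun z => z.1) h2))
  refine exceptions (s := fun p : (Z ⊕ X) × Q => SM Z X p.1 p.2.1) ((ai_SM hX hZ).comp g hg) y
    (fun p (k : Q) => DM Z X p k.1) (fun p k => ?_)
  have h1 : riemannZeta k.1 ∈ clf KB (insert (DM Z X p k.1) (range y)) :=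
    clf_mono (subset_insert _ _) (hQ _ k.2).2
  have h2 : DM Z X p k.1 ∈ clf KB (insert (DM Z X p k.1) (range y)) := subset_clf _ (mem_insert _ _)
  show SM Z X p k.1 ∈ _
  rw [DM_split hZ p (hQ _ k.2).1]
  exact (clf KB _).sub_mem h1 h2

/-- the total defect -/
theorem def_DM (hX : ∀ x ∈ X, IsAlgebraic ℚ x ∧ ∀ y ∈ X, x + y ≠ 0) (hZ : Pts Z) {r : ℕ} (y : Fin r → ℂ) (Q : Set ℕ)
    (hQ : ∀ k ∈ Q, 2 ≤ k ∧ riemannZeta k ∈ clf KB (range y)) (A : Finset (Z ⊕ X)) (B : Finset ℕ) (hB : (B : Set ℕ) ⊆ Q) :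
    ((A.card * B.card : ℕ) : Cardinal) ≤ (r : Cardinal) + ∑ p ∈ A, Algebra.trdeg (IntermediateField.adjoin KB (range y))
      (IntermediateField.adjoin (IntermediateField.adjoin KB (range y)) (DM Z X p '' (B : Set ℕ))) := by
  classical
  let g : (Z ⊕ X) × Q → (Z ⊕ X) × {k : ℕ // 2 ≤ k} := fun p => (p.1, ⟨p.2.1, (hQ _ p.2.2).1⟩)
  have hg : Function.Injective g := by
    rintro ⟨a, b⟩ ⟨c, d⟩ h
    obtain ⟨h1, h2⟩ := (Prod.mk.injEq _ _ _ _).mp h
    exact Prod.ext h1 (Subtype.ext (congrArg (fun z => z.1) h2))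
  have h0 := total_defect (s := fun p : (Z ⊕ X) × Q => SM Z X p.1 p.2.1) ((ai_SM hX hZ).comp g hg) y
    (fun p (k : Q) => DM Z X p k.1) (fun p k => by
      have h1 : riemannZeta k.1 ∈ clf KB (insert (DM Z X p k.1) (range y)) :=
        clf_mono (subset_insert _ _) (hQ _ k.2).2
      have h2 : DM Z X p k.1 ∈ clf KB (insert (DM Z X p k.1) (range y)) := subset_clf _ (mem_insert _ _)
      show SM Z X p k.1 ∈ _
      rw [DM_split hZ p (hQ _ k.2).1]
      exact (clf KB _).sub_mem h1 h2) A (B.attach.image fun k => (⟨k.1, hB k.2⟩ : Q))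
  have hinjB : Function.Injective (fun k : B => (⟨k.1, hB k.2⟩ : Q)) := fun a b h =>
    Subtype.ext (congrArg (fun z => z.1) h)
  rw [Finset.card_image_of_injective _ hinjB, Finset.card_attach] at h0
  refine h0.trans (le_of_eq ?_)
  congr 1
  refine Finset.sum_congr rfl fun x _ => ?_
  have himg : (fun k : Q => DM Z X x k.1) '' ((B.attach.image fun k => (⟨k.1, hB k.2⟩ : Q) : Finset Q) : Set Q) =
      DM Z X x '' (B : Set ℕ) := by
    ext z
    constructor
    · rintro ⟨k, hk, rfl⟩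
      obtain ⟨k', _, rfl⟩ := Finset.mem_image.1 (Finset.mem_coe.1 hk)
      exact ⟨k'.1, k'.2, rfl⟩
    · rintro ⟨k, hk, rfl⟩
      exact ⟨⟨k, hB hk⟩, Finset.mem_coe.2 (Finset.mem_image.2 ⟨⟨k, hk⟩, Finset.mem_attach _ _, rfl⟩), rfl⟩
  rw [himg]

/-- the quotients determine the means -/
theorem quo_mem {F : IntermediateField ℚ ℂ} {S : Set ℂ} {D : ℕ → ℂ} {n : ℕ} (hn : n ≠ 0) (hD : D n ≠ 0) (hpi : (Real.pi : ℂ) ∈ clf F S)
    (h1 : quo D n true ∈ clf F S) (h2 : quo D n false ∈ clf F S) : D n ∈ clf F S ∧ D (2 * n) ∈ clf F S := by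
  have hu : riemannZeta ((2 * n : ℕ) : ℂ) / D n ^ 2 ∈ clf F S := h1
  have hv : D (2 * n) / D n ^ 2 ∈ clf F S := h2
  have hz : riemannZeta ((2 * n : ℕ) : ℂ) ∈ clf F S := zeta_even_mem hpi hn
  have hz0 : riemannZeta ((2 * n : ℕ) : ℂ) ≠ 0 := zeta_ne_zero' (by omega)
  have hsq : D n ^ 2 ∈ clf F S := by
    have h4 := (clf F _).div_mem hz hu
    have h5 : riemannZeta ((2 * n : ℕ) : ℂ) / (riemannZeta ((2 * n : ℕ) : ℂ) / D n ^ 2) = D n ^ 2 := by
      field_simp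
    rwa [h5] at h4
  refine ⟨clf_pow two_ne_zero hsq, ?_⟩
  have h4 := (clf F _).mul_mem hv hsq
  have h5 : D (2 * n) / D n ^ 2 * D n ^ 2 = D (2 * n) := by
    field_simp
  rwa [h5] at h4

end

/-- the quotients -/
theorem ai_quo {F : Type*} [Field F] [Algebra F ℂ] {D : ℕ → ℂ} (hpi : IsAlgebraic F (Real.pi : ℂ)) (N : Set ℕ)
    (hN : ∀ n ∈ N, 3 ≤ n ∧ Odd n) (h : AlgebraicIndependent F (fun k : {k : ℕ | k ∈ N ∨ ∃ n ∈ N, k = 2 * n} => D k)) :
    AlgebraicIndependent F (fun p : N × Bool => quo D p.1.1 p.2) := by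
  let g : N × Bool → {k : ℕ | k ∈ N ∨ ∃ n ∈ N, k = 2 * n} := fun p =>
    ⟨bif p.2 then p.1.1 else 2 * p.1.1, by
      rcases p with ⟨n, b⟩
      cases b
      · exact Or.inr ⟨n.1, n.2, rfl⟩
      · exact Or.inl n.2⟩
  have hg : Function.Injective g := by
    rintro ⟨n, b⟩ ⟨m, c⟩ h
    have h1 := congrArg (fun z => z.1) h
    have hn := (hN n.1 n.2).2
    have hm := (hN m.1 m.2).2
    cases b <;> cases c
    · have h2 : 2 * n.1 = 2 * m.1 := h1
      exact Prod.ext (Subtype.ext (by show n.1 = m.1; omega)) rfl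
    · have h2 : 2 * n.1 = m.1 := h1
      exfalso
      rw [← h2] at hm
      exact (Nat.not_odd_iff_even.2 (even_two_mul _)) hm
    · have h2 : n.1 = 2 * m.1 := h1
      exfalso
      rw [h2] at hn
      exact (Nat.not_odd_iff_even.2 (even_two_mul _)) hn
    · have h2 : n.1 = m.1 := h1
      exact Prod.ext (Subtype.ext h2) rfl
  have h1 := h.comp g hg
  refine ai_of_pairs h1 ?_
  intro n b
  have hn := (hN n.1 n.2).1
  have hT : D n.1 ≠ 0 := by
    have h2 := h1.transcendental (n, true)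
    intro h3
    refine h2 ?_
    show IsAlgebraic F (D n.1)
    rw [h3]
    exact isAlgebraic_zero
  have hu : riemannZeta ((2 * n.1 : ℕ) : ℂ) / D n.1 ^ 2 ∈ clf F {quo D n.1 false, quo D n.1 true} :=
    subset_clf _ (Or.inr rfl)
  have hv : D (2 * n.1) / D n.1 ^ 2 ∈ clf F {quo D n.1 false, quo D n.1 true} :=
    subset_clf _ (Or.inl rfl)
  have hz : riemannZeta ((2 * n.1 : ℕ) : ℂ) ∈ clf F {quo D n.1 false, quo D n.1 true} :=
    zeta_even_mem (clf_of_alg hpi) (by omega)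
  have hz0 : riemannZeta ((2 * n.1 : ℕ) : ℂ) ≠ 0 := zeta_ne_zero' (by omega)
  have hsq : D n.1 ^ 2 ∈ clf F {quo D n.1 false, quo D n.1 true} := by
    have h4 := (clf F _).div_mem hz hu
    have h5 : riemannZeta ((2 * n.1 : ℕ) : ℂ) / (riemannZeta ((2 * n.1 : ℕ) : ℂ) / D n.1 ^ 2) = D n.1 ^ 2 := by
      field_simp
    rwa [h5] at h4
  cases b
  · show D (2 * n.1) ∈ _
    have h4 := (clf F _).mul_mem hv hsq
    have h5 : D (2 * n.1) / D n.1 ^ 2 * D n.1 ^ 2 = D (2 * n.1) := by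
      field_simp
    rwa [h5] at h4
  · show D n.1 ∈ _
    exact clf_pow two_ne_zero hsq

section

variable {Z X : Set ℂ} (hX : ∀ x ∈ X, IsAlgebraic ℚ x ∧ ∀ y ∈ X, x + y ≠ 0) (hZ : Pts Z) {r : ℕ} {y : Fin r → ℂ} {N : Set ℕ}
  (hN : ∀ n ∈ N, 3 ≤ n ∧ Odd n ∧ riemannZeta ((2 * n : ℕ) : ℂ) / riemannZeta n ^ 2 ∈ clf KB (range y))
  (hpi : (Real.pi : ℂ) ∈ clf KB (range y))

include hN hpi

theorem zeta_mem_of_quo : ∀ n ∈ N, riemannZeta n ∈ clf KB (range y) := by
  intro n hn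
  obtain ⟨h3, _, h2⟩ := hN n hn
  have h1 : riemannZeta ((2 * n : ℕ) : ℂ) ∈ clf KB (range y) := zeta_even_mem hpi (by omega)
  have h4 : riemannZeta ((2 * n : ℕ) : ℂ) ≠ 0 := zeta_ne_zero' (by omega)
  have h5 : riemannZeta (n : ℂ) ≠ 0 := zeta_ne_zero' (by omega)
  have h6 := (clf KB _).div_mem h1 h2
  have h7 : riemannZeta ((2 * n : ℕ) : ℂ) / (riemannZeta ((2 * n : ℕ) : ℂ) / riemannZeta n ^ 2) = riemannZeta n ^ 2 := by
    field_simp
  rw [h7] at h6
  exact clf_pow two_ne_zero h6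

include hX hZ

/-- the exceptional points for the quotients -/
theorem exc_quo : {p : Z ⊕ X | ¬ AlgebraicIndependent (IntermediateField.adjoin KB (range y))
      (fun q : N × Bool => quo (DM Z X p) q.1.1 q.2)}.encard ≤ (r : ℕ∞) := by
  refine le_trans (encard_le_encard ?_) (exc_DM hX hZ y {k : ℕ | k ∈ N ∨ ∃ n ∈ N, k = 2 * n} ?_)
  · intro p hp h
    exact hp (ai_quo (mem_clf.1 hpi) N (fun n hn => ⟨(hN n hn).1, (hN n hn).2.1⟩) h)
  · rintro k (hk | ⟨n, hn, rfl⟩)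
    · have := hN k hk
      exact ⟨by omega, zeta_mem_of_quo hN hpi k hk⟩
    · have := hN n hn
      exact ⟨by omega, zeta_even_mem hpi (by omega)⟩

end

/-- the names of the quotients -/
abbrev In (Z X : Set ℂ) (N : Set ℕ) : Type := {q : (Z ⊕ X) × ℕ × Bool // q.2.1 ∈ N ∧ DM Z X q.1 q.2.1 ≠ 0}

/-- the quotients -/
noncomputable def tn {Z X : Set ℂ} {N : Set ℕ} : In Z X N → ℂ := fun q => quo (DM Z X q.1.1) q.1.2.1 q.1.2.2

/-- the independent numbers -/
noncomputable def sn {Z X : Set ℂ} {N : Set ℕ} : In Z X N → ℂ := fun q =>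
  SM Z X q.1.1 (bif q.1.2.2 then q.1.2.1 else 2 * q.1.2.1)

section

variable {Z X : Set ℂ} {N : Set ℕ}

theorem ai_sn (hX : ∀ x ∈ X, IsAlgebraic ℚ x ∧ ∀ y ∈ X, x + y ≠ 0) (hZ : Pts Z) (hN : ∀ n ∈ N, 3 ≤ n ∧ Odd n) :
    AlgebraicIndependent KB (sn (Z := Z) (X := X) (N := N)) := by
  let g : In Z X N → (Z ⊕ X) × {k : ℕ // 2 ≤ k} := fun q => (q.1.1, ⟨bif q.1.2.2 then q.1.2.1 else 2 * q.1.2.1, by
    have h := (hN _ q.2.1).1
    cases q.1.2.2
    · show 2 ≤ 2 * q.1.2.1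
      omega
    · show 2 ≤ q.1.2.1
      omega⟩)
  have hg : Function.Injective g := by
    rintro ⟨⟨p, n, b⟩, hn, hn'⟩ ⟨⟨p', m, c⟩, hm, hm'⟩ h
    obtain ⟨h1, h2⟩ := (Prod.mk.injEq _ _ _ _).mp h
    have h3 := congrArg (fun z => z.1) h2
    have e : p = p' := h1
    subst e
    have hn1 := (hN n hn).2
    have hm1 := (hN m hm).2
    have h4 : (n = m ∧ b = c) := by
      cases b <;> cases c
      · have h2 : 2 * n = 2 * m := h3
        exact ⟨by omega, rfl⟩
      · have h2 : 2 * n = m := h3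
        exfalso
        rw [← h2] at hm1
        exact (Nat.not_odd_iff_even.2 (even_two_mul _)) hm1
      · have h2 : n = 2 * m := h3
        exfalso
        rw [h2] at hn1
        exact (Nat.not_odd_iff_even.2 (even_two_mul _)) hn1
      · exact ⟨h3, rfl⟩
    obtain ⟨rfl, rfl⟩ := h4
    rfl
  exact (ai_SM hX hZ).comp g hg

theorem tri_n (hZ : Pts Z) (hN : ∀ n ∈ N, 3 ≤ n ∧ Odd n) {Y : Set ℂ} (hpi : (Real.pi : ℂ) ∈ clf KB Y)
    (hz : ∀ n ∈ N, riemannZeta n ∈ clf KB Y) (i : In Z X N) :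
    ∃ D : Finset (In Z X N), i ∈ D ∧ ∀ j ∈ D, sn j ∈ clf KB (Y ∪ tn '' (D : Set (In Z X N))) := by
  classical
  obtain ⟨⟨p, n, b⟩, hn, h0⟩ := i
  have hn3 := (hN n hn).1
  let i0 : In Z X N := ⟨(p, n, false), hn, h0⟩
  let i1 : In Z X N := ⟨(p, n, true), hn, h0⟩
  refine ⟨{i0, i1}, ?_, ?_⟩
  · cases b
    · exact Finset.mem_insert_self _ _
    · exact Finset.mem_insert_of_mem (Finset.mem_singleton_self _)
  · set S : Set ℂ := Y ∪ tn '' (({i0, i1} : Finset (In Z X N)) : Set (In Z X N)) with hS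
    have hsub : Y ⊆ S := subset_union_left
    have hq1 : quo (DM Z X p) n true ∈ clf KB S :=
      subset_clf _ (Or.inr ⟨i1, Finset.mem_coe.2 (Finset.mem_insert_of_mem (Finset.mem_singleton_self _)), rfl⟩)
    have hq0 : quo (DM Z X p) n false ∈ clf KB S :=
      subset_clf _ (Or.inr ⟨i0, Finset.mem_coe.2 (Finset.mem_insert_self _ _), rfl⟩)
    have hpi' : (Real.pi : ℂ) ∈ clf KB S := clf_mono hsub hpi
    obtain ⟨h1, h2⟩ := quo_mem (n := n) (by omega) h0 hpi' hq1 hq0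
    intro j hj
    rcases Finset.mem_insert.1 hj with rfl | hj
    · show SM Z X p (2 * n) ∈ _
      rw [DM_split hZ p (k := 2 * n) (by omega)]
      exact (clf KB _).sub_mem (zeta_even_mem hpi' (by omega)) h2
    · obtain rfl := Finset.mem_singleton.1 hj
      show SM Z X p n ∈ _
      rw [DM_split hZ p (k := n) (by omega)]
      exact (clf KB _).sub_mem (clf_mono hsub (hz n hn)) h1

variable {τ : Type} [Fintype τ] {y : τ → ℂ}

theorem count_n (hX : ∀ x ∈ X, IsAlgebraic ℚ x ∧ ∀ y ∈ X, x + y ≠ 0) (hZ : Pts Z) (hN : ∀ n ∈ N, 3 ≤ n ∧ Odd n)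
    (hpi : (Real.pi : ℂ) ∈ clf KB (range y)) (hz : ∀ n ∈ N, riemannZeta n ∈ clf KB (range y)) :
    {n : τ ⊕ In Z X N | Sum.elim (fun j => IsAlgebraic KB (y j)) (fun i => IsAlgebraic KB (tn i)) n}.encard ≤
      (Fintype.card τ : ℕ∞) :=
  cnt (ai_sn hX hZ hN) (tri_n hZ hN hpi hz)

theorem trdeg_n (hX : ∀ x ∈ X, IsAlgebraic ℚ x ∧ ∀ y ∈ X, x + y ≠ 0) (hZ : Pts Z) (hN : ∀ n ∈ N, 3 ≤ n ∧ Odd n)
    (hpi : (Real.pi : ℂ) ∈ clf KB (range y)) (hz : ∀ n ∈ N, riemannZeta n ∈ clf KB (range y)) (A : Finset (In Z X N)) :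
    (A.card : Cardinal) ≤ Algebra.trdeg KB (IntermediateField.adjoin KB (range y ∪ tn '' (A : Set (In Z X N)))) :=
  trdeg_of_eRk (rk_ge (ai_sn hX hZ hN) (tri_n hZ hN hpi hz) A)

/-- the total defect of the quotients -/
theorem def_quo (hX : ∀ x ∈ X, IsAlgebraic ℚ x ∧ ∀ y ∈ X, x + y ≠ 0) (hZ : Pts Z) {r : ℕ} {y : Fin r → ℂ}
    (hN : ∀ n ∈ N, 3 ≤ n ∧ Odd n) (hpi : (Real.pi : ℂ) ∈ clf KB (range y)) (hz : ∀ n ∈ N, riemannZeta n ∈ clf KB (range y))
    (A : Finset (Z ⊕ X)) (B : Finset ℕ) (hB : (B : Set ℕ) ⊆ N) (h0 : ∀ p ∈ A, ∀ n ∈ B, DM Z X p n ≠ 0) :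
    ((A.card * (2 * B.card) : ℕ) : Cardinal) ≤ (r : Cardinal) + ∑ p ∈ A, Algebra.trdeg (IntermediateField.adjoin KB (range y))
      (IntermediateField.adjoin (IntermediateField.adjoin KB (range y))
        {w | ∃ n ∈ B, ∃ b, w = quo (DM Z X p) n b}) := by
  classical
  let B' : Finset {k : ℕ // 2 ≤ k} := B.attach.image (fun k => ⟨k.1, by have := (hN _ (hB k.2)).1; omega⟩) ∪
    B.attach.image (fun k => ⟨2 * k.1, by have := (hN _ (hB k.2)).1; omega⟩)
  have hc : B'.card = 2 * B.card := by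
    rw [Finset.card_union_of_disjoint, Finset.card_image_of_injective, Finset.card_image_of_injective, Finset.card_attach]
    · omega
    · intro a b hab
      have : 2 * a.1 = 2 * b.1 := congrArg (fun z => z.1) hab
      exact Subtype.ext (by omega)
    · intro a b hab
      exact Subtype.ext (congrArg (fun z => z.1) hab)
    · rw [Finset.disjoint_left]
      intro k h1 h2
      obtain ⟨a, _, rfl⟩ := Finset.mem_image.1 h1
      obtain ⟨b, _, hb⟩ := Finset.mem_image.1 h2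
      have h3 : 2 * b.1 = a.1 := congrArg (fun z => z.1) hb
      have h4 := (hN _ (hB a.2)).2
      rw [← h3] at h4
      exact (Nat.not_odd_iff_even.2 (even_two_mul _)) h4
  rw [← hc]
  have hfin : ∀ p : Z ⊕ X, {w | ∃ n ∈ B, ∃ b, w = quo (DM Z X p) n b}.Finite := by
    intro p
    refine ((B ×ˢ (Finset.univ : Finset Bool)).finite_toSet.image fun q => quo (DM Z X p) q.1 q.2).subset ?_
    rintro w ⟨n, hn, b, rfl⟩
    exact ⟨(n, b), by simp [hn], rfl⟩
  refine total_defect' (s := fun p : (Z ⊕ X) × {k : ℕ // 2 ≤ k} => SM Z X p.1 p.2.1) (ai_SM hX hZ) y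
    (fun p => {w | ∃ n ∈ B, ∃ b, w = quo (DM Z X p) n b}) A B' (fun p _ => hfin p) ?_
  intro p hp k hk
  have key : ∀ n ∈ B, DM Z X p n ∈ clf KB ({w | ∃ n ∈ B, ∃ b, w = quo (DM Z X p) n b} ∪ range y) ∧
      DM Z X p (2 * n) ∈ clf KB ({w | ∃ n ∈ B, ∃ b, w = quo (DM Z X p) n b} ∪ range y) := by
    intro n hn
    have := (hN n (hB hn)).1
    exact quo_mem (n := n) (by omega) (h0 p hp n hn) (clf_mono subset_union_right hpi)
      (subset_clf _ (Or.inl ⟨n, hn, true, rfl⟩)) (subset_clf _ (Or.inl ⟨n, hn, false, rfl⟩))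
  show SM Z X p k.1 ∈ _
  rw [DM_split hZ p k.2]
  rcases Finset.mem_union.1 hk with h1 | h1
  · obtain ⟨n, _, rfl⟩ := Finset.mem_image.1 h1
    exact (clf KB _).sub_mem (clf_mono subset_union_right (hz n.1 (hB n.2))) (key n.1 n.2).1
  · obtain ⟨n, _, rfl⟩ := Finset.mem_image.1 h1
    refine (clf KB _).sub_mem (clf_mono subset_union_right (zeta_even_mem hpi ?_)) (key n.1 n.2).2
    have := (hN _ (hB n.2)).1
    omega

end

end Pool.Agent.H18.Wd
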