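import Pool.Agent.H18.Wd.KFin
import Pool.Agent.H18.L.N902.EW.Bo

/-!
# The Bessel means of the tails as integrals
-/

set_option autoImplicit false
set_option linter.unusedSectionVars false

open MeasureTheory Set

namespace Pool.Agent.H18.Wd

open Pool.Agent.N902.EW Pool.Agent.H18.Bes Pool.Agent.R352.E

/-- the terms -/
noncomputable def Fb (m : ℕ) (x : ℂ) (p : ℕ × ℕ) (t : ℝ) : ℂ :=
  (x ^ p.1 / (p.1.factorial : ℂ) ^ 2) * ((t ^ m * Real.exp (-(((p.2 : ℝ) + p.1 + 1) * t)) : ℝ) : ℂ)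

theorem summ_I0r (w : ℝ) (hw : 0 ≤ w) : Summable fun j : ℕ => w ^ j / (j.factorial : ℝ) ^ 2 := by
  refine (summ_I0 (w : ℂ)).congr fun j => ?_
  rw [norm_div, norm_pow, norm_pow, Complex.norm_real, Complex.norm_natCast, Real.norm_eq_abs, abs_of_nonneg hw]

theorem RT_eq_integral {m : ℕ} (hm : 1 ≤ m) (z : ℂ) : RT (m + 1) z = 1 / ((m.factorial : ℂ) * I0 z) *
    ∫ t in Ioi (0 : ℝ), ((t ^ m / (Real.exp t - 1) : ℝ) : ℂ) * I0 (z * Complex.exp (-t / 2)) := by
  set x : ℂ := z ^ 2 / 4 with hx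
  have hr : ∀ p : ℕ × ℕ, (0 : ℝ) < (p.2 : ℝ) + p.1 + 1 := fun p => by positivity
  have hint : ∀ p : ℕ × ℕ, ∫ t in Ioi (0 : ℝ), Fb m x p t =
      (x ^ p.1 / (p.1.factorial : ℂ) ^ 2) * ((m.factorial / ((p.2 : ℝ) + p.1 + 1) ^ (m + 1) : ℝ) : ℂ) := by
    intro p
    simp only [Fb]
    rw [integral_const_mul, integral_complex_ofReal, int_pow_exp m (hr p)]
  have hI : ∀ p : ℕ × ℕ, Integrable (Fb m x p) (volume.restrict (Ioi 0)) := by
    intro p
    exact ((integrable_pow_exp m (hr p)).ofReal).const_mul _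
  have hnorm : ∀ p : ℕ × ℕ, ∫ t in Ioi (0 : ℝ), ‖Fb m x p t‖ =
      (‖x‖ ^ p.1 / (p.1.factorial : ℝ) ^ 2) * (m.factorial / ((p.2 : ℝ) + p.1 + 1) ^ (m + 1)) := by
    intro p
    rw [← int_pow_exp m (hr p), ← integral_const_mul]
    refine setIntegral_congr_fun measurableSet_Ioi fun t ht => ?_
    have ht' : (0 : ℝ) < t := ht
    simp only [Fb]
    rw [norm_mul, norm_div, norm_pow, norm_pow, Complex.norm_natCast, Complex.norm_real, Real.norm_eq_abs,
      abs_of_nonneg (by positivity)]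
  have hS2 : Summable fun i : ℕ => (m.factorial : ℝ) / ((i : ℝ) + 1) ^ (m + 1) := by
    have h1 := (summable_nat_add_iff 1).2 (Real.summable_one_div_nat_pow.2 (show 1 < m + 1 by omega))
    refine (h1.mul_left (m.factorial : ℝ)).congr fun n => ?_
    push_cast
    ring
  have hsum : Summable fun p : ℕ × ℕ => ∫ t in Ioi (0 : ℝ), ‖Fb m x p t‖ := by
    refine Summable.of_nonneg_of_le (fun p => integral_nonneg fun _ => norm_nonneg _) (fun p => ?_)
      ((summ_I0r ‖x‖ (norm_nonneg _)).mul_of_nonneg hS2 (fun _ => by positivity) (fun _ => by positivity))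
    rw [hnorm]
    refine mul_le_mul_of_nonneg_left ?_ (by positivity)
    refine div_le_div_of_nonneg_left (by positivity) (by positivity) ?_
    exact pow_le_pow_left₀ (by positivity) (by linarith [show (0 : ℝ) ≤ (p.1 : ℝ) by positivity]) _
  have key := hasSum_integral_of_summable_integral_norm hI hsum
  -- the right hand side of the key identity
  have hpt : ∀ t ∈ Ioi (0 : ℝ), ∑' p, Fb m x p t =
      ((t ^ m / (Real.exp t - 1) : ℝ) : ℂ) * I0 (z * Complex.exp (-t / 2)) := by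
    intro t ht
    have ht' : (0 : ℝ) < t := ht
    have hq : Real.exp (-t) < 1 := by rw [Real.exp_lt_one_iff]; linarith
    have hq0 : 0 < Real.exp (-t) := Real.exp_pos _
    set q : ℝ := Real.exp (-t) with hqdef
    have hFp : ∀ p : ℕ × ℕ, Fb m x p t = ((x * q) ^ p.1 / (p.1.factorial : ℂ) ^ 2) * ((t ^ m * q * q ^ p.2 : ℝ) : ℂ) := by
      intro p
      have h1 : Real.exp (-(((p.2 : ℝ) + p.1 + 1) * t)) = q ^ p.2 * q ^ p.1 * q := by
        rw [hqdef, ← Real.exp_nat_mul, ← Real.exp_nat_mul, ← Real.exp_add, ← Real.exp_add]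
        congr 1
        ring
      rw [Fb, h1, mul_pow]
      push_cast
      ring
    have hA : Summable fun j : ℕ => ‖(x * q) ^ j / (j.factorial : ℂ) ^ 2‖ := summ_I0 (x * q)
    have hB : Summable fun i : ℕ => ‖((t ^ m * q * q ^ i : ℝ) : ℂ)‖ := by
      refine ((summable_geometric_of_lt_one hq0.le hq).mul_left (t ^ m * q)).congr fun i => ?_
      rw [Complex.norm_real, Real.norm_eq_abs, abs_of_nonneg (by positivity)]
    rw [tsum_congr hFp, ← tsum_mul_tsum_of_summable_norm hA hB]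
    have e1 : ∑' j : ℕ, (x * q) ^ j / (j.factorial : ℂ) ^ 2 = I0 (z * Complex.exp (-t / 2)) := by
      rw [I0]
      refine tsum_congr fun j => ?_
      congr 2
      rw [hx, mul_pow, ← Complex.exp_nat_mul]
      have : Complex.exp (((2 : ℕ) : ℂ) * (-(t : ℂ) / 2)) = (q : ℂ) := by
        rw [hqdef]; push_cast; congr 1; ring
      rw [this]
      ring
    have e2 : ∑' i : ℕ, ((t ^ m * q * q ^ i : ℝ) : ℂ) = ((t ^ m / (Real.exp t - 1) : ℝ) : ℂ) := by
      rw [← Complex.ofReal_tsum, tsum_mul_left, tsum_geometric_of_lt_one hq0.le hq]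
      congr 1
      have h2 : Real.exp t = q⁻¹ := by rw [hqdef, Real.exp_neg, inv_inv]
      rw [h2]
      have h3 : (1 : ℝ) - q ≠ 0 := by linarith
      have h4 : q ≠ 0 := hq0.ne'
      have h5 : q⁻¹ - 1 ≠ 0 := by
        have : q⁻¹ - 1 = (1 - q) / q := by field_simp
        rw [this]; exact div_ne_zero h3 h4
      field_simp
    rw [e1, e2]
    ring
  rw [setIntegral_congr_fun measurableSet_Ioi hpt] at key
  -- the left hand side
  have hsumC : Summable fun p : ℕ × ℕ => ∫ t in Ioi (0 : ℝ), Fb m x p t := key.summable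
  have h5 := hsumC.tsum_prod
  rw [key.tsum_eq] at h5
  have h6 : ∀ j : ℕ, ∑' i : ℕ, ∫ t in Ioi (0 : ℝ), Fb m x (j, i) t =
      (m.factorial : ℂ) * (x ^ j / (j.factorial : ℂ) ^ 2 * ∑' i : ℕ, 1 / ((i : ℂ) + j + 1) ^ (m + 1)) := by
    intro j
    simp only [hint]
    rw [tsum_mul_left, ← tsum_mul_left, ← tsum_mul_left, ← tsum_mul_left]
    refine tsum_congr fun i => ?_
    push_cast
    ring
  rw [tsum_congr h6, tsum_mul_left] at h5
  rw [RT]
  have hm0 : (m.factorial : ℂ) ≠ 0 := by exact_mod_cast m.factorial_ne_zero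
  rw [h5]
  rw [show (z ^ 2 / 4 : ℂ) = x from rfl]
  field_simp

theorem RT_zero {k : ℕ} (hk : 2 ≤ k) : RT k 0 = riemannZeta k := by
  have h0 : I0 0 = 1 := by
    rw [I0, tsum_eq_single 0]
    · simp
    · intro j hj
      rw [show ((0 : ℂ) ^ 2 / 4) = 0 by simp, zero_pow hj]
      simp
  rw [R_split hk (by rw [h0]; exact one_ne_zero), h0, div_one]
  have h1 : Vv k 0 = 0 := by
    rw [Vv, tsum_eq_single 0]
    · simp [hz]
    · intro j hj
      rw [show ((0 : ℂ) ^ 2 / 4) = 0 by simp, zero_pow hj]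
      simp
  rw [h1, sub_zero]

theorem PT_zero' {k : ℕ} (hk : 2 ≤ k) : PT k 0 = riemannZeta k := by
  have h := zeta_split hk 0
  have h1 : PS k 0 = 0 := by
    rw [PS, tsum_eq_single 0]
    · simp
    · intro j hj
      rw [zero_pow hj]
      simp
  rw [h1, zero_add] at h
  exact h.symm

end Pool.Agent.H18.Wd
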