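import Pool.Agent.H18.Wd.LVal
import Pool.Agent.H18.Wd.Quo

/-!
# Integrals up to `β` of the Bessel functions
-/

set_option autoImplicit false
set_option linter.unusedSectionVars false

open MeasureTheory Set Filter Topology intervalIntegral

namespace Pool.Agent.H18.Wd

open Pool.Agent.N902.EW Pool.Agent.H18.Bes Pool.Agent.R352.E

/-- integration by parts -/
theorem ibp {g : ℕ → ℝ → ℝ} (hg : ∀ k s, HasDerivAt (g (k + 1)) (g k s) s) (hc : ∀ k, Continuous (g k)) (β : ℝ) (l : ℕ) :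
    ∀ k, ∫ s in (0 : ℝ)..β, s ^ l * g k s = (∑ j ∈ Finset.range (l + 1), (-1) ^ j * (l.descFactorial j : ℝ) * β ^ (l - j) *
      g (k + j + 1) β) - (-1) ^ l * (l.factorial : ℝ) * g (k + l + 1) 0 := by
  induction l with
  | zero =>
    intro k
    have h1 : ∫ s in (0 : ℝ)..β, g k s = g (k + 1) β - g (k + 1) 0 :=
      integral_eq_sub_of_hasDerivAt (fun s _ => hg k s) ((hc k).intervalIntegrable _ _)
    simp [h1]
  | succ l ih =>
    intro k
    have h1 : ∫ s in (0 : ℝ)..β, s ^ (l + 1) * g k s = β ^ (l + 1) * g (k + 1) β - 0 ^ (l + 1) * g (k + 1) 0 -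
        ∫ s in (0 : ℝ)..β, ((l + 1 : ℕ) : ℝ) * s ^ l * g (k + 1) s := by
      refine integral_mul_deriv_eq_deriv_mul (u := fun s : ℝ => s ^ (l + 1)) (v := g (k + 1))
        (u' := fun s : ℝ => ((l + 1 : ℕ) : ℝ) * s ^ l) (fun s _ => ?_) (fun s _ => hg k s) ?_
        ((hc k).intervalIntegrable _ _)
      · have := hasDerivAt_pow (l + 1) s
        simpa using this
      · exact (by fun_prop : Continuous fun s : ℝ => ((l + 1 : ℕ) : ℝ) * s ^ l).intervalIntegrable _ _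
    have h2 : ∫ s in (0 : ℝ)..β, ((l + 1 : ℕ) : ℝ) * s ^ l * g (k + 1) s =
        ((l + 1 : ℕ) : ℝ) * ∫ s in (0 : ℝ)..β, s ^ l * g (k + 1) s := by
      rw [← intervalIntegral.integral_const_mul]
      congr 1
      ext s
      ring
    rw [h1, h2, ih (k + 1), Finset.sum_range_succ' _ (l + 1), zero_pow (Nat.succ_ne_zero l), zero_mul, sub_zero, mul_sub,
      Finset.mul_sum]
    have h3 : ∀ j ∈ Finset.range (l + 1), (-1 : ℝ) ^ (j + 1) * (((l + 1).descFactorial (j + 1) : ℕ) : ℝ) * β ^ (l + 1 - (j + 1)) *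
        g (k + (j + 1) + 1) β = -(((l + 1 : ℕ) : ℝ) * ((-1) ^ j * (l.descFactorial j : ℝ) * β ^ (l - j) * g (k + 1 + j + 1) β)) := by
      intro j _
      rw [Nat.succ_descFactorial_succ, Nat.add_sub_add_right, show k + (j + 1) + 1 = k + 1 + j + 1 by ring]
      push_cast
      ring
    rw [Finset.sum_congr rfl h3, Finset.sum_neg_distrib]
    rw [show k + (l + 1) + 1 = k + 1 + l + 1 by ring, Nat.factorial_succ]
    simp only [Nat.descFactorial_zero, Nat.sub_zero, Nat.add_zero, pow_zero]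
    push_cast
    ring


/-- the values are determined by the integrals -/
theorem ibp_mem {g : ℕ → ℝ → ℝ} (hg : ∀ k s, HasDerivAt (g (k + 1)) (g k s) s) (hc : ∀ k, Continuous (g k)) (β : ℝ)
    {S : Subfield ℂ} (hβ : (β : ℂ) ∈ S) (L : ℕ) (h0 : ∀ j ≤ L, ((g (j + 1) 0 : ℝ) : ℂ) ∈ S)
    (hI : ∀ j ≤ L, ((∫ s in (0 : ℝ)..β, s ^ j * g 0 s : ℝ) : ℂ) ∈ S) : ∀ j ≤ L, ((g (j + 1) β : ℝ) : ℂ) ∈ S := by
  intro j
  induction j using Nat.strong_induction_on with
  | _ l ih =>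
    intro hl
    have h1 := ibp hg hc β l 0
    rw [Finset.sum_range_succ, Nat.descFactorial_self, Nat.sub_self, pow_zero, mul_one, zero_add] at h1
    have hf : (l.factorial : ℝ) ≠ 0 := by exact_mod_cast l.factorial_ne_zero
    have h6 : (-1 : ℝ) ^ l * (-1) ^ l = 1 := by rw [← mul_pow]; norm_num
    have h2 : g (l + 1) β = (-1) ^ l / (l.factorial : ℝ) * ((∫ s in (0 : ℝ)..β, s ^ l * g 0 s) -
        (∑ j ∈ Finset.range l, (-1) ^ j * (l.descFactorial j : ℝ) * β ^ (l - j) * g (0 + j + 1) β) +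
        (-1) ^ l * (l.factorial : ℝ) * g (l + 1) 0) := by
      rw [h1]
      field_simp
      linear_combination (-g (l + 1) β * (l.factorial : ℝ)) * h6
    rw [h2]
    push_cast
    have hn : ∀ n : ℕ, (n : ℂ) ∈ S := fun n => natCast_mem S n
    have h1' : (-1 : ℂ) ∈ S := S.neg_mem S.one_mem
    refine S.mul_mem (S.div_mem (S.pow_mem h1' _) (hn _)) (S.add_mem (S.sub_mem (hI l hl) (S.sum_mem fun j hj => ?_))
      (S.mul_mem (S.mul_mem (S.pow_mem h1' _) (hn _)) (h0 l hl)))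
    have hj' := Finset.mem_range.1 hj
    refine S.mul_mem (S.mul_mem (S.mul_mem (S.pow_mem h1' _) (hn _)) (S.pow_mem hβ _)) ?_
    rw [zero_add]
    exact ih j hj' (by omega)

/-! ### The functions -/

/-- the functions for the entire part of `K_0` -/
noncomputable def gC (x : ℝ) (k : ℕ) (s : ℝ) : ℝ := Gr (a2 ℝ) k ((x * Real.exp s) ^ 2 / 4)

/-- the functions for `I_0` -/
noncomputable def gA (x : ℝ) (k : ℕ) (s : ℝ) : ℝ := Gr (a1 ℝ) k ((x * Real.exp s) ^ 2 / 4)

/-- the functions for the exponential -/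
noncomputable def gE (x : ℝ) (k : ℕ) (s : ℝ) : ℝ := EE k (x * Real.exp s)

theorem pos_exp {x : ℝ} (hx : 0 < x) (s : ℝ) : 0 < x * Real.exp s := mul_pos hx (Real.exp_pos s)

theorem exp_deriv (x s : ℝ) : HasDerivAt (fun s => x * Real.exp s) (x * Real.exp s) s := (Real.hasDerivAt_exp s).const_mul x

theorem gC_deriv {x : ℝ} (hx : 0 < x) (k : ℕ) (s : ℝ) : HasDerivAt (gC x (k + 1)) (gC x k s) s := by
  have h0 := (pos_exp hx s).ne'
  refine ((Gr_deriv (ent_a2 (𝕜 := ℝ)) k h0).comp s (exp_deriv x s)).congr_deriv ?_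
  rw [gC]
  field_simp

theorem gA_deriv {x : ℝ} (hx : 0 < x) (k : ℕ) (s : ℝ) : HasDerivAt (gA x (k + 1)) (gA x k s) s := by
  have h0 := (pos_exp hx s).ne'
  refine ((Gr_deriv (ent_a1 (𝕜 := ℝ)) k h0).comp s (exp_deriv x s)).congr_deriv ?_
  rw [gA]
  field_simp

theorem gE_deriv {x : ℝ} (hx : 0 < x) (k : ℕ) (s : ℝ) : HasDerivAt (gE x (k + 1)) (gE x k s) s := by
  have h0 := (pos_exp hx s).ne'
  refine ((EE_deriv' k (pos_exp hx s)).comp s (exp_deriv x s)).congr_deriv ?_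
  rw [gE]
  field_simp

theorem Gr_cont {a : ℕ → ℝ} (h : Ent a) (k : ℕ) : Continuous (Gr a k) :=
  continuous_iff_continuousAt.2 fun z => (sr_hasDerivAt (ent_It h k) z).continuousAt

theorem gC_cont (x : ℝ) (k : ℕ) : Continuous (gC x k) := by
  have h : Continuous fun s : ℝ => (x * Real.exp s) ^ 2 / 4 := by fun_prop
  exact (Gr_cont (ent_a2 (𝕜 := ℝ)) k).comp h

theorem gA_cont (x : ℝ) (k : ℕ) : Continuous (gA x k) := by
  have h : Continuous fun s : ℝ => (x * Real.exp s) ^ 2 / 4 := by fun_prop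
  exact (Gr_cont (ent_a1 (𝕜 := ℝ)) k).comp h

theorem gE_cont {x : ℝ} (hx : 0 < x) (k : ℕ) : Continuous (gE x k) := by
  rcases k with _ | k
  · have h : gE x 0 = fun s => 1 - Real.exp (-(x * Real.exp s)) := by
      ext s
      rw [gE, EE_zero_left]
    rw [h]
    fun_prop
  · exact continuous_iff_continuousAt.2 fun s => (gE_deriv hx k s).continuousAt

end Pool.Agent.H18.Wd
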