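import Pool.Agent.H18.Wd.Up

/-!
# Integrals up to `β`: independence
-/

set_option autoImplicit false
set_option linter.unusedSectionVars false

open MeasureTheory Set Filter Topology intervalIntegral

namespace Pool.Agent.H18.Wd

open Pool.Agent.N902.EW Pool.Agent.H18.Bes Pool.Agent.R352.E

section

variable {F : Type*} {E : Type*} [Field F] [Field E] [Algebra F E]

/-- triangular exchange -/
theorem ai_of_tri {ι : Type*} {s t : ι → E} (hs : AlgebraicIndependent F s)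
    (hD : ∀ i, ∃ D : Finset ι, i ∈ D ∧ ∀ j ∈ D, s j ∈ clf F (t '' (D : Set ι))) : AlgebraicIndependent F t := by
  classical
  choose D hi hD using hD
  refine algebraicIndependent_of_finite_type fun T hT => ?_
  set B : Finset ι := hT.toFinset.biUnion D with hB
  have h1 : ∀ i : B, s i ∈ clf F (range fun i : B => t i) := by
    rintro ⟨i, h⟩
    obtain ⟨a, ha, hia⟩ := Finset.mem_biUnion.1 h
    refine clf_mono ?_ (hD a i hia)
    rintro _ ⟨j, hj, rfl⟩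
    exact ⟨⟨j, Finset.mem_biUnion.2 ⟨a, ha, hj⟩⟩, rfl⟩
  have h2 := ai_of_range (hs.comp (Subtype.val : B → ι) Subtype.val_injective) h1
  refine h2.comp (fun i : T => (⟨i.1, Finset.mem_biUnion.2 ⟨i.1, by simp, hi i.1⟩⟩ : B)) ?_
  intro a b hab
  exact Subtype.ext (congrArg (fun z => z.1) hab)

end

/-- the kinds of the numbers -/
inductive Kd : Type
  | bes : Kd
  | ent : Kd
  | poi : Kd
  | exp : Kd

/-- the independent numbers -/
noncomputable def sU : Kd → ℕ → ℝ → ℂ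
  | .bes, k, z => Vv (k + 2) z / I0 z
  | .ent, k, z => Cv k z
  | .poi, k, z => PS (k + 2) z
  | .exp, k, z => ((EE (k + 1) z : ℝ) : ℂ)

/-- the positive algebraic numbers -/
abbrev Pz : Type := {z : ℝ // 0 < z ∧ IsAlgebraic ℚ z}

theorem ai_sU : AlgebraicIndependent LB (fun p : Pz × Kd × ℕ => sU p.2.1 p.2.2 p.1.1) := by
  classical
  refine algebraicIndependent_of_finite_type fun t ht => ?_
  obtain ⟨M, hM⟩ : ∃ M : ℕ, ∀ p : Pz × Kd × ℕ, p ∈ t → p.2.2 ≤ M := by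
    obtain ⟨M, hM⟩ := (ht.image fun p : Pz × Kd × ℕ => p.2.2).bddAbove
    exact ⟨M, fun p hp => hM ⟨_, hp, rfl⟩⟩
  let P : Set ℝ := {x | 0 < x ∧ IsAlgebraic ℚ x}
  let X : Set ℂ := {w | ∃ x : ℝ, (0 < x ∧ IsAlgebraic ℚ x) ∧ w = x}
  have hX : ∀ x ∈ X, IsAlgebraic ℚ x ∧ ∀ y ∈ X, x + y ≠ 0 := by
    rintro _ ⟨x, hx, rfl⟩
    refine ⟨alg_cast hx.2, ?_⟩
    rintro _ ⟨y, hy, rfl⟩ h
    have h2 : x + y = 0 := by exact_mod_cast h
    have := hx.1
    have := hy.1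
    linarith
  let g : t → ((Hp × ℕ) ⊕ (Hp × ℕ)) ⊕ Ix (M + 2) P X := fun i => match i with
    | ⟨(z, .bes, k), _⟩ => Sum.inl (Sum.inl (⟨(z.1 : ℂ), alg_cast z.2.2, by simpa using z.2.1⟩, k))
    | ⟨(z, .ent, k), _⟩ => Sum.inl (Sum.inr (⟨(z.1 : ℂ), alg_cast z.2.2, by simpa using z.2.1⟩, k))
    | ⟨(z, .poi, k), hp⟩ => Sum.inr (Sum.inl ⟨(k + 2, (z.1 : ℂ)), by show 2 ≤ k + 2; omega, by
        have := hM _ hp; show k + 2 ≤ M + 2; simp only at this; omega, ⟨z.1, z.2, rfl⟩⟩)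
    | ⟨(z, .exp, k), hp⟩ => Sum.inr (Sum.inr ⟨(k + 1, z.1), by show 1 ≤ k + 1; omega, by
        have := hM _ hp; show k + 1 ≤ M + 2; simp only at this; omega, z.2⟩)
  have hg : Function.Injective g := by
    rintro ⟨⟨z, i, k⟩, hp⟩ ⟨⟨w, j, l⟩, hq⟩ h
    rcases i <;> rcases j
    · have h1 := Prod.ext_iff.1 (Sum.inl.inj (Sum.inl.inj h))
      have h2 : (z.1 : ℂ) = w.1 := congrArg (fun z => z.1) h1.1
      have h3 : z = w := Subtype.ext (by exact_mod_cast h2)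
      have h4 : k = l := h1.2
      subst h3 h4
      rfl
    · cases h
    · cases h
    · cases h
    · cases h
    · have h1 := Prod.ext_iff.1 (Sum.inr.inj (Sum.inl.inj h))
      have h2 : (z.1 : ℂ) = w.1 := congrArg (fun z => z.1) h1.1
      have h3 : z = w := Subtype.ext (by exact_mod_cast h2)
      have h4 : k = l := h1.2
      subst h3 h4
      rfl
    · cases h
    · cases h
    · cases h
    · cases h
    · have h1 : (k + 2, (z.1 : ℂ)) = (l + 2, (w.1 : ℂ)) := congrArg (fun z => z.1) (Sum.inl.inj (Sum.inr.inj h))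
      have h2 : (z.1 : ℂ) = w.1 := (Prod.ext_iff.1 h1).2
      have h3 : z = w := Subtype.ext (by exact_mod_cast h2)
      have h4 : k + 2 = l + 2 := (Prod.ext_iff.1 h1).1
      have h5 : k = l := by omega
      subst h3 h5
      rfl
    · cases h
    · cases h
    · cases h
    · cases h
    · have h1 : (k + 1, z.1) = (l + 1, w.1) := congrArg (fun z => z.1) (Sum.inr.inj (Sum.inr.inj h))
      have h2 : z.1 = w.1 := (Prod.ext_iff.1 h1).2
      have h3 : z = w := Subtype.ext h2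
      have h4 : k + 1 = l + 1 := (Prod.ext_iff.1 h1).1
      have h5 : k = l := by omega
      subst h3 h5
      rfl
  have h2 := (ai_VB' (M + 2) P (fun x hx => hx) X hX).comp g hg
  refine ai_of_span h2 _ fun i => ?_
  obtain ⟨⟨z, i, k⟩, hp⟩ := i
  rcases i
  · exact subset_clf _ rfl
  · exact subset_clf _ rfl
  · exact subset_clf _ rfl
  · show ((-EE (k + 1) z.1 : ℝ) : ℂ) ∈ clf LB {((EE (k + 1) z.1 : ℝ) : ℂ)}
    push_cast
    exact (clf LB _).neg_mem (subset_clf _ rfl)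

/-! ### The numbers -/

/-- `K_0` or its entire part -/
noncomputable def Y0 (b : Bool) (z : ℝ) : ℝ := bif b then kr 0 z else Sk ℝ (z ^ 2 / 4)

open Classical in
/-- the numbers -/
noncomputable def nU (b : Bool) (x β : ℝ) : Kd → ℕ → ℂ
  | .bes, k => if β = 0 then Vv (k + 2) x / I0 x else RT (k + 2) x - RT (k + 2) ((x * Real.exp β : ℝ) : ℂ)
  | .ent, 0 => ((Y0 b (x * Real.exp β) : ℝ) : ℂ)
  | .ent, k + 1 => if β = 0 then Cv (k + 1) x else ((∫ s in (0 : ℝ)..β, s ^ k * Y0 b (x * Real.exp s) : ℝ) : ℂ)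
  | .poi, k => if β = 0 then PS (k + 2) x else PT (k + 2) x - PT (k + 2) ((x * Real.exp β : ℝ) : ℂ)
  | .exp, k => if β = 0 then ((EE (k + 1) x : ℝ) : ℂ) else
      ((∫ s in (0 : ℝ)..β, s ^ k * Real.exp (-(x * Real.exp s)) : ℝ) : ℂ)

/-- the set of the exponents -/
def VL : Set ℝ := {β | IsAlgebraic LB (β : ℂ) ∧ IsAlgebraic ℚ (Real.exp β)}

theorem zero_mem_VL : (0 : ℝ) ∈ VL := by
  refine ⟨?_, ?_⟩
  · rw [Complex.ofReal_zero]
    exact isAlgebraic_zero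
  · rw [Real.exp_zero]
    exact isAlgebraic_one

theorem sub_mem_VL {β γ : ℝ} (hβ : β ∈ VL) (hγ : γ ∈ VL) : β - γ ∈ VL := by
  refine ⟨?_, ?_⟩
  · push_cast
    exact hβ.1.sub hγ.1
  · rw [Real.exp_sub, div_eq_mul_inv]
    exact hβ.2.mul hγ.2.inv

section

variable {x β : ℝ} (hx : 0 < x ∧ IsAlgebraic ℚ x) (hβ : β ∈ VL) {T : Set ℂ}

include hx hβ

theorem pt_alg : 0 < x * Real.exp β ∧ IsAlgebraic ℚ (x * Real.exp β) := ⟨pos_exp hx.1 β, hx.2.mul hβ.2⟩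

theorem beta_mem : (β : ℂ) ∈ clf LB T := clf_of_alg hβ.1

theorem gC_cast (k : ℕ) : ((gC x k β : ℝ) : ℂ) = Cv k ((x * Real.exp β : ℝ) : ℂ) / 2 ^ k := by
  rw [gC, ← Gr_a2, ← Gr_real a2_real]
  push_cast
  rfl

theorem gA_cast (k : ℕ) : ((gA x k β : ℝ) : ℂ) = Av k ((x * Real.exp β : ℝ) : ℂ) / 2 ^ k := by
  rw [gA, ← Gr_a1, ← Gr_real a1_real]
  push_cast
  rfl

theorem gA_mem (k : ℕ) : ((gA x k β : ℝ) : ℂ) ∈ clf LB T := by
  rw [gA_cast hx hβ]
  exact (clf LB T).div_mem (E0_le_clf (Av_mem_LB (alg_cast (pt_alg hx hβ).2) k)) ((clf LB T).pow_mem (ofNat_mem _ _) _)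

theorem gC_mem_iff (k : ℕ) : ((gC x k β : ℝ) : ℂ) ∈ clf LB T ↔ Cv k ((x * Real.exp β : ℝ) : ℂ) ∈ clf LB T := by
  have h2 : (2 : ℂ) ^ k ∈ clf LB T := (clf LB T).pow_mem (ofNat_mem _ _) _
  rw [gC_cast hx hβ]
  constructor
  · intro h
    have h1 := (clf LB T).mul_mem h h2
    rwa [div_mul_cancel₀ _ (pow_ne_zero _ two_ne_zero)] at h1
  · intro h
    exact (clf LB T).div_mem h h2

/-- the integrals of `I_0` -/
theorem intA_mem (l : ℕ) : ((∫ s in (0 : ℝ)..β, s ^ l * (gA x 0 s + 1) : ℝ) : ℂ) ∈ clf LB T := by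
  have h1 : ∫ s in (0 : ℝ)..β, s ^ l * (gA x 0 s + 1) = (∫ s in (0 : ℝ)..β, s ^ l * gA x 0 s) + β ^ (l + 1) / (l + 1) := by
    have h2 : ∫ s in (0 : ℝ)..β, s ^ l = β ^ (l + 1) / (l + 1) := by
      rw [integral_pow]
      simp
    rw [← h2, ← intervalIntegral.integral_add]
    · congr 1
      ext s
      ring
    · have := gA_cont x 0
      exact (by fun_prop : Continuous fun s : ℝ => s ^ l * gA x 0 s).intervalIntegrable _ _
    · exact (continuous_pow l).intervalIntegrable _ _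
  have hS1 : (-1 : ℂ) ∈ clf LB T := (clf LB T).neg_mem (clf LB T).one_mem
  have hn : ∀ n : ℕ, (n : ℂ) ∈ clf LB T := fun n => natCast_mem (clf LB T) n
  rw [h1, ibp (gA_deriv hx.1) (gA_cont x) β l 0]
  push_cast
  refine (clf LB T).add_mem ((clf LB T).sub_mem ((clf LB T).sum_mem fun j _ => ?_) ?_) ?_
  · exact (clf LB T).mul_mem ((clf LB T).mul_mem ((clf LB T).mul_mem ((clf LB T).pow_mem hS1 _) (hn _))
      ((clf LB T).pow_mem (beta_mem hx hβ) _)) (gA_mem hx hβ _)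
  · exact (clf LB T).mul_mem ((clf LB T).mul_mem ((clf LB T).pow_mem hS1 _) (hn _)) (gA_mem hx zero_mem_VL _)
  · refine (clf LB T).div_mem ((clf LB T).pow_mem (beta_mem hx hβ) _) ((clf LB T).add_mem (hn _) (clf LB T).one_mem)

end

theorem Sk_eq (x s : ℝ) : Sk ℝ ((x * Real.exp s) ^ 2 / 4) = gC x 0 s := by
  rw [gC, Gr_a2_zero]

theorem cL_exp {x : ℝ} (hx : 0 < x) (s : ℝ) : cL (x * Real.exp s) = cL x + s := by
  rw [cL, cL, Real.log_mul hx.ne' (Real.exp_pos s).ne', Real.log_exp]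
  ring

theorem kr_eq {x : ℝ} (hx : 0 < x) (s : ℝ) : kr 0 (x * Real.exp s) = gC x 0 s - (cL x + s) * (gA x 0 s + 1) := by
  have h1 := kr0_eq (pos_exp hx s)
  rw [Sk_eq, cL_exp hx] at h1
  have h2 : Fk ℝ ((x * Real.exp s) ^ 2 / 4) = gA x 0 s + 1 := by
    rw [gA, Gr_a1_zero]
    ring
  rw [h2] at h1
  linear_combination h1

theorem int_kr {x : ℝ} (hx : 0 < x) (β : ℝ) (l : ℕ) : ∫ s in (0 : ℝ)..β, s ^ l * kr 0 (x * Real.exp s) =
    (∫ s in (0 : ℝ)..β, s ^ l * gC x 0 s) - cL x * (∫ s in (0 : ℝ)..β, s ^ l * (gA x 0 s + 1)) -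
      ∫ s in (0 : ℝ)..β, s ^ (l + 1) * (gA x 0 s + 1) := by
  have h1 := gA_cont x 0
  have h2 := gC_cont x 0
  rw [← intervalIntegral.integral_const_mul, ← intervalIntegral.integral_sub, ← intervalIntegral.integral_sub]
  · congr 1
    ext s
    rw [kr_eq hx]
    ring
  · exact (by fun_prop : Continuous fun s : ℝ => s ^ l * gC x 0 s - cL x * (s ^ l * (gA x 0 s + 1))).intervalIntegrable _ _
  · exact (by fun_prop : Continuous fun s : ℝ => s ^ (l + 1) * (gA x 0 s + 1)).intervalIntegrable _ _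
  · exact (by fun_prop : Continuous fun s : ℝ => s ^ l * gC x 0 s).intervalIntegrable _ _
  · exact (by fun_prop : Continuous fun s : ℝ => cL x * (s ^ l * (gA x 0 s + 1))).intervalIntegrable _ _

section

variable {b : Bool} {x β : ℝ} (hx : 0 < x ∧ IsAlgebraic ℚ x) (hβ : β ∈ VL) {T : Set ℂ} (hc : b = true → ((cL x : ℝ) : ℂ) ∈ clf LB T)

include hx hβ hc

theorem Y0_mem (h : ((Y0 b (x * Real.exp β) : ℝ) : ℂ) ∈ clf LB T) : ((gC x 0 β : ℝ) : ℂ) ∈ clf LB T := by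
  cases b
  · have h1 : Y0 false (x * Real.exp β) = gC x 0 β := Sk_eq x β
    rwa [h1] at h
  · have h1 : Y0 true (x * Real.exp β) = gC x 0 β - (cL x + β) * (gA x 0 β + 1) := kr_eq hx.1 β
    rw [h1] at h
    have h2 : ((gC x 0 β : ℝ) : ℂ) = ((gC x 0 β - (cL x + β) * (gA x 0 β + 1) : ℝ) : ℂ) +
        (((cL x : ℝ) : ℂ) + (β : ℂ)) * (((gA x 0 β : ℝ) : ℂ) + 1) := by
      push_cast
      ring
    rw [h2]
    exact (clf LB T).add_mem h ((clf LB T).mul_mem ((clf LB T).add_mem (hc rfl) (beta_mem hx hβ))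
      ((clf LB T).add_mem (gA_mem hx hβ 0) (clf LB T).one_mem))

theorem intY_mem (l : ℕ) (h : ((∫ s in (0 : ℝ)..β, s ^ l * Y0 b (x * Real.exp s) : ℝ) : ℂ) ∈ clf LB T) :
    ((∫ s in (0 : ℝ)..β, s ^ l * gC x 0 s : ℝ) : ℂ) ∈ clf LB T := by
  cases b
  · have h1 : ∀ s : ℝ, Y0 false (x * Real.exp s) = gC x 0 s := fun s => Sk_eq x s
    simp only [h1] at h
    exact h
  · have h1 : ∀ s : ℝ, Y0 true (x * Real.exp s) = kr 0 (x * Real.exp s) := fun s => rfl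
    simp only [h1] at h
    have h2 : ((∫ s in (0 : ℝ)..β, s ^ l * gC x 0 s : ℝ) : ℂ) = ((∫ s in (0 : ℝ)..β, s ^ l * kr 0 (x * Real.exp s) : ℝ) : ℂ) +
        (((cL x : ℝ) : ℂ) * ((∫ s in (0 : ℝ)..β, s ^ l * (gA x 0 s + 1) : ℝ) : ℂ) +
        ((∫ s in (0 : ℝ)..β, s ^ (l + 1) * (gA x 0 s + 1) : ℝ) : ℂ)) := by
      rw [int_kr hx.1 β l]
      push_cast
      ring
    rw [h2]
    exact (clf LB T).add_mem h ((clf LB T).add_mem ((clf LB T).mul_mem (hc rfl) (intA_mem hx hβ l)) (intA_mem hx hβ (l + 1)))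

end

end Pool.Agent.H18.Wd
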