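import Pool.Agent.H18.Wd.Up2

/-!
# Integrals up to `β`: the families
-/

set_option autoImplicit false
set_option linter.unusedSectionVars false

open MeasureTheory Set Filter Topology intervalIntegral

namespace Pool.Agent.H18.Wd

open Pool.Agent.N902.EW Pool.Agent.H18.Bes Pool.Agent.R352.E

/-- the index set -/
abbrev IU (X : Set ℝ) : Type := (X × VL) × Kd × ℕ

/-- the independent family -/
noncomputable def sV {X : Set ℝ} : IU X → ℂ := fun p => sU p.2.1 p.2.2 (p.1.1.1 * Real.exp p.1.2.1)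

/-- the family -/
noncomputable def tU (b : Bool) {X : Set ℝ} : IU X → ℂ := fun p => nU b p.1.1.1 p.1.2.1 p.2.1 p.2.2

section

variable {X : Set ℝ} (hX : ∀ x ∈ X, 0 < x ∧ IsAlgebraic ℚ x) (hXX : ∀ x ∈ X, ∀ y ∈ X, ∀ β ∈ VL, x = y * Real.exp β → x = y)

include hX

include hXX in
theorem ai_sV : AlgebraicIndependent LB (sV (X := X)) := by
  let g : IU X → Pz × Kd × ℕ := fun p => (⟨p.1.1.1 * Real.exp p.1.2.1, pt_alg (hX _ p.1.1.2) p.1.2.2⟩, p.2)
  have hg : Function.Injective g := by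
    rintro ⟨⟨x, β⟩, p⟩ ⟨⟨y, γ⟩, q⟩ h
    obtain ⟨h1, h2⟩ := Prod.ext_iff.1 h
    have h3 : x.1 * Real.exp β.1 = y.1 * Real.exp γ.1 := congrArg (fun z => z.1) h1
    have h4 : x.1 = y.1 * Real.exp (γ.1 - β.1) := by
      rw [Real.exp_sub, ← mul_div_assoc, ← h3]
      have := (Real.exp_pos β.1).ne'
      field_simp
    have h5 : x.1 = y.1 := hXX _ x.2 _ y.2 _ (sub_mem_VL γ.2 β.2) h4
    have h6 : Real.exp β.1 = Real.exp γ.1 := by
      rw [h5] at h3
      exact mul_left_cancel₀ (hX _ y.2).1.ne' h3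
    have h7 : β.1 = γ.1 := Real.exp_injective h6
    exact Prod.ext (Prod.ext (Subtype.ext h5) (Subtype.ext h7)) h2
  exact ai_sU.comp g hg

theorem zero_case {b : Bool} {x : ℝ} (hx : x ∈ X) {S : Set ℂ} (hc : b = true → ((cL x : ℝ) : ℂ) ∈ clf LB S) (i : Kd) (j : ℕ)
    (h : nU b x 0 i j ∈ clf LB S) : sU i j (x * Real.exp 0) ∈ clf LB S := by
  rcases i
  · rw [nU, if_pos rfl] at h
    rw [Real.exp_zero, mul_one]
    exact h
  · rcases j with _ | j
    · rw [nU] at h
      have h1 := (gC_mem_iff (hX x hx) zero_mem_VL 0).1 (Y0_mem (hX x hx) zero_mem_VL hc h)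
      exact h1
    · rw [nU, if_pos rfl] at h
      rw [Real.exp_zero, mul_one]
      exact h
  · rw [nU, if_pos rfl] at h
    rw [Real.exp_zero, mul_one]
    exact h
  · rw [nU, if_pos rfl] at h
    rw [Real.exp_zero, mul_one]
    exact h

theorem other_case {b : Bool} {x β : ℝ} (hx : x ∈ X) (hβ : β ∈ VL) (h0 : β ≠ 0) {S : Set ℂ}
    (hc : b = true → ((cL x : ℝ) : ℂ) ∈ clf LB S) (i : Kd) (L : ℕ)
    (hz : ∀ j ≤ L, sU i j (x * Real.exp 0) ∈ clf LB S)
    (h : ∀ j ≤ L, nU b x β i j ∈ clf LB S) : ∀ j ≤ L, sU i j (x * Real.exp β) ∈ clf LB S := by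
  have hx' := hX x hx
  have hz' := pt_alg hx' hβ
  rcases i
  · intro j hj
    have h1 := h j hj
    have h2 := hz j hj
    rw [nU, if_neg h0] at h1
    rw [Real.exp_zero, mul_one] at h2
    have e1 := R_split (k := j + 2) (by omega) (I0_ne (alg_cast hx'.2))
    have e2 := R_split (k := j + 2) (by omega) (I0_ne (alg_cast hz'.2))
    show Vv (j + 2) ((x * Real.exp β : ℝ) : ℂ) / I0 ((x * Real.exp β : ℝ) : ℂ) ∈ _
    have h2' : Vv (j + 2) (x : ℂ) / I0 (x : ℂ) ∈ clf LB S := h2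
    have e3 : Vv (j + 2) ((x * Real.exp β : ℝ) : ℂ) / I0 ((x * Real.exp β : ℝ) : ℂ) =
        (RT (j + 2) (x : ℂ) - RT (j + 2) ((x * Real.exp β : ℝ) : ℂ)) + Vv (j + 2) (x : ℂ) / I0 (x : ℂ) := by
      rw [e1, e2]
      ring
    rw [e3]
    exact (clf LB S).add_mem h1 h2'
  · have key : ∀ j, j + 1 ≤ L → Cv (j + 1) ((x * Real.exp β : ℝ) : ℂ) ∈ clf LB S := by
      intro j hj
      refine (gC_mem_iff hx' hβ (j + 1)).1 ?_
      refine ibp_mem (gC_deriv hx'.1) (gC_cont x) β (beta_mem hx' hβ) j (fun i hi => ?_) (fun i hi => ?_) j le_rfl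
      · refine (gC_mem_iff hx' zero_mem_VL (i + 1)).2 ?_
        exact hz (i + 1) (by omega)
      · refine intY_mem hx' hβ hc i ?_
        have h1 := h (i + 1) (by omega)
        rwa [nU, if_neg h0] at h1
    intro j hj
    rcases j with _ | j
    · have h1 := h 0 hj
      rw [nU] at h1
      exact (gC_mem_iff hx' hβ 0).1 (Y0_mem hx' hβ hc h1)
    · exact key j hj
  · intro j hj
    have h1 := h j hj
    have h2 := hz j hj
    rw [nU, if_neg h0] at h1
    rw [Real.exp_zero, mul_one] at h2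
    have e1 := zeta_split (k := j + 2) (by omega) (x : ℂ)
    have e2 := zeta_split (k := j + 2) (by omega) ((x * Real.exp β : ℝ) : ℂ)
    show PS (j + 2) ((x * Real.exp β : ℝ) : ℂ) ∈ _
    have h2' : PS (j + 2) (x : ℂ) ∈ clf LB S := h2
    have e3 : PS (j + 2) ((x * Real.exp β : ℝ) : ℂ) =
        (PT (j + 2) (x : ℂ) - PT (j + 2) ((x * Real.exp β : ℝ) : ℂ)) + PS (j + 2) (x : ℂ) := by
      linear_combination e1 - e2
    rw [e3]
    exact (clf LB S).add_mem h1 h2'
  · refine fun j hj => ?_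
    refine ibp_mem (g := gE x) (gE_deriv hx'.1) (gE_cont hx'.1) β (beta_mem hx' hβ) j (fun i hi => ?_) (fun i hi => ?_) j le_rfl
    · exact hz i (by omega)
    · have h1 := h i (by omega)
      rw [nU, if_neg h0] at h1
      have h3 : ∫ s in (0 : ℝ)..β, s ^ i * gE x 0 s = β ^ (i + 1) / (i + 1) - ∫ s in (0 : ℝ)..β, s ^ i * Real.exp (-(x * Real.exp s)) := by
        have h2 : ∫ s in (0 : ℝ)..β, s ^ i = β ^ (i + 1) / (i + 1) := by
          rw [integral_pow]
          simp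
        rw [← h2, ← intervalIntegral.integral_sub]
        · congr 1
          ext s
          rw [gE, EE_zero_left]
          ring
        · exact (continuous_pow i).intervalIntegrable _ _
        · exact (by fun_prop : Continuous fun s : ℝ => s ^ i * Real.exp (-(x * Real.exp s))).intervalIntegrable _ _
      rw [h3]
      push_cast

      refine (clf LB S).sub_mem ((clf LB S).div_mem ((clf LB S).pow_mem (beta_mem hx' hβ) _)
        ((clf LB S).add_mem (natCast_mem (clf LB S) i) (clf LB S).one_mem)) h1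

theorem tri_u (b : Bool) {Y : Set ℂ} (hc : b = true → ∀ x ∈ X, ((cL x : ℝ) : ℂ) ∈ clf LB Y) (i : IU X) :
    ∃ D : Finset (IU X), i ∈ D ∧ ∀ j ∈ D, sV j ∈ clf LB (Y ∪ tU b '' (D : Set (IU X))) := by
  classical
  obtain ⟨⟨x, β⟩, i, k⟩ := i
  let z0 : VL := ⟨0, zero_mem_VL⟩
  let D : Finset (IU X) := (Finset.range (k + 1)).image (fun j => ((x, β), i, j)) ∪
    (Finset.range (k + 1)).image (fun j => ((x, z0), i, j))
  refine ⟨D, Finset.mem_union_left _ (Finset.mem_image.2 ⟨k, by simp, rfl⟩), ?_⟩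
  set S : Set ℂ := Y ∪ tU b '' (D : Set (IU X)) with hS
  have hc' : b = true → ((cL x.1 : ℝ) : ℂ) ∈ clf LB S := fun hb => clf_mono subset_union_left (hc hb x.1 x.2)
  have hm1 : ∀ j ≤ k, nU b x.1 β.1 i j ∈ clf LB S := fun j hj => subset_clf _ (Or.inr ⟨((x, β), i, j),
    Finset.mem_coe.2 (Finset.mem_union_left _ (Finset.mem_image.2 ⟨j, by simp; omega, rfl⟩)), rfl⟩)
  have hm0 : ∀ j ≤ k, nU b x.1 0 i j ∈ clf LB S := fun j hj => subset_clf _ (Or.inr ⟨((x, z0), i, j),
    Finset.mem_coe.2 (Finset.mem_union_right _ (Finset.mem_image.2 ⟨j, by simp; omega, rfl⟩)), rfl⟩)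
  have hz : ∀ j ≤ k, sU i j (x.1 * Real.exp 0) ∈ clf LB S := fun j hj => zero_case hX x.2 hc' i j (hm0 j hj)
  have ho : ∀ j ≤ k, sU i j (x.1 * Real.exp β.1) ∈ clf LB S := by
    by_cases h0 : β.1 = 0
    · intro j hj
      rw [h0]
      exact hz j hj
    · exact other_case hX x.2 β.2 h0 hc' i k hz hm1
  intro j hj
  rcases Finset.mem_union.1 hj with h | h
  · obtain ⟨l, hl, rfl⟩ := Finset.mem_image.1 h
    exact ho l (by have := Finset.mem_range.1 hl; omega)
  · obtain ⟨l, hl, rfl⟩ := Finset.mem_image.1 h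
    exact hz l (by have := Finset.mem_range.1 hl; omega)

include hXX

/-- **the numbers are algebraically independent** -/
theorem ai_tU : AlgebraicIndependent LB (tU false (X := X)) := by
  refine ai_of_tri (ai_sV hX hXX) fun i => ?_
  obtain ⟨D, hi, hD⟩ := tri_u hX false (Y := ∅) (by simp) i
  refine ⟨D, hi, fun j hj => ?_⟩
  have := hD j hj
  rwa [empty_union] at this

variable {τ : Type} [Fintype τ] {y : τ → ℂ}

theorem count_u (hc : ∀ x ∈ X, ((cL x : ℝ) : ℂ) ∈ clf LB (range y)) :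
    {n : τ ⊕ IU X | Sum.elim (fun j => IsAlgebraic LB (y j)) (fun i => IsAlgebraic LB (tU true i)) n}.encard ≤
      (Fintype.card τ : ℕ∞) :=
  cnt (ai_sV hX hXX) (tri_u hX true (fun _ => hc))

theorem trdeg_u (hc : ∀ x ∈ X, ((cL x : ℝ) : ℂ) ∈ clf LB (range y)) (A : Finset (IU X)) :
    (A.card : Cardinal) ≤ Algebra.trdeg LB (IntermediateField.adjoin LB (range y ∪ tU true '' (A : Set (IU X)))) :=
  trdeg_of_eRk (rk_ge (ai_sV hX hXX) (tri_u hX true (fun _ => hc)) A)

end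

end Pool.Agent.H18.Wd
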