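import Pool.Agent.H18.Wd.Wt

/-!
# The derivatives with respect to the order as iterated integrals: algebraic independence
-/

set_option autoImplicit false
set_option linter.unusedSectionVars false

open PowerSeries
open scoped Differential

namespace Pool.Agent.H18.Wd

open Pool.Agent.N902.EW Pool.Agent.H18.Bes

variable {K : Type*} [Field K] [CharZero K]

/-- the pair `(v_j, r_j)` for a power series `f` with constant coefficient `1` -/
noncomputable def vr (f : K⟦X⟧) : ℕ → K⟦X⟧ × K⟦X⟧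
  | 0 => (1, 1)
  | j + 1 => (ig ((vr f j).1 - pw f (-2) * (vr f j).2), ig ((vr f j).2 - pw f 2 * (vr f j).1))

noncomputable def vv (f : K⟦X⟧) (j : ℕ) : K⟦X⟧ := (vr f j).1
noncomputable def rr (f : K⟦X⟧) (j : ℕ) : K⟦X⟧ := (vr f j).2

theorem vv_zero (f : K⟦X⟧) : vv f 0 = 1 := rfl
theorem rr_zero (f : K⟦X⟧) : rr f 0 = 1 := rfl
theorem vv_succ (f : K⟦X⟧) (j : ℕ) : vv f (j + 1) = ig (vv f j - pw f (-2) * rr f j) := rfl
theorem rr_succ (f : K⟦X⟧) (j : ℕ) : rr f (j + 1) = ig (rr f j - pw f 2 * vv f j) := rfl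

theorem coeff_zero_vv (f : K⟦X⟧) (j : ℕ) : coeff 0 (vv f j) = if j = 0 then 1 else 0 := by
  rcases j with _ | j
  · rw [vv_zero]; simp
  · rw [vv_succ, coeff_zero_ig]; simp

theorem coeff_zero_rr (f : K⟦X⟧) (j : ℕ) : coeff 0 (rr f j) = if j = 0 then 1 else 0 := by
  rcases j with _ | j
  · rw [rr_zero]; simp
  · rw [rr_succ, coeff_zero_ig]; simp

theorem coeff_zero_pw_mul {f : K⟦X⟧} (hf : coeff 0 f = 1) (e : ℤ) (g : K⟦X⟧) : coeff 0 (pw f e * g) = coeff 0 g := by
  have h := coeff_zero_pw hf e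
  rw [coeff_zero_eq_constantCoeff_apply] at h
  rw [coeff_zero_eq_constantCoeff_apply, map_mul, h, one_mul, coeff_zero_eq_constantCoeff_apply]

theorem th_vv_succ {f : K⟦X⟧} (hf : coeff 0 f = 1) (j : ℕ) : th (vv f (j + 1)) = vv f j - pw f (-2) * rr f j := by
  rw [vv_succ, th_ig]
  rw [map_sub, coeff_zero_pw_mul hf, coeff_zero_vv, coeff_zero_rr, sub_self]

theorem th_rr_succ {f : K⟦X⟧} (hf : coeff 0 f = 1) (j : ℕ) : th (rr f (j + 1)) = rr f j - pw f 2 * vv f j := by
  rw [rr_succ, th_ig]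
  rw [map_sub, coeff_zero_pw_mul hf, coeff_zero_vv, coeff_zero_rr, sub_self]

theorem th_one : th (1 : K⟦X⟧) = 0 := by
  ext n
  rw [coeff_th, coeff_one, map_zero]
  split_ifs with h
  · rw [h]; simp
  · simp

theorem eq_zero_of_th {f : K⟦X⟧} (h : th f = 0) (h0 : coeff 0 f = 0) : f = 0 := by
  ext n
  rcases Nat.eq_zero_or_pos n with rfl | hn
  · rw [h0, map_zero]
  · have h1 := congrArg (coeff n) h
    rw [coeff_th, map_zero] at h1
    rw [map_zero]
    exact (mul_eq_zero.1 h1).resolve_left (by exact_mod_cast hn.ne')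

theorem th_sum {σ : Type*} (s : Finset σ) (g : σ → K⟦X⟧) : th (∑ i ∈ s, g i) = ∑ i ∈ s, th (g i) := by
  classical
  induction s using Finset.induction_on with
  | empty => rw [Finset.sum_empty, Finset.sum_empty]; ext n; rw [coeff_th]; simp
  | insert a s ha ih => rw [Finset.sum_insert ha, Finset.sum_insert ha, th_add, ih]

open Finset in
/-- an alternating symmetric sum -/
theorem alt_sum (g : ℕ → K⟦X⟧) {n : ℕ} (hn : Odd n) : ∑ p ∈ antidiagonal n, (-1 : K⟦X⟧) ^ p.2 * (g p.1 * g p.2) = 0 := by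
  have h1 : ∑ p ∈ antidiagonal n, (-1 : K⟦X⟧) ^ p.2 * (g p.1 * g p.2) =
      ∑ p ∈ antidiagonal n, (-1 : K⟦X⟧) ^ p.1 * (g p.1 * g p.2) := by
    rw [← Finset.Nat.sum_antidiagonal_swap]
    refine Finset.sum_congr rfl fun p _ => ?_
    simp only [Prod.fst_swap, Prod.snd_swap]
    ring
  have h2 : ∑ p ∈ antidiagonal n, (-1 : K⟦X⟧) ^ p.1 * (g p.1 * g p.2) =
      -∑ p ∈ antidiagonal n, (-1 : K⟦X⟧) ^ p.2 * (g p.1 * g p.2) := by
    rw [← Finset.sum_neg_distrib]
    refine Finset.sum_congr rfl fun p hp => ?_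
    have h3 : (-1 : K⟦X⟧) ^ p.1 * (-1) ^ p.2 = -1 := by
      rw [← pow_add, mem_antidiagonal.1 hp, hn.neg_one_pow]
    have h4 : (-1 : K⟦X⟧) ^ p.2 * (-1) ^ p.2 = 1 := by rw [← mul_pow]; simp
    have h5 : (-1 : K⟦X⟧) ^ p.1 = -(-1) ^ p.2 := by linear_combination (-1 : K⟦X⟧) ^ p.2 * h3 - (-1 : K⟦X⟧) ^ p.1 * h4
    rw [h5]; ring
  rw [h2] at h1
  have h3 : (2 : K) • ∑ p ∈ antidiagonal n, (-1 : K⟦X⟧) ^ p.2 * (g p.1 * g p.2) = 0 := by
    rw [smul_eq_C_mul, map_ofNat]; linear_combination h1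
  exact (smul_eq_zero.1 h3).resolve_left two_ne_zero

open Finset in
/-- the Wronskian relations -/
theorem wr_rel {f : K⟦X⟧} (hf : coeff 0 f = 1) {n : ℕ} (hn : Odd n) :
    ∑ p ∈ antidiagonal (n + 1), (-1 : K⟦X⟧) ^ p.2 * (vv f p.1 * rr f p.2) = 0 := by
  apply eq_zero_of_th
  · rw [th_sum]
    have hsgn : ∀ m : ℕ, th ((-1 : K⟦X⟧) ^ m) = 0 := by
      intro m
      rcases neg_one_pow_eq_or K⟦X⟧ m with h | h
      · rw [h, th_one]
      · have h1 : th (-1 : K⟦X⟧) = 0 := by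
          have h2 := th_smul (-1 : K) (1 : K⟦X⟧)
          rw [th_one, smul_zero, neg_one_smul] at h2
          exact h2
        rw [h, h1]
    have h1 : ∀ p ∈ antidiagonal (n + 1), th ((-1 : K⟦X⟧) ^ p.2 * (vv f p.1 * rr f p.2)) =
        (-1 : K⟦X⟧) ^ p.2 * (th (vv f p.1) * rr f p.2) + (-1 : K⟦X⟧) ^ p.2 * (vv f p.1 * th (rr f p.2)) := by
      intro p _
      rw [th_mul, hsgn, zero_mul, zero_add, th_mul]
      ring
    rw [Finset.sum_congr rfl h1, Finset.sum_add_distrib]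
    have h2 : ∑ p ∈ antidiagonal (n + 1), (-1 : K⟦X⟧) ^ p.2 * (th (vv f p.1) * rr f p.2) =
        ∑ p ∈ antidiagonal n, (-1 : K⟦X⟧) ^ p.2 * ((vv f p.1 - pw f (-2) * rr f p.1) * rr f p.2) := by
      rw [Finset.Nat.antidiagonal_succ, Finset.sum_cons, vv_zero, th_one, zero_mul, mul_zero, zero_add, Finset.sum_map]
      refine Finset.sum_congr rfl fun p _ => ?_
      simp only [Function.Embedding.prodMap, Function.Embedding.coeFn_mk, Prod.map, Function.Embedding.refl_apply]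
      rw [Nat.succ_eq_add_one, th_vv_succ hf]
    have h3 : ∑ p ∈ antidiagonal (n + 1), (-1 : K⟦X⟧) ^ p.2 * (vv f p.1 * th (rr f p.2)) =
        -∑ p ∈ antidiagonal n, (-1 : K⟦X⟧) ^ p.2 * (vv f p.1 * (rr f p.2 - pw f 2 * vv f p.2)) := by
      rw [Finset.Nat.antidiagonal_succ', Finset.sum_cons, rr_zero, th_one, mul_zero, mul_zero, zero_add, Finset.sum_map,
        ← Finset.sum_neg_distrib]
      refine Finset.sum_congr rfl fun p _ => ?_
      simp only [Function.Embedding.prodMap, Function.Embedding.coeFn_mk, Prod.map, Function.Embedding.refl_apply]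
      rw [Nat.succ_eq_add_one, th_rr_succ hf, pow_succ]
      ring
    rw [h2, h3, ← sub_eq_add_neg, ← Finset.sum_sub_distrib]
    have h4 : ∀ p ∈ antidiagonal n, (-1 : K⟦X⟧) ^ p.2 * ((vv f p.1 - pw f (-2) * rr f p.1) * rr f p.2) -
        (-1 : K⟦X⟧) ^ p.2 * (vv f p.1 * (rr f p.2 - pw f 2 * vv f p.2)) =
        pw f 2 * ((-1 : K⟦X⟧) ^ p.2 * (vv f p.1 * vv f p.2)) - pw f (-2) * ((-1 : K⟦X⟧) ^ p.2 * (rr f p.1 * rr f p.2)) := by
      intro p _
      ring
    rw [Finset.sum_congr rfl h4, Finset.sum_sub_distrib, ← Finset.mul_sum, ← Finset.mul_sum, alt_sum _ hn, alt_sum _ hn]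
    ring
  · rw [map_sum]
    refine Finset.sum_eq_zero fun p hp => ?_
    have h1 : coeff 0 (vv f p.1 * rr f p.2) = 0 := by
      have h2 := mem_antidiagonal.1 hp
      rcases Nat.eq_zero_or_pos p.1 with h | h
      · refine coeff_zero_mul (Or.inr ?_)
        rw [coeff_zero_rr, if_neg (by omega)]
      · refine coeff_zero_mul (Or.inl ?_)
        rw [coeff_zero_vv, if_neg h.ne']
    exact coeff_zero_mul (Or.inr h1)

/-! ### The derivations -/

section der

variable {ι : Type*} [Fintype ι] {ρ : ι → K} {C : Subfield (LF K)}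

/-- the letters -/
def bl (i : ι) : ι × {e : ℤ // e ≠ 0} := (i, ⟨-2, by norm_num⟩)
def pl (i : ι) : ι × {e : ℤ // e ≠ 0} := (i, ⟨2, by norm_num⟩)

theorem bl_ne_pl (i k : ι) : bl i ≠ pl k := fun h => by
  have := congrArg (fun x => (x.2.1 : ℤ)) h
  simp [bl, pl] at this

theorem bl_inj {i k : ι} (h : bl i = bl k) : i = k := congrArg Prod.fst h
theorem pl_inj {i k : ι} (h : pl i = pl k) : i = k := congrArg Prod.fst h

theorem vv_split (i : ι) (j : ℕ) : vv (fs (ρ i)) (j + 1) =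
    ig (lt (bu ρ) none * (vv (fs (ρ i)) j - rr (fs (ρ i)) j)) - ig (lt (bu ρ) (some (bl i)) * rr (fs (ρ i)) j) := by
  have h1 : ∀ f g : K⟦X⟧, ig (f - g) = ig f - ig g := fun f g => by
    rw [sub_eq_add_neg, ig_add, ← neg_one_smul K g, ig_smul, neg_one_smul, ← sub_eq_add_neg]
  rw [← h1, vv_succ]
  congr 1
  rw [lt, lt, bu, bl]
  ring

theorem rr_split (i : ι) (j : ℕ) : rr (fs (ρ i)) (j + 1) =
    ig (lt (bu ρ) none * (rr (fs (ρ i)) j - vv (fs (ρ i)) j)) - ig (lt (bu ρ) (some (pl i)) * vv (fs (ρ i)) j) := by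
  have h1 : ∀ f g : K⟦X⟧, ig (f - g) = ig f - ig g := fun f g => by
    rw [sub_eq_add_neg, ig_add, ← neg_one_smul K g, ig_smul, neg_one_smul, ← sub_eq_add_neg]
  rw [← h1, rr_succ]
  congr 1
  rw [lt, lt, bu, pl]
  ring

theorem vr_mem (i : ι) (j : ℕ) : (vv (fs (ρ i)) j ∈ SW (bu ρ) ∧ rr (fs (ρ i)) j ∈ SW (bu ρ)) ∧
    vv (fs (ρ i)) j - rr (fs (ρ i)) j ∈ SP (bu ρ) := by
  induction j with
  | zero => exact ⟨⟨one_mem_SW, one_mem_SW⟩, by rw [vv_zero, rr_zero, sub_self]; exact Submodule.zero_mem _⟩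
  | succ j ih =>
    obtain ⟨⟨h1, h2⟩, h3⟩ := ih
    have h3' : rr (fs (ρ i)) j - vv (fs (ρ i)) j ∈ SP (bu ρ) := by rw [← neg_sub]; exact Submodule.neg_mem _ h3
    have m1 : vv (fs (ρ i)) (j + 1) ∈ SP (bu ρ) := by
      rw [vv_split]
      exact Submodule.sub_mem _ (ig_mul_mem none h3) (ig_mem _ h2 (Or.inl (by simp)))
    have m2 : rr (fs (ρ i)) (j + 1) ∈ SP (bu ρ) := by
      rw [rr_split]
      exact Submodule.sub_mem _ (ig_mul_mem none h3') (ig_mem _ h1 (Or.inl (by simp)))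
    exact ⟨⟨SP_le m1, SP_le m2⟩, Submodule.sub_mem _ m1 m2⟩

variable (h : Frm C (bu ρ))

noncomputable def vA (i : ι) (j : ℕ) : AW h := ⟨vv (fs (ρ i)) j, (vr_mem i j).1.1⟩
noncomputable def rA (i : ι) (j : ℕ) : AW h := ⟨rr (fs (ρ i)) j, (vr_mem i j).1.2⟩

theorem vA_zero (i : ι) : vA h i 0 = 1 := rfl
theorem rA_zero (i : ι) : rA h i 0 = 1 := rfl

theorem vA_split (i : ι) (j : ℕ) (h1 : ig (lt (bu ρ) none * (vv (fs (ρ i)) j - rr (fs (ρ i)) j)) ∈ AW h)
    (h2 : ig (lt (bu ρ) (some (bl i)) * rr (fs (ρ i)) j) ∈ AW h) : vA h i (j + 1) = ⟨_, h1⟩ - ⟨_, h2⟩ :=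
  Subtype.ext (vv_split i j)

theorem rA_split (i : ι) (j : ℕ) (h1 : ig (lt (bu ρ) none * (rr (fs (ρ i)) j - vv (fs (ρ i)) j)) ∈ AW h)
    (h2 : ig (lt (bu ρ) (some (pl i)) * vv (fs (ρ i)) j) ∈ AW h) : rA h i (j + 1) = ⟨_, h1⟩ - ⟨_, h2⟩ :=
  Subtype.ext (rr_split i j)

open Classical in
theorem DA_vA (x : ι × {e : ℤ // e ≠ 0}) (i : ι) (j : ℕ) :
    DA h (some x) (vA h i (j + 1)) = if bl i = x then -rA h i j else 0 := by
  obtain ⟨⟨m1, m2⟩, m3⟩ := vr_mem (ρ := ρ) i j
  have a1 : ig (lt (bu ρ) none * (vv (fs (ρ i)) j - rr (fs (ρ i)) j)) ∈ AW h := SP_le (ig_mul_mem none m3)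
  have a2 : ig (lt (bu ρ) (some (bl i)) * rr (fs (ρ i)) j) ∈ AW h := SP_le (ig_mem _ m2 (Or.inl (by simp)))
  rw [vA_split h i j a1 a2, map_sub, DA_ig (some x) none (SP_le m3) (Or.inr m3) a1 (SP_le m3), if_neg (by simp),
    DA_ig (some x) (some (bl i)) m2 (Or.inl (by simp)) a2 m2, zero_sub]
  by_cases hx : bl i = x
  · rw [if_pos hx, if_pos (by rw [hx])]; rfl
  · rw [if_neg hx, if_neg (fun h' => hx (Option.some.inj h')), neg_zero]

open Classical in
theorem DA_rA (x : ι × {e : ℤ // e ≠ 0}) (i : ι) (j : ℕ) :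
    DA h (some x) (rA h i (j + 1)) = if pl i = x then -vA h i j else 0 := by
  obtain ⟨⟨m1, m2⟩, m3⟩ := vr_mem (ρ := ρ) i j
  have m3' : rr (fs (ρ i)) j - vv (fs (ρ i)) j ∈ SP (bu ρ) := by rw [← neg_sub]; exact Submodule.neg_mem _ m3
  have a1 : ig (lt (bu ρ) none * (rr (fs (ρ i)) j - vv (fs (ρ i)) j)) ∈ AW h := SP_le (ig_mul_mem none m3')
  have a2 : ig (lt (bu ρ) (some (pl i)) * vv (fs (ρ i)) j) ∈ AW h := SP_le (ig_mem _ m1 (Or.inl (by simp)))
  rw [rA_split h i j a1 a2, map_sub, DA_ig (some x) none (SP_le m3') (Or.inr m3') a1 (SP_le m3'), if_neg (by simp),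
    DA_ig (some x) (some (pl i)) m1 (Or.inl (by simp)) a2 m1, zero_sub]
  by_cases hx : pl i = x
  · rw [if_pos hx, if_pos (by rw [hx])]; rfl
  · rw [if_neg hx, if_neg (fun h' => hx (Option.some.inj h')), neg_zero]

/-- the derivation acts by a matrix -/
structure Acts (P : Derivation K (AW h) (AW h)) (i : ι) (M : Matrix (Fin 2) (Fin 2) K) (d : ℕ) : Prop where
  v : ∀ j, P (vA h i (j + d)) = M 0 0 • vA h i j + M 0 1 • rA h i j
  r : ∀ j, P (rA h i (j + d)) = M 1 0 • vA h i j + M 1 1 • rA h i j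
  lv : ∀ j < d, P (vA h i j) = 0
  lr : ∀ j < d, P (rA h i j) = 0
  ov : ∀ k ≠ i, ∀ j, P (vA h k j) = 0
  or' : ∀ k ≠ i, ∀ j, P (rA h k j) = 0

theorem acts_b (i : ι) : Acts h (DA h (some (bl i))) i !![0, -1; 0, 0] 1 := by
  classical
  refine ⟨fun j => ?_, fun j => ?_, fun j hj => ?_, fun j hj => ?_, fun k hk j => ?_, fun k hk j => ?_⟩
  · rw [DA_vA, if_pos rfl]; simp
  · rw [DA_rA, if_neg (fun h' => bl_ne_pl _ _ h'.symm)]; simp
  · rw [Nat.lt_one_iff.1 hj, vA_zero, Derivation.map_one_eq_zero]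
  · rw [Nat.lt_one_iff.1 hj, rA_zero, Derivation.map_one_eq_zero]
  · rcases j with _ | j
    · rw [vA_zero, Derivation.map_one_eq_zero]
    · rw [DA_vA, if_neg (fun h' => hk (bl_inj h'))]
  · rcases j with _ | j
    · rw [rA_zero, Derivation.map_one_eq_zero]
    · rw [DA_rA, if_neg (fun h' => bl_ne_pl _ _ h'.symm)]

theorem acts_p (i : ι) : Acts h (DA h (some (pl i))) i !![0, 0; -1, 0] 1 := by
  classical
  refine ⟨fun j => ?_, fun j => ?_, fun j hj => ?_, fun j hj => ?_, fun k hk j => ?_, fun k hk j => ?_⟩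
  · rw [DA_vA, if_neg (fun h' => bl_ne_pl _ _ h')]; simp
  · rw [DA_rA, if_pos rfl]; simp
  · rw [Nat.lt_one_iff.1 hj, vA_zero, Derivation.map_one_eq_zero]
  · rw [Nat.lt_one_iff.1 hj, rA_zero, Derivation.map_one_eq_zero]
  · rcases j with _ | j
    · rw [vA_zero, Derivation.map_one_eq_zero]
    · rw [DA_vA, if_neg (fun h' => bl_ne_pl _ _ h')]
  · rcases j with _ | j
    · rw [rA_zero, Derivation.map_one_eq_zero]
    · rw [DA_rA, if_neg (fun h' => hk (pl_inj h'))]

variable {h}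

/-- commutators -/
theorem Acts.lie {P Q : Derivation K (AW h) (AW h)} {i : ι} {M N : Matrix (Fin 2) (Fin 2) K} {d e : ℕ}
    (hP : Acts h P i M d) (hQ : Acts h Q i N e) : Acts h ⁅P, Q⁆ i (N * M - M * N) (d + e) := by
  have hPs : ∀ (c : K) (x : AW h), P (c • x) = c • P x := fun c x => P.map_smul c x
  have hQs : ∀ (c : K) (x : AW h), Q (c • x) = c • Q x := fun c x => Q.map_smul c x
  refine ⟨fun j => ?_, fun j => ?_, fun j hj => ?_, fun j hj => ?_, fun k hk j => ?_, fun k hk j => ?_⟩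
  · rw [Derivation.commutator_apply]
    have h1 : P (Q (vA h i (j + (d + e)))) = (N * M) 0 0 • vA h i j + (N * M) 0 1 • rA h i j := by
      rw [← add_assoc, hQ.v, map_add, hPs, hPs, hP.v, hP.r]
      simp only [Matrix.mul_apply, Fin.sum_univ_two, smul_add, smul_smul, add_smul]
      abel
    have h2 : Q (P (vA h i (j + (d + e)))) = (M * N) 0 0 • vA h i j + (M * N) 0 1 • rA h i j := by
      rw [add_comm d e, ← add_assoc, hP.v, map_add, hQs, hQs, hQ.v, hQ.r]
      simp only [Matrix.mul_apply, Fin.sum_univ_two, smul_add, smul_smul, add_smul]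
      abel
    rw [h1, h2, Matrix.sub_apply, Matrix.sub_apply, sub_smul, sub_smul]
    abel
  · rw [Derivation.commutator_apply]
    have h1 : P (Q (rA h i (j + (d + e)))) = (N * M) 1 0 • vA h i j + (N * M) 1 1 • rA h i j := by
      rw [← add_assoc, hQ.r, map_add, hPs, hPs, hP.v, hP.r]
      simp only [Matrix.mul_apply, Fin.sum_univ_two, smul_add, smul_smul, add_smul]
      abel
    have h2 : Q (P (rA h i (j + (d + e)))) = (M * N) 1 0 • vA h i j + (M * N) 1 1 • rA h i j := by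
      rw [add_comm d e, ← add_assoc, hP.r, map_add, hQs, hQs, hQ.v, hQ.r]
      simp only [Matrix.mul_apply, Fin.sum_univ_two, smul_add, smul_smul, add_smul]
      abel
    rw [h1, h2, Matrix.sub_apply, Matrix.sub_apply, sub_smul, sub_smul]
    abel
  · have h1 : P (Q (vA h i j)) = 0 := by
      by_cases he : j < e
      · rw [hQ.lv j he, map_zero]
      · obtain ⟨m, rfl⟩ := Nat.exists_eq_add_of_le (not_lt.1 he)
        rw [add_comm e m, hQ.v, map_add, hPs, hPs, hP.lv m (by omega), hP.lr m (by omega), smul_zero, smul_zero, add_zero]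
    have h2 : Q (P (vA h i j)) = 0 := by
      by_cases he : j < d
      · rw [hP.lv j he, map_zero]
      · obtain ⟨m, rfl⟩ := Nat.exists_eq_add_of_le (not_lt.1 he)
        rw [add_comm d m, hP.v, map_add, hQs, hQs, hQ.lv m (by omega), hQ.lr m (by omega), smul_zero, smul_zero, add_zero]
    rw [Derivation.commutator_apply, h1, h2, sub_zero]
  · have h1 : P (Q (rA h i j)) = 0 := by
      by_cases he : j < e
      · rw [hQ.lr j he, map_zero]
      · obtain ⟨m, rfl⟩ := Nat.exists_eq_add_of_le (not_lt.1 he)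
        rw [add_comm e m, hQ.r, map_add, hPs, hPs, hP.lv m (by omega), hP.lr m (by omega), smul_zero, smul_zero, add_zero]
    have h2 : Q (P (rA h i j)) = 0 := by
      by_cases he : j < d
      · rw [hP.lr j he, map_zero]
      · obtain ⟨m, rfl⟩ := Nat.exists_eq_add_of_le (not_lt.1 he)
        rw [add_comm d m, hP.r, map_add, hQs, hQs, hQ.lv m (by omega), hQ.lr m (by omega), smul_zero, smul_zero, add_zero]
    rw [Derivation.commutator_apply, h1, h2, sub_zero]
  · rw [Derivation.commutator_apply, hQ.ov k hk, hP.ov k hk, map_zero, map_zero, sub_zero]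
  · rw [Derivation.commutator_apply, hQ.or' k hk, hP.or' k hk, map_zero, map_zero, sub_zero]

variable (h)

/-- the three sequences of derivations -/
theorem exists_der (i : ι) (k : ℕ) :
    (∃ P : Derivation K (AW h) (AW h), ∃ c : K, c ≠ 0 ∧ Acts h P i !![0, c; 0, 0] (2 * k + 1)) ∧
    (∃ P : Derivation K (AW h) (AW h), ∃ c : K, c ≠ 0 ∧ Acts h P i !![0, 0; c, 0] (2 * k + 1)) ∧
    (∃ P : Derivation K (AW h) (AW h), ∃ c : K, c ≠ 0 ∧ Acts h P i !![c, 0; 0, -c] (2 * k + 2)) := by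
  have hH : Acts h ⁅DA h (some (bl i)), DA h (some (pl i))⁆ i !![-1, 0; 0, 1] 2 := by
    have := (acts_b h i).lie (acts_p h i)
    convert this using 1
    ext a b
    fin_cases a <;> fin_cases b <;> simp
  have main : (∃ P : Derivation K (AW h) (AW h), ∃ c : K, c ≠ 0 ∧ Acts h P i !![0, c; 0, 0] (2 * k + 1)) ∧
      (∃ P : Derivation K (AW h) (AW h), ∃ c : K, c ≠ 0 ∧ Acts h P i !![0, 0; c, 0] (2 * k + 1)) := by
    induction k with
    | zero => exact ⟨⟨_, -1, by simp, acts_b h i⟩, ⟨_, -1, by simp, acts_p h i⟩⟩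
    | succ k ih =>
      obtain ⟨⟨P, c, hc, hP⟩, ⟨Q, c', hc', hQ⟩⟩ := ih
      have hk : 2 * (k + 1) + 1 = 2 * k + 1 + 2 := by ring
      rw [hk]
      refine ⟨⟨⁅P, ⁅DA h (some (bl i)), DA h (some (pl i))⁆⁆, -(2 * c), neg_ne_zero.2 (mul_ne_zero two_ne_zero hc), ?_⟩,
        ⟨⁅Q, ⁅DA h (some (bl i)), DA h (some (pl i))⁆⁆, 2 * c', mul_ne_zero two_ne_zero hc', ?_⟩⟩
      · have := hP.lie hH
        convert this using 1
        ext a b
        fin_cases a <;> fin_cases b <;> simp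
        ring
      · have := hQ.lie hH
        convert this using 1
        ext a b
        fin_cases a <;> fin_cases b <;> simp
        ring
  refine ⟨main.1, main.2, ?_⟩
  obtain ⟨P, c, hc, hP⟩ := main.1
  refine ⟨⁅P, DA h (some (pl i))⁆, c, hc, ?_⟩
  have := hP.lie (acts_p h i)
  convert this using 1
  ext a b
  fin_cases a <;> fin_cases b <;> simp

/-- the family `v_(j+1)`, `r_(2k+1)` -/
noncomputable def yA : ι × (ℕ ⊕ ℕ) → AW h
  | (i, Sum.inl j) => vA h i (j + 1)
  | (i, Sum.inr k) => rA h i (2 * k + 1)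

theorem ai_yA : AlgebraicIndependent K (yA h) := by
  classical
  have hchar : CharZero (AW h) := charZero_of_injective_algebraMap (R := K) (algebraMap K (AW h)).injective
  choose E cE hcE aE using fun i k => (exists_der h i k).1
  choose G cG hcG aG using fun i k => (exists_der h i k).2.1
  choose D cD hcD aD using fun i k => (exists_der h i k).2.2
  refine ai_of_der_deg (d := fun x : ι × (ℕ ⊕ ℕ) => match x with
      | (_, Sum.inl j) => j + 1
      | (_, Sum.inr k) => 2 * k + 1) (yA h)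
    (fun x => match x with
      | (i, Sum.inl j) => if j % 2 = 0 then E i (j / 2) else D i (j / 2)
      | (i, Sum.inr k) => G i k) ?_ ?_
  · rintro ⟨i, j | k⟩
    · simp only [yA]
      by_cases hj : j % 2 = 0
      · rw [if_pos hj]
        have h1 := (aE i (j / 2)).v 0
        have h2 : 0 + (2 * (j / 2) + 1) = j + 1 := by omega
        rw [h2] at h1
        rw [h1, vA_zero, rA_zero]
        simpa using hcE i (j / 2)
      · rw [if_neg hj]
        have h1 := (aD i (j / 2)).v 0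
        have h2 : 0 + (2 * (j / 2) + 2) = j + 1 := by omega
        rw [h2] at h1
        rw [h1, vA_zero, rA_zero]
        simpa using hcD i (j / 2)
    · simp only [yA]
      have h1 := (aG i k).r 0
      rw [zero_add] at h1
      rw [h1, vA_zero, rA_zero]
      simpa using hcG i k
  · rintro ⟨i, j | k⟩ ⟨i', j' | k'⟩ hne hle
    · simp only [yA] at hle ⊢
      by_cases hi : i' = i
      · subst hi
        have hjj : j' ≠ j := fun h => hne (by rw [h])
        split_ifs with hj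
        · exact (aE i' (j / 2)).lv _ (by omega)
        · exact (aD i' (j / 2)).lv _ (by omega)
      · split_ifs with hj
        · exact (aE i (j / 2)).ov _ hi _
        · exact (aD i (j / 2)).ov _ hi _
    · simp only [yA] at hle ⊢
      by_cases hi : i' = i
      · subst hi
        split_ifs with hj
        · rcases lt_or_eq_of_le hle with hlt | heq
          · exact (aE i' (j / 2)).lr _ (by omega)
          · have h1 := (aE i' (j / 2)).r 0
            have h2 : 0 + (2 * (j / 2) + 1) = 2 * k' + 1 := by omega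
            rw [h2] at h1
            rw [h1]
            simp
        · exact (aD i' (j / 2)).lr _ (by omega)
      · split_ifs with hj
        · exact (aE i (j / 2)).or' _ hi _
        · exact (aD i (j / 2)).or' _ hi _
    · simp only [yA] at hle ⊢
      by_cases hi : i' = i
      · subst hi
        rcases lt_or_eq_of_le hle with hlt | heq
        · exact (aG i' k).lv _ (by omega)
        · have h1 := (aG i' k).v 0
          rw [zero_add, ← heq] at h1
          rw [h1]
          simp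
      · exact (aG i k).ov _ hi _
    · simp only [yA] at hle ⊢
      by_cases hi : i' = i
      · subst hi
        have hkk : k' ≠ k := fun h => hne (by rw [h])
        exact (aG i' k).lr _ (by omega)
      · exact (aG i k).or' _ hi _

/-- the algebraic independence over the differential field -/
theorem ai_yC : AlgebraicIndependent C (fun x => ps (yA h x : K⟦X⟧)) := AI_up h (ai_yA h)

end der

end Pool.Agent.H18.Wd
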