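import Pool.Agent.H18.Wd.Alg

/-!
# The condition on the forms for the powers of the Bessel functions
-/

set_option autoImplicit false
set_option linter.unusedSectionVars false

open scoped Differential

namespace Pool.Agent.H18.Wd

open Pool.Agent.N902.EW Pool.Agent.H18.Bes

section gen

open Polynomial

variable {F : Type*} [Field F] [Differential F] [CharZero F] {E : Subfield F}

theorem PD_zpow {x : F} (hx : x ≠ 0) (e : ℤ) : PD E x (x ^ e) (e * x ^ (e - 1)) := by
  rcases e with n | n
  · refine ⟨X ^ n, 1, Cf.X.pow n, Cf.one, by simp, by simp, ?_⟩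
    rcases n with _ | n
    · simp
    · simp only [derivative_X_pow, derivative_one, eval_sub, eval_mul, eval_pow, eval_X, eval_one]
      have h1 : (Int.ofNat (n + 1) : ℤ) - 1 = (n : ℤ) := by simp
      rw [h1, zpow_natCast]
      simp
  · refine ⟨1, X ^ (n + 1), Cf.one, Cf.X.pow (n + 1), ?_, ?_, ?_⟩
    · rw [eval_pow, eval_X]; exact pow_ne_zero _ hx
    · rw [zpow_negSucc, eval_one, eval_pow, eval_X, one_div]
    · have h1 : (Int.negSucc n : ℤ) - 1 = -((n + 2 : ℕ) : ℤ) := by
        rw [Int.negSucc_eq]; push_cast; ring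
      rw [h1, zpow_neg, zpow_natCast]
      simp only [derivative_X_pow, derivative_one, eval_sub, eval_mul, eval_pow, eval_X, eval_one, zero_mul,
        eval_C, Nat.add_sub_cancel]
      have h2 : ((Int.negSucc n : ℤ) : F) = -((n : F) + 1) := by rw [Int.cast_negSucc]; push_cast; ring
      rw [h2]
      push_cast
      field_simp
      simp
      ring

theorem PD_sum {x : F} {σ : Type*} (s : Finset σ) (g d : σ → F) (h : ∀ i ∈ s, PD E x (g i) (d i)) :
    PD E x (∑ i ∈ s, g i) (∑ i ∈ s, d i) := by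
  classical
  induction s using Finset.induction_on with
  | empty => rw [Finset.sum_empty, Finset.sum_empty]; exact PD.const E.zero_mem
  | insert a s ha ih =>
    rw [Finset.sum_insert ha, Finset.sum_insert ha]
    exact (h a (Finset.mem_insert_self _ _)).add (ih fun i hi => h i (Finset.mem_insert_of_mem hi))

/-- the Euler operator -/
theorem euler (hE : St E) {x w : F} (hx0 : x ≠ 0) (hT : Tr E x) (hw : w ∈ E) (hx : x′ = w * x) {g r : F} {S : Finset ℤ}
    {c : ℤ → F} (hg : g ∈ Ad E x) (hr : r ∈ E) (hc : ∀ e, c e ∈ E) (h : g′ = ∑ e ∈ S, c e * x ^ e + r) :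
    ∃ g₁ ∈ Ad E x, g₁′ = ∑ e ∈ S, e * c e * x ^ e := by
  have hv : Cf E (C w * X : F[X]) := (Cf.C hw).mul Cf.X
  have hx' : x′ = (C w * X : F[X]).eval x := by simpa using hx
  obtain ⟨d, pd⟩ := PD.exists hg
  have p1 := PD.deriv hE hv hx' pd
  have hdv : (derivative (C w * X : F[X])).eval x = w := by simp
  rw [h, hdv] at p1
  have p2 : PD E x (∑ e ∈ S, c e * x ^ e + r) (∑ e ∈ S, c e * (e * x ^ (e - 1)) + 0) :=
    (PD_sum S _ _ fun e _ => PD.cmul (hc e) (PD_zpow hx0 e)).add (PD.const hr)
  have h1 := PD.unique hT p1 p2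
  refine ⟨x * d, (Ad E x).mul_mem (self_mem_Ad _ _) (PD.mem pd), ?_⟩
  rw [Derivation.leibniz, hx, smul_eq_mul, smul_eq_mul]
  have h2 : d′ = ∑ e ∈ S, c e * (e * x ^ (e - 1)) - w * d := by rw [add_zero] at h1; linear_combination h1
  rw [h2]
  have h3 : x * ∑ e ∈ S, c e * (e * x ^ (e - 1)) = ∑ e ∈ S, e * c e * x ^ e := by
    rw [Finset.mul_sum]
    refine Finset.sum_congr rfl fun e _ => ?_
    rw [zpow_sub_one₀ hx0]
    field_simp
  rw [mul_sub, h3]
  ring

/-- separation of the weights -/
theorem weights (hE : St E) {x w : F} (hx0 : x ≠ 0) (hT : Tr E x) (hw : w ∈ E) (hx : x′ = w * x)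
    (hcst : ∀ a : F, a′ = 0 → a ∈ E) (hz : ∀ (e : ℤ) (c g : F), c′ = 0 → g′ = c * x ^ e → c = 0) (S : Finset ℤ) :
    ∀ (g r : F) (c : ℤ → F), g ∈ Ad E x → r ∈ E → (∀ e, (c e)′ = 0) → (∀ e ∈ S, e ≠ 0) →
      g′ = ∑ e ∈ S, c e * x ^ e + r → ∀ e ∈ S, c e = 0 := by
  classical
  have hint : ∀ n : ℤ, (n : F)′ = 0 := fun n => Derivation.map_intCast _ n
  induction S using Finset.induction_on with
  | empty => intro _ _ _ _ _ _ _ _ e he; exact absurd he (Finset.notMem_empty e)
  | insert e0 S he0 ih =>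
    intro g r c hg hr hc hS h
    have hce : ∀ e, (e * c e : F)′ = 0 := fun e => by
      rw [Derivation.leibniz, hc, hint, smul_zero, smul_zero, add_zero]
    obtain ⟨g₁, hg₁, h₁⟩ := euler hE hx0 hT hw hx hg hr (fun e => hcst _ (hc e)) h
    have hS0 : ∀ e ∈ S, c e = 0 := by
      intro e he
      have h2 := ih (g₁ - e0 * g) (-(e0 * r)) (fun e => (e - e0 : ℤ) * c e)
        ((Ad E x).sub_mem hg₁ ((Ad E x).mul_mem (intCast_mem _ _) hg)) (E.neg_mem (E.mul_mem (intCast_mem _ _) hr))
        (fun e => by rw [Derivation.leibniz, hc, hint, smul_zero, smul_zero, add_zero])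
        (fun e he => hS e (Finset.mem_insert_of_mem he)) (by
          rw [map_sub, h₁, Derivation.leibniz, hint, smul_zero, add_zero, smul_eq_mul, h,
            Finset.sum_insert he0, Finset.sum_insert he0]
          have h3 : ∑ e ∈ S, ((e - e0 : ℤ) : F) * c e * x ^ e =
              ∑ e ∈ S, (e : F) * c e * x ^ e - e0 * ∑ e ∈ S, c e * x ^ e := by
            rw [Finset.mul_sum, ← Finset.sum_sub_distrib]
            refine Finset.sum_congr rfl fun e _ => ?_
            push_cast
            ring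
          rw [h3]
          ring) e he
      refine (mul_eq_zero.1 h2).resolve_left ?_
      have : e - e0 ≠ 0 := fun h => he0 (by rw [← sub_eq_zero.1 h]; exact he)
      exact_mod_cast this
    have h4 : c e0 = 0 := by
      have h5 : g₁′ = (e0 * c e0) * x ^ e0 := by
        rw [h₁, Finset.sum_insert he0, Finset.sum_eq_zero fun e he => by rw [hS0 e he, mul_zero, zero_mul], add_zero]
      have h6 := hz e0 _ g₁ (hce e0) h5
      refine (mul_eq_zero.1 h6).resolve_left ?_
      exact_mod_cast hS e0 (Finset.mem_insert_self _ _)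
    intro e he
    rcases Finset.mem_insert.1 he with rfl | he
    · exact h4
    · exact hS0 e he

end gen

open PowerSeries

variable {K : Type*} [Field K] [CharZero K]

/-- the integral powers of a power series with invertible constant coefficient -/
noncomputable def pw (f : K⟦X⟧) : ℤ → K⟦X⟧
  | Int.ofNat n => f ^ n
  | Int.negSucc n => (f⁻¹) ^ (n + 1)

theorem ps_inv {f : K⟦X⟧} (hf : coeff 0 f ≠ 0) : ps (f⁻¹) = (ps f)⁻¹ := by
  have h1 : f * f⁻¹ = 1 := PowerSeries.mul_inv_cancel _ (by rwa [← coeff_zero_eq_constantCoeff_apply])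
  refine (inv_eq_of_mul_eq_one_right ?_).symm
  rw [← map_mul, h1, map_one]

theorem ps_pw {f : K⟦X⟧} (hf : coeff 0 f ≠ 0) (e : ℤ) : ps (pw f e) = (ps f) ^ e := by
  rcases e with n | n
  · rw [pw, map_pow]; simp
  · rw [pw, map_pow, ps_inv hf, zpow_negSucc, inv_pow]

theorem coeff_zero_pw {f : K⟦X⟧} (hf : coeff 0 f = 1) (e : ℤ) : coeff 0 (pw f e) = 1 := by
  rw [coeff_zero_eq_constantCoeff_apply] at *
  rcases e with n | n
  · rw [pw, map_pow, hf, one_pow]
  · rw [pw, map_pow, constantCoeff_inv, hf, inv_one, one_pow]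

theorem not_deriv_pw {f : K⟦X⟧} (hf : coeff 0 f = 1) (e : ℤ) (c g : LF K) (hc : c′ = 0) (h : g′ = c * (ps f) ^ e) :
    c = 0 := by
  obtain ⟨a, rfl⟩ := const_iff hc
  have h1 : g′ = ps (PowerSeries.C a * pw f e) := by rw [h, map_mul, ps_pw (by rw [hf]; exact one_ne_zero)]
  have h2 := congrArg (fun z => cf z 0) h1
  simp only [cf_zero_deriv] at h2
  have h3 := cf_ps (PowerSeries.C a * pw f e) 0
  rw [Nat.cast_zero] at h3
  rw [h3, coeff_C_mul, coeff_zero_pw hf, mul_one] at h2
  rw [← h2, map_zero, map_zero]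

/-- the forms `(f_i ^ e - 1) dX / X` -/
noncomputable def bu {ι : Type*} (ρ : ι → K) (x : ι × {e : ℤ // e ≠ 0}) : K⟦X⟧ := pw (fs (ρ x.1)) x.2.1 - 1

theorem coeff_zero_bu {ι : Type*} (ρ : ι → K) (x : ι × {e : ℤ // e ≠ 0}) : coeff 0 (bu ρ x) = 0 := by
  rw [bu, map_sub, coeff_zero_pw (coeff_zero_fs _)]
  simp

variable {ι : Type*} [Fintype ι] {ρ : ι → K} {E : Subfield (LF K)}

/-- the forms are independent modulo exact forms -/
theorem frm (hB : BS E (fun i => wL (ρ i)) (fun i => 4 * cc (ρ i) * xx ^ 2) (fun i => fL (ρ i)) (fun i => kL (ρ i)))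
    (hE : ∀ c : K, cc c ∈ E) : Frm (GF E (fun i => wL (ρ i)) (fun i => fL (ρ i))) (bu ρ) where
  st := hB.stG
  cst c := le_AdS _ _ (le_AdS _ _ (hE c))
  mem x := by
    rw [bu, map_sub, map_one, ps_pw (by rw [coeff_zero_fs]; exact one_ne_zero)]
    refine Subfield.sub_mem _ (Subfield.zpow_mem _ ?_ _) (Subfield.one_mem _)
    exact subset_AdS _ _ ⟨x.1, rfl⟩
  z := coeff_zero_bu ρ
  ind := by
    classical
    intro s c g hg h
    -- the coefficients of the forms of an index
    have main : ∀ (i : ι) (e : {e : ℤ // e ≠ 0}), some (i, e) ∈ s → c (some (i, e)) = 0 := by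
      intro i e he
      set E' := AdS (EW E (fun i => wL (ρ i))) ((fun i => fL (ρ i)) '' ((Finset.univ.erase i : Finset ι) : Set ι)) with hE'
      have hst : St E' := hB.stF _
      have hT : Tr E' (fL (ρ i)) := (hB.PT (Finset.univ.erase i)).2 i (Finset.notMem_erase i _)
      have hG : GF E (fun i => wL (ρ i)) (fun i => fL (ρ i)) = Ad E' (fL (ρ i)) := by
        rw [GF, hE', ← AdS_insert (x := fL (ρ i)), ← Set.image_insert_eq (f := fun i => fL (ρ i)), ← Set.image_univ]
        congr 2
        rw [← Finset.coe_insert, Finset.insert_erase (Finset.mem_univ i), Finset.coe_univ]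
      rw [hG] at hg
      have hwi : wL (ρ i) ∈ E' := le_AdS _ _ (subset_AdS _ _ ⟨i, rfl⟩)
      have hcE : ∀ a : K, cc a ∈ E' := fun a => le_AdS _ _ (le_AdS _ _ (hE a))
      set S : Finset ℤ := s.biUnion (fun a => match a with
        | none => ∅
        | some x => if x.1 = i then {x.2.1} else ∅) with hS
      have memS : ∀ n : ℤ, n ∈ S ↔ ∃ hn : n ≠ 0, some (i, (⟨n, hn⟩ : {e : ℤ // e ≠ 0})) ∈ s := by
        intro n
        rw [hS, Finset.mem_biUnion]
        constructor
        · rintro ⟨a, ha, hn⟩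
          rcases a with _ | ⟨k, e⟩
          · exact absurd hn (Finset.notMem_empty n)
          · by_cases hk : k = i
            · simp only [hk, if_true, Finset.mem_singleton] at hn
              subst hn
              subst hk
              exact ⟨e.2, ha⟩
            · simp only [hk, if_false] at hn
              exact absurd hn (Finset.notMem_empty n)
        · rintro ⟨hn, hs⟩
          exact ⟨_, hs, by simp⟩
      let d : ℤ → LF K := fun n => if hn : n ≠ 0 then cc (c (some (i, ⟨n, hn⟩))) else 0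
      have hsplit : ∑ a ∈ s, cc (c a) * ps (lt (bu ρ) a) = ∑ n ∈ S, d n * (fL (ρ i)) ^ n +
          (∑ a ∈ s.filter (fun a => ¬ ∃ e, a = some (i, e)), cc (c a) * ps (lt (bu ρ) a) - ∑ n ∈ S, d n) := by
        rw [← Finset.sum_filter_add_sum_filter_not s (fun a => ∃ e, a = some (i, e))]
        have h1 : ∑ a ∈ s.filter (fun a => ∃ e, a = some (i, e)), cc (c a) * ps (lt (bu ρ) a) =
            ∑ n ∈ S, d n * ((fL (ρ i)) ^ n - 1) := by
          symm
          refine Finset.sum_bij (fun n hn => some (i, ⟨n, ((memS n).1 hn).choose⟩)) ?_ ?_ ?_ ?_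
          · intro n hn
            obtain ⟨h1, h2⟩ := (memS n).1 hn
            exact Finset.mem_filter.2 ⟨h2, _, rfl⟩
          · intro n _ m _ h1
            have h2 := (Prod.ext_iff.1 (Option.some.inj h1)).2
            exact congrArg Subtype.val h2
          · intro a ha
            obtain ⟨ha, ⟨e, rfl⟩⟩ := Finset.mem_filter.1 ha
            exact ⟨e.1, (memS e.1).2 ⟨e.2, ha⟩, rfl⟩
          · intro n hn
            have hn0 : n ≠ 0 := ((memS n).1 hn).choose
            simp only [d, dif_pos hn0]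
            congr 1
            rw [lt, bu, map_sub, map_one, ps_pw (by rw [coeff_zero_fs]; exact one_ne_zero)]
            rfl
        rw [h1]
        simp only [mul_sub, mul_one, Finset.sum_sub_distrib]
        ring
      have hr : (∑ a ∈ s.filter (fun a => ¬ ∃ e, a = some (i, e)), cc (c a) * ps (lt (bu ρ) a) - ∑ n ∈ S, d n) ∈ E' := by
        refine E'.sub_mem (E'.sum_mem fun a ha => E'.mul_mem (hcE _) ?_) (E'.sum_mem fun n _ => ?_)
        · rcases a with _ | ⟨k, e⟩
          · rw [lt, map_one]; exact E'.one_mem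
          · have hk : k ≠ i := by
              rintro rfl
              exact (Finset.mem_filter.1 ha).2 ⟨e, rfl⟩
            rw [lt, bu, map_sub, map_one, ps_pw (by rw [coeff_zero_fs]; exact one_ne_zero)]
            refine E'.sub_mem (Subfield.zpow_mem _ ?_ _) E'.one_mem
            refine subset_AdS _ _ ⟨k, ?_, rfl⟩
            simpa using hk
        · by_cases hn : n ≠ 0
          · simp only [d, dif_pos hn]; exact hcE _
          · simp only [d, dif_neg hn]; exact E'.zero_mem
      have h2 := weights hst (fL_ne (ρ i)) hT hwi (fL'' (ρ i)) (fun a ha => le_AdS _ _ (le_AdS _ _ (hB.cst a ha)))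
        (fun e c g hc hg => not_deriv_pw (coeff_zero_fs (ρ i)) e c g hc hg) S g _ d hg hr (fun n => by
          by_cases hn : n ≠ 0
          · simp only [d, dif_pos hn]; exact deriv_cc _
          · simp only [d, dif_neg hn]; exact map_zero _) (fun n hn => ((memS n).1 hn).choose) (by rw [h, hsplit]) e.1
        ((memS e.1).2 ⟨e.2, he⟩)
      simp only [d, dif_pos e.2] at h2
      exact (_root_.map_eq_zero cc).1 h2
    intro a ha
    rcases a with _ | ⟨i, e⟩
    · have h1 : g′ = cc (c none) * (fL (0 : K)) ^ (0 : ℤ) := by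
        rw [h, Finset.sum_eq_single none]
        · rw [lt, map_one, zpow_zero]
        · intro b hb hb0
          rcases b with _ | ⟨k, e⟩
          · exact absurd rfl hb0
          · rw [main k e hb, map_zero, zero_mul]
        · intro h; exact absurd ha h
      exact (_root_.map_eq_zero cc).1 (not_deriv_pw (coeff_zero_fs (0 : K)) 0 _ g (deriv_cc _) h1)
    · exact main i e ha

end Pool.Agent.H18.Wd
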